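import Pool.Agent.Work.MP_080fe7_co.Criteria

/-!
# Adding a corner point
-/

set_option linter.unusedSectionVars false
set_option linter.unusedVariables false

open Finset

namespace Pool.Agent.Work.MP_080fe7_co

theorem f_of_n_two {π : Pat} (h : π.n = 2) : f π = -1 := by
  have hone : one ≤ π := one_le_iff.2 (by omega)
  have hne : π ≠ one := fun h' => by
    have := eq_one_iff.1 h'
    omega
  have h1 := sum_f π
  rw [if_neg hne] at h1
  have h2 : Icc one π = {one, π} := by
    ext σ
    rw [Finset.mem_Icc, Finset.mem_insert, Finset.mem_singleton]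
    constructor
    · rintro ⟨h3, h4⟩
      have h5 := Pat.n_le h3
      have h6 := Pat.n_le h4
      have h7 : one.n = 1 := rfl
      by_cases h8 : σ.n = 1
      · left; exact eq_one_iff.2 h8
      · right; exact Pat.eq_of_le_of_n h4 (by omega)
    · rintro (rfl | rfl)
      · exact ⟨le_refl _, hone⟩
      · exact ⟨hone, le_refl _⟩
  rw [h2, Finset.sum_pair hne.symm, f_one] at h1
  linarith

namespace Layer

variable {L : Layer 1}

theorem extreme_one (L : Layer 1) : L.Extreme := by
  rcases lt_or_gt_of_ne (L.hx0 0) with h | h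
  · right; left
    intro s
    rw [Subsingleton.elim s 0]; exact h
  · left
    intro s
    rw [Subsingleton.elim s 0]; exact h

theorem alt_one (L : Layer 1) : L.AltCheck := by
  classical
  intro R hR s hs
  have hR0 : R = ∅ := by
    by_contra h
    obtain ⟨a, ha⟩ := Finset.nonempty_iff_ne_empty.2 h
    apply hR
    rw [Finset.eq_univ_iff_forall]
    intro b
    rw [Subsingleton.elim b a]; exact ha
  have hs' : s = {∅, univ} := by
    ext T
    rw [hs T]
    constructor
    · intro _
      by_cases hT : T = ∅
      · simp [hT]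
      · obtain ⟨a, ha⟩ := Finset.nonempty_iff_ne_empty.2 hT
        have : T = univ := by
          rw [Finset.eq_univ_iff_forall]
          intro b
          rw [Subsingleton.elim b a]; exact ha
        simp [this]
    · intro _
      refine ⟨id, ?_⟩
      subst hR0
      constructor <;> simp
  rw [hs', Finset.sum_pair]
  · simp
  · intro h
    have : (0 : Fin 1) ∈ (∅ : Finset (Fin 1)) := by rw [h]; exact Finset.mem_univ _
    simp at this

theorem irr_one (L : Layer 1) : L.IrrCheck := by
  rintro R ⟨a, ha⟩ _
  rw [Finset.eq_univ_iff_forall]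
  intro b
  rw [Subsingleton.elim b a]; exact ha

theorem good_one (L : Layer 1) : L.Good :=
  good_of_extreme (extreme_one L) (alt_one L) (irr_one L)

section
open scoped Classical

/-- **The corner lemma.** -/
theorem corner (α : Pat) (hα : one ≤ α) :
    f (L.infl univ α) = ((if ∃ β, one ≤ β ∧ α = L.infl univ β then 1 else 0) - 1) * f α := by
  by_cases hα1 : α = one
  · subst hα1
    have h1 : ¬ ∃ β, one ≤ β ∧ one = L.infl univ β := by
      rintro ⟨β, h2, h3⟩
      have h4 := congrArg Pat.n h3
      rw [infl_n] at h4
      have h5 := one_le_iff.1 h2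
      have h6 : one.n = 1 := rfl
      simp at h4
      omega
    rw [if_neg h1, f_one, f_of_n_two]
    · norm_num
    · rw [infl_n]; rfl
  have hαn : 2 ≤ α.n := by
    have h1 := one_le_iff.1 hα
    have h2 : α.n ≠ 1 := fun h => hα1 (eq_one_iff.2 h)
    omega
  have hL := good_one L
  have hαle : α ≤ L.infl univ α := by
    refine L.le_infl_iff.2 ⟨univ, J_univ, ?_⟩
    rw [sub_univ]
  obtain ⟨s, hs⟩ : ∃ s : Finset (Finset (Fin 1) × Pat),
    s = (univ : Finset (Finset (Fin 1))) ×ˢ Icc one α := ⟨_, rfl⟩
  have hsm : ∀ t, t ∈ s ↔ one ≤ t.2 ∧ t.2 ≤ α := by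
    intro t
    rw [hs]
    simp [Finset.mem_product]
  have hex := exchange s (fun t => (-1 : ℤ) ^ t.1.card * IncidenceAlgebra.mu ℤ t.2 α)
    (fun t => L.infl t.1 t.2) (L.infl univ α) (by
      intro t ht _
      exact infl_mono (Finset.subset_univ _) ((hsm t).1 ht).2)
  have hlhs : ∑ t ∈ s, (-1 : ℤ) ^ t.1.card * IncidenceAlgebra.mu ℤ t.2 α *
      (if L.infl t.1 t.2 = one then 1 else 0) = f α := by
    rw [Finset.sum_eq_single ((∅ : Finset (Fin 1)), one)]
    · have h1 : L.infl (∅ : Finset (Fin 1)) one = one := by
        rw [eq_one_iff, infl_n]; rfl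
      rw [if_pos h1]
      simp [f]
    · rintro ⟨T, α'⟩ ht hne
      rw [if_neg, mul_zero]
      intro h
      have h1 := eq_one_iff.1 h
      rw [infl_n] at h1
      have h2 := one_le_iff.1 ((hsm _).1 ht).1
      simp only at h1 h2
      apply hne
      have h3 : T = ∅ := Finset.card_eq_zero.1 (by omega)
      have h4 : α' = one := eq_one_iff.2 (by omega)
      rw [h3, h4]
    · intro h
      exact absurd ((hsm _).2 ⟨le_refl _, hα⟩) h
  rw [hlhs] at hex
  have huniv : ∀ T : Finset (Fin 1), T = ∅ ∨ T = univ := by
    intro T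
    by_cases hT : T = ∅
    · left; exact hT
    · right
      obtain ⟨a, ha⟩ := Finset.nonempty_iff_ne_empty.2 hT
      rw [Finset.eq_univ_iff_forall]
      intro b
      rw [Subsingleton.elim b a]; exact ha
  have hcoef : ∀ τ ∈ Icc one (L.infl univ α),
      ∑ t ∈ s.filter (fun t => τ ≤ L.infl t.1 t.2),
        (-1 : ℤ) ^ t.1.card * IncidenceAlgebra.mu ℤ t.2 α
      = (if τ = α then (if ∃ β, one ≤ β ∧ α = L.infl univ β then 1 else 0) else 0)
        - (if τ = L.infl univ α then 1 else 0) := by
    intro τ hτ
    have hτ1 := (Finset.mem_Icc.1 hτ).1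
    have hτ0 := one_le_iff.1 hτ1
    have h1 : ∑ t ∈ s.filter (fun t => τ ≤ L.infl t.1 t.2),
        (-1 : ℤ) ^ t.1.card * IncidenceAlgebra.mu ℤ t.2 α
        = ∑ T : Finset (Fin 1), (-1 : ℤ) ^ T.card *
          ∑ α' ∈ (Icc one α).filter (fun α' => τ ≤ L.infl T α'),
            IncidenceAlgebra.mu ℤ α' α := by
      rw [Finset.sum_filter, hs, Finset.sum_product]
      refine Finset.sum_congr rfl ?_
      intro T _
      rw [Finset.sum_filter, Finset.mul_sum]
      refine Finset.sum_congr rfl ?_
      intro α' _
      split_ifs <;> simp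
    rw [h1]
    have hne : (∅ : Finset (Fin 1)) ≠ univ := by
      intro h
      have : (0 : Fin 1) ∈ (∅ : Finset (Fin 1)) := by rw [h]; exact Finset.mem_univ _
      simp at this
    have hU : (univ : Finset (Finset (Fin 1))) = {∅, univ} := by
      ext T
      simp only [Finset.mem_univ, Finset.mem_insert, Finset.mem_singleton, true_iff]
      exact huniv T
    rw [hU, Finset.sum_pair hne]
    -- the empty layer
    have hempty : ∀ I : Finset (Fin τ.n), L.J ∅ τ I → I = univ := by
      intro I hI
      have := hI.card_le
      rw [Finset.card_empty, Nat.le_zero, Finset.card_eq_zero] at this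
      exact (Finset.compl_eq_empty_iff I).1 this
    have h2 := inner_sum hL ∅ τ α hα hα1 univ J_univ
      (fun I hI => by rw [hempty I hI])
    obtain ⟨I₀, hI0, hmin⟩ := exists_min_card (L := L) univ τ
    have h3 := inner_sum hL univ τ α hα hα1 I₀ hI0 hmin
    rw [h2, h3, sub_univ]
    have hc1 : Finset.card (∅ : Finset (Fin 1)) = 0 := rfl
    have hc2 : Finset.card (univ : Finset (Fin 1)) = 1 := rfl
    rw [hc1, hc2, pow_zero, pow_one, one_mul]
    have hcc := hI0.card_le
    rw [hc2] at hcc
    have hcadd := Finset.card_add_card_compl I₀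
    rw [Fintype.card_fin] at hcadd
    by_cases hfull : I₀ᶜ.card = 0
    · -- no corner
      have hI0u : I₀ = univ := (Finset.compl_eq_empty_iff I₀).1 (Finset.card_eq_zero.1 hfull)
      have hno : ∀ β, ¬ (τ = L.infl univ β) := by
        intro β hβ
        obtain ⟨K, hK, hKm, -⟩ := exists_J_of_eq_infl hβ
        have h5 := hmin K hK
        have h6 := Finset.card_add_card_compl K
        rw [Fintype.card_fin] at h6
        omega
      rw [if_neg (hno α), hI0u, sub_univ]
      by_cases hτα : τ = α
      · rw [if_pos hτα, if_pos hτα, if_neg]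
        · norm_num
        · rintro ⟨β, -, hβ⟩
          exact hno β (hτα.trans hβ)
      · rw [if_neg hτα, if_neg hτα]; norm_num
    · have hone : I₀ᶜ.card = 1 := by omega
      have hτq := eq_infl_of_J hI0 hone
      by_cases hn1 : τ.n = 1
      · have e1 : ¬ (τ = α) := fun h => by rw [h] at hn1; omega
        have e2 : ¬ (τ = L.infl univ α) := fun h => by
          have := congrArg Pat.n h
          rw [infl_n, hc2] at this
          omega
        have e3 : ¬ (sub τ I₀ = α) := fun h => by
          have := congrArg Pat.n h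
          rw [sub_n] at this
          omega
        rw [if_neg e1, if_neg e1, if_neg e2, if_neg e3]
        norm_num
      · have hiff : sub τ I₀ = α ↔ τ = L.infl univ α := by
          constructor
          · intro h; rw [← h]; exact hτq
          · intro h
            obtain ⟨K, hK, hKm, hsK⟩ := exists_J_of_eq_infl h
            have h6 := Finset.card_add_card_compl K
            rw [Fintype.card_fin] at h6
            have hKI : K = I₀ := by
              rcases nested_of_extreme (extreme_one L) hK hI0 with h7 | h7
              · exact Finset.eq_of_subset_of_card_le h7 (by omega)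
              · exact (Finset.eq_of_subset_of_card_le h7 (by omega)).symm
            rw [← hKI]; exact hsK
        have hex2 : τ = α → ∃ β, one ≤ β ∧ α = L.infl univ β := by
          intro h
          refine ⟨sub τ I₀, one_le_iff.2 (by rw [sub_n]; omega), ?_⟩
          rw [← h]; exact hτq
        by_cases hτα : τ = α
        · rw [if_pos hτα, if_pos hτα, if_pos (hex2 hτα)]
          simp only [hiff]
          ring
        · rw [if_neg hτα, if_neg hτα]
          simp only [hiff]
          ring
  rw [Finset.sum_congr rfl (fun τ hτ => by rw [hcoef τ hτ])] at hex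
  have h10 : ∑ τ ∈ Icc one (L.infl univ α), f τ *
      ((if τ = α then (if ∃ β, one ≤ β ∧ α = L.infl univ β then 1 else 0) else 0)
        - (if τ = L.infl univ α then 1 else 0))
      = (if ∃ β, one ≤ β ∧ α = L.infl univ β then f α else 0) - f (L.infl univ α) := by
    have h11 : ∀ τ, f τ *
      ((if τ = α then (if ∃ β, one ≤ β ∧ α = L.infl univ β then 1 else 0) else 0)
        - (if τ = L.infl univ α then 1 else 0))
        = (if τ = α then (if ∃ β, one ≤ β ∧ α = L.infl univ β then f τ else 0) else 0)
          - (if τ = L.infl univ α then f τ else 0) := by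
      intro τ
      split_ifs <;> ring
    rw [Finset.sum_congr rfl (fun τ _ => h11 τ), Finset.sum_sub_distrib,
      Finset.sum_ite_eq', Finset.sum_ite_eq',
      if_pos (Finset.mem_Icc.2 ⟨hα, hαle⟩),
      if_pos (Finset.mem_Icc.2 ⟨hα.trans hαle, le_refl _⟩)]
  rw [h10] at hex
  by_cases hb : ∃ β, one ≤ β ∧ α = L.infl univ β
  · rw [if_pos hb] at hex ⊢
    linarith
  · rw [if_neg hb] at hex ⊢
    linarith

end

end Layer

end Pool.Agent.Work.MP_080fe7_co
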