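import Pool.Agent.Work.MP_080fe7_co.OscRun
import Pool.Agent.Work.MP_080fe7_co.Corner

/-!
# The Möbius function of the increasing oscillations is unbounded
-/

set_option linter.unusedSectionVars false
set_option linter.unusedVariables false

open Finset

namespace Pool.Agent.Work.MP_080fe7_co

namespace OscN

open scoped Classical in
/-- contribution of the permutations with first component `X q l` to the sum below `X p n` -/
noncomputable def Psi (q l p n : ℕ) : ℤ :=
  ∑ τ ∈ (Icc emp (X p n)).filter (fun τ => dsum (X q l) τ ≤ X p n), f (dsum (X q l) τ)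

theorem psi_zero {q l p n : ℕ} (hl : 1 ≤ l) (h : ¬ (S q l p + l ≤ n)) : Psi q l p n = 0 := by
  classical
  unfold Psi
  apply Finset.sum_eq_zero
  intro τ hτ
  rw [Finset.mem_filter] at hτ
  exact absurd ((dsum_le_X_iff hl).1 hτ.2).1 h

theorem psi_rec {q l p n : ℕ} (hl : 1 ≤ l) (h : S q l p + l ≤ n) :
    Psi q l p n = Psi q l (p + S q l p + l + 1) (n - S q l p - l - 1) +
      (if n - S q l p - l - 1 = 0 then f (osc l) else
        if n - S q l p - l - 1 = 1 then IncidenceAlgebra.mu ℤ emp (X q l) else 0) := by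
  classical
  have h1 := exch (X q l) (X (p + S q l p + l + 1) (n - S q l p - l - 1)) (indec_X hl)
  rw [X_n, f_X] at h1
  have h2 : Psi q l p n = ∑ τ' ∈ Icc emp (X (p + S q l p + l + 1) (n - S q l p - l - 1)),
      f (dsum (X q l) τ') := by
    unfold Psi
    congr 1
    ext τ
    rw [Finset.mem_filter, Finset.mem_Icc, Finset.mem_Icc, dsum_le_X_iff hl]
    constructor
    · rintro ⟨_, _, h4⟩
      exact ⟨emp_le _, h4⟩
    · rintro ⟨_, h4⟩
      refine ⟨⟨emp_le _, ?_⟩, h, h4⟩
      exact (le_dsum_right (X q l) τ).trans ((dsum_le_X_iff hl).2 ⟨h, h4⟩)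
  rw [h2, h1]
  unfold Psi
  congr!

theorem psi_one (n : ℕ) : ∀ q p, Psi q 1 p n = if n = 1 ∨ (2 ≤ n ∧ n % 2 = 0) then 1 else 0 := by
  induction n using Nat.strong_induction_on with
  | _ n ih =>
    intro q p
    have hS : S q 1 p = 0 := by unfold S; simp
    by_cases h : 1 ≤ n
    · rw [psi_rec le_rfl (by rw [hS]; omega), hS, ih (n - 0 - 1 - 1) (by omega)]
      have e1 : X q 1 = one := eq_one_iff.2 (by simp)
      have e2 : osc 1 = one := by rw [osc_eq]; exact eq_one_iff.2 (by simp)
      rw [e1, e2, mu_emp_one, f_one]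
      split_ifs <;> omega
    · rw [psi_zero le_rfl (by omega)]
      rw [if_neg (by omega)]

theorem psi_two (n : ℕ) : ∀ q p, Psi q 2 p n = if 2 ≤ n ∧ n % 3 ≠ 1 then -1 else 0 := by
  induction n using Nat.strong_induction_on with
  | _ n ih =>
    intro q p
    have hS : S q 2 p = 0 := by unfold S; simp
    by_cases h : 2 ≤ n
    · rw [psi_rec (by norm_num) (by rw [hS]; omega), hS, ih (n - 0 - 2 - 1) (by omega)]
      have e2 : f (osc 2) = -1 := by rw [osc_eq]; exact f_of_n_two (by simp)
      rw [e2, mu_emp _ (by simp)]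
      split_ifs <;> omega
    · rw [psi_zero (by norm_num) (by omega)]
      rw [if_neg (by omega)]

/-- the period of a run -/
def per (l : ℕ) : ℕ := l + 1 + (l + 1) % 2

/-- the multiples of a run -/
noncomputable def chi (l k : ℕ) : ℤ := if l ≤ k ∧ per l ∣ k - l then f (osc l) else 0

theorem chi_of_lt {l k : ℕ} (h : k < l) : chi l k = 0 := by
  unfold chi
  rw [if_neg (by omega)]

theorem chi_rec (l k : ℕ) (hl : 1 ≤ l) :
    chi l k = (if k = l then f (osc l) else 0) + chi l (k - per l) := by
  have hper : per l = l + 1 + (l + 1) % 2 := rfl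
  rcases lt_trichotomy k l with h | h | h
  · rw [chi_of_lt h, chi_of_lt (by omega), if_neg (by omega)]; norm_num
  · subst h
    rw [chi_of_lt (l := k) (k := k - per k) (by omega), if_pos rfl]
    unfold chi
    rw [if_pos ⟨le_rfl, by simp⟩]; norm_num
  · rw [if_neg (by omega), zero_add]
    unfold chi
    have : (l ≤ k ∧ per l ∣ k - l) ↔ (l ≤ k - per l ∧ per l ∣ k - per l - l) := by
      constructor
      · rintro ⟨h1, h2⟩
        have h3 : per l ≤ k - l := Nat.le_of_dvd (by omega) h2
        refine ⟨by omega, ?_⟩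
        have h4 : k - per l - l = (k - l) - per l := by omega
        rw [h4]
        exact Nat.dvd_sub h2 (dvd_refl _)
      · rintro ⟨h1, h2⟩
        refine ⟨by omega, ?_⟩
        have h4 : k - l = (k - per l - l) + per l := by omega
        rw [h4]
        exact dvd_add h2 (dvd_refl _)
    simp only [this]

theorem psi_eq (l : ℕ) (hl : 3 ≤ l) (n : ℕ) : ∀ q p,
    Psi q l p n = chi l (n - S q l p) + chi l (n - S q l p - 1) := by
  induction n using Nat.strong_induction_on with
  | _ n ih =>
    intro q p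
    have hper : per l = l + 1 + (l + 1) % 2 := rfl
    by_cases h : S q l p + l ≤ n
    · rw [psi_rec (by omega) h, ih (n - S q l p - l - 1) (by omega), mu_emp _ (by rw [X_n]; omega)]
      have hS : S q l (p + S q l p + l + 1) = (l + 1) % 2 := by
        unfold S
        rw [if_neg (by omega), if_neg (by omega)]
        omega
      rw [hS, chi_rec l (n - S q l p) (by omega), chi_rec l (n - S q l p - 1) (by omega)]
      have e1 : n - S q l p - l - 1 - (l + 1) % 2 = n - S q l p - per l := by omega
      have e2 : n - S q l p - l - 1 - (l + 1) % 2 - 1 = n - S q l p - 1 - per l := by omega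
      rw [e2, e1]
      have e3 : (if n - S q l p - l - 1 = 0 then f (osc l) else
          if n - S q l p - l - 1 = 1 then 0 else 0) = (if n - S q l p = l then f (osc l) else 0) +
          (if n - S q l p - 1 = l then f (osc l) else 0) := by
        split_ifs <;> omega
      rw [e3]; ring
    · rw [psi_zero (by omega) h, chi_of_lt (by omega), chi_of_lt (by omega)]; norm_num

/-- the index set of the runs -/
def runs (n : ℕ) : Finset (ℕ × ℕ) := {(0, 1), (0, 2)} ∪ ({0, 1} ×ˢ Icc 3 n)

theorem mem_runs {n : ℕ} {a : ℕ × ℕ} : a ∈ runs n ↔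
    (a.1 = 0 ∧ (a.2 = 1 ∨ a.2 = 2)) ∨ ((a.1 = 0 ∨ a.1 = 1) ∧ 3 ≤ a.2 ∧ a.2 ≤ n) := by
  obtain ⟨q, l⟩ := a
  unfold runs
  simp only [Finset.mem_union, Finset.mem_insert, Finset.mem_singleton, Finset.mem_product,
    Finset.mem_Icc, Prod.mk.injEq]
  constructor
  · rintro ((⟨h1, h2⟩ | ⟨h1, h2⟩) | h)
    · exact Or.inl ⟨h1, Or.inl h2⟩
    · exact Or.inl ⟨h1, Or.inr h2⟩
    · exact Or.inr h
  · rintro (⟨h1, h2 | h2⟩ | h)
    · exact Or.inl (Or.inl ⟨h1, h2⟩)
    · exact Or.inl (Or.inr ⟨h1, h2⟩)
    · exact Or.inr h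

theorem total (n : ℕ) : (if n = 1 then (1 : ℤ) else 0) = ∑ a ∈ runs n, Psi a.1 a.2 0 n := by
  classical
  have h1 := sum_f (X 0 n)
  have h2 : (if X 0 n = one then (1 : ℤ) else 0) = if n = 1 then 1 else 0 := by
    simp only [eq_one_iff, X_n]
  rw [h2, sum_first] at h1
  rw [← h1]
  have hinj : Set.InjOn (fun a : ℕ × ℕ => X a.1 a.2) (runs n) := by
    rintro ⟨q, l⟩ ha ⟨q', l'⟩ ha' h
    rw [Finset.mem_coe, mem_runs] at ha ha'
    simp only at ha ha' h
    have hl := congrArg Pat.n h
    rw [X_n, X_n] at hl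
    subst hl
    by_cases hl3 : 3 ≤ l
    · have h3 := (X_le_X_iff (by omega)).1 h.le
      unfold S at h3
      rw [if_neg (by omega)] at h3
      have : q = q' := by omega
      rw [this]
    · have : q = q' := by omega
      rw [this]
  have h3 : ∑ a ∈ runs n, Psi a.1 a.2 0 n = ∑ α ∈ (runs n).image (fun a => X a.1 a.2),
      ∑ τ' ∈ (Icc emp (X 0 n)).filter (fun τ' => dsum α τ' ≤ X 0 n), f (dsum α τ') := by
    rw [Finset.sum_image hinj]
    refine Finset.sum_congr rfl fun a _ => ?_
    unfold Psi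
    congr!
  rw [h3]
  apply Finset.sum_subset
  · intro α hα
    rw [Finset.mem_filter, Finset.mem_Icc] at hα
    obtain ⟨a, ha⟩ := exists_run hα.2 hα.1.2
    have hn := Pat.n_le hα.1.2
    rw [X_n] at hn
    have h1n := hα.2.1
    rw [Finset.mem_image]
    by_cases h3 : 3 ≤ α.n
    · refine ⟨(a % 2, α.n), ?_, ?_⟩
      · rw [mem_runs]
        simp only
        omega
      · simp only
        rw [← X_mod, ← ha]
    · refine ⟨(0, α.n), ?_, ?_⟩
      · rw [mem_runs]
        left
        refine ⟨rfl, ?_⟩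
        change α.n = 1 ∨ α.n = 2
        omega
      · simp only
        conv_rhs => rw [ha]
        exact X_small (by omega)
  · intro α _ hα
    apply Finset.sum_eq_zero
    intro τ hτ
    rw [Finset.mem_filter] at hτ
    exfalso
    apply hα
    rw [Finset.mem_filter, Finset.mem_Icc]
    obtain ⟨a, ha, haα⟩ := Finset.mem_image.1 (by assumption : α ∈ (runs n).image _)
    rw [mem_runs] at ha
    have hind' : Indec (X a.1 a.2) := indec_X (by omega)
    have hind : Indec α := by
      rw [← haα]
      exact hind'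
    exact ⟨⟨one_le_iff.2 hind.1, (le_dsum_left α τ).trans hτ.2⟩, hind⟩

/-- the total contribution -/
noncomputable def A (n : ℕ) : ℤ := ∑ l ∈ Icc 3 n, chi l n

theorem A_eq {n N : ℕ} (h : n ≤ N) : ∑ l ∈ Icc 3 N, chi l n = A n := by
  unfold A
  symm
  apply Finset.sum_subset
  · exact Finset.Icc_subset_Icc le_rfl h
  · intro l hl hl'
    rw [Finset.mem_Icc] at hl hl'
    exact chi_of_lt (by omega)

theorem A_rec (n : ℕ) : A (n + 2) + 2 * A (n + 1) + A n =
    (if (n + 2) % 3 ≠ 1 then 1 else 0) - (if n % 2 = 0 then 1 else 0) := by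
  have h := total (n + 2)
  unfold runs at h
  rw [Finset.sum_union, Finset.sum_product, Finset.sum_pair (by decide),
    Finset.sum_pair (by decide)] at h
  · simp only at h
    rw [psi_one, psi_two] at h
    have e0 : ∑ l ∈ Icc 3 (n + 2), Psi 0 l 0 (n + 2) = A (n + 2) + A (n + 1) := by
      rw [← A_eq (le_refl (n + 2)), ← A_eq (by omega : n + 1 ≤ n + 2), ← Finset.sum_add_distrib]
      refine Finset.sum_congr rfl fun l hl => ?_
      rw [Finset.mem_Icc] at hl
      rw [psi_eq l hl.1]
      have : S 0 l 0 = 0 := by unfold S; split_ifs <;> rfl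
      rw [this]; rfl
    have e1 : ∑ l ∈ Icc 3 (n + 2), Psi 1 l 0 (n + 2) = A (n + 1) + A n := by
      rw [← A_eq (by omega : n + 1 ≤ n + 2), ← A_eq (by omega : n ≤ n + 2),
        ← Finset.sum_add_distrib]
      refine Finset.sum_congr rfl fun l hl => ?_
      rw [Finset.mem_Icc] at hl
      rw [psi_eq l hl.1]
      have : S 1 l 0 = 1 := by unfold S; rw [if_neg (by omega)]
      rw [this]; rfl
    rw [e0, e1] at h
    rw [if_neg (by omega)] at h
    split_ifs at h ⊢ <;> omega
  · rw [Finset.disjoint_left]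
    rintro ⟨q, l⟩ h1 h2
    simp only [Finset.mem_insert, Finset.mem_singleton, Finset.mem_product,
      Finset.mem_Icc, Prod.mk.injEq] at h1 h2
    omega

theorem A_closed (k : ℕ) : A (6 * k) = -9 * (k : ℤ) ^ 2 ∧ A (6 * k + 1) = 9 * (k : ℤ) ^ 2 + 3 * k := by
  induction k with
  | zero =>
    constructor
    · unfold A; simp
    · unfold A; simp
  | succ k ih =>
    obtain ⟨h0, h1⟩ := ih
    have r0 := A_rec (6 * k)
    have r1 := A_rec (6 * k + 1)
    have r2 := A_rec (6 * k + 2)
    have r3 := A_rec (6 * k + 3)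
    have r4 := A_rec (6 * k + 4)
    have r5 := A_rec (6 * k + 5)
    rw [if_pos (by omega), if_pos (by omega)] at r0
    rw [if_pos (by omega), if_neg (by omega)] at r1
    rw [if_neg (by omega), if_pos (by omega)] at r2
    rw [if_pos (by omega), if_neg (by omega)] at r3
    rw [if_pos (by omega), if_pos (by omega)] at r4
    rw [if_neg (by omega), if_neg (by omega)] at r5
    simp only [Nat.add_assoc, Nat.reduceAdd] at r0 r1 r2 r3 r4 r5
    have e0 : 6 * (k + 1) = 6 * k + 6 := by ring
    have e1 : 6 * (k + 1) + 1 = 6 * k + 7 := by ring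
    rw [e1, e0]
    push_cast
    constructor <;> linarith

end OscN

open OscN in
theorem osc_unbounded (c : ℤ) : ∃ n : ℕ, 1 ≤ n ∧ c < |f (osc n)| := by
  by_contra hn
  push Not at hn
  have hc : 0 ≤ c := (abs_nonneg _).trans (hn 1 le_rfl)
  have hA : ∀ n, |A n| ≤ c * n := by
    intro n
    unfold A
    calc |∑ l ∈ Icc 3 n, chi l n| ≤ ∑ l ∈ Icc 3 n, |chi l n| := Finset.abs_sum_le_sum_abs _ _
      _ ≤ ∑ l ∈ Icc 3 n, c := by
          refine Finset.sum_le_sum fun l hl => ?_
          rw [Finset.mem_Icc] at hl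
          unfold chi
          split_ifs
          · exact hn l (by omega)
          · simpa using hc
      _ = ((Icc 3 n).card : ℤ) * c := by rw [Finset.sum_const, nsmul_eq_mul]
      _ ≤ c * n := by
          rw [Nat.card_Icc, mul_comm]
          apply mul_le_mul_of_nonneg_left _ hc
          omega
  have h1 := hA (6 * (c.toNat + 1))
  rw [(A_closed _).1] at h1
  have h2 : ((c.toNat : ℕ) : ℤ) = c := Int.toNat_of_nonneg hc
  push_cast at h1
  rw [h2] at h1
  rw [abs_of_nonpos (by nlinarith)] at h1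
  nlinarith

end Pool.Agent.Work.MP_080fe7_co
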