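import Pool.Agent.Work.MP_080fe7_co.ParValues

/-!
# Parallel alternations have unbounded principal Möbius function
-/

set_option linter.unusedSectionVars false
set_option linter.unusedVariables false

open Finset

namespace Pool.Agent.Work.MP_080fe7_co.ParW

/-- words over `{u, q}` -/
def UQ (z : List Lt) : Prop := ∀ a ∈ z, a = Lt.u ∨ a = Lt.q

theorem UQ.sublist {t z : List Lt} (hz : UQ z) (h : List.Sublist t z) : UQ t :=
  fun a ha => hz a (h.subset ha)

theorem UQ.tail {a : Lt} {z : List Lt} (hz : UQ (a :: z)) : UQ z :=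
  fun b hb => hz b (by simp [hb])

theorem UQ_alt (m : ℕ) : UQ (alt Lt.u Lt.q m) := fun a ha => mem_alt ha

theorem map_inj_on {B : Type*} {g : Lt → B} {S : Lt → Prop}
    (hg : ∀ a b, S a → S b → g a = g b → a = b)
    {v z : List Lt} (hv : ∀ a ∈ v, S a) (hz : ∀ a ∈ z, S a) (h : v.map g = z.map g) : v = z := by
  induction v generalizing z with
  | nil => cases z with
    | nil => rfl
    | cons c z => simp at h
  | cons a v ih => cases z with
    | nil => simp at h
    | cons c z =>
      simp only [List.map_cons, List.cons.injEq] at h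
      rw [hg a c (hv a (by simp)) (hz c (by simp)) h.1,
        ih (fun b hb => hv b (by simp [hb])) (fun b hb => hz b (by simp [hb])) h.2]

/-- words with an inversion are determined by their table -/
theorem par_unique {v z : List Lt} (hv : UQ v) (hz : UQ z)
    (hs : List.Sublist [Lt.u, Lt.q] v) (h : sig v = sig z) : v = z := by
  induction v generalizing z with
  | nil => simp at hs
  | cons a v ih =>
    cases z with
    | nil => exact absurd (length_eq_of_sig h) (by simp)
    | cons c z =>
      simp only [sig, List.cons.injEq] at h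
      obtain ⟨h1, h2⟩ := h
      rcases hv a (by simp) with rfl | rfl
      · rw [List.cons_sublist_cons, List.singleton_sublist] at hs
        have h3 : false ∈ v.map (up Lt.u) := List.mem_map.2 ⟨Lt.q, hs, by decide⟩
        rw [h1] at h3
        obtain ⟨b, hb, hb'⟩ := List.mem_map.1 h3
        have hc : c = Lt.u := by
          rcases hz c (by simp) with rfl | rfl
          · rfl
          · rcases hz b (by simp [hb]) with rfl | rfl <;> exact absurd hb' (by decide)
        subst hc
        rw [map_inj_on (S := fun a => a = Lt.u ∨ a = Lt.q) (by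
          rintro a b (rfl | rfl) (rfl | rfl) hab
          · rfl
          · exact absurd hab (by decide)
          · exact absurd hab (by decide)
          · rfl) hv.tail hz.tail h1]
      · rw [cons_sublist_cons_ne (by decide)] at hs
        have h3 := ih hv.tail hz.tail hs h2
        subst h3
        have hq : Lt.q ∈ v := hs.subset (by simp)
        rcases hz c (by simp) with rfl | rfl
        · rw [List.map_inj_left] at h1
          exact absurd (h1 _ hq) (by decide)
        · rfl

/-- words without an inversion -/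
theorem par_mono {v : List Lt} (hv : UQ v) (hs : ¬ List.Sublist [Lt.u, Lt.q] v) :
    sig v = sig (List.replicate v.length Lt.u) := by
  induction v with
  | nil => rfl
  | cons a v ih =>
    have hs' : ¬ List.Sublist [Lt.u, Lt.q] v := fun h => hs (h.cons a)
    rw [List.length_cons, List.replicate_succ]
    simp only [sig, List.cons.injEq]
    refine ⟨?_, ih hv.tail hs'⟩
    rw [List.map_replicate, List.eq_replicate_iff]
    refine ⟨by simp, ?_⟩
    intro b hb
    obtain ⟨c, hc, rfl⟩ := List.mem_map.1 hb
    rcases hv a (by simp) with rfl | rfl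
    · rcases hv c (by simp [hc]) with rfl | rfl
      · rfl
      · exfalso
        apply hs
        rw [List.cons_sublist_cons, List.singleton_sublist]
        exact hc
    · rcases hv c (by simp [hc]) with rfl | rfl <;> rfl

theorem par_E1 (m : ℕ) : E Lt.u Lt.q m [[Lt.u], [Lt.q]] = ind (m = 0) - 1 := by
  induction m with
  | zero => rw [E_zero (by simp), ind_true rfl]; ring
  | succ m ih =>
    rw [E_succ, ih, E_nil (L := List.map (strip Lt.u) _) (by decide),
      E_nil (L := List.map (strip Lt.q) [[Lt.u], [Lt.q]]) (by decide),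
      E_nil (L := List.map (strip Lt.q) (List.map _ _)) (by decide), ind_false (P := m + 1 = 0)
      (by simp)]
    ring

theorem par_E2 (m : ℕ) : E Lt.u Lt.q (m + 1) [[Lt.u], [Lt.q, Lt.q]] = m := by
  induction m with
  | zero =>
    rw [E_succ, E_zero (by simp), E_nil (L := List.map (strip Lt.u) _) (by decide),
      E_nil (L := List.map (strip Lt.q) (List.map _ _)) (by decide), E_zero (by decide)]
    simp
  | succ m ih =>
    rw [E_succ, ih, E_nil (L := List.map (strip Lt.u) _) (by decide),
      E_nil (L := List.map (strip Lt.q) (List.map _ _)) (by decide)]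
    have h1 : List.map (strip Lt.q) [[Lt.u], [Lt.q, Lt.q]] = [[Lt.u], [Lt.q]] := by decide
    rw [h1, par_E1, ind_false (P := m + 1 = 0) (by simp)]
    push_cast
    ring

theorem par_E3 (m : ℕ) :
    2 * E Lt.u Lt.q (m + 1) [[Lt.u, Lt.u], [Lt.q, Lt.q], [Lt.q, Lt.u]] = - (m * (m - 1)) := by
  have h1 : ∀ k, E Lt.u Lt.q k (List.map (strip Lt.u) [[Lt.u, Lt.u], [Lt.q, Lt.q], [Lt.q, Lt.u]])
      = E Lt.u Lt.q k [[Lt.u], [Lt.q, Lt.q]] := by
    intro k
    exact E_congr (hits_iff_of_sub (by decide) (by decide))
  have h2 : ∀ k, E Lt.u Lt.q k (List.map (strip Lt.q) [[Lt.u, Lt.u], [Lt.q, Lt.q], [Lt.q, Lt.u]])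
      = E Lt.u Lt.q k [[Lt.u], [Lt.q]] := by
    intro k
    exact E_congr (hits_iff_of_sub (by decide) (by decide))
  have h3 : ∀ k, E Lt.u Lt.q k (List.map (strip Lt.q)
      (List.map (strip Lt.u) [[Lt.u, Lt.u], [Lt.q, Lt.q], [Lt.q, Lt.u]]))
      = E Lt.u Lt.q k [[Lt.u], [Lt.q]] := by
    intro k
    exact E_congr (hits_iff_of_sub (by decide) (by decide))
  induction m with
  | zero =>
    rw [E_succ, h1, h2, h3, E_zero (by simp), E_zero (by simp), E_zero (by simp)]
    simp
  | succ m ih =>
    rw [E_succ, h1, h2, h3, par_E2]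
    push_cast at ih ⊢
    linarith

theorem par_value (m : ℕ) : 2 * f (rho (alt Lt.u Lt.q (m + 1))) = - ((m + 1) * (m + 2)) := by
  have hex := altsum_exchange (alt Lt.u Lt.q (m + 1))
  have hUQ := UQ_alt (m + 1)
  have hlen : (alt Lt.u Lt.q (m + 1)).length = 2 * (m + 1) := alt_length _ _ _
  have hne1 : rho (alt Lt.u Lt.q (m + 1)) ≠ one := by
    rw [Ne, rho_eq_one, hlen]; omega
  have h2ne1 : rho [Lt.u, Lt.u] ≠ one := by rw [Ne, rho_eq_one]; simp
  have hinv : List.Sublist [Lt.u, Lt.q] (alt Lt.u Lt.q (m + 1)) := by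
    simp [alt]
  have hneu : rho (alt Lt.u Lt.q (m + 1)) ≠ rho [Lt.u, Lt.u] := by
    rw [Ne, rho_eq_iff]
    intro h
    have h1 := length_eq_of_sig h
    have h2 := par_unique hUQ (z := [Lt.u, Lt.u]) (by intro a ha; left; simpa using ha) hinv h
    rw [h2] at hinv
    exact absurd hinv (by decide)
  -- the coefficients
  have hc1 : altsum (alt Lt.u Lt.q (m + 1)) (fun v => ind (one ≤ rho v)) = -1 := by
    have h1 : (fun v => ind (one ≤ rho v)) = fun v => 1 - ind (v.length = 0) := by
      funext v
      by_cases h : v = []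
      · rw [ind_false (by rw [one_le_rho]; simp [h]), ind_true (by simp [h])]; ring
      · rw [ind_true (by rw [one_le_rho]; exact h), ind_false (by simp [h])]; ring
    rw [h1, altsum_sub, altsum_const _ (by simp [alt]), altsum_len_zero]
    ring
  have hc2 : altsum (alt Lt.u Lt.q (m + 1)) (fun v => ind (rho [Lt.u, Lt.u] ≤ rho v))
      = E Lt.u Lt.q (m + 1) [[Lt.u, Lt.u], [Lt.q, Lt.q], [Lt.q, Lt.u]] := by
    refine altsum_congr (fun v hv => ind_congr ?_)
    have hv' := hUQ.sublist hv
    rw [rho_le_iff]
    constructor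
    · rintro ⟨t, ht, hs⟩
      have ht' := hv'.sublist ht
      have hl := length_eq_of_sig hs
      match t, hl with
      | [a, b], _ =>
        refine ⟨[a, b], ?_, ht⟩
        rcases ht' a (by simp) with rfl | rfl <;> rcases ht' b (by simp) with rfl | rfl <;>
          first | decide | exact absurd hs (by decide)
    · rintro ⟨t, ht, hs⟩
      refine ⟨t, hs, ?_⟩
      simp only [List.mem_cons, List.not_mem_nil, or_false] at ht
      rcases ht with rfl | rfl | rfl <;> decide
  have hc3 : ∀ t, List.Sublist t (alt Lt.u Lt.q (m + 1)) → List.Sublist [Lt.u, Lt.q] t →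
      altsum (alt Lt.u Lt.q (m + 1)) (fun v => ind (rho t ≤ rho v))
        = ind (t = alt Lt.u Lt.q (m + 1)) := by
    intro t ht hinv'
    rw [← altsum_alt (a := Lt.u) (b := Lt.q) (by decide)]
    refine altsum_congr (fun v hv => ind_congr ?_)
    rw [rho_le_iff]
    constructor
    · rintro ⟨s, hs, h⟩
      rw [par_unique (hUQ.sublist ht) ((hUQ.sublist hv).sublist hs) hinv' h.symm]
      exact hs
    · intro h
      exact ⟨t, h, rfl⟩
  -- the sum
  have hsub : ({rho (alt Lt.u Lt.q (m + 1)), one, rho [Lt.u, Lt.u]} : Finset Pat) ∩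
      Icc one (rho (alt Lt.u Lt.q (m + 1))) ⊆ Icc one (rho (alt Lt.u Lt.q (m + 1))) :=
    Finset.inter_subset_right
  have hsum : ∑ τ ∈ Icc one (rho (alt Lt.u Lt.q (m + 1))),
      f τ * altsum (alt Lt.u Lt.q (m + 1)) (fun v => ind (τ ≤ rho v))
      = ∑ τ ∈ ({rho (alt Lt.u Lt.q (m + 1)), one, rho [Lt.u, Lt.u]} : Finset Pat),
      f τ * altsum (alt Lt.u Lt.q (m + 1)) (fun v => ind (τ ≤ rho v)) := by
    have h1 : one ≤ rho (alt Lt.u Lt.q (m + 1)) := one_le_rho.2 (by simp [alt])
    have h2 : ∑ τ ∈ Icc one (rho (alt Lt.u Lt.q (m + 1))) ∪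
        ({rho (alt Lt.u Lt.q (m + 1)), one, rho [Lt.u, Lt.u]} : Finset Pat),
        f τ * altsum (alt Lt.u Lt.q (m + 1)) (fun v => ind (τ ≤ rho v))
        = ∑ τ ∈ Icc one (rho (alt Lt.u Lt.q (m + 1))),
        f τ * altsum (alt Lt.u Lt.q (m + 1)) (fun v => ind (τ ≤ rho v)) := by
      symm
      apply Finset.sum_subset Finset.subset_union_left
      intro τ hτ hτ'
      rw [Finset.mem_union, or_iff_right hτ'] at hτ
      simp only [Finset.mem_insert, Finset.mem_singleton] at hτ
      rcases hτ with rfl | rfl | rfl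
      · exact absurd (Finset.mem_Icc.2 ⟨h1, le_refl _⟩) hτ'
      · exact absurd (Finset.mem_Icc.2 ⟨le_refl _, h1⟩) hτ'
      · rw [altsum_congr (Ψ := fun _ => 0), altsum_zero, mul_zero]
        intro v hv
        apply ind_false
        intro h
        apply hτ'
        exact Finset.mem_Icc.2 ⟨one_le_rho.2 (by simp), h.trans (rho_le_of_sublist hv)⟩
    rw [← h2]
    symm
    apply Finset.sum_subset Finset.subset_union_right
    intro τ hτ hτ'
    simp only [Finset.mem_union, Finset.mem_insert, Finset.mem_singleton] at hτ hτ'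
    rw [or_iff_left hτ', Finset.mem_Icc] at hτ
    obtain ⟨t, ht, rfl⟩ := exists_of_le_rho hτ.2
    by_cases hinv' : List.Sublist [Lt.u, Lt.q] t
    · rw [hc3 t ht hinv', ind_false, mul_zero]
      rintro rfl
      exact hτ' (Or.inl rfl)
    · have h3 := par_mono (hUQ.sublist ht) hinv'
      rw [rho_eq_of_sig h3] at hτ' ⊢
      have h4 : t ≠ [] := one_le_rho.1 hτ.1
      match hl : t.length with
      | 0 => exact absurd (List.length_eq_zero_iff.1 hl) h4
      | 1 =>
        rw [hl] at hτ'
        exact absurd (Or.inr (Or.inl (rho_one Lt.u))) hτ'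
      | 2 =>
        rw [hl] at hτ'
        exact absurd (Or.inr (Or.inr rfl)) hτ'
      | k + 3 =>
        rw [f_replicate (Or.inl rfl) (k + 1), ind_false (by omega)]
        ring
  rw [hsum, Finset.sum_insert (by
    simp only [Finset.mem_insert, Finset.mem_singleton]
    rintro (h | h)
    · exact hne1 h
    · exact hneu h), Finset.sum_pair (fun h => h2ne1 h.symm), hc1, hc2,
    hc3 _ (List.Sublist.refl _) hinv, ind_true rfl, f_one, f_two (Or.inl rfl) (Or.inl rfl),
    hlen] at hex
  have h3 := par_E3 m
  push_cast at hex h3 ⊢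
  linarith

/-- **parallel alternations** -/
theorem par_unbounded (c : ℤ) : ∃ m : ℕ, ∀ (P : Type) (x y : P → ℤ), Par x y m →
    ∃ σ : Pat, one ≤ σ ∧ Has σ x y Set.univ ∧ c < |f σ| := by
  refine ⟨c.toNat + 1 + 1, ?_⟩
  rintro P x y ⟨a, b, h1, h2, h3⟩
  set m := c.toNat + 1 with hm
  refine ⟨rho (alt Lt.u Lt.q (m + 1)), one_le_rho.2 (by simp [alt]), ?_, ?_⟩
  · have hx : ∀ j i, i < j → j < m + 1 → x (b i) < x (a j) := by
      intro j
      induction j with
      | zero => intro i hi; omega
      | succ j ih =>
        intro i hi hj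
        rcases Nat.lt_succ_iff_lt_or_eq.1 hi with h | h
        · exact ((ih i h (by omega)).trans (h1 j (by omega))).trans (h2 j (by omega)).1
        · subst h; exact (h2 i (by omega)).1
    have hya : ∀ j i, i < j → j < m + 1 → y (a i) < y (a j) := by
      intro j
      induction j with
      | zero => intro i hi; omega
      | succ j ih =>
        intro i hi hj
        rcases Nat.lt_succ_iff_lt_or_eq.1 hi with h | h
        · exact (ih i h (by omega)).trans (h2 j (by omega)).2.1
        · subst h; exact (h2 i (by omega)).2.1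
    have hyb : ∀ j i, i < j → j < m + 1 → y (b i) < y (b j) := by
      intro j
      induction j with
      | zero => intro i hi; omega
      | succ j ih =>
        intro i hi hj
        rcases Nat.lt_succ_iff_lt_or_eq.1 hi with h | h
        · exact (ih i h (by omega)).trans (h2 j (by omega)).2.2
        · subst h; exact (h2 i (by omega)).2.2
    refine has_rho _ (fun k => if k % 2 = 0 then a (k / 2) else b (k / 2))
      (fun _ _ => Set.mem_univ _) ?_
    intro i j hij hi hj
    rw [alt_length] at hi hj
    rw [alt_getElem, alt_getElem]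
    by_cases hi2 : i % 2 = 0 <;> by_cases hj2 : j % 2 = 0
    · simp only [hi2, hj2, if_true]
      have hlt : i / 2 < j / 2 := by omega
      refine ⟨?_, fun _ => hya _ _ hlt (by omega), fun h => absurd h (by decide)⟩
      exact (h1 _ (by omega)).trans (hx _ _ hlt (by omega))
    · simp only [hi2, hj2, if_true, if_false]
      refine ⟨?_, fun h => absurd h (by decide), fun _ => h3 _ _ (by omega) (by omega)⟩
      rcases Nat.lt_or_ge (i / 2) (j / 2) with h | h
      · exact ((h1 _ (by omega)).trans (hx _ _ h (by omega))).trans (h1 _ (by omega))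
      · have : i / 2 = j / 2 := by omega
        rw [this]
        exact h1 _ (by omega)
    · simp only [hi2, hj2, if_true, if_false]
      have hlt : i / 2 < j / 2 := by omega
      exact ⟨hx _ _ hlt (by omega), fun _ => h3 _ _ (by omega) (by omega),
        fun h => absurd h (by decide)⟩
    · simp only [hi2, hj2, if_false]
      have hlt : i / 2 < j / 2 := by omega
      exact ⟨(hx _ _ hlt (by omega)).trans (h1 _ (by omega)), fun _ => hyb _ _ hlt (by omega),
        fun h => absurd h (by decide)⟩
  · have h4 := par_value m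
    have h5 : c ≤ (c.toNat : ℤ) := Int.self_le_toNat c
    have h6 : (m : ℤ) = c.toNat + 1 := by rw [hm]; push_cast; ring
    have h7 : (0 : ℤ) ≤ c.toNat := by positivity
    have h8 : - f (rho (alt Lt.u Lt.q (m + 1))) ≤ |f (rho (alt Lt.u Lt.q (m + 1)))| :=
      neg_le_abs _
    nlinarith

end Pool.Agent.Work.MP_080fe7_co.ParW
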