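import Pool.Agent.Work.MP_080fe7_co.PinMain

/-!
# Long pin sequences: conclusion
-/

set_option linter.unusedSectionVars false
set_option linter.unusedVariables false

open Finset

namespace Pool.Agent.Work.MP_080fe7_co

theorem xor_true' {a c : Bool} (h : true = xor a c) : c = !a := by
  revert h; cases a <;> cases c <;> simp

theorem xor_false' {a c : Bool} (h : false = xor a c) : c = a := by
  revert h; cases a <;> cases c <;> simp

theorem gap_lemma (a₀ a₁ a₂ a₃ : Bool) (g0 : ¬ (a₀ = true ∧ a₁ = false))
    (g1 : ¬ (a₁ = true ∧ a₂ = false)) (g2 : ¬ (a₂ = true ∧ a₃ = false))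
    (r0 : xor (xor a₀ a₁) a₂ = false) (r1 : xor (xor a₁ a₂) a₃ = false)
    (n0 : ¬ (a₀ = false ∧ a₁ = false)) : False := by
  revert a₀ a₁ a₂ a₃
  decide

/-- a stretch in which directions repeat with period two contains the oscillation -/
theorem osc_of_stretch {P : Type*} {x y : P → ℤ} {q : ℕ → P} {h b : ℕ → Bool} {m : ℕ}
    (hs : PinSeq x y q h b m) (i₀ n : ℕ) (hn : i₀ + n + 3 < m)
    (hb : ∀ j, i₀ ≤ j → j < i₀ + n + 2 → b (j + 2) = b j) :
    ∃ σ : Pat, σ.n = n ∧ Has σ x y Set.univ ∧ f σ = f (osc n) := by
  -- choose the parity so that the second point is vertical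
  obtain ⟨i₁, hi₁, hi₁', hhor⟩ : ∃ i₁, i₀ ≤ i₁ ∧ i₁ ≤ i₀ + 1 ∧ h (i₁ + 1) = false := by
    by_cases h1 : h (i₀ + 1) = true
    · refine ⟨i₀ + 1, by omega, le_refl _, ?_⟩
      rw [hs.alt (i₀ + 1) (by omega), h1]
      rfl
    · exact ⟨i₀, le_refl _, by omega, by simpa using h1⟩
  obtain ⟨bV, hbV⟩ : ∃ bV, bV = b (i₁ + 1) := ⟨_, rfl⟩
  obtain ⟨bH, hbH⟩ : ∃ bH, bH = b i₁ := ⟨_, rfl⟩
  -- bits and axes along the stretch
  have hpar : ∀ k, k ≤ n + 1 → (k % 2 = 1 → h (i₁ + k) = false ∧ b (i₁ + k) = bV) ∧
      (k % 2 = 0 → (1 ≤ k → h (i₁ + k) = true) ∧ b (i₁ + k) = bH) := by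
    intro k
    induction k using Nat.strong_induction_on with
    | _ k ih =>
      intro hk
      rcases Nat.lt_or_ge k 2 with h2 | h2
      · interval_cases k
        · simp [hbH]
        · simp [hbV, hhor]
      · have h3 := ih (k - 2) (by omega) (by omega)
        have h4 := hb (i₁ + (k - 2)) (by omega) (by omega)
        have e1 : i₁ + (k - 2) + 2 = i₁ + k := by omega
        rw [e1] at h4
        have h5 : h (i₁ + k) = !h (i₁ + k - 1) := by
          have := hs.alt (i₁ + k - 1) (by omega)
          have e2 : i₁ + k - 1 + 1 = i₁ + k := by omega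
          rwa [e2] at this
        have h6 := ih (k - 1) (by omega) (by omega)
        have e3 : i₁ + (k - 1) = i₁ + k - 1 := by omega
        rw [e3] at h6
        constructor
        · intro hk1
          have h7 := h3.1 (by omega)
          have h8 := h6.2 (by omega)
          refine ⟨?_, by rw [h4]; exact h7.2⟩
          rw [h5, h8.1 (by omega)]; rfl
        · intro hk0
          have h7 := h3.2 (by omega)
          have h8 := h6.1 (by omega)
          refine ⟨fun _ => ?_, by rw [h4]; exact h7.2⟩
          rw [h5, h8.1]; rfl
  have hosc : Has (osc n) (symX (false, !bH, !bV) x y) (symY (false, !bH, !bV) x y) Set.univ := by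
    have hinjX : Set.InjOn oscX (Finset.range n : Finset ℕ) := by
      intro i _ j _ hij
      unfold oscX at hij
      split_ifs at hij <;> omega
    have hinjY : Set.InjOn oscY (Finset.range n : Finset ℕ) := by
      intro i _ j _ hij
      unfold oscY at hij
      split_ifs at hij <;> omega
    -- the comparisons
    have hX : ∀ i j, i < j → j < n →
        (oscX i < oscX j ∧ symX (false, !bH, !bV) x y (q (i₁ + i + 1)) <
          symX (false, !bH, !bV) x y (q (i₁ + j + 1))) ∨
        (oscX j < oscX i ∧ symX (false, !bH, !bV) x y (q (i₁ + j + 1)) <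
          symX (false, !bH, !bV) x y (q (i₁ + i + 1))) := by
      intro i j hij hj
      have h1 := hs.ext (i₁ + i + 1) (i₁ + j + 1) (by omega) (by omega)
      have e1 : i₁ + j + 1 - 1 = i₁ + j := by omega
      rcases Nat.mod_two_eq_zero_or_one j with hj2 | hj2
      · -- vertical
        have h2 := (hpar (j + 1) (by omega)).1 (by omega)
        have h2' := (hpar j (by omega)).2 (by omega)
        rw [← add_assoc] at h2
        by_cases hadj : i + 1 = j
        · have h3 := hs.sep (i₁ + i + 1) (by omega)
          have e2 : i₁ + i + 1 + 1 = i₁ + j + 1 := by omega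
          have e3 : i₁ + i + 1 = i₁ + j := by omega
          rw [e2, h2.1, e3, h2'.2] at h3
          right
          constructor
          · unfold oscX; split_ifs <;> omega
          · rw [e3]
            simp only [symX]
            unfold slt at h3
            cases bH <;> simp at h3 ⊢ <;> omega
        · have h3 := hs.cut (i₁ + i + 1) (i₁ + j + 1) (by omega) (by omega)
          rw [h2.1, e1, h2'.2] at h3
          left
          constructor
          · unfold oscX; split_ifs <;> omega
          · simp only [symX]
            unfold slt at h3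
            cases bH <;> simp at h3 ⊢ <;> omega
      · -- horizontal
        have h2 := (hpar (j + 1) (by omega)).2 (by omega)
        rw [← add_assoc] at h2
        rw [h2.1 (by omega), h2.2] at h1
        left
        constructor
        · unfold oscX; split_ifs <;> omega
        · simp only [symX]
          unfold slt at h1
          cases bH <;> simp at h1 ⊢ <;> omega
    have hY : ∀ i j, i < j → j < n →
        (oscY i < oscY j ∧ symY (false, !bH, !bV) x y (q (i₁ + i + 1)) <
          symY (false, !bH, !bV) x y (q (i₁ + j + 1))) ∨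
        (oscY j < oscY i ∧ symY (false, !bH, !bV) x y (q (i₁ + j + 1)) <
          symY (false, !bH, !bV) x y (q (i₁ + i + 1))) := by
      intro i j hij hj
      have h1 := hs.ext (i₁ + i + 1) (i₁ + j + 1) (by omega) (by omega)
      have e1 : i₁ + j + 1 - 1 = i₁ + j := by omega
      rcases Nat.mod_two_eq_zero_or_one j with hj2 | hj2
      · -- vertical
        have h2 := (hpar (j + 1) (by omega)).1 (by omega)
        rw [← add_assoc] at h2
        rw [h2.1, h2.2] at h1
        left
        constructor
        · unfold oscY; split_ifs <;> omega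
        · simp only [symY]
          unfold slt at h1
          cases bV <;> simp at h1 ⊢ <;> omega
      · -- horizontal
        have h2 := (hpar (j + 1) (by omega)).2 (by omega)
        have h2' := (hpar j (by omega)).1 (by omega)
        rw [← add_assoc] at h2
        by_cases hadj : i + 1 = j
        · have h3 := hs.sep (i₁ + i + 1) (by omega)
          have e2 : i₁ + i + 1 + 1 = i₁ + j + 1 := by omega
          have e3 : i₁ + i + 1 = i₁ + j := by omega
          rw [e2, h2.1 (by omega), e3, h2'.2] at h3
          right
          constructor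
          · unfold oscY; split_ifs <;> omega
          · rw [e3]
            simp only [symY]
            unfold slt at h3
            cases bV <;> simp at h3 ⊢ <;> omega
        · have h3 := hs.cut (i₁ + i + 1) (i₁ + j + 1) (by omega) (by omega)
          rw [h2.1 (by omega), e1, h2'.2] at h3
          left
          constructor
          · unfold oscY; split_ifs <;> omega
          · simp only [symY]
            unfold slt at h3
            cases bV <;> simp at h3 ⊢ <;> omega
    refine (pat_isPat hinjX hinjY).has.map (fun i => q (i₁ + i + 1))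
      (fun _ _ => Set.mem_univ _) ?_ ?_
    · intro i hi j hj hlt
      have hi' : i < n := by simpa using hi
      have hj' : j < n := by simpa using hj
      rcases lt_trichotomy i j with h1 | h1 | h1
      · rcases hX i j h1 hj' with h2 | h2
        · exact h2.2
        · exact absurd hlt (lt_asymm h2.1)
      · rw [h1] at hlt; exact absurd hlt (lt_irrefl _)
      · rcases hX j i h1 hi' with h2 | h2
        · exact absurd hlt (lt_asymm h2.1)
        · exact h2.2
    · intro i hi j hj hlt
      have hi' : i < n := by simpa using hi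
      have hj' : j < n := by simpa using hj
      rcases lt_trichotomy i j with h1 | h1 | h1
      · rcases hY i j h1 hj' with h2 | h2
        · exact h2.2
        · exact absurd hlt (lt_asymm h2.1)
      · rw [h1] at hlt; exact absurd hlt (lt_irrefl _)
      · rcases hY j i h1 hi' with h2 | h2
        · exact absurd hlt (lt_asymm h2.1)
        · exact h2.2
  obtain ⟨σ', h1, h2, h3⟩ := has_sym _ x y _ _ hosc
  refine ⟨σ', ?_, h3, h2⟩
  rw [h1]
  unfold osc
  rw [pat_n]
  · simp
  · intro i _ j _ hij
    unfold oscX at hij
    split_ifs at hij <;> omega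
  · intro i _ j _ hij
    unfold oscY at hij
    split_ifs at hij <;> omega

/-- **Long pin sequences force large values of the Möbius function.** -/
theorem pins_unbounded (hosc : ∀ c : ℤ, ∃ n : ℕ, 1 ≤ n ∧ c < |f (osc n)|) (c : ℤ) :
    ∃ K : ℕ, ∀ (P : Type) (x y : P → ℤ), Pins x y K →
      ∃ σ : Pat, one ≤ σ ∧ Has σ x y Set.univ ∧ c < |f σ| := by
  obtain ⟨n, hn1, hn⟩ := hosc c
  obtain ⟨N, hN⟩ : ∃ N : ℕ, c < 2 ^ N := by
    obtain ⟨N, hN⟩ := pow_unbounded_of_one_lt c (one_lt_two (α := ℤ))
    exact ⟨N, hN⟩
  -- the parameters
  obtain ⟨M6, hM6⟩ : ∃ M6, M6 = 2 * 6 + N + 1 := ⟨_, rfl⟩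
  obtain ⟨M4, hM4⟩ : ∃ M4, M4 = 2 * 4 + N + 1 := ⟨_, rfl⟩
  obtain ⟨B, hB⟩ : ∃ B, B = n + 2 + (8 * M6) * (3 + 7) + 10 := ⟨_, rfl⟩
  refine ⟨1 + (64 * M4) * (B + 4) + 20, ?_⟩
  intro P x y hp
  obtain ⟨q, h, b, hs⟩ := pinSeq_of_pins hp
  have fin : ∀ σ : Pat, one ≤ σ ∧ Has σ x y Set.univ ∧ 2 ^ N ≤ |f σ| →
      ∃ σ : Pat, one ≤ σ ∧ Has σ x y Set.univ ∧ c < |f σ| :=
    fun σ hσ => ⟨σ, hσ.1, hσ.2.1, lt_of_lt_of_le hN hσ.2.2⟩
  rcases extract (κ := Bool × Bool × Bool × Bool × Bool × Bool)
    (fun j => xor (xor (xor (b j) (b (j + 2))) (xor (b (j + 1)) (b (j + 3))))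
      (xor (b (j + 2)) (b (j + 4))) = true)
    (fun j => (h (j + 1), b j, b (j + 1), b (j + 2), b (j + 3), b (j + 4))) M4 B 4 1 with
    ⟨i₀, hi1, hi2, hgap⟩ | ⟨w, k, hw1, hw2⟩
  · -- a long stretch without odd windows
    have hcard : Fintype.card (Bool × Bool × Bool × Bool × Bool × Bool) = 64 := by
      simp [Fintype.card_prod]
    rw [hcard] at hi2
    obtain ⟨s, hsdef⟩ : ∃ s : ℕ → Bool, ∀ j, s j = xor (b j) (b (j + 2)) :=
      ⟨fun j => xor (b j) (b (j + 2)), fun _ => rfl⟩
    have hrule : ∀ j, i₀ ≤ j → j < i₀ + B → xor (xor (s j) (s (j + 1))) (s (j + 2)) = false := by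
      intro j h1 h2
      have := hgap j h1 h2
      rw [hsdef, hsdef, hsdef]
      simpa using this
    by_cases hzero : s i₀ = false ∧ s (i₀ + 1) = false
    · -- oscillation
      have hall : ∀ k, k ≤ B + 1 → s (i₀ + k) = false := by
        intro k
        induction k using Nat.strong_induction_on with
        | _ k ih =>
          intro hk
          rcases Nat.lt_or_ge k 2 with h2 | h2
          · interval_cases k
            · exact hzero.1
            · exact hzero.2
          · have h3 := hrule (i₀ + (k - 2)) (by omega) (by omega)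
            have h4 := ih (k - 2) (by omega) (by omega)
            have h5 := ih (k - 1) (by omega) (by omega)
            have e1 : i₀ + (k - 2) + 1 = i₀ + (k - 1) := by omega
            have e2 : i₀ + (k - 2) + 2 = i₀ + k := by omega
            rw [e1, e2, h4, h5] at h3
            simpa using h3
      obtain ⟨σ, h1, h2, h3⟩ := osc_of_stretch hs i₀ n (by omega) (by
        intro j hj1 hj2
        have h4 := hall (j - i₀) (by omega)
        have e1 : i₀ + (j - i₀) = j := by omega
        rw [e1, hsdef] at h4
        exact xor_false' h4.symm)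
      exact ⟨σ, one_le_iff.2 (by omega), h2, by rw [h3]; exact hn⟩
    · -- the six-point layer appears often
      have hnz : ∀ k, k ≤ B → ¬ (s (i₀ + k) = false ∧ s (i₀ + k + 1) = false) := by
        intro k
        induction k with
        | zero => intro _; exact hzero
        | succ k ih =>
          intro hk hc
          have h3 := hrule (i₀ + k) (by omega) (by omega)
          have e1 : i₀ + (k + 1) = i₀ + k + 1 := by omega
          rw [e1] at hc
          rw [hc.1, hc.2] at h3
          exact ih (by omega) ⟨by simpa using h3, hc.1⟩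
      rcases extract (κ := Bool × Bool × Bool)
        (fun j => s j = true ∧ s (j + 1) = false)
        (fun j => (h (j + 1), b j, b (j + 1))) M6 3 7 i₀ with
        ⟨i₁, hj1, hj2, hgap'⟩ | ⟨w, k, hw1, hw2⟩
      · exfalso
        have hcard' : Fintype.card (Bool × Bool × Bool) = 8 := by
          simp [Fintype.card_prod]
        rw [hcard'] at hj2
        have g0 := hgap' i₁ (by omega) (by omega)
        have g1 := hgap' (i₁ + 1) (by omega) (by omega)
        have g2 := hgap' (i₁ + 2) (by omega) (by omega)
        have r0 := hrule i₁ (by omega) (by omega)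
        have r1 := hrule (i₁ + 1) (by omega) (by omega)
        have n0 := hnz (i₁ - i₀) (by omega)
        have e1 : i₀ + (i₁ - i₀) = i₁ := by omega
        rw [e1] at n0
        exact gap_lemma (s i₁) (s (i₁ + 1)) (s (i₁ + 2)) (s (i₁ + 3)) g0 g1 g2 r0 r1 n0
      · have hcard' : Fintype.card (Bool × Bool × Bool) = 8 := by
          simp [Fintype.card_prod]
        rw [hcard'] at hw2
        obtain ⟨a, b₀, b₁⟩ := k
        -- the bits of the windows
        have hbits : ∀ t, t < M6 → h (w t + 1) = a ∧ b (w t) = b₀ ∧ b (w t + 1) = b₁ ∧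
            b (w t + 2) = !b₀ ∧ b (w t + 3) = b₁ ∧ b (w t + 4) = b₀ ∧ b (w t + 5) = !b₁ ∧
            b (w t + 6) = b₀ := by
          intro t ht
          obtain ⟨h1, h2, ⟨h3, h4⟩, h5⟩ := hw2 t ht
          simp only [Prod.mk.injEq] at h5
          obtain ⟨h5, h6, h7⟩ := h5
          have r0 : xor (xor (s (w t)) (s (w t + 1))) (s (w t + 2)) = false :=
            hrule (w t) (by omega) (by omega)
          have r1 : xor (xor (s (w t + 1)) (s (w t + 2))) (s (w t + 3)) = false :=
            hrule (w t + 1) (by omega) (by omega)
          have r2 : xor (xor (s (w t + 2)) (s (w t + 3))) (s (w t + 4)) = false :=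
            hrule (w t + 2) (by omega) (by omega)
          have d0 : s (w t) = xor (b (w t)) (b (w t + 2)) := hsdef (w t)
          have d1 : s (w t + 1) = xor (b (w t + 1)) (b (w t + 3)) := hsdef (w t + 1)
          have d2 : s (w t + 2) = xor (b (w t + 2)) (b (w t + 4)) := hsdef (w t + 2)
          have d3 : s (w t + 3) = xor (b (w t + 3)) (b (w t + 5)) := hsdef (w t + 3)
          have d4 : s (w t + 4) = xor (b (w t + 4)) (b (w t + 6)) := hsdef (w t + 4)
          rw [h3, h4] at r0
          rw [h4] at r1
          have s2 : s (w t + 2) = true := by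
            cases hc : s (w t + 2)
            · rw [hc] at r0; simp at r0
            · rfl
          rw [s2] at r1 r2
          have s3 : s (w t + 3) = true := by
            cases hc : s (w t + 3)
            · rw [hc] at r1; simp at r1
            · rfl
          rw [s3] at r2
          have s4 : s (w t + 4) = false := by
            cases hc : s (w t + 4)
            · rfl
            · rw [hc] at r2; simp at r2
          rw [h3, h6] at d0
          rw [h4, h7] at d1
          rw [s2] at d2
          rw [s3] at d3
          rw [s4] at d4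
          have c2 : b (w t + 2) = !b₀ := xor_true' d0
          have c3 : b (w t + 3) = b₁ := xor_false' d1
          have c4 : b (w t + 4) = b₀ := by
            have := xor_true' d2
            rw [c2, Bool.not_not] at this
            exact this
          have c5 : b (w t + 5) = !b₁ := by
            have := xor_true' d3
            rw [c3] at this
            exact this
          have c6 : b (w t + 6) = b₀ := by
            have := xor_false' d4
            rw [c4] at this
            exact this
          exact ⟨h5, h6, h7, c2, c3, c4, c5, c6⟩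
        obtain ⟨bb, hbb⟩ : ∃ bb : ℕ → Bool, bb = fun t =>
            if t = 0 then b₀ else if t = 1 then b₁ else if t = 2 then !b₀ else
            if t = 3 then b₁ else if t = 4 then b₀ else if t = 5 then !b₁ else b₀ := ⟨_, rfl⟩
        have hgood : (pinLayer 6 a (fun t => bb t)).Good := by
          apply pinLayer6_good <;> simp [hbb]
        obtain ⟨σ, hσ⟩ := nest_of_windows hs 6 (by decide) a bb hgood 0 (by omega)
          (by simp [hbb]) w N
          (by have := (hw2 0 (by omega)).1; omega)
          (by intro t ht; have := hw1 t (by omega); omega)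
          (by intro t ht; have := (hw2 t (by omega)).2.1; omega)
          (by intro t ht; exact (hbits t (by omega)).1)
          (by
            intro t ht s hs6
            obtain ⟨_, h0, h1, h2, h3, h4, h5, h6⟩ := hbits t (by omega)
            interval_cases s <;> simp [hbb, h0, h1, h2, h3, h4, h5, h6])
        exact fin σ hσ
  · have hcard : Fintype.card (Bool × Bool × Bool × Bool × Bool × Bool) = 64 := by
      simp [Fintype.card_prod]
    rw [hcard] at hw2
    obtain ⟨a, b₀, b₁, b₂, b₃, b₄⟩ := k
    have hbits : ∀ t, t < M4 → h (w t + 1) = a ∧ b (w t) = b₀ ∧ b (w t + 1) = b₁ ∧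
        b (w t + 2) = b₂ ∧ b (w t + 3) = b₃ ∧ b (w t + 4) = b₄ := by
      intro t ht
      have h5 := (hw2 t ht).2.2.2
      simp only [Prod.mk.injEq] at h5
      exact h5
    have hodd : xor (xor (xor b₀ b₂) (xor b₁ b₃)) (xor b₂ b₄) = true := by
      have h1 := (hw2 0 (by omega)).2.2.1
      obtain ⟨_, h2, h3, h4, h5, h6⟩ := hbits 0 (by omega)
      rw [h2, h3, h4, h5, h6] at h1
      exact h1
    obtain ⟨bb, hbb⟩ : ∃ bb : ℕ → Bool, bb = fun t =>
        if t = 0 then b₀ else if t = 1 then b₁ else if t = 2 then b₂ else
        if t = 3 then b₃ else b₄ := ⟨_, rfl⟩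
    have hgood : (pinLayer 4 a (fun t => bb t)).Good := by
      apply pinLayer4_good
      simpa [hbb] using hodd
    obtain ⟨κ, hκ, hne⟩ : ∃ κ, κ + 2 ≤ 4 ∧ bb κ ≠ bb (κ + 2) := by
      by_contra hcon
      push Not at hcon
      have h0 := hcon 0 (by omega)
      have h1 := hcon 1 (by omega)
      have h2 := hcon 2 (by omega)
      simp only [hbb] at h0 h1 h2
      norm_num at h0 h1 h2
      subst h0 h1 h2
      simp at hodd
    obtain ⟨σ, hσ⟩ := nest_of_windows hs 4 (by decide) a bb hgood κ hκ hne w N
      (by have := (hw2 0 (by omega)).1; omega)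
      (by intro t ht; have := hw1 t (by omega); omega)
      (by intro t ht; have := (hw2 t (by omega)).2.1; omega)
      (by intro t ht; exact (hbits t (by omega)).1)
      (by
        intro t ht s hs6
        obtain ⟨_, h0, h1, h2, h3, h4⟩ := hbits t (by omega)
        interval_cases s <;> simp [hbb, h0, h1, h2, h3, h4])
    exact fin σ hσ

end Pool.Agent.Work.MP_080fe7_co
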