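import Pool.Agent.Work.MP_080fe7_co.TOneBase

/-!
# Wedge simple permutations of type 1
-/

set_option linter.unusedSectionVars false
set_option linter.unusedVariables false

open Finset

namespace Pool.Agent.Work.MP_080fe7_co

namespace TOne

open OscN

/-- the wedge with word `t` and one more point on the right, in the middle -/
noncomputable def AA (t : List Bool) : Pat := pat wx (wy t) (range (t.length + 1))

theorem AA_isPat (t : List Bool) : IsPat (AA t) wx (wy t) (range (t.length + 1) : Finset ℕ) :=
  pat_isPat wx_inj.injOn (wy_injOn t)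

@[simp] theorem AA_n (t : List Bool) : (AA t).n = t.length + 1 := by
  rw [(AA_isPat t).card10]; simp

theorem V_le_AA (t : List Bool) : V t ≤ AA t := by
  rw [(AA_isPat t).le_iff]
  refine (V_isPat t).has.mono ?_
  intro i hi
  rw [Finset.mem_coe, Finset.mem_range] at hi ⊢
  omega

theorem AA_mono {v t : List Bool} (h : v.Sublist t) : AA v ≤ AA t := by
  obtain ⟨e, he⟩ := List.sublist_iff_exists_orderEmbedding_getElem?_eq.1 h
  let g : ℕ → ℕ := fun i => if i < v.length then e i else t.length
  have hr : ∀ i, i < v.length → e i < t.length := by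
    intro i hi
    have e1 := he i
    rw [List.getElem?_eq_getElem hi] at e1
    exact (List.getElem?_eq_some_iff.1 e1.symm).1
  have hg : ∀ i j, i < j → j < v.length + 1 → g i < g j := by
    intro i j hij hj
    simp only [g]
    rw [if_pos (by omega)]
    by_cases hj' : j < v.length
    · rw [if_pos hj']; exact e.strictMono hij
    · rw [if_neg hj']; exact hr i (by omega)
  have hl : ∀ i, i < v.length + 1 → t[g i]? = v[i]? := by
    intro i hi
    simp only [g]
    by_cases hi' : i < v.length
    · rw [if_pos hi']; exact (he i).symm
    · rw [if_neg hi', List.getElem?_eq_none (by omega), List.getElem?_eq_none (by omega)]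
  rw [(AA_isPat t).le_iff]
  refine (AA_isPat v).has.map g ?_ ?_ ?_
  · intro i hi
    rw [Finset.mem_coe, Finset.mem_range] at hi ⊢
    simp only [g]
    split_ifs with h1
    · have := hr i h1; omega
    · omega
  · intro i hi j hj hij
    rw [Finset.mem_coe, Finset.mem_range] at hi hj
    exact wx_lt.2 (hg i j (wx_lt.1 hij) hj)
  · intro i hi j hj hij
    rw [Finset.mem_coe, Finset.mem_range] at hi hj
    exact wy_mono hg hl hi hj hij

theorem AA_inj : Function.Injective AA := by
  intro v t h
  have hn := congrArg Pat.n h
  rw [AA_n, AA_n] at hn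
  have hle := h.le
  rw [(AA_isPat t).le_iff, (AA_isPat v).has_iff] at hle
  obtain ⟨g, h1, h2, h3⟩ := hle
  simp only [Finset.mem_coe, Finset.mem_range] at h1 h2 h3
  have hg : ∀ i j, i < j → j < v.length + 1 → g i < g j := by
    intro i j hij hj
    exact wx_lt.1 (h2 i (by omega) j hj (wx_lt.2 hij))
  have hge : ∀ i, i < v.length + 1 → i ≤ g i := by
    intro i
    induction i with
    | zero => intro _; omega
    | succ i ih =>
      intro hi
      have := ih (by omega)
      have := hg i (i + 1) (by omega) hi
      omega
  have hle : ∀ k, k < v.length + 1 → g (v.length - k) ≤ v.length - k := by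
    intro k
    induction k with
    | zero =>
      intro _
      have := h1 v.length (by omega)
      simp only [Nat.sub_zero]
      omega
    | succ k ih =>
      intro hk
      have e1 := ih (by omega)
      have e2 := hg (v.length - (k + 1)) (v.length - k) (by omega) (by omega)
      omega
  have hid : ∀ i, i < v.length + 1 → g i = i := by
    intro i hi
    have e1 := hge i hi
    have e2 := hle (v.length - i) (by omega)
    have e3 : v.length - (v.length - i) = i := by omega
    rw [e3] at e2
    omega
  apply List.ext_getElem? 
  intro i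
  by_cases hi : i < v.length
  · have e1 := hid i (by omega)
    have e2 := hid v.length (by omega)
    have e3 : wy v v.length = 0 := wy_end v
    have e4 : wy t v.length = 0 := by
      have : v.length = t.length := by omega
      rw [this]; exact wy_end t
    have e5 := h3 i (by omega) v.length (by omega)
    have e6 := h3 v.length (by omega) i (by omega)
    rw [e1, e2, e3, e4] at e5 e6
    rcases letter' hi with h4 | h4 <;> rcases letter' (t := t) (i := i) (by omega) with h5 | h5
    · rw [h4.1, h5.1]
    · exfalso
      have := e6 (by rw [h4.2]; omega)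
      rw [h5.2] at this; omega
    · exfalso
      have := e5 (by rw [h4.2]; omega)
      rw [h5.2] at this; omega
    · rw [h4.1, h5.1]
  · rw [List.getElem?_eq_none (by omega), List.getElem?_eq_none (by omega)]

theorem below_AA {τ : Pat} {t : List Bool} (h : τ ≤ AA t) :
    τ ≤ V t ∨ ∃ v, v.Sublist t ∧ τ = AA v := by
  rw [(AA_isPat t).le_iff] at h
  obtain ⟨g, h1, h2, h3⟩ := exists_map h
  by_cases hlast : ∀ i, i < τ.n → g i < t.length
  · left
    rw [(V_isPat t).le_iff]
    refine h3.has.mono ?_
    intro a ha
    rw [Finset.mem_coe, Finset.mem_image] at ha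
    obtain ⟨i, hi, rfl⟩ := ha
    rw [Finset.mem_coe, Finset.mem_range]
    exact hlast i (Finset.mem_range.1 hi)
  · right
    push Not at hlast
    obtain ⟨i0, hi0, hi0'⟩ := hlast
    have hi0n : i0 + 1 = τ.n := by
      by_contra hne
      have e1 := h1 i0 (i0 + 1) (by omega) (by omega)
      have e2 := h2 (i0 + 1) (by omega)
      omega
    have hgi0 : g i0 = t.length := by
      have := h2 i0 hi0
      omega
    have hgl : ∀ i, i < i0 → g i < t.length := by
      intro i hi
      have := h1 i i0 hi hi0
      omega
    let v : List Bool := List.ofFn (fun i : Fin i0 => t[g i]'(hgl i i.2))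
    have hvl : v.length = i0 := by simp [v]
    have hv : ∀ i, i < i0 → t[g i]? = v[i]? := by
      intro i hi
      rw [List.getElem?_eq_getElem (hgl i hi), List.getElem?_eq_getElem (by omega)]
      simp [v]
    refine ⟨v, ?_, ?_⟩
    · refine sublist_of_map g ?_ ?_
      · intro i j hij hj
        exact h1 i j hij (by omega)
      · intro i hi
        exact hv i (by omega)
    · symm
      apply Pat.eq_of_le_of_n
      · rw [h3.le_iff]
        have hl : ∀ i, i < v.length + 1 → t[g i]? = v[i]? := by
          intro i hi
          by_cases hi' : i < i0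
          · exact hv i hi'
          · have : i = i0 := by omega
            subst this
            rw [List.getElem?_eq_none (by omega), List.getElem?_eq_none (by omega)]
        refine (AA_isPat v).has.map g ?_ ?_ ?_
        · intro i hi
          rw [Finset.mem_coe, Finset.mem_range] at hi
          rw [Finset.mem_coe, Finset.mem_image]
          exact ⟨i, Finset.mem_range.2 (by omega), rfl⟩
        · intro i hi j hj hij
          rw [Finset.mem_coe, Finset.mem_range] at hi hj
          exact wx_lt.2 (h1 i j (wx_lt.1 hij) (by omega))
        · intro i hi j hj hij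
          rw [Finset.mem_coe, Finset.mem_range] at hi hj
          exact wy_mono (n := v.length + 1) (fun i j hij hj => h1 i j hij (by omega)) hl hi hj hij
      · rw [AA_n]; omega

/-- `AA v` is a wedge pattern only if all letters of `v` are equal -/
theorem const_of_AA_le_V {v t : List Bool} (h : AA v ≤ V t) :
    ∃ c, v = List.replicate v.length c := by
  rw [(V_isPat t).le_iff, (AA_isPat v).has_iff] at h
  obtain ⟨g, h1, h2, h3⟩ := h
  simp only [Finset.mem_coe, Finset.mem_range] at h1 h2 h3
  have hlast := h1 v.length (by omega)
  have hg : ∀ i, i < v.length → g i < g v.length := by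
    intro i hi
    exact wx_lt.1 (h2 i (by omega) v.length (by omega) (wx_lt.2 hi))
  have key : ∀ c : Bool, (∀ i, i < v.length → v[i]? = some c) → v = List.replicate v.length c := by
    intro c hc
    apply List.ext_getElem?
    intro i
    by_cases hi : i < v.length
    · rw [hc i hi, List.getElem?_replicate, if_pos hi]
    · rw [List.getElem?_eq_none (by omega), List.getElem?_eq_none (by simp; omega)]
  rcases letter' hlast with h4 | h4
  · refine ⟨false, key false ?_⟩
    intro i hi
    rcases letter' hi with h5 | h5
    · exfalso
      have e1 := h3 v.length (by omega) i (by omega) (by rw [wy_end, h5.2]; omega)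
      rw [h4.2] at e1
      have := hg i hi
      rcases letter' (t := t) (i := g i) (by omega) with h6 | h6 <;> rw [h6.2] at e1 <;> omega
    · exact h5.1
  · refine ⟨true, key true ?_⟩
    intro i hi
    rcases letter' hi with h5 | h5
    · exact h5.1
    · exfalso
      have e1 := h3 i (by omega) v.length (by omega) (by rw [wy_end, h5.2]; omega)
      rw [h4.2] at e1
      have := hg i hi
      rcases letter' (t := t) (i := g i) (by omega) with h6 | h6 <;> rw [h6.2] at e1 <;> omega

theorem AA_replicate (k : ℕ) (c : Bool) :
    AA (List.replicate k c) = V (List.replicate k c ++ [!c]) := by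
  apply Pat.eq_of_le_of_n
  · rw [(V_isPat _).le_iff]
    refine (AA_isPat _).has.map id ?_ ?_ ?_
    · intro i hi
      rw [Finset.mem_coe, Finset.mem_range] at hi ⊢
      simpa using hi
    · intro i _ j _ hij
      exact hij
    · intro i hi j hj hij
      rw [Finset.mem_coe, Finset.mem_range, List.length_replicate] at hi hj
      have hw : ∀ i, i < k + 1 → (i < k ∧ (List.replicate k c)[i]? = some c ∧
          (List.replicate k c ++ [!c])[i]? = some c) ∨
          (i = k ∧ (List.replicate k c)[i]? = none ∧
          (List.replicate k c ++ [!c])[i]? = some (!c)) := by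
        intro i hi
        by_cases hik : i < k
        · left
          refine ⟨hik, by rw [List.getElem?_replicate, if_pos hik], ?_⟩
          rw [List.getElem?_append_left (by simpa using hik), List.getElem?_replicate, if_pos hik]
        · right
          have : i = k := by omega
          subst this
          refine ⟨rfl, by simp, ?_⟩
          rw [List.getElem?_append_right (by simp)]
          simp
      unfold wy at hij ⊢
      simp only [id]
      rcases hw i hi with ⟨i1, i2, i3⟩ | ⟨i1, i2, i3⟩ <;>
        rcases hw j hj with ⟨j1, j2, j3⟩ | ⟨j1, j2, j3⟩ <;>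
        rw [i2, j2] at hij <;> rw [i3, j3] <;> cases c <;>
        simp only [yl, Bool.not_true, Bool.not_false] at hij ⊢ <;> omega
  · simp

theorem one_le_AA (t : List Bool) : one ≤ AA t := one_le_iff.2 (by simp)

open scoped Classical in
/-- the basic identity -/
theorem sum_new (t : List Bool) :
    ∑ v ∈ t.sublists.toFinset.filter (fun v => ¬ AA v ≤ V t), f (AA v)
      = (if t.length = 0 then 1 else 0) - (if t.length = 1 then 1 else 0) := by
  have h1 := sum_f (AA t)
  have h2 := sum_f (V t)
  have h3 : Icc one (AA t) = Icc one (V t) ∪
      (t.sublists.toFinset.filter (fun v => ¬ AA v ≤ V t)).image AA := by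
    ext τ
    rw [Finset.mem_union, Finset.mem_Icc, Finset.mem_Icc, Finset.mem_image]
    constructor
    · rintro ⟨h4, h5⟩
      by_cases h6 : τ ≤ V t
      · exact Or.inl ⟨h4, h6⟩
      · right
        rcases below_AA h5 with h7 | ⟨v, h7, h8⟩
        · exact absurd h7 h6
        · refine ⟨v, ?_, h8.symm⟩
          rw [Finset.mem_filter, List.mem_toFinset, List.mem_sublists]
          exact ⟨h7, h8 ▸ h6⟩
    · rintro (h4 | ⟨v, h4, h5⟩)
      · exact ⟨h4.1, h4.2.trans (V_le_AA t)⟩
      · rw [Finset.mem_filter, List.mem_toFinset, List.mem_sublists] at h4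
        rw [← h5]
        exact ⟨one_le_AA v, AA_mono h4.1⟩
  rw [h3, Finset.sum_union, h2, Finset.sum_image AA_inj.injOn] at h1
  · have h4 : (AA t = one) ↔ t.length = 0 := by rw [eq_one_iff, AA_n]; omega
    have h5 : (V t = one) ↔ t.length = 1 := by rw [eq_one_iff, V_n]
    simp only [h4, h5] at h1
    linarith
  · rw [Finset.disjoint_left]
    intro τ h4 h5
    rw [Finset.mem_Icc] at h4
    rw [Finset.mem_image] at h5
    obtain ⟨v, h5, h6⟩ := h5
    rw [Finset.mem_filter] at h5
    rw [← h6] at h4
    exact h5.2 h4.2

theorem rep_le_V {k : ℕ} {c : Bool} {t : List Bool} : AA (List.replicate k c) ≤ V t ↔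
    t ≠ [] ∧ (List.replicate k c ++ [!c]).tail.Sublist t.tail := by
  rw [AA_replicate, V_le_V]
  simp

theorem g_rep (c : Bool) (k : ℕ) : ∑ j ∈ Icc 1 (k + 1), f (AA (List.replicate j c)) =
    - (if k = 0 then 1 else 0) := by
  classical
  have h1 := sum_new (List.replicate (k + 1) c)
  rw [List.length_replicate, if_neg (by omega), zero_sub] at h1
  have h2 : (if k + 1 = 1 then (1 : ℤ) else 0) = if k = 0 then 1 else 0 := by
    simp
  rw [h2] at h1
  rw [← h1]
  symm
  have h3 : (List.replicate (k + 1) c).sublists.toFinset.filter
      (fun v => ¬ AA v ≤ V (List.replicate (k + 1) c)) =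
      (Icc 1 (k + 1)).image (fun j => List.replicate j c) := by
    ext v
    rw [Finset.mem_filter, List.mem_toFinset, List.mem_sublists, Finset.mem_image,
      List.sublist_replicate_iff]
    constructor
    · rintro ⟨⟨j, hj, rfl⟩, h4⟩
      refine ⟨j, ?_, rfl⟩
      rw [Finset.mem_Icc]
      refine ⟨?_, hj⟩
      by_contra hj0
      have : j = 0 := by omega
      subst this
      apply h4
      rw [rep_le_V]
      simp
    · rintro ⟨j, hj, rfl⟩
      rw [Finset.mem_Icc] at hj
      refine ⟨⟨j, hj.2, rfl⟩, ?_⟩
      rw [rep_le_V]
      rintro ⟨-, h4⟩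
      have h5 : (!c) ∈ (List.replicate j c ++ [!c]).tail := by
        obtain ⟨i, rfl⟩ : ∃ i, j = i + 1 := ⟨j - 1, by omega⟩
        rw [List.replicate_succ, List.cons_append, List.tail_cons]
        simp
      have h6 := h4.subset h5
      rw [List.tail_replicate, List.mem_replicate] at h6
      cases c <;> simp at h6
  rw [h3, Finset.sum_image]
  intro i _ j _ hij
  have := congrArg List.length hij
  simpa using this

theorem g_nil : f (AA []) = 1 := by
  have : AA [] = one := eq_one_iff.2 (by simp)
  rw [this, f_one]

theorem g_one (c : Bool) : f (AA [c]) = -1 := by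
  have := g_rep c 0
  simpa using this

theorem g_two (c : Bool) : f (AA [c, c]) = 1 := by
  have h := g_rep c 1
  have h1 := g_one c
  rw [if_neg (by norm_num)] at h
  rw [show Icc 1 (1 + 1) = {1, 2} from rfl, Finset.sum_pair (by norm_num)] at h
  have e1 : List.replicate 1 c = [c] := rfl
  have e2 : List.replicate 2 c = [c, c] := rfl
  rw [e1, e2, h1] at h
  linarith

theorem g_three (c : Bool) (k : ℕ) : f (AA (List.replicate (k + 3) c)) = 0 := by
  have h1 := g_rep c (k + 1)
  have h2 := g_rep c (k + 2)
  have e1 : Icc 1 (k + 2 + 1) = insert (k + 3) (Icc 1 (k + 1 + 1)) := by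
    ext x
    rw [Finset.mem_insert, Finset.mem_Icc, Finset.mem_Icc]
    omega
  rw [e1, Finset.sum_insert (by rw [Finset.mem_Icc]; omega), h1] at h2
  rw [if_neg (by omega), if_neg (by omega)] at h2
  linarith

/-- the contribution of the words with all letters equal to `c` -/
def hh (c : Bool) (t : List Bool) : ℤ :=
  -(if [c].Sublist t ∧ [!c].Sublist t.tail then 1 else 0) +
    (if [c, c].Sublist t ∧ [c, !c].Sublist t.tail then 1 else 0)

/-- the sum of the Möbius values over the subwords -/
def GG (t : List Bool) : ℤ :=
  (if t.length = 0 then 1 else 0) - (if t.length = 1 then 1 else 0) +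
    ((if t = [] then 0 else 1) + (hh true t + hh false t))

theorem sum_all (t : List Bool) : ∑ v ∈ t.sublists.toFinset, f (AA v) = GG t := by
  classical
  rw [← Finset.sum_filter_add_sum_filter_not t.sublists.toFinset (fun v => AA v ≤ V t), sum_new,
    add_comm]
  unfold GG
  congr 1
  have h1 : ∑ v ∈ t.sublists.toFinset.filter (fun v => AA v ≤ V t), f (AA v)
      = ∑ v ∈ ({[], [true], [false], [true, true], [false, false]} : Finset (List Bool)),
        if v.Sublist t ∧ AA v ≤ V t then f (AA v) else 0 := by
    rw [← Finset.sum_filter]
    symm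
    apply Finset.sum_subset
    · intro v hv
      rw [Finset.mem_filter] at hv
      rw [Finset.mem_filter, List.mem_toFinset, List.mem_sublists]
      exact hv.2
    · intro v hv hv'
      rw [Finset.mem_filter, List.mem_toFinset, List.mem_sublists] at hv
      obtain ⟨c, hc⟩ := const_of_AA_le_V hv.2
      have hlen : 3 ≤ v.length := by
        by_contra hlt
        apply hv'
        rw [Finset.mem_filter]
        refine ⟨?_, hv⟩
        rw [hc]
        have : v.length = 0 ∨ v.length = 1 ∨ v.length = 2 := by omega
        rcases this with h | h | h <;> rw [h] <;> cases c <;> decide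
      obtain ⟨k, hk⟩ : ∃ k, v.length = k + 3 := ⟨v.length - 3, by omega⟩
      rw [hc, hk]
      exact g_three c k
  rw [h1, Finset.sum_insert (by decide), Finset.sum_insert (by decide),
    Finset.sum_insert (by decide), Finset.sum_insert (by decide), Finset.sum_singleton]
  have e0 : (([] : List Bool).Sublist t ∧ AA [] ≤ V t) ↔ ¬ t = [] := by
    have := rep_le_V (k := 0) (c := true) (t := t)
    rw [List.replicate_zero] at this
    rw [this]
    simp
  have e1 : ∀ c, ([c].Sublist t ∧ AA [c] ≤ V t) ↔ [c].Sublist t ∧ [!c].Sublist t.tail := by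
    intro c
    have := rep_le_V (k := 1) (c := c) (t := t)
    have e1 : List.replicate 1 c = [c] := rfl
    rw [e1] at this
    rw [this]
    constructor
    · rintro ⟨h1, _, h2⟩; exact ⟨h1, h2⟩
    · rintro ⟨h1, h2⟩
      refine ⟨h1, ?_, h2⟩
      rintro rfl
      simp at h2
  have e2 : ∀ c, ([c, c].Sublist t ∧ AA [c, c] ≤ V t) ↔
      [c, c].Sublist t ∧ [c, !c].Sublist t.tail := by
    intro c
    have := rep_le_V (k := 2) (c := c) (t := t)
    have e1 : List.replicate 2 c = [c, c] := rfl
    rw [e1] at this
    rw [this]
    constructor
    · rintro ⟨h1, _, h2⟩; exact ⟨h1, h2⟩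
    · rintro ⟨h1, h2⟩
      refine ⟨h1, ?_, h2⟩
      rintro rfl
      simp at h2
  simp only [e0, e1, e2, g_nil, g_one, g_two]
  unfold hh
  split_ifs <;> norm_num

/-- both letters occur -/
theorem altsum_both (k : ℕ) : ∀ c, altsum (alt c (k + 2))
    (fun t => if [c].Sublist t ∧ [!c].Sublist t then 1 else 0) = 1 := by
  induction k with
  | zero => intro c; cases c <;> decide
  | succ k ih =>
    intro c
    rw [alt_succ, altsum_cons]
    have h1 : altsum (alt (!c) (k + 2)) (fun t => if [c].Sublist t ∧ [!c].Sublist t then 1 else 0)
        = 1 := by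
      refine Eq.trans (altsum_congr fun t _ => ?_) (ih (!c))
      rw [Bool.not_not]
      simp only [and_comm]
    have h2 : altsum (alt (!c) (k + 2)) (fun t =>
        if [c].Sublist (c :: t) ∧ [!c].Sublist (c :: t) then 1 else 0) = 0 := by
      have h3 := toggling [!c] (!c) (k + 2)
      rw [if_neg] at h3
      · refine Eq.trans (altsum_congr fun t _ => ?_) h3
        cases c <;> simp
      · intro h
        have := congrArg List.length h
        simp at this
    rw [h1, h2]; norm_num

theorem altsum_pairs (k : ℕ) (c : Bool) : altsum (alt c (k + 3))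
    (fun t => if [c, c].Sublist t ∧ [c, !c].Sublist t then 1 else 0) = -1 := by
  have hw : alt c (k + 3) = c :: (!c) :: alt c (k + 1) := by
    rw [alt_succ, alt_succ, Bool.not_not]
  rw [hw, altsum_cons, altsum_cons]
  have h1 : altsum (alt c (k + 1)) (fun t =>
      if [c, c].Sublist ((!c) :: t) ∧ [c, !c].Sublist ((!c) :: t) then 1 else 0) =
      altsum (alt c (k + 1)) (fun t => if [c, c].Sublist t ∧ [c, !c].Sublist t then 1 else 0) := by
    refine altsum_congr fun t _ => ?_
    cases c <;> simp [List.sublist_cons_iff]
  have h2 : altsum ((!c) :: alt c (k + 1)) (fun t =>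
      if [c, c].Sublist (c :: t) ∧ [c, !c].Sublist (c :: t) then 1 else 0) = 1 := by
    have h3 := altsum_both k (!c)
    rw [alt_succ, Bool.not_not] at h3
    refine Eq.trans (altsum_congr fun t _ => ?_) h3
    simp only [List.cons_sublist_cons, and_comm]
  rw [h1, h2]; norm_num

theorem altsum_GG_cons (k : ℕ) (c : Bool) :
    altsum (alt c (k + 3)) (fun t => GG ((!c) :: t)) = -3 := by
  have h1 : altsum (alt c (k + 3)) (fun t => GG ((!c) :: t)) =
      altsum (alt c (k + 3)) (fun t => -(if t = [] then 1 else 0) + (1 +
        ((-(if [c].Sublist t then 1 else 0) + (if [!c, c].Sublist t then 1 else 0)) +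
        (-(if [c].Sublist t ∧ [!c].Sublist t then 1 else 0) +
          (if [c, c].Sublist t ∧ [c, !c].Sublist t then 1 else 0))))) := by
    refine altsum_congr fun t _ => ?_
    have e1 : hh (!c) ((!c) :: t) = -(if [c].Sublist t then 1 else 0) +
        (if [!c, c].Sublist t then 1 else 0) := by
      unfold hh
      rw [List.tail_cons, Bool.not_not]
      have i1 : ([!c].Sublist ((!c) :: t) ∧ [c].Sublist t) ↔ [c].Sublist t := by
        simp
      have i2 : ([!c, !c].Sublist ((!c) :: t) ∧ [!c, c].Sublist t) ↔ [!c, c].Sublist t := by
        rw [List.cons_sublist_cons]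
        constructor
        · exact fun h => h.2
        · intro h
          refine ⟨?_, h⟩
          exact List.Sublist.trans (by simp) h
      simp only [i1, i2]
    have e2 : hh c ((!c) :: t) = -(if [c].Sublist t ∧ [!c].Sublist t then 1 else 0) +
          (if [c, c].Sublist t ∧ [c, !c].Sublist t then 1 else 0) := by
      unfold hh
      rw [List.tail_cons]
      have i1 : [c].Sublist ((!c) :: t) ↔ [c].Sublist t := by
        cases c <;> simp [List.sublist_cons_iff]
      have i2 : [c, c].Sublist ((!c) :: t) ↔ [c, c].Sublist t := by
        cases c <;> simp [List.sublist_cons_iff]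
      simp only [i1, i2]
    unfold GG
    have e3 : hh true ((!c) :: t) + hh false ((!c) :: t) = hh (!c) ((!c) :: t) +
        hh c ((!c) :: t) := by
      cases c
      · rfl
      · exact add_comm _ _
    rw [e3, e1, e2]
    have e4 : ((!c) :: t).length = 1 ↔ t = [] := by simp
    simp only [e4]
    simp
  rw [h1, altsum_add, altsum_neg, altsum_isNil, altsum_add, altsum_add, altsum_add, altsum_add,
    altsum_neg, altsum_neg, altsum_both (k + 1) c, altsum_pairs k c, toggling, toggling]
  rw [if_neg, if_neg]
  · have : altsum (alt c (k + 3)) (fun _ => 1) = 0 := by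
      rw [alt_succ]; exact altsum_const _ _ _
    rw [this]; norm_num
  · intro h
    have := congrArg List.length h
    simp at this
  · intro h
    have := congrArg List.length h
    simp at this

theorem altsum_GG (k : ℕ) : ∀ b, altsum (alt b (k + 3)) GG = 3 * k + 3 := by
  induction k with
  | zero => intro b; cases b <;> decide
  | succ k ih =>
    intro b
    rw [alt_succ, altsum_cons, ih]
    have := altsum_GG_cons k (!b)
    rw [Bool.not_not] at this
    rw [this]; push_cast; ring

theorem f_AA (k : ℕ) (b : Bool) : |f (AA (alt b (k + 3)))| = 3 * k + 3 := by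
  rw [inversion (fun v => f (AA v)) GG b (k + 3) (fun t _ => sum_all t), altsum_GG, abs_mul,
    abs_pow, abs_neg, abs_one, one_pow, one_mul, abs_of_nonneg (by positivity)]

theorem alt_getElem? (b : Bool) (n i : ℕ) : (alt b n)[i]? =
    if i < n then some (if i % 2 = 0 then b else !b) else none := by
  induction n generalizing b i with
  | zero => simp
  | succ n ih =>
    rw [alt_succ]
    cases i with
    | zero => simp
    | succ i =>
      rw [List.getElem?_cons_succ, ih]
      by_cases h : i < n
      · rw [if_pos h, if_pos (by omega : i + 1 < n + 1)]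
        congr 1
        by_cases h2 : i % 2 = 0
        · rw [if_pos h2, if_neg (by omega)]
        · rw [if_neg h2, if_pos (by omega), Bool.not_not]
      · rw [if_neg h, if_neg (by omega : ¬ i + 1 < n + 1)]

end TOne

open TOne in
theorem t1_unbounded (c : ℤ) : ∃ m : ℕ, ∀ (P : Type) (x y : P → ℤ), T1 x y m →
    ∃ σ : Pat, one ≤ σ ∧ Has σ x y Set.univ ∧ c < |f σ| := by
  refine ⟨c.toNat + 3, fun P x y hT => ⟨AA (alt true (c.toNat + 3)), one_le_AA _, ?_, ?_⟩⟩
  · obtain ⟨w, p, hw, hp⟩ := hT
    obtain ⟨m, hm⟩ : ∃ m, m = c.toNat + 3 := ⟨_, rfl⟩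
    rw [← hm] at hw hp ⊢
    have hlet : ∀ i, i < m → (i % 2 = 0 ∧ wy (alt true m) i = (i : ℤ) + 1) ∨
        (i % 2 = 1 ∧ wy (alt true m) i = -((i : ℤ) + 1)) := by
      intro i hi
      have h1 := alt_getElem? true m i
      rw [if_pos hi] at h1
      by_cases h2 : i % 2 = 0
      · rw [if_pos h2] at h1
        exact Or.inl ⟨h2, wy_true h1⟩
      · rw [if_neg h2] at h1
        exact Or.inr ⟨by omega, wy_false h1⟩
    have hend : wy (alt true m) m = 0 := by
      have := wy_end (alt true m)
      rwa [alt_length] at this
    refine (AA_isPat (alt true m)).has.map (fun i => if i < m then w i else p)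
      (fun _ _ => trivial) ?_ ?_
    · intro i hi j hj hij
      rw [Finset.mem_coe, Finset.mem_range, alt_length] at hi hj
      have hij' := wx_lt.1 hij
      rw [if_pos (by omega)]
      by_cases hjm : j < m
      · rw [if_pos hjm]
        exact (hw i j hij' hjm).1
      · rw [if_neg hjm]
        exact (hp i (by omega)).1
    · intro i hi j hj hij
      rw [Finset.mem_coe, Finset.mem_range, alt_length] at hi hj
      by_cases him : i < m
      · rw [if_pos him]
        by_cases hjm : j < m
        · rw [if_pos hjm]
          rcases lt_trichotomy i j with h | h | h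
          · refine (hw i j h hjm).2.1 ?_
            rw [Nat.even_iff]
            rcases hlet i him with h1 | h1 <;> rcases hlet j hjm with h2 | h2 <;>
              rw [h1.2, h2.2] at hij <;> omega
          · subst h; exact absurd hij (lt_irrefl _)
          · refine (hw j i h him).2.2 ?_
            rw [Nat.odd_iff]
            rcases hlet i him with h1 | h1 <;> rcases hlet j hjm with h2 | h2 <;>
              rw [h1.2, h2.2] at hij <;> omega
        · rw [if_neg hjm]
          refine (hp i him).2.2 ?_
          have hjm' : j = m := by omega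
          rw [Nat.odd_iff]
          rw [hjm', hend] at hij
          rcases hlet i him with h1 | h1 <;> rw [h1.2] at hij <;> omega
      · have him' : i = m := by omega
        rw [if_neg him]
        by_cases hjm : j < m
        · rw [if_pos hjm]
          refine (hp j hjm).2.1 ?_
          rw [Nat.even_iff]
          rw [him', hend] at hij
          rcases hlet j hjm with h1 | h1 <;> rw [h1.2] at hij <;> omega
        · have hjm' : j = m := by omega
          rw [him', hjm'] at hij
          exact absurd hij (lt_irrefl _)
  · rw [f_AA]
    have := Int.self_le_toNat c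
    omega

end Pool.Agent.Work.MP_080fe7_co
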