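import Pool.Agent.Work.MP_080fe7_co.Defs

/-!
# Wedges of type 2 have unbounded Möbius function

The configuration has points `0` (the point `b`), `1` (the point `p`), and the letters `2, 3, …`:
even letters lie above everything before them, odd letters below everything before them except
`1`; the point `1` is below everything.
-/

set_option linter.unusedSectionVars false
set_option linter.unusedVariables false
set_option linter.unusedSimpArgs false

open Finset

namespace Pool.Agent.Work.MP_080fe7_co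

namespace Two

/-- vertical coordinates -/
def Y (M : ℕ) (i : ℕ) : ℤ := if i = 1 then -(M : ℤ) else if i % 2 = 0 then (i : ℤ) else -(i : ℤ)

theorem Y_lt_iff {M k j : ℕ} (h : k < j) (hk : k ≠ 1) (hj : j ≠ 1) :
    Y M k < Y M j ↔ j % 2 = 0 := by
  unfold Y
  rw [if_neg hk, if_neg hj]
  split_ifs <;> omega

theorem Y_gt_iff {M k j : ℕ} (h : k < j) (hk : k ≠ 1) (hj : j ≠ 1) :
    Y M j < Y M k ↔ j % 2 = 1 := by
  unfold Y
  rw [if_neg hk, if_neg hj]
  split_ifs <;> omega

theorem Y_one_lt {M j : ℕ} (hj : j ≠ 1) (hjM : j < M) : Y M 1 < Y M j := by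
  unfold Y
  rw [if_pos rfl, if_neg hj]
  split_ifs <;> omega

theorem Y_one_le {M j : ℕ} (hjM : j < M) : Y M 1 ≤ Y M j := by
  by_cases hj : j = 1
  · rw [hj]
  · exact (Y_one_lt hj hjM).le

theorem Y_injOn {M : ℕ} {s : Finset ℕ} (h : ∀ i ∈ s, i < M) : Set.InjOn (Y M) s := by
  intro i hi j hj hij
  have h1 := h i (by simpa using hi)
  have h2 := h j (by simpa using hj)
  unfold Y at hij
  split_ifs at hij <;> omega

/-- containment in a set of points -/
def H (M : ℕ) (τ : Pat) (s : Finset ℕ) : Prop := Has τ (fun i : ℕ => i) (Y M) (s : Set ℕ)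

theorem H.mono {M : ℕ} {τ : Pat} {s t : Finset ℕ} (h : H M τ s) (hst : s ⊆ t) : H M τ t :=
  Has.mono h (by exact_mod_cast hst)

theorem H.card_le {M : ℕ} {τ : Pat} {s : Finset ℕ} (h : H M τ s) : τ.n ≤ s.card :=
  Has.card_le h

theorem le_pat {M : ℕ} {τ : Pat} {s : Finset ℕ} (h : ∀ i ∈ s, i < M) :
    τ ≤ pat (fun i : ℕ => i) (Y M) s ↔ H M τ s :=
  le_pat_iff (fun _ _ _ _ h => h) (Y_injOn h)

theorem pat_n' {M : ℕ} {s : Finset ℕ} (h : ∀ i ∈ s, i < M) :
    (pat (fun i : ℕ => i) (Y M) s).n = s.card :=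
  pat_n (fun _ _ _ _ h => h) (Y_injOn h)

theorem eq_pat {M : ℕ} {τ : Pat} {s : Finset ℕ} (h : ∀ i ∈ s, i < M) :
    τ = pat (fun i : ℕ => i) (Y M) s ↔ H M τ s ∧ τ.n = s.card := by
  constructor
  · rintro rfl
    exact ⟨(le_pat h).1 le_rfl, pat_n' h⟩
  · rintro ⟨h1, h2⟩
    exact Pat.eq_of_le_of_n ((le_pat h).2 h1) (by rw [pat_n' h, h2])

/-- the last point of `τ` is extreme (`c = 0`: the highest, otherwise the lowest) -/
def Ext (c : ℕ) (τ : Pat) : Prop := ∀ j l : Fin τ.n, (l : ℕ) + 1 = τ.n → j < l →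
  (c % 2 = 0 → τ.p j < τ.p l) ∧ (c % 2 = 1 → τ.p l < τ.p j)

/-- the last point removed -/
noncomputable def init (τ : Pat) : Pat := sub τ (univ.filter (fun i => (i : ℕ) + 1 ≠ τ.n))

theorem init_n {τ : Pat} (h : 1 ≤ τ.n) : (init τ).n + 1 = τ.n := by
  unfold init
  rw [sub_n]
  have h1 : (univ.filter (fun i : Fin τ.n => (i : ℕ) + 1 ≠ τ.n))
      = univ.erase ⟨τ.n - 1, by omega⟩ := by
    ext i
    simp only [Finset.mem_filter, Finset.mem_univ, true_and, Finset.mem_erase, and_true, ne_eq,
      Fin.ext_iff]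
    omega
  rw [h1, Finset.card_erase_of_mem (Finset.mem_univ _), Finset.card_univ, Fintype.card_fin]
  omega

theorem pat_lt_of {τ : Pat} {i j : Fin τ.n} (hij : i ≠ j) (h : ¬ τ.p i < τ.p j) :
    τ.p j < τ.p i :=
  lt_of_le_of_ne (not_lt.1 h) (fun h' => hij (τ.p.injective h').symm)

/-- if the last point is not extreme, the last letter is useless -/
theorem H.of_not_ext {M m : ℕ} {τ : Pat} {s : Finset ℕ} (hs : ∀ i ∈ s, i < m ∧ i ≠ 1)
    (hm : m ≠ 1) (hext : ¬ Ext m τ) (h : H M τ (insert m s)) : H M τ s := by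
  obtain ⟨e, h1, h2, h3⟩ := h
  have h1' : ∀ i, e i = m ∨ e i ∈ s := fun i => by simpa using h1 i
  have hne : ∀ i, e i ≠ m := by
    intro i hi
    apply hext
    intro j l hl hjl
    have hil : i = l := by
      by_contra hne
      have h4 : i < l := by
        have := i.2
        rw [Fin.lt_def]
        have h5 : (i : ℕ) ≠ l := fun h => hne (Fin.ext h)
        omega
      have h5 : e i < e l := h2 _ _ h4
      rcases h1' l with h6 | h6
      · omega
      · have := (hs _ h6).1
        omega
    subst hil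
    have hji : j ≠ i := ne_of_lt hjl
    have h5 : e j < e i := h2 _ _ hjl
    have h6 : e j ∈ s := by
      rcases h1' j with h6 | h6
      · omega
      · exact h6
    constructor
    · intro hc
      by_contra hn
      have h7 := h3 _ _ (pat_lt_of hji hn)
      rw [hi, Y_gt_iff (hs _ h6).1 (hs _ h6).2 hm] at h7
      omega
    · intro hc
      by_contra hn
      have h7 := h3 _ _ (pat_lt_of hji.symm hn)
      rw [hi, Y_lt_iff (hs _ h6).1 (hs _ h6).2 hm] at h7
      omega
  refine ⟨e, ?_, h2, h3⟩
  intro i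
  rcases h1' i with h | h
  · exact absurd h (hne i)
  · exact_mod_cast h

/-- if the last point is extreme, it can be mapped to the last letter -/
theorem H.ext_iff {M m : ℕ} {τ : Pat} {s : Finset ℕ} (hs : ∀ i ∈ s, i < m ∧ i ≠ 1)
    (hm : m ≠ 1) (hext : Ext m τ) : H M τ (insert m s) ↔ H M (init τ) s := by
  unfold H init
  rw [has_sub_iff]
  constructor
  · rintro ⟨e, h1, h2, h3⟩
    have h1' : ∀ i, e i = m ∨ e i ∈ s := fun i => by simpa using h1 i
    refine ⟨e, ?_, fun i _ j _ => h2 i j, fun i _ j _ => h3 i j⟩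
    intro i hi
    simp only [Finset.mem_filter, Finset.mem_univ, true_and] at hi
    rcases h1' i with h | h
    · exfalso
      have hl := i.2
      have h4 : e i < e ⟨τ.n - 1, by omega⟩ := h2 _ _ (by rw [Fin.lt_def]; simp only; omega)
      rcases h1' ⟨τ.n - 1, by omega⟩ with h6 | h6
      · omega
      · have := (hs _ h6).1
        omega
    · exact_mod_cast h
  · rintro ⟨g, h1, h2, h3⟩
    have h1' : ∀ i : Fin τ.n, (i : ℕ) + 1 ≠ τ.n → g i ∈ s := fun i hi => by
      have := h1 i (by simpa using hi)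
      exact_mod_cast this
    have h2' : ∀ i j : Fin τ.n, (i : ℕ) + 1 ≠ τ.n → (j : ℕ) + 1 ≠ τ.n → i < j → g i < g j :=
      fun i j hi hj => h2 i (by simpa using hi) j (by simpa using hj)
    have h3' : ∀ i j : Fin τ.n, (i : ℕ) + 1 ≠ τ.n → (j : ℕ) + 1 ≠ τ.n → τ.p i < τ.p j →
      Y M (g i) < Y M (g j) :=
      fun i j hi hj => h3 i (by simpa using hi) j (by simpa using hj)
    refine ⟨fun i => if (i : ℕ) + 1 = τ.n then m else g i, ?_, ?_, ?_⟩
    · intro i
      by_cases hi : (i : ℕ) + 1 = τ.n
      · simp [hi]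
      · simp only [hi, if_false]
        have := h1' i hi
        simp [this]
    · intro i j hij
      have hi : (i : ℕ) + 1 ≠ τ.n := by
        have := j.2
        rw [Fin.lt_def] at hij
        omega
      by_cases hj : (j : ℕ) + 1 = τ.n
      · simp only [hi, hj, if_false, if_true]
        exact (hs _ (h1' i hi)).1
      · simp only [hi, hj, if_false]
        exact h2' i j hi hj hij
    · intro i j hij
      have hne : i ≠ j := fun h => by rw [h] at hij; exact lt_irrefl _ hij
      by_cases hi : (i : ℕ) + 1 = τ.n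
      · have hj : (j : ℕ) + 1 ≠ τ.n := fun hj => hne (Fin.ext (by omega))
        simp only [hi, hj, if_false, if_true]
        have hji : j < i := by
          have := j.2
          rw [Fin.lt_def]
          omega
        have h4 := hext j i hi hji
        have h5 := hs _ (h1' j hj)
        rw [Y_gt_iff h5.1 h5.2 hm]
        rcases Nat.mod_two_eq_zero_or_one m with h6 | h6
        · exact absurd hij (lt_asymm (h4.1 h6))
        · exact h6
      · by_cases hj : (j : ℕ) + 1 = τ.n
        · simp only [hi, hj, if_false, if_true]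
          have hji : i < j := by
            have := i.2
            rw [Fin.lt_def]
            omega
          have h4 := hext i j hj hji
          have h5 := hs _ (h1' i hi)
          rw [Y_lt_iff h5.1 h5.2 hm]
          rcases Nat.mod_two_eq_zero_or_one m with h6 | h6
          · exact h6
          · exact absurd hij (lt_asymm (h4.2 h6))
        · simp only [hi, hj, if_false]
          exact h3' i j hi hj hij

/-- the lowest point removed -/
noncomputable def rem (τ : Pat) : Pat := sub τ (univ.filter (fun i => (τ.p i : ℕ) ≠ 0))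

theorem rem_n {τ : Pat} (h : 1 ≤ τ.n) : (rem τ).n + 1 = τ.n := by
  unfold rem
  rw [sub_n]
  have h1 : (univ.filter (fun i : Fin τ.n => (τ.p i : ℕ) ≠ 0))
      = univ.erase (τ.p.symm ⟨0, by omega⟩) := by
    ext i
    simp only [Finset.mem_filter, Finset.mem_univ, true_and, Finset.mem_erase, and_true, ne_eq,
      Equiv.eq_symm_apply, Fin.ext_iff]
  rw [h1, Finset.card_erase_of_mem (Finset.mem_univ _), Finset.card_univ, Fintype.card_fin]
  omega

/-- the point `1` can only be used for the lowest point -/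
theorem used_min {M : ℕ} {τ : Pat} {e : Fin τ.n → ℕ} (h1 : ∀ i, e i < M)
    (h3 : ∀ i j, τ.p i < τ.p j → Y M (e i) < Y M (e j)) {i : Fin τ.n} (hi : e i = 1) :
    (τ.p i : ℕ) = 0 := by
  by_contra hne
  have hn : 0 < τ.n := by have := i.2; omega
  have h4 : τ.p (τ.p.symm ⟨0, hn⟩) < τ.p i := by
    rw [Equiv.apply_symm_apply, Fin.lt_def]
    simp only
    omega
  have h5 := h3 _ _ h4
  rw [hi] at h5
  exact absurd (Y_one_le (h1 (τ.p.symm ⟨0, hn⟩))) (not_le.2 h5)

section minlemmas

variable {M : ℕ} {τ : Pat} {T : Finset ℕ}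

theorem H_one_iff (hT : ∀ i ∈ T, 1 < i ∧ i < M) {r : Fin τ.n} (hr : (τ.p r : ℕ) = 0)
    (hr0 : (r : ℕ) = 0) : H M τ (insert 1 T) ↔ H M (rem τ) T := by
  have huniq : ∀ i : Fin τ.n, (τ.p i : ℕ) = 0 → i = r := fun i hi =>
    τ.p.injective (Fin.ext (by omega))
  unfold H rem
  rw [has_sub_iff]
  constructor
  · rintro ⟨e, h1, h2, h3⟩
    have h1' : ∀ i, e i = 1 ∨ e i ∈ T := fun i => by simpa using h1 i
    refine ⟨e, ?_, fun i _ j _ => h2 i j, fun i _ j _ => h3 i j⟩
    intro i hi
    simp only [Finset.mem_filter, Finset.mem_univ, true_and] at hi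
    rcases h1' i with h | h
    · exfalso
      apply hi
      refine used_min (M := M) (fun j => ?_) h3 h
      rcases h1' j with h | h
      · have hMr : e i < M ∨ T = ∅ := by
          by_cases hT0 : T = ∅
          · exact Or.inr hT0
          · obtain ⟨t, ht⟩ := Finset.nonempty_iff_ne_empty.2 hT0
            have := hT t ht
            left; omega
        rcases hMr with h' | h'
        · omega
        · exfalso
          subst h'
          -- all points are mapped to 1, so i = j = r
          have hall : ∀ j, e j = 1 := fun j => by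
            rcases h1' j with h | h
            · exact h
            · simp at h
          have hir : i ≠ r := by
            rintro rfl
            exact hi hr
          rcases lt_or_gt_of_ne hir with h4 | h4
          · have h5 : e i < e r := h2 _ _ h4
            rw [hall, hall] at h5; omega
          · have h5 : e r < e i := h2 _ _ h4
            rw [hall, hall] at h5; omega
      · exact (hT _ h).2
    · exact_mod_cast h
  · rintro ⟨g, h1, h2, h3⟩
    have h1' : ∀ i : Fin τ.n, (τ.p i : ℕ) ≠ 0 → g i ∈ T := fun i hi => by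
      have := h1 i (by simpa using hi)
      exact_mod_cast this
    refine ⟨fun i => if (τ.p i : ℕ) = 0 then 1 else g i, ?_, ?_, ?_⟩
    · intro i
      by_cases hi : (τ.p i : ℕ) = 0
      · simp [hi]
      · simp only [hi, if_false]
        have := h1' i hi
        simp [this]
    · intro i j hij
      have hj : (τ.p j : ℕ) ≠ 0 := by
        intro hj
        have := huniq j hj
        rw [Fin.lt_def, this] at hij
        omega
      by_cases hi : (τ.p i : ℕ) = 0
      · simp only [hi, hj, if_false, if_true]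
        exact (hT _ (h1' j hj)).1
      · simp only [hi, hj, if_false]
        exact h2 i (by simpa using hi) j (by simpa using hj) hij
    · intro i j hij
      have hj : (τ.p j : ℕ) ≠ 0 := by
        rw [Fin.lt_def] at hij
        omega
      by_cases hi : (τ.p i : ℕ) = 0
      · simp only [hi, hj, if_false, if_true]
        have h4 := hT _ (h1' j hj)
        exact Y_one_lt (by omega) h4.2
      · simp only [hi, hj, if_false]
        exact h3 i (by simpa using hi) j (by simpa using hj) hij

theorem H_pos0 (hM : 1 < M) (hT : ∀ i ∈ T, 1 < i ∧ i < M) {r : Fin τ.n} (hr : (τ.p r : ℕ) = 0)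
    (hr0 : (r : ℕ) = 0) : H M τ (insert 0 (insert 1 T)) ↔ H M (rem τ) T := by
  constructor
  · intro h
    unfold H rem
    rw [has_sub_iff]
    obtain ⟨e, h1, h2, h3⟩ := h
    have h1' : ∀ i, e i = 0 ∨ e i = 1 ∨ e i ∈ T := fun i => by simpa using h1 i
    refine ⟨e, ?_, fun i _ j _ => h2 i j, fun i _ j _ => h3 i j⟩
    intro i hi
    simp only [Finset.mem_filter, Finset.mem_univ, true_and] at hi
    rcases h1' i with h | h | h
    · exfalso
      have hir : r < i := by
        rw [Fin.lt_def]
        have : (i : ℕ) ≠ r := by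
          intro h'
          have : i = r := Fin.ext h'
          rw [this] at hi
          exact hi hr
        omega
      have h4 : e r < e i := h2 _ _ hir
      omega
    · exfalso
      apply hi
      refine used_min (M := M) (fun j => ?_) h3 h
      rcases h1' j with h | h | h
      · omega
      · omega
      · exact (hT _ h).2
    · exact_mod_cast h
  · intro h
    exact ((H_one_iff hT hr hr0).2 h).mono (Finset.subset_insert _ _)

theorem H_pos1 (hM : 1 < M) (hT : ∀ i ∈ T, 1 < i ∧ i < M) {r : Fin τ.n} (hr : (τ.p r : ℕ) = 0)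
    (hr1 : (r : ℕ) = 1) : H M τ (insert 0 (insert 1 T)) ↔ H M (rem τ) (insert 0 T) := by
  have huniq : ∀ i : Fin τ.n, (τ.p i : ℕ) = 0 → i = r := fun i hi =>
    τ.p.injective (Fin.ext (by omega))
  unfold H rem
  rw [has_sub_iff]
  constructor
  · rintro ⟨e, h1, h2, h3⟩
    have h1' : ∀ i, e i = 0 ∨ e i = 1 ∨ e i ∈ T := fun i => by simpa using h1 i
    refine ⟨e, ?_, fun i _ j _ => h2 i j, fun i _ j _ => h3 i j⟩
    intro i hi
    simp only [Finset.mem_filter, Finset.mem_univ, true_and] at hi
    rcases h1' i with h | h | h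
    · simp [h]
    · exfalso
      apply hi
      refine used_min (M := M) (fun j => ?_) h3 h
      rcases h1' j with h | h | h
      · omega
      · omega
      · exact (hT _ h).2
    · simp [h]
  · rintro ⟨g, h1, h2, h3⟩
    have hn : 0 < τ.n := by have := r.2; omega
    -- the first point
    obtain ⟨z, hz⟩ : ∃ z : Fin τ.n, (z : ℕ) = 0 := ⟨⟨0, hn⟩, rfl⟩
    have hzr : z ≠ r := by
      rintro rfl
      omega
    have hz0 : (τ.p z : ℕ) ≠ 0 := fun h => hzr (huniq z h)
    have h1' : ∀ i : Fin τ.n, (τ.p i : ℕ) ≠ 0 → g i = 0 ∨ g i ∈ T := fun i hi => by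
      have := h1 i (by simpa using hi)
      simpa using this
    have h2' : ∀ i j : Fin τ.n, (τ.p i : ℕ) ≠ 0 → (τ.p j : ℕ) ≠ 0 → i < j → g i < g j :=
      fun i j hi hj => h2 i (by simpa using hi) j (by simpa using hj)
    have h3' : ∀ i j : Fin τ.n, (τ.p i : ℕ) ≠ 0 → (τ.p j : ℕ) ≠ 0 → τ.p i < τ.p j →
      Y M (g i) < Y M (g j) :=
      fun i j hi hj => h3 i (by simpa using hi) j (by simpa using hj)
    have hbig : ∀ i : Fin τ.n, (τ.p i : ℕ) ≠ 0 → i ≠ z → g i ∈ T ∧ g z < g i := by
      intro i hi hiz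
      have h4 : z < i := by
        rw [Fin.lt_def]
        have : (i : ℕ) ≠ z := fun h => hiz (Fin.ext h)
        omega
      have h5 := h2' z i hz0 hi h4
      rcases h1' i hi with h6 | h6
      · omega
      · exact ⟨h6, h5⟩
    have hgz : g z ≠ 1 := by
      rcases h1' z hz0 with h | h
      · omega
      · have := (hT _ h).1; omega
    refine ⟨fun i => if (τ.p i : ℕ) = 0 then 1 else if i = z then 0 else g i, ?_, ?_, ?_⟩
    · intro i
      by_cases hi : (τ.p i : ℕ) = 0
      · simp [hi]
      · by_cases hiz : i = z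
        · simp [hi, hiz, hz0]
        · simp only [hi, hiz, if_false]
          have := (hbig i hi hiz).1
          simp [this]
    · intro i j hij
      by_cases hi : (τ.p i : ℕ) = 0
      · have hi' := huniq i hi
        have hj : (τ.p j : ℕ) ≠ 0 := fun hj => by
          rw [huniq j hj, hi'] at hij; exact lt_irrefl _ hij
        have hjz : j ≠ z := by
          rintro rfl
          rw [Fin.lt_def] at hij; omega
        simp only [hi, hj, hjz, if_true, if_false]
        exact (hT _ (hbig j hj hjz).1).1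
      · by_cases hj : (τ.p j : ℕ) = 0
        · have hj' := huniq j hj
          have hiz : i = z := by
            apply Fin.ext
            rw [Fin.lt_def, hj'] at hij
            omega
          simp only [hi, hj, hiz, hz0, if_true, if_false]
          omega
        · have hjz : j ≠ z := by
            rintro rfl
            rw [Fin.lt_def] at hij; omega
          by_cases hiz : i = z
          · simp only [hi, hj, hiz, hjz, hz0, if_true, if_false]
            have := (hT _ (hbig j hj hjz).1).1
            omega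
          · simp only [hi, hj, hiz, hjz, if_false]
            exact h2' i j hi hj hij
    · intro i j hij
      have hj : (τ.p j : ℕ) ≠ 0 := by
        rw [Fin.lt_def] at hij
        omega
      by_cases hi : (τ.p i : ℕ) = 0
      · simp only [hi, hj, if_true, if_false]
        by_cases hjz : j = z
        · simp only [hjz, if_true]
          exact Y_one_lt (by omega) (by omega)
        · simp only [hjz, if_false]
          have h4 := hT _ (hbig j hj hjz).1
          exact Y_one_lt (by omega) h4.2
      · have hne : i ≠ j := fun h => by rw [h] at hij; exact lt_irrefl _ hij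
        have h5 := h3' i j hi hj hij
        by_cases hiz : i = z
        · have hjz : j ≠ z := fun h => hne (hiz.trans h.symm)
          simp only [hi, hj, hjz, hiz, hz0, if_true, if_false]
          rw [hiz] at h5
          obtain ⟨h6, h7⟩ := hbig j hj hjz
          have h8 := hT _ h6
          rw [Y_lt_iff h7 hgz (by omega)] at h5
          rw [Y_lt_iff (by omega) (by omega) (by omega)]
          exact h5
        · by_cases hjz : j = z
          · simp only [hi, hj, hjz, hiz, hz0, if_true, if_false]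
            rw [hjz] at h5
            obtain ⟨h6, h7⟩ := hbig i hi hiz
            have h8 := hT _ h6
            rw [Y_gt_iff h7 hgz (by omega)] at h5
            rw [Y_gt_iff (by omega) (by omega) (by omega)]
            exact h5
          · simp only [hi, hj, hjz, hiz, if_false]
            exact h5

theorem H_pos2 (hM : 1 < M) (hT : ∀ i ∈ T, 1 < i ∧ i < M) {r : Fin τ.n} (hr : (τ.p r : ℕ) = 0)
    (hr2 : 2 ≤ (r : ℕ)) : H M τ (insert 0 (insert 1 T)) ↔ H M τ (insert 0 T) := by
  have huniq : ∀ i : Fin τ.n, (τ.p i : ℕ) = 0 → i = r := fun i hi =>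
    τ.p.injective (Fin.ext (by omega))
  constructor
  · rintro ⟨e, h1, h2, h3⟩
    have h1' : ∀ i, e i = 0 ∨ e i = 1 ∨ e i ∈ T := fun i => by simpa using h1 i
    refine ⟨e, ?_, h2, h3⟩
    intro i
    rcases h1' i with h | h | h
    · simp [h]
    · exfalso
      have h4 : (τ.p i : ℕ) = 0 := by
        refine used_min (M := M) (fun j => ?_) h3 h
        rcases h1' j with h | h | h
        · omega
        · omega
        · exact (hT _ h).2
      have h5 := huniq i h4
      subst h5
      have hn := i.2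
      have h6 : e ⟨0, by omega⟩ < e ⟨1, by omega⟩ := h2 _ _ (by rw [Fin.lt_def]; simp)
      have h7 : e ⟨1, by omega⟩ < e i := h2 _ _ (by rw [Fin.lt_def]; simp only; omega)
      omega
    · simp [h]
  · intro h
    exact h.mono (by
      intro i hi
      simp only [Finset.mem_insert] at hi ⊢
      tauto)

theorem H_one_pos (hM : 1 < M) (hT : ∀ i ∈ T, 1 < i ∧ i < M) {r : Fin τ.n}
    (hr : (τ.p r : ℕ) = 0) (hr1 : 1 ≤ (r : ℕ)) : H M τ (insert 1 T) ↔ H M τ T := by
  have huniq : ∀ i : Fin τ.n, (τ.p i : ℕ) = 0 → i = r := fun i hi =>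
    τ.p.injective (Fin.ext (by omega))
  constructor
  · rintro ⟨e, h1, h2, h3⟩
    have h1' : ∀ i, e i = 1 ∨ e i ∈ T := fun i => by simpa using h1 i
    refine ⟨e, ?_, h2, h3⟩
    intro i
    rcases h1' i with h | h
    · exfalso
      have h4 : (τ.p i : ℕ) = 0 := by
        refine used_min (M := M) (fun j => ?_) h3 h
        rcases h1' j with h | h
        · omega
        · exact (hT _ h).2
      have h5 := huniq i h4
      subst h5
      have hn := i.2
      have h6 : e ⟨0, by omega⟩ < e i := h2 _ _ (by rw [Fin.lt_def]; simp only; omega)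
      rcases h1' ⟨0, by omega⟩ with h7 | h7
      · omega
      · have := (hT _ h7).1
        omega
    · simp [h]
  · intro h
    exact h.mono (Finset.subset_insert _ _)

/-- the first letter can be replaced by the base point -/
theorem H_base {a b : ℕ} (ha : a ≠ 1) (hb : b ≠ 1) (hT : ∀ i ∈ T, a < i ∧ b < i ∧ i ≠ 1)
    (h : H M τ (insert a T)) : H M τ (insert b T) := by
  obtain ⟨e, h1, h2, h3⟩ := h
  have h1' : ∀ i, e i = a ∨ e i ∈ T := fun i => by simpa using h1 i
  refine ⟨fun i => if e i = a then b else e i, ?_, ?_, ?_⟩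
  · intro i
    rcases h1' i with h | h
    · simp [h]
    · have : e i ≠ a := by have := (hT _ h).1; omega
      simp [h, this]
  · intro i j hij
    have h4 : e i < e j := h2 i j hij
    have hj : e j ≠ a := by
      intro hj
      rcases h1' i with h | h
      · omega
      · have := (hT _ h).1; omega
    have hj' : e j ∈ T := (h1' j).resolve_left hj
    by_cases hi : e i = a
    · simp only [hi, hj, if_true, if_false]
      exact (hT _ hj').2.1
    · simp only [hi, hj, if_false]
      exact h4
  · intro i j hij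
    have h4 := h3 i j hij
    by_cases hi : e i = a
    · by_cases hj : e j = a
      · rw [hi, hj] at h4; exact absurd h4 (lt_irrefl _)
      · have hj' := hT _ ((h1' j).resolve_left hj)
        simp only [hi, hj, if_true, if_false]
        rw [hi, Y_lt_iff hj'.1 ha hj'.2.2] at h4
        rw [Y_lt_iff hj'.2.1 hb hj'.2.2]; exact h4
    · by_cases hj : e j = a
      · have hi' := hT _ ((h1' i).resolve_left hi)
        simp only [hi, hj, if_true, if_false]
        rw [hj, Y_gt_iff hi'.1 ha hi'.2.2] at h4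
        rw [Y_gt_iff hi'.2.1 hb hi'.2.2]; exact h4
      · simp only [hi, hj, if_false]
        exact h4

end minlemmas


section sums
open scoped Classical

/-- signed sum over the subsets of the letters `a, …, m-1` -/
noncomputable def Sm (M : ℕ) (B : Finset ℕ) (a m : ℕ) (τ : Pat) : ℤ :=
  ∑ T ∈ (Ico a m).powerset, (-1 : ℤ) ^ T.card * (if H M τ (B ∪ T) then 1 else 0)

theorem Sm_succ (M : ℕ) (B : Finset ℕ) {a m : ℕ} (ham : a ≤ m) (τ : Pat) :
    Sm M B a (m + 1) τ = ∑ T ∈ (Ico a m).powerset, (-1 : ℤ) ^ T.card *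
      ((if H M τ (B ∪ T) then 1 else 0) - (if H M τ (insert m (B ∪ T)) then 1 else 0)) := by
  unfold Sm
  have h1 : Ico a (m + 1) = insert m (Ico a m) := by
    ext i
    simp only [Finset.mem_Ico, Finset.mem_insert]
    omega
  have hm : m ∉ Ico a m := by simp
  rw [h1, Finset.sum_powerset_insert hm, ← Finset.sum_add_distrib]
  refine Finset.sum_congr rfl ?_
  intro T hT
  have hmT : m ∉ T := fun h => hm (Finset.mem_powerset.1 hT h)
  rw [Finset.card_insert_of_notMem hmT, Finset.union_insert, pow_succ]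
  ring

/-- the other end: peeling off the first letter -/
theorem Sm_first (M : ℕ) (B : Finset ℕ) {a m : ℕ} (ham : a < m) (τ : Pat) :
    Sm M B a m τ = Sm M B (a + 1) m τ - Sm M (insert a B) (a + 1) m τ := by
  unfold Sm
  have h1 : Ico a m = insert a (Ico (a + 1) m) := by
    ext i
    simp only [Finset.mem_Ico, Finset.mem_insert]
    omega
  have hm : a ∉ Ico (a + 1) m := by simp
  rw [h1, Finset.sum_powerset_insert hm, sub_eq_add_neg, ← Finset.sum_neg_distrib]
  congr 1
  refine Finset.sum_congr rfl ?_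
  intro T hT
  have hmT : a ∉ T := fun h => hm (Finset.mem_powerset.1 hT h)
  rw [Finset.card_insert_of_notMem hmT, Finset.union_insert, Finset.insert_union, pow_succ]
  ring

theorem Sm_congr {M : ℕ} {B B' : Finset ℕ} {a m : ℕ} {τ τ' : Pat}
    (h : ∀ T ⊆ Ico a m, (H M τ (B ∪ T) ↔ H M τ' (B' ∪ T))) :
    Sm M B a m τ = Sm M B' a m τ' := by
  unfold Sm
  refine Finset.sum_congr rfl ?_
  intro T hT
  simp only [h T (Finset.mem_powerset.1 hT)]

theorem H_of_n_one {M : ℕ} {τ : Pat} {s : Finset ℕ} (h : τ.n ≤ 1) (hs : s.Nonempty) :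
    H M τ s := by
  obtain ⟨z, hz⟩ := hs
  refine ⟨fun _ => z, fun _ => by exact_mod_cast hz, ?_, ?_⟩
  · intro i j hij
    have := i.2
    have := j.2
    rw [Fin.lt_def] at hij
    omega
  · intro i j hij
    have h1 := i.2
    have h2 := j.2
    have : i = j := Fin.ext (by omega)
    rw [this] at hij
    exact absurd hij (lt_irrefl _)

theorem base_union {T : Finset ℕ} (b : ℕ) : ({b} : Finset ℕ) ∪ T = insert b T := by
  rw [Finset.insert_eq]

/-- **toggling**: the wedge itself is the only pattern with nonzero signed sum -/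
theorem Sm_base (M : ℕ) {a m : ℕ} (ha : 2 ≤ a) (ham : a ≤ m) (hmM : m ≤ M) : ∀ τ : Pat,
    one ≤ τ → Sm M {0} a m τ
      = (-1) ^ (m - a) * (if H M τ (insert 0 (Ico a m)) ∧ τ.n = m - a + 1 then 1 else 0) := by
  induction m, ham using Nat.le_induction with
  | base =>
    intro τ hτ
    have h1 := one_le_iff.1 hτ
    unfold Sm
    simp only [Finset.Ico_self, Finset.powerset_empty, Finset.sum_singleton, Finset.card_empty,
      pow_zero, one_mul, Nat.sub_self, Finset.union_empty]
    have h2 : ({0} : Finset ℕ) = insert 0 ∅ := rfl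
    by_cases h : H M τ ({0} : Finset ℕ)
    · have h3 := h.card_le
      rw [Finset.card_singleton] at h3
      rw [if_pos h, if_pos ⟨by simpa using h, by omega⟩]
    · rw [if_neg h, if_neg]
      rintro ⟨h3, -⟩
      exact h (by simpa using h3)
  | succ m ham ih =>
    intro τ hτ
    have hn := one_le_iff.1 hτ
    have hcard : (insert 0 (Ico a m)).card = m - a + 1 := by
      rw [Finset.card_insert_of_notMem (by simp; omega), Nat.card_Ico]
    have hIco : Ico a (m + 1) = insert m (Ico a m) := by
      ext i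
      simp only [Finset.mem_Ico, Finset.mem_insert]
      omega
    have hSm : ∀ T ⊆ Ico a m, ∀ i ∈ (insert 0 T : Finset ℕ), i < m ∧ i ≠ 1 := by
      intro T hT i hi
      rw [Finset.mem_insert] at hi
      rcases hi with rfl | hi
      · omega
      · have := Finset.mem_Ico.1 (hT hi)
        omega
    have hfull : (insert 0 (Ico a (m + 1)) : Finset ℕ) = insert m (insert 0 (Ico a m)) := by
      rw [hIco, Finset.insert_comm]
    rw [Sm_succ M {0} ham τ]
    by_cases hn1 : τ.n = 1
    · rw [Finset.sum_eq_zero, if_neg, mul_zero]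
      · rintro ⟨-, h⟩
        omega
      · intro T hT
        rw [if_pos (H_of_n_one (by omega) ⟨0, by simp⟩),
          if_pos (H_of_n_one (by omega) ⟨0, by simp⟩)]
        ring
    by_cases hext : Ext m τ
    · -- the last point can be split off
      have h1 : ∀ T ∈ (Ico a m).powerset, (-1 : ℤ) ^ T.card *
          ((if H M τ ({0} ∪ T) then 1 else 0) - (if H M τ (insert m ({0} ∪ T)) then 1 else 0))
          = (-1 : ℤ) ^ T.card * (if H M τ ({0} ∪ T) then 1 else 0) -
            (-1 : ℤ) ^ T.card * (if H M (init τ) ({0} ∪ T) then 1 else 0) := by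
        intro T hT
        rw [base_union]
        simp only [H.ext_iff (hSm T (Finset.mem_powerset.1 hT)) (by omega) hext]
        ring
      rw [Finset.sum_congr rfl h1, Finset.sum_sub_distrib]
      have h2 := ih (by omega) τ hτ
      have hin := init_n (τ := τ) (by omega)
      have h3 := ih (by omega) (init τ) (one_le_iff.2 (by omega))
      unfold Sm at h2 h3
      rw [h2, h3]
      have h4 : ¬ (H M τ (insert 0 (Ico a m)) ∧ τ.n = m - a + 1) := by
        rintro ⟨h5, h6⟩
        obtain ⟨m', rfl⟩ : ∃ m', m = m' + 1 := ⟨m - 1, by omega⟩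
        have h7 : Ico a (m' + 1) = insert m' (Ico a m') := by
          ext i
          simp only [Finset.mem_Ico, Finset.mem_insert]
          omega
        by_cases h8 : Ext m' τ
        · have h9 := hext ⟨0, by omega⟩ ⟨τ.n - 1, by omega⟩ (by simp only; omega)
            (by rw [Fin.lt_def]; simp only; omega)
          have h10 := h8 ⟨0, by omega⟩ ⟨τ.n - 1, by omega⟩ (by simp only; omega)
            (by rw [Fin.lt_def]; simp only; omega)
          rcases Nat.mod_two_eq_zero_or_one m' with h11 | h11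
          · exact lt_asymm (h9.2 (by omega)) (h10.1 h11)
          · exact lt_asymm (h9.1 (by omega)) (h10.2 h11)
        · rw [h7, Finset.insert_comm] at h5
          have h9 := H.of_not_ext (by
            intro i hi
            rw [Finset.mem_insert] at hi
            rcases hi with rfl | hi
            · omega
            · have := Finset.mem_Ico.1 hi
              omega) (by omega) h8 h5
          have h10 := h9.card_le
          rw [Finset.card_insert_of_notMem (by simp; omega), Nat.card_Ico] at h10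
          omega
      rw [if_neg h4, mul_zero, zero_sub, hfull]
      have h5 : (H M τ (insert m (insert 0 (Ico a m))) ∧ τ.n = m + 1 - a + 1) ↔
          (H M (init τ) (insert 0 (Ico a m)) ∧ (init τ).n = m - a + 1) := by
        rw [H.ext_iff (hSm _ (le_refl _)) (by omega) hext]
        constructor
        · rintro ⟨h6, h7⟩; exact ⟨h6, by omega⟩
        · rintro ⟨h6, h7⟩; exact ⟨h6, by omega⟩
      simp only [h5]
      have h6 : m + 1 - a = m - a + 1 := by omega
      rw [h6, pow_succ]
      ring
    · have h1 : ∀ T ∈ (Ico a m).powerset, (-1 : ℤ) ^ T.card *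
          ((if H M τ ({0} ∪ T) then 1 else 0) - (if H M τ (insert m ({0} ∪ T)) then 1 else 0))
          = 0 := by
        intro T hT
        rw [base_union]
        have h2 : H M τ (insert m (insert 0 T)) ↔ H M τ (insert 0 T) :=
          ⟨H.of_not_ext (hSm T (Finset.mem_powerset.1 hT)) (by omega) hext,
            fun h => h.mono (Finset.subset_insert _ _)⟩
        simp only [h2]
        ring
      rw [Finset.sum_eq_zero h1, if_neg, mul_zero]
      rintro ⟨h2, h3⟩
      rw [hfull] at h2
      have h4 := (H.of_not_ext (hSm _ (le_refl _)) (by omega) hext h2).card_le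
      rw [hcard] at h4
      omega

/-- the exchange identity for these configurations -/
theorem exch (M : ℕ) (B : Finset ℕ) (a m : ℕ) (hB : ∀ i ∈ B ∪ Ico a m, i < M) :
    ∑ τ ∈ Icc one (pat (fun i : ℕ => i) (Y M) (B ∪ Ico a m)), f τ * Sm M B a m τ
      = ∑ T ∈ (Ico a m).powerset, (-1 : ℤ) ^ T.card * (if (B ∪ T).card = 1 then 1 else 0) := by
  have hBT : ∀ T ∈ (Ico a m).powerset, ∀ i ∈ B ∪ T, i < M := fun T hT i hi =>
    hB i (Finset.union_subset_union_right (Finset.mem_powerset.1 hT) hi)
  have h1 := exchange (Ico a m).powerset (fun T => (-1 : ℤ) ^ T.card)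
    (fun T => pat (fun i : ℕ => i) (Y M) (B ∪ T)) (pat (fun i : ℕ => i) (Y M) (B ∪ Ico a m))
    (by
      intro T hT _
      rw [le_pat hB]
      exact ((le_pat (hBT T hT)).1 le_rfl).mono
        (Finset.union_subset_union_right (Finset.mem_powerset.1 hT)))
  have h2 : ∀ T ∈ (Ico a m).powerset, (-1 : ℤ) ^ T.card *
      (if pat (fun i : ℕ => i) (Y M) (B ∪ T) = one then 1 else 0)
      = (-1 : ℤ) ^ T.card * (if (B ∪ T).card = 1 then 1 else 0) := by
    intro T hT
    simp only [eq_one_iff, pat_n' (hBT T hT)]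
  rw [← Finset.sum_congr rfl h2, h1]
  refine Finset.sum_congr rfl ?_
  intro τ hτ
  congr 1
  unfold Sm
  rw [Finset.sum_filter]
  refine Finset.sum_congr rfl ?_
  intro T hT
  simp only [le_pat (hBT T hT)]
  split_ifs <;> simp

/-- a signed sum of indicator functions of given permutations -/
theorem sum_ind {π σ : Pat} (h1 : one ≤ σ) (h2 : σ ≤ π) (c : ℤ) :
    ∑ τ ∈ Icc one π, f τ * (c * (if τ = σ then 1 else 0)) = c * f σ := by
  rw [Finset.sum_eq_single σ]
  · simp; ring
  · intro τ _ hne
    rw [if_neg hne]; ring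
  · intro h
    exact absurd (Finset.mem_Icc.2 ⟨h1, h2⟩) h

theorem sum_pow_zero {a m : ℕ} (h : a < m) :
    ∑ T ∈ (Ico a m).powerset, (-1 : ℤ) ^ T.card = 0 := by
  rw [Finset.sum_powerset_neg_one_pow_card_of_nonempty]
  exact ⟨a, by simp [h]⟩

/-- the wedge with base point `0` and letters `a, …, m-1` -/
noncomputable def V (M a m : ℕ) : Pat := pat (fun i : ℕ => i) (Y M) (insert 0 (Ico a m))

theorem V_card {a m : ℕ} (ha : 2 ≤ a) (ham : a ≤ m) :
    (insert 0 (Ico a m) : Finset ℕ).card = m - a + 1 := by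
  rw [Finset.card_insert_of_notMem (by simp; omega), Nat.card_Ico]

theorem V_lt {M a m : ℕ} (ha : 2 ≤ a) (ham : a ≤ m) (hmM : m ≤ M) (hM : 0 < M) :
    ∀ i ∈ (insert 0 (Ico a m) : Finset ℕ), i < M := by
  intro i hi
  rw [Finset.mem_insert, Finset.mem_Ico] at hi
  omega

theorem eq_V {M a m : ℕ} (ha : 2 ≤ a) (ham : a ≤ m) (hmM : m ≤ M) {τ : Pat} :
    τ = V M a m ↔ H M τ (insert 0 (Ico a m)) ∧ τ.n = m - a + 1 := by
  unfold V
  rw [eq_pat (V_lt ha ham hmM (by omega)), V_card ha ham]

theorem f_V {M a m : ℕ} (ha : 2 ≤ a) (ham : a ≤ m) (hmM : m ≤ M) :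
    f (V M a m) = (-1) ^ (m - a) := by
  have h1 := exch M {0} a m (by
    rw [base_union]
    exact V_lt ha ham hmM (by omega))
  have h2 : ∑ T ∈ (Ico a m).powerset, (-1 : ℤ) ^ T.card *
      (if (({0} : Finset ℕ) ∪ T).card = 1 then 1 else 0) = 1 := by
    rw [Finset.sum_eq_single ∅]
    · simp
    · intro T hT hne
      rw [if_neg, mul_zero]
      rw [base_union]
      intro h
      have h3 : 0 ∉ T := fun h0 => by
        have := Finset.mem_Ico.1 (Finset.mem_powerset.1 hT h0)
        omega
      rw [Finset.card_insert_of_notMem h3] at h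
      exact hne (Finset.card_eq_zero.1 (by omega))
    · intro h
      exact absurd (Finset.empty_mem_powerset _) h
  rw [h2, base_union] at h1
  have h3 : ∀ τ ∈ Icc one (pat (fun i : ℕ => i) (Y M) (insert 0 (Ico a m))),
      f τ * Sm M {0} a m τ = f τ * ((-1) ^ (m - a) * (if τ = V M a m then 1 else 0)) := by
    intro τ hτ
    rw [Sm_base M ha ham hmM τ (Finset.mem_Icc.1 hτ).1]
    simp only [eq_V ha ham hmM]
  rw [Finset.sum_congr rfl h3] at h1
  have h4 : one ≤ V M a m := by
    rw [one_le_iff]
    unfold V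
    rw [pat_n' (V_lt ha ham hmM (by omega)), V_card ha ham]
    omega
  rw [sum_ind h4 (show V M a m ≤ pat (fun i : ℕ => i) (Y M) (insert 0 (Ico a m)) from le_refl _)]
    at h1
  have h5 : ((-1 : ℤ)) ^ (m - a) * (-1) ^ (m - a) = 1 := by
    rw [← pow_add, ← two_mul]
    simp
  calc f (V M a m) = ((-1 : ℤ) ^ (m - a) * (-1) ^ (m - a)) * f (V M a m) := by rw [h5]; ring
    _ = (-1) ^ (m - a) * ((-1) ^ (m - a) * f (V M a m)) := by ring
    _ = (-1) ^ (m - a) := by rw [h1]; ring


theorem exists_min {τ : Pat} (h : 1 ≤ τ.n) : ∃ r : Fin τ.n, (τ.p r : ℕ) = 0 :=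
  ⟨τ.p.symm ⟨0, by omega⟩, by rw [Equiv.apply_symm_apply]⟩

/-- the wedge with base point `a`, letters `a+1, …, m-1`, and the point `1` below on the left -/
noncomputable def Q (M a m : ℕ) : Pat := pat (fun i : ℕ => i) (Y M) (insert 1 (Ico a m))

theorem Q_lt {M a m : ℕ} (hmM : m ≤ M) (hM : 1 < M) :
    ∀ i ∈ (insert 1 (Ico a m) : Finset ℕ), i < M := by
  intro i hi
  rw [Finset.mem_insert, Finset.mem_Ico] at hi
  omega

theorem Q_card {a m : ℕ} (ha : 2 ≤ a) (ham : a ≤ m) :
    (insert 1 (Ico a m) : Finset ℕ).card = m - a + 1 := by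
  rw [Finset.card_insert_of_notMem (by simp; omega), Nat.card_Ico]

theorem eq_Q {M a m : ℕ} (ha : 2 ≤ a) (ham : a ≤ m) (hmM : m ≤ M) {τ : Pat} :
    τ = Q M a m ↔ H M τ (insert 1 (Ico a m)) ∧ τ.n = m - a + 1 := by
  unfold Q
  rw [eq_pat (Q_lt hmM (by omega)), Q_card ha ham]

theorem Ico_succ {a m : ℕ} (h : a < m) : Ico a m = insert a (Ico (a + 1) m) := by
  ext i
  simp only [Finset.mem_Ico, Finset.mem_insert]
  omega

theorem H_base_iff {M a : ℕ} (ha : 2 ≤ a) {τ : Pat} {T : Finset ℕ} (hT : ∀ i ∈ T, a < i) :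
    H M τ (insert a T) ↔ H M τ (insert 0 T) := by
  constructor
  · exact H_base (by omega) (by omega) (fun i hi => by have := hT i hi; omega)
  · exact H_base (by omega) (by omega) (fun i hi => by have := hT i hi; omega)

theorem eq_Q_pos0 {M a m : ℕ} (ha : 2 ≤ a) (ham : a < m) (hmM : m ≤ M) {τ : Pat} {r : Fin τ.n}
    (hr : (τ.p r : ℕ) = 0) (hr0 : (r : ℕ) = 0) :
    (H M (rem τ) (insert 0 (Ico (a + 1) m)) ∧ (rem τ).n = m - (a + 1) + 1) ↔ τ = Q M a m := by
  have hn : 1 ≤ τ.n := by have := r.2; omega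
  have h1 := rem_n hn
  rw [eq_Q ha ham.le hmM, H_one_iff (by
    intro i hi
    have := Finset.mem_Ico.1 hi
    omega) hr hr0, Ico_succ ham, H_base_iff ha (by
    intro i hi
    have := Finset.mem_Ico.1 hi
    omega)]
  constructor
  · rintro ⟨h2, h3⟩; exact ⟨h2, by omega⟩
  · rintro ⟨h2, h3⟩; exact ⟨h2, by omega⟩

theorem ne_Q {M a m : ℕ} (ha : 2 ≤ a) (ham : a < m) (hmM : m ≤ M) {τ : Pat} {r : Fin τ.n}
    (hr : (τ.p r : ℕ) = 0) (hr0 : 1 ≤ (r : ℕ)) : τ ≠ Q M a m := by
  rw [ne_eq, eq_Q ha ham.le hmM]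
  rintro ⟨h1, h2⟩
  rw [H_one_pos (by omega) (by
    intro i hi
    have := Finset.mem_Ico.1 hi
    omega) hr hr0] at h1
  have h3 := h1.card_le
  rw [Nat.card_Ico] at h3
  omega

theorem V_pos {M a m : ℕ} (ha : 2 ≤ a) (ham : a < m) (hmM : m ≤ M) (hm : m % 2 = 0) {τ : Pat}
    {r : Fin τ.n} (hr : (τ.p r : ℕ) = 0) (hτ : τ = V M a m) :
    (r : ℕ) + 1 = τ.n ∧ τ.n = m - a + 1 := by
  rw [eq_V ha ham.le hmM] at hτ
  obtain ⟨h1, h2⟩ := hτ
  obtain ⟨m', rfl⟩ : ∃ m', m = m' + 1 := ⟨m - 1, by omega⟩
  have h7 : Ico a (m' + 1) = insert m' (Ico a m') := by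
    ext i
    simp only [Finset.mem_Ico, Finset.mem_insert]
    omega
  have h8 : Ext m' τ := by
    by_contra h8
    rw [h7, Finset.insert_comm] at h1
    have h9 := H.of_not_ext (by
      intro i hi
      rw [Finset.mem_insert] at hi
      rcases hi with rfl | hi
      · omega
      · have := Finset.mem_Ico.1 hi
        omega) (by omega) h8 h1
    have h10 := h9.card_le
    rw [Finset.card_insert_of_notMem (by simp; omega), Nat.card_Ico] at h10
    omega
  refine ⟨?_, h2⟩
  by_contra h
  have hrn := r.2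
  have h9 := (h8 r ⟨τ.n - 1, by omega⟩ (by simp only; omega)
    (by rw [Fin.lt_def]; simp only; omega)).2 (by omega)
  rw [Fin.lt_def] at h9
  omega

theorem Sm_Q {M a m : ℕ} (ha : 2 ≤ a) (ham : a < m) (hmM : m ≤ M) (hm : m % 2 = 0) (τ : Pat)
    (hτ : one ≤ τ) : Sm M {1, a} (a + 1) m τ = (-1) ^ (m - (a + 1)) * (if τ = Q M a m then 1 else 0)
      + (-1) ^ (m - (a + 1)) * (if τ = V M (a + 1) m then 1 else 0) := by
  have hn := one_le_iff.1 hτ
  have hQn : τ = Q M a m → τ.n = m - a + 1 := fun h => ((eq_Q ha ham.le hmM).1 h).2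
  have hVn : τ = V M (a + 1) m → τ.n = m - (a + 1) + 1 := fun h =>
    ((eq_V (by omega) (by omega) hmM).1 h).2
  by_cases hn1 : τ.n = 1
  · have h1 : Sm M {1, a} (a + 1) m τ = ∑ T ∈ (Ico (a + 1) m).powerset, (-1 : ℤ) ^ T.card := by
      unfold Sm
      refine Finset.sum_congr rfl ?_
      intro T _
      rw [if_pos (H_of_n_one (by omega) ⟨1, by simp⟩), mul_one]
    rw [h1, if_neg (fun h => by have := hQn h; omega)]
    by_cases ham' : a + 1 = m
    · subst ham'
      have h2 : τ = V M (a + 1) (a + 1) := by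
        rw [eq_V (by omega) le_rfl hmM]
        refine ⟨H_of_n_one (by omega) ⟨0, by simp⟩, by omega⟩
      rw [if_pos h2]
      simp
    · rw [sum_pow_zero (by omega), if_neg (fun h => by have := hVn h; omega)]
      ring
  obtain ⟨r, hr⟩ := exists_min (τ := τ) hn
  have hU : ∀ T : Finset ℕ, ({1, a} : Finset ℕ) ∪ T = insert 1 (insert a T) := by
    intro T
    rw [Finset.insert_union, base_union]
  by_cases hr0 : (r : ℕ) = 0
  · have h1 : Sm M {1, a} (a + 1) m τ = Sm M {0} (a + 1) m (rem τ) := by
      apply Sm_congr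
      intro T hT
      have hT' : ∀ i ∈ T, a < i ∧ i < m := fun i hi => by
        have := Finset.mem_Ico.1 (hT hi)
        omega
      rw [hU, base_union, H_one_iff (by
        intro i hi
        rw [Finset.mem_insert] at hi
        rcases hi with rfl | hi
        · omega
        · have := hT' i hi
          omega) hr hr0, H_base_iff ha (fun i hi => (hT' i hi).1)]
    have h2 := rem_n (τ := τ) (by omega)
    rw [h1, Sm_base M (by omega) (by omega) hmM _ (one_le_iff.2 (by omega))]
    have h4 : ¬ (τ = V M (a + 1) m) := by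
      intro h
      by_cases ham' : a + 1 = m
      · have := hVn h
        omega
      · have := V_pos (by omega) (by omega) hmM hm hr h
        omega
    rw [if_neg h4, mul_zero, add_zero]
    simp only [eq_Q_pos0 ha ham hmM hr hr0]
  · have h1 : Sm M {1, a} (a + 1) m τ = Sm M {0} (a + 1) m τ := by
      apply Sm_congr
      intro T hT
      have hT' : ∀ i ∈ T, a < i ∧ i < m := fun i hi => by
        have := Finset.mem_Ico.1 (hT hi)
        omega
      rw [hU, base_union, H_one_pos (by omega) (by
        intro i hi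
        rw [Finset.mem_insert] at hi
        rcases hi with rfl | hi
        · omega
        · have := hT' i hi
          omega) hr (by omega), H_base_iff ha (fun i hi => (hT' i hi).1)]
    rw [h1, Sm_base M (by omega) (by omega) hmM _ hτ, if_neg (ne_Q ha ham hmM hr (by omega)),
      mul_zero, zero_add]
    simp only [eq_V (M := M) (τ := τ) (show 2 ≤ a + 1 by omega) (show a + 1 ≤ m by omega) hmM]

theorem V_one_le {M a m : ℕ} (ha : 2 ≤ a) (ham : a ≤ m) (hmM : m ≤ M) : one ≤ V M a m := by
  rw [one_le_iff]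
  unfold V
  rw [pat_n' (V_lt ha ham hmM (by omega)), V_card ha ham]
  omega

theorem Q_one_le {M a m : ℕ} (ha : 2 ≤ a) (ham : a ≤ m) (hmM : m ≤ M) : one ≤ Q M a m := by
  rw [one_le_iff]
  unfold Q
  rw [pat_n' (Q_lt hmM (by omega)), Q_card ha ham]
  omega

theorem f_Q {M a m : ℕ} (ha : 2 ≤ a) (ham : a < m) (hmM : m ≤ M) (hm : m % 2 = 0) :
    f (Q M a m) = - (-1) ^ (m - (a + 1)) := by
  have hU : ∀ T : Finset ℕ, ({1, a} : Finset ℕ) ∪ T = insert 1 (insert a T) := by
    intro T
    rw [Finset.insert_union, base_union]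
  have hU' : ({1, a} : Finset ℕ) ∪ Ico (a + 1) m = insert 1 (Ico a m) := by
    rw [hU, Ico_succ ham]
  have h1 := exch M {1, a} (a + 1) m (by
    rw [hU']
    exact Q_lt hmM (by omega))
  have h2 : ∑ T ∈ (Ico (a + 1) m).powerset, (-1 : ℤ) ^ T.card *
      (if (({1, a} : Finset ℕ) ∪ T).card = 1 then 1 else 0) = 0 := by
    apply Finset.sum_eq_zero
    intro T hT
    rw [if_neg, mul_zero]
    intro h
    have h3 : ({1, a} : Finset ℕ).card ≤ (({1, a} : Finset ℕ) ∪ T).card :=
      Finset.card_le_card Finset.subset_union_left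
    rw [Finset.card_pair (by omega)] at h3
    omega
  rw [h2, hU'] at h1
  have h3 : ∀ τ ∈ Icc one (pat (fun i : ℕ => i) (Y M) (insert 1 (Ico a m))),
      f τ * Sm M {1, a} (a + 1) m τ = f τ * ((-1) ^ (m - (a + 1)) * (if τ = Q M a m then 1 else 0))
      + f τ * ((-1) ^ (m - (a + 1)) * (if τ = V M (a + 1) m then 1 else 0)) := by
    intro τ hτ
    rw [Sm_Q ha ham hmM hm τ (Finset.mem_Icc.1 hτ).1]
    ring
  rw [Finset.sum_congr rfl h3, Finset.sum_add_distrib,
    sum_ind (Q_one_le ha ham.le hmM)
      (show Q M a m ≤ pat (fun i : ℕ => i) (Y M) (insert 1 (Ico a m)) from le_refl _),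
    sum_ind (V_one_le (by omega) (by omega) hmM) (by
      rw [le_pat (Q_lt hmM (by omega))]
      have h4 : H M (V M (a + 1) m) (insert 0 (Ico (a + 1) m)) :=
        ((eq_V (by omega) (by omega) hmM).1 rfl).1
      rw [← H_base_iff ha (by
        intro i hi
        have := Finset.mem_Ico.1 hi
        omega), ← Ico_succ ham] at h4
      exact h4.mono (Finset.subset_insert _ _)), f_V (by omega) (by omega) hmM] at h1
  have h5 : ((-1 : ℤ)) ^ (m - (a + 1)) * (-1) ^ (m - (a + 1)) = 1 := by
    rw [← pow_add, ← two_mul]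
    simp
  have h6 : ((-1 : ℤ)) ^ (m - (a + 1)) ≠ 0 := pow_ne_zero _ (by norm_num)
  have h7 : ((-1 : ℤ)) ^ (m - (a + 1)) * (f (Q M a m) + (-1) ^ (m - (a + 1))) = 0 := by
    linear_combination h1
  rcases mul_eq_zero.1 h7 with h8 | h8
  · exact absurd h8 h6
  · linarith

/-- the type 2 wedge with letters `2, …, m-1` -/
noncomputable def B (M m : ℕ) : Pat :=
  pat (fun i : ℕ => i) (Y M) (insert 0 (insert 1 (Ico 2 m)))

theorem B_lt {M m : ℕ} (hmM : m ≤ M) (hM : 1 < M) :
    ∀ i ∈ (insert 0 (insert 1 (Ico 2 m)) : Finset ℕ), i < M := by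
  intro i hi
  rw [Finset.mem_insert, Finset.mem_insert, Finset.mem_Ico] at hi
  omega

theorem B_card {m : ℕ} (hm : 2 ≤ m) :
    (insert 0 (insert 1 (Ico 2 m)) : Finset ℕ).card = m := by
  rw [Finset.card_insert_of_notMem (by simp), Finset.card_insert_of_notMem (by simp),
    Nat.card_Ico]
  omega

theorem eq_B {M m : ℕ} (hm : 2 ≤ m) (hmM : m ≤ M) {τ : Pat} :
    τ = B M m ↔ H M τ (insert 0 (insert 1 (Ico 2 m))) ∧ τ.n = m := by
  unfold B
  rw [eq_pat (B_lt hmM (by omega)), B_card hm]

/-- signed sum over sets of letters only -/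
theorem Sm_letters {M m : ℕ} (hmM : m ≤ M) {τ : Pat} {r : Fin τ.n} (hn : 2 ≤ τ.n)
    (hr : (τ.p r : ℕ) = 0) (hr0 : (r : ℕ) = 0) : ∀ k a : ℕ, 2 ≤ a → a + k = m →
    Sm M ∅ a m (rem τ) = - ∑ i ∈ Ico a m, (-1 : ℤ) ^ (m - (i + 1)) *
      (if τ = Q M i m then 1 else 0) := by
  intro k
  induction k with
  | zero =>
    intro a ha hak
    have : a = m := by omega
    subst this
    have h2 := rem_n (τ := τ) (by omega)
    unfold Sm
    simp only [Finset.Ico_self, Finset.powerset_empty, Finset.sum_singleton, Finset.card_empty,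
      pow_zero, one_mul, Finset.sum_empty, neg_zero, Finset.union_empty]
    rw [if_neg]
    intro h
    have h3 := h.card_le
    rw [Finset.card_empty] at h3
    omega
  | succ k ih =>
    intro a ha hak
    have ham : a < m := by omega
    have h2 := rem_n (τ := τ) (by omega)
    rw [Sm_first M ∅ ham, ih (a + 1) (by omega) (by omega), Ico_succ ham,
      Finset.sum_insert (by simp)]
    have h1 : Sm M (insert a ∅) (a + 1) m (rem τ) = Sm M {0} (a + 1) m (rem τ) := by
      apply Sm_congr
      intro T hT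
      rw [Finset.insert_union, Finset.empty_union, base_union]
      exact H_base_iff ha (fun i hi => by
        have := Finset.mem_Ico.1 (hT hi)
        omega)
    rw [h1, Sm_base M (by omega) (by omega) hmM _ (one_le_iff.2 (by omega))]
    simp only [eq_Q_pos0 ha ham hmM hr hr0]
    ring

theorem Sm_B {M m : ℕ} (hm4 : 4 ≤ m) (hmM : m ≤ M) (hm : m % 2 = 0) (τ : Pat)
    (hτ : one ≤ τ) : Sm M {0, 1} 2 m τ = 1 * (if τ = B M m then 1 else 0)
      + 1 * (if τ = V M 2 m then 1 else 0)
      + ∑ i ∈ Ico 2 m, (- (-1 : ℤ) ^ (m - (i + 1))) * (if τ = Q M i m then 1 else 0) := by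
  have hn := one_le_iff.1 hτ
  have hQn : ∀ i ∈ Ico 2 m, τ = Q M i m → τ.n = m - i + 1 := fun i hi h => by
    rw [Finset.mem_Ico] at hi
    exact ((eq_Q hi.1 hi.2.le hmM).1 h).2
  have hVn : τ = V M 2 m → τ.n = m - 2 + 1 := fun h => ((eq_V le_rfl (by omega) hmM).1 h).2
  have hBn : τ = B M m → τ.n = m := fun h => ((eq_B (by omega) hmM).1 h).2
  have hpar : ((-1 : ℤ)) ^ (m - 2) = 1 := by
    rw [neg_one_pow_eq_one_iff_even (by norm_num), Nat.even_iff]
    omega
  by_cases hn1 : τ.n = 1
  · have h1 : Sm M {0, 1} 2 m τ = ∑ T ∈ (Ico 2 m).powerset, (-1 : ℤ) ^ T.card := by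
      unfold Sm
      refine Finset.sum_congr rfl ?_
      intro T _
      rw [if_pos (H_of_n_one (by omega) ⟨0, by simp⟩), mul_one]
    rw [h1, sum_pow_zero (by omega), if_neg (fun h => by have := hBn h; omega),
      if_neg (fun h => by have := hVn h; omega), Finset.sum_eq_zero]
    · ring
    · intro i hi
      rw [if_neg, mul_zero]
      intro h
      have := hQn i hi h
      rw [Finset.mem_Ico] at hi
      omega
  obtain ⟨r, hr⟩ := exists_min (τ := τ) hn
  have h2 := rem_n (τ := τ) (by omega)
  have hU : ∀ T : Finset ℕ, ({0, 1} : Finset ℕ) ∪ T = insert 0 (insert 1 T) := by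
    intro T
    rw [Finset.insert_union, base_union]
  have hlet : ∀ T ⊆ Ico 2 m, ∀ i ∈ T, 1 < i ∧ i < M := fun T hT i hi => by
    have := Finset.mem_Ico.1 (hT hi)
    omega
  rcases Nat.lt_or_ge (r : ℕ) 1 with hr0 | hr0
  · have hr0' : (r : ℕ) = 0 := by omega
    have h1 : Sm M {0, 1} 2 m τ = Sm M ∅ 2 m (rem τ) := by
      apply Sm_congr
      intro T hT
      rw [hU, Finset.empty_union]
      exact H_pos0 (by omega) (hlet T hT) hr hr0'
    have h3 : ¬ (τ = B M m) := by
      intro h
      rw [eq_B (by omega) hmM] at h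
      rw [H_pos0 (by omega) (hlet _ (le_refl _)) hr hr0'] at h
      have h4 := h.1.card_le
      rw [Nat.card_Ico] at h4
      omega
    have h4 : ¬ (τ = V M 2 m) := by
      intro h
      have := V_pos le_rfl (by omega) hmM hm hr h
      omega
    rw [h1, Sm_letters hmM (by omega) hr hr0' (m - 2) 2 le_rfl (by omega), if_neg h3, if_neg h4,
      ← Finset.sum_neg_distrib, mul_zero, zero_add, zero_add]
    refine Finset.sum_congr rfl ?_
    intro i _
    ring
  · have hQ0 : ∑ i ∈ Ico 2 m, (- (-1 : ℤ) ^ (m - (i + 1))) * (if τ = Q M i m then 1 else 0)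
        = 0 := by
      apply Finset.sum_eq_zero
      intro i hi
      rw [Finset.mem_Ico] at hi
      rw [if_neg (ne_Q hi.1 hi.2 hmM hr hr0), mul_zero]
    rw [hQ0, add_zero]
    rcases Nat.lt_or_ge (r : ℕ) 2 with hr1 | hr1
    · have hr1' : (r : ℕ) = 1 := by omega
      have h1 : Sm M {0, 1} 2 m τ = Sm M {0} 2 m (rem τ) := by
        apply Sm_congr
        intro T hT
        rw [hU, base_union]
        exact H_pos1 (by omega) (hlet T hT) hr hr1'
      have h4 : ¬ (τ = V M 2 m) := by
        intro h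
        have := V_pos le_rfl (by omega) hmM hm hr h
        omega
      rw [h1, Sm_base M le_rfl (by omega) hmM _ (one_le_iff.2 (by omega)), hpar, if_neg h4,
        mul_zero, add_zero]
      have h5 : (H M (rem τ) (insert 0 (Ico 2 m)) ∧ (rem τ).n = m - 2 + 1) ↔ τ = B M m := by
        rw [eq_B (by omega) hmM, H_pos1 (by omega) (hlet _ (le_refl _)) hr hr1']
        constructor
        · rintro ⟨h6, h7⟩; exact ⟨h6, by omega⟩
        · rintro ⟨h6, h7⟩; exact ⟨h6, by omega⟩
      simp only [h5]
    · have h1 : Sm M {0, 1} 2 m τ = Sm M {0} 2 m τ := by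
        apply Sm_congr
        intro T hT
        rw [hU, base_union]
        exact H_pos2 (by omega) (hlet T hT) hr hr1
      have h4 : ¬ (τ = B M m) := by
        intro h
        rw [eq_B (by omega) hmM, H_pos2 (by omega) (hlet _ (le_refl _)) hr hr1] at h
        have h5 := h.1.card_le
        rw [V_card le_rfl (by omega)] at h5
        omega
      rw [h1, Sm_base M le_rfl (by omega) hmM _ hτ, hpar, if_neg h4, mul_zero, zero_add]
      simp only [eq_V (M := M) (τ := τ) le_rfl (show 2 ≤ m by omega) hmM]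

theorem f_B {M m : ℕ} (hm4 : 4 ≤ m) (hmM : m ≤ M) (hm : m % 2 = 0) :
    f (B M m) = - ((m : ℤ) - 1) := by
  have hU : ∀ T : Finset ℕ, ({0, 1} : Finset ℕ) ∪ T = insert 0 (insert 1 T) := by
    intro T
    rw [Finset.insert_union, base_union]
  have h1 := exch M {0, 1} 2 m (by
    rw [hU]
    exact B_lt hmM (by omega))
  have h2 : ∑ T ∈ (Ico 2 m).powerset, (-1 : ℤ) ^ T.card *
      (if (({0, 1} : Finset ℕ) ∪ T).card = 1 then 1 else 0) = 0 := by
    apply Finset.sum_eq_zero
    intro T hT
    rw [if_neg, mul_zero]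
    intro h
    have h3 : ({0, 1} : Finset ℕ).card ≤ (({0, 1} : Finset ℕ) ∪ T).card :=
      Finset.card_le_card Finset.subset_union_left
    rw [Finset.card_pair (by omega)] at h3
    omega
  rw [h2, hU] at h1
  have h3 : ∀ τ ∈ Icc one (pat (fun i : ℕ => i) (Y M) (insert 0 (insert 1 (Ico 2 m)))),
      f τ * Sm M {0, 1} 2 m τ = f τ * (1 * (if τ = B M m then 1 else 0))
      + f τ * (1 * (if τ = V M 2 m then 1 else 0))
      + ∑ i ∈ Ico 2 m, f τ * ((- (-1 : ℤ) ^ (m - (i + 1))) * (if τ = Q M i m then 1 else 0)) := by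
    intro τ hτ
    rw [Sm_B hm4 hmM hm τ (Finset.mem_Icc.1 hτ).1, mul_add, mul_add, Finset.mul_sum]
  have hBle : ∀ s : Finset ℕ, s ⊆ insert 0 (insert 1 (Ico 2 m)) → 1 ≤ s.card →
      one ≤ pat (fun i : ℕ => i) (Y M) s ∧
      pat (fun i : ℕ => i) (Y M) s ≤
        pat (fun i : ℕ => i) (Y M) (insert 0 (insert 1 (Ico 2 m))) := by
    intro s hs hs1
    have h4 : ∀ i ∈ s, i < M := fun i hi => B_lt hmM (by omega) i (hs hi)
    constructor
    · rw [one_le_iff, pat_n' h4]; omega
    · rw [le_pat (B_lt hmM (by omega))]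
      exact ((le_pat h4).1 le_rfl).mono hs
  have hB1 : one ≤ B M m := (hBle _ (le_refl _) (by rw [B_card (by omega)]; omega)).1
  have hV1 := hBle (insert 0 (Ico 2 m)) (by
    intro i hi
    simp only [Finset.mem_insert] at hi ⊢
    tauto) (by rw [V_card le_rfl (by omega)]; omega)
  have hQ1 : ∀ i ∈ Ico 2 m, one ≤ Q M i m ∧
      Q M i m ≤ pat (fun i : ℕ => i) (Y M) (insert 0 (insert 1 (Ico 2 m))) := by
    intro i hi
    rw [Finset.mem_Ico] at hi
    refine hBle (insert 1 (Ico i m)) ?_ (by rw [Q_card hi.1 hi.2.le]; omega)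
    intro j hj
    simp only [Finset.mem_insert, Finset.mem_Ico] at hj ⊢
    omega
  rw [Finset.sum_congr rfl h3, Finset.sum_add_distrib, Finset.sum_add_distrib,
    sum_ind hB1 (show B M m ≤ pat (fun i : ℕ => i) (Y M) (insert 0 (insert 1 (Ico 2 m))) from
      le_refl _), sum_ind (show one ≤ V M 2 m from hV1.1) hV1.2, Finset.sum_comm,
    f_V le_rfl (by omega) hmM] at h1
  have h4 : ∑ i ∈ Ico 2 m, ∑ τ ∈ Icc one (pat (fun i : ℕ => i) (Y M)
      (insert 0 (insert 1 (Ico 2 m)))),
      f τ * ((- (-1 : ℤ) ^ (m - (i + 1))) * (if τ = Q M i m then 1 else 0))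
      = ∑ i ∈ Ico 2 m, (1 : ℤ) := by
    refine Finset.sum_congr rfl ?_
    intro i hi
    rw [sum_ind (hQ1 i hi).1 (hQ1 i hi).2]
    rw [Finset.mem_Ico] at hi
    rw [f_Q hi.1 hi.2 hmM hm, neg_mul_neg, ← pow_add, ← two_mul]
    simp
  have hpar : ((-1 : ℤ)) ^ (m - 2) = 1 := by
    rw [neg_one_pow_eq_one_iff_even (by norm_num), Nat.even_iff]
    omega
  rw [h4, hpar, Finset.sum_const, Nat.card_Ico, nsmul_eq_mul, mul_one] at h1
  have h5 : ((m - 2 : ℕ) : ℤ) = (m : ℤ) - 2 := by
    rw [Nat.cast_sub (by omega)]; rfl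
  rw [h5] at h1
  linarith

end sums

end Two

/-- **Wedges of type 2 have unbounded principal Möbius function.** -/
theorem t2_unbounded (c : ℤ) : ∃ m : ℕ, ∀ (P : Type) (x y : P → ℤ), T2 x y m →
    ∃ σ : Pat, one ≤ σ ∧ Has σ x y Set.univ ∧ c < |f σ| := by
  obtain ⟨m, hm⟩ : ∃ m, m = 2 * (c.toNat + 3) := ⟨_, rfl⟩
  refine ⟨m, ?_⟩
  rintro P x y ⟨w, b, p, hw, hbp, hpb, hrest⟩
  refine ⟨Two.B m m, ?_, ?_, ?_⟩
  · rw [one_le_iff, ((Two.eq_B (by omega) le_rfl).1 rfl).2]
    omega
  · have h1 : Two.H m (Two.B m m) (insert 0 (insert 1 (Ico 2 m))) :=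
      ((Two.eq_B (by omega) le_rfl).1 rfl).1
    refine Has.map h1 (fun i => if i = 0 then b else if i = 1 then p else w (i - 2))
      (fun _ _ => Set.mem_univ _) ?_ ?_
    · intro i hi j hj hij
      simp only [Finset.coe_insert, Set.mem_insert_iff, Finset.coe_Ico, Set.mem_Ico] at hi hj
      have hij' : i < j := hij
      rcases hi with rfl | rfl | hi <;> rcases hj with rfl | rfl | hj
      · omega
      · simpa using hbp
      · have e1 : j ≠ 0 := by omega
        have e2 : j ≠ 1 := by omega
        simp only [e1, e2, if_false, if_true]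
        exact hbp.trans (hrest (j - 2) (by omega)).1
      · omega
      · omega
      · have e1 : j ≠ 0 := by omega
        have e2 : j ≠ 1 := by omega
        simp only [e1, e2, if_false, if_true, one_ne_zero]
        exact (hrest (j - 2) (by omega)).1
      · omega
      · omega
      · have e1 : j ≠ 0 := by omega
        have e2 : j ≠ 1 := by omega
        have e3 : i ≠ 0 := by omega
        have e4 : i ≠ 1 := by omega
        simp only [e1, e2, e3, e4, if_false]
        exact (hw (i - 2) (j - 2) (by omega) (by omega)).1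
    · intro i hi j hj hij
      simp only [Finset.coe_insert, Set.mem_insert_iff, Finset.coe_Ico, Set.mem_Ico] at hi hj
      rcases hi with rfl | rfl | hi <;> rcases hj with rfl | rfl | hj
      · exact absurd hij (lt_irrefl _)
      · exact absurd hij (lt_asymm (Two.Y_one_lt (by omega) (by omega)))
      · have e1 : j ≠ 0 := by omega
        have e2 : j ≠ 1 := by omega
        rw [Two.Y_lt_iff (by omega) (by omega) e2] at hij
        simp only [e1, e2, if_false, if_true]
        exact (hrest (j - 2) (by omega)).2.2.1 (by rw [Nat.even_iff]; omega)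
      · simpa using hpb
      · exact absurd hij (lt_irrefl _)
      · have e1 : j ≠ 0 := by omega
        have e2 : j ≠ 1 := by omega
        simp only [e1, e2, if_false, if_true, one_ne_zero]
        exact (hrest (j - 2) (by omega)).2.1
      · have e1 : i ≠ 0 := by omega
        have e2 : i ≠ 1 := by omega
        rw [Two.Y_gt_iff (by omega) (by omega) e2] at hij
        simp only [e1, e2, if_false, if_true]
        exact (hrest (i - 2) (by omega)).2.2.2 (by rw [Nat.odd_iff]; omega)
      · exact absurd hij (lt_asymm (Two.Y_one_lt (by omega) (by omega)))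
      · have e1 : j ≠ 0 := by omega
        have e2 : j ≠ 1 := by omega
        have e3 : i ≠ 0 := by omega
        have e4 : i ≠ 1 := by omega
        simp only [e1, e2, e3, e4, if_false]
        rcases lt_trichotomy i j with h | h | h
        · rw [Two.Y_lt_iff h e4 e2] at hij
          exact (hw (i - 2) (j - 2) (by omega) (by omega)).2.1 (by rw [Nat.even_iff]; omega)
        · subst h
          exact absurd hij (lt_irrefl _)
        · rw [Two.Y_gt_iff h e2 e4] at hij
          exact (hw (j - 2) (i - 2) (by omega) (by omega)).2.2 (by rw [Nat.odd_iff]; omega)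
  · rw [Two.f_B (by omega) le_rfl (by omega), abs_neg, abs_of_nonneg (by omega)]
    have := Int.self_le_toNat c
    omega

end Pool.Agent.Work.MP_080fe7_co
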