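import Pool.Agent.Work.MP_080fe7_co.Defs

/-!
# Symmetries
-/

set_option linter.unusedSectionVars false
set_option linter.unusedVariables false

open Finset

namespace Pool.Agent.Work.MP_080fe7_co

theorem f_eq_sub (π : Pat) (h : one ≤ π) :
    f π = (if π = one then 1 else 0) - ∑ σ ∈ Ico one π, f σ := by
  rw [← sum_f π]
  have h1 : Icc one π = insert π (Ico one π) := (Finset.Ico_insert_right h).symm
  rw [h1, Finset.sum_insert (by simp)]
  ring

theorem f_invol (g : Pat → Pat) (hg : ∀ σ π, σ ≤ π → g σ ≤ g π) (hgg : ∀ π, g (g π) = π)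
    (h1 : g one = one) (π : Pat) : f (g π) = f π := by
  have hiff : ∀ σ π, g σ ≤ g π ↔ σ ≤ π := by
    intro σ π
    constructor
    · intro h
      have := hg _ _ h
      rwa [hgg, hgg] at this
    · exact hg σ π
  have hinj : Function.Injective g := fun a b h => by rw [← hgg a, h, hgg]
  have hone : ∀ π, one ≤ g π ↔ one ≤ π := by
    intro π
    rw [← hiff one π, h1]
  have hn : ∀ π, (g π).n = π.n → True := fun _ _ => trivial
  induction hk : π.n using Nat.strong_induction_on generalizing π with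
  | _ k ih =>
    by_cases hπ : one ≤ π
    · rw [f_eq_sub π hπ, f_eq_sub (g π) ((hone π).2 hπ)]
      congr 1
      · have : g π = one ↔ π = one := by
          constructor
          · intro h; rw [← hgg π, h, h1]
          · rintro rfl; exact h1
        by_cases h : π = one
        · rw [if_pos h, if_pos (this.2 h)]
        · rw [if_neg h, if_neg (fun h' => h (this.1 h'))]
      · symm
        apply Finset.sum_nbij g
        · intro σ hσ
          rw [Finset.mem_Ico] at hσ ⊢
          refine ⟨(hone σ).2 hσ.1, lt_of_le_of_ne ((hiff _ _).2 hσ.2.le) ?_⟩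
          intro h
          exact hσ.2.ne (hinj h)
        · exact hinj.injOn
        · intro σ hσ
          rw [Finset.mem_coe, Finset.mem_Ico] at hσ
          refine ⟨g σ, ?_, hgg σ⟩
          rw [Finset.mem_coe, Finset.mem_Ico]
          refine ⟨(hone σ).2 hσ.1, lt_of_le_of_ne ?_ ?_⟩
          · have := hg _ _ hσ.2.le
            rwa [hgg] at this
          · intro h
            apply hσ.2.ne
            rw [← hgg σ, h]
        · intro σ hσ
          rw [Finset.mem_Ico] at hσ
          have h2 : σ.n < π.n := by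
            rcases lt_or_eq_of_le (Pat.n_le hσ.2.le) with h | h
            · exact h
            · exact absurd (Pat.eq_of_le_of_n hσ.2.le (le_of_eq h.symm)) hσ.2.ne
          exact (ih σ.n (by omega) σ rfl).symm
    · have h2 : ¬ one ≤ g π := fun h => hπ ((hone π).1 h)
      unfold f
      rw [IncidenceAlgebra.apply_eq_zero_of_not_le hπ, IncidenceAlgebra.apply_eq_zero_of_not_le h2]

/-- positions reversed -/
def Pat.rev (π : Pat) : Pat := ⟨π.n, Fin.revPerm.trans π.p⟩

/-- values reversed -/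
def Pat.comp (π : Pat) : Pat := ⟨π.n, π.p.trans Fin.revPerm⟩

/-- the inverse permutation -/
def Pat.inv (π : Pat) : Pat := ⟨π.n, π.p.symm⟩

theorem Pat.rev_rev (π : Pat) : π.rev.rev = π := by
  obtain ⟨n, p⟩ := π
  simp only [Pat.rev]
  congr 1
  ext i
  simp

theorem Pat.comp_comp (π : Pat) : π.comp.comp = π := by
  obtain ⟨n, p⟩ := π
  simp only [Pat.comp]
  congr 1
  ext i
  simp

theorem Pat.inv_inv (π : Pat) : π.inv.inv = π := by
  obtain ⟨n, p⟩ := π
  simp [Pat.inv]

variable {ι α β : Type*} [LinearOrder α] [LinearOrder β]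

theorem has_rev {σ : Pat} {x : ι → α} {x' : ι → β} {γ : Type*} [LinearOrder γ] {y : ι → γ}
    {t : Set ι} (hx : ∀ i j, x i < x j → x' j < x' i) (h : Has σ x y t) : Has σ.rev x' y t := by
  obtain ⟨n, p⟩ := σ
  obtain ⟨e, h1, h2, h3⟩ := h
  refine ⟨fun i : Fin n => e (Fin.rev i), fun i => h1 _, ?_, ?_⟩
  · intro i j hij
    exact hx _ _ (h2 _ _ (Fin.rev_lt_rev.2 hij))
  · intro i j hij
    exact h3 _ _ hij

theorem has_comp {σ : Pat} {x : ι → α} {y : ι → β} {γ : Type*} [LinearOrder γ] {y' : ι → γ}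
    {t : Set ι} (hy : ∀ i j, y i < y j → y' j < y' i) (h : Has σ x y t) : Has σ.comp x y' t := by
  obtain ⟨n, p⟩ := σ
  obtain ⟨e, h1, h2, h3⟩ := h
  refine ⟨e, h1, h2, ?_⟩
  intro i j hij
  have hij' : Fin.rev (p i) < Fin.rev (p j) := hij
  exact hy _ _ (h3 _ _ (Fin.rev_lt_rev.1 hij'))

theorem has_inv {σ : Pat} {x : ι → α} {y : ι → β} {t : Set ι} (h : Has σ x y t) :
    Has σ.inv y x t := by
  obtain ⟨n, p⟩ := σ
  obtain ⟨e, h1, h2, h3⟩ := h
  refine ⟨fun i : Fin n => e (p.symm i), fun i => h1 _, ?_, ?_⟩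
  · intro i j hij
    refine h3 _ _ ?_
    change p (p.symm i) < p (p.symm j)
    rw [Equiv.apply_symm_apply, Equiv.apply_symm_apply]
    exact hij
  · intro i j hij
    exact h2 _ _ hij

theorem Pat.rev_mono {σ π : Pat} (h : σ ≤ π) : σ.rev ≤ π.rev := by
  rw [le_iff_has] at h ⊢
  have h1 : Has σ.rev (fun i : Fin π.n => Fin.rev i) (fun i => π.p i) Set.univ :=
    has_rev (fun i j hij => Fin.rev_lt_rev.2 hij) h
  refine h1.map (fun i => Fin.rev i) (fun _ _ => Set.mem_univ _) (fun i _ j _ h => h) ?_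
  intro i _ j _ h
  change π.p (Fin.rev (Fin.rev i)) < π.p (Fin.rev (Fin.rev j))
  rw [Fin.rev_rev, Fin.rev_rev]
  exact h

theorem Pat.comp_mono {σ π : Pat} (h : σ ≤ π) : σ.comp ≤ π.comp := by
  rw [le_iff_has] at h ⊢
  refine has_comp ?_ h
  intro i j hij
  change Fin.rev (π.p j) < Fin.rev (π.p i)
  exact Fin.rev_lt_rev.2 hij

theorem Pat.inv_mono {σ π : Pat} (h : σ ≤ π) : σ.inv ≤ π.inv := by
  rw [le_iff_has] at h ⊢
  have h1 := has_inv h
  refine h1.map (fun i => π.p i) (fun _ _ => Set.mem_univ _) (fun i _ j _ h => h) ?_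
  intro i _ j _ h
  change π.p.symm (π.p i) < π.p.symm (π.p j)
  rw [Equiv.symm_apply_apply, Equiv.symm_apply_apply]
  exact h

theorem rev_one : one.rev = one := eq_one_iff.2 rfl
theorem comp_one : one.comp = one := eq_one_iff.2 rfl
theorem inv_one' : one.inv = one := eq_one_iff.2 rfl

theorem f_rev (π : Pat) : f π.rev = f π :=
  f_invol Pat.rev (fun _ _ => Pat.rev_mono) Pat.rev_rev rev_one π

theorem f_comp (π : Pat) : f π.comp = f π :=
  f_invol Pat.comp (fun _ _ => Pat.comp_mono) Pat.comp_comp comp_one π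

theorem f_inv (π : Pat) : f π.inv = f π :=
  f_invol Pat.inv (fun _ _ => Pat.inv_mono) Pat.inv_inv inv_one' π

/-- transport of containment along the eight symmetries -/
theorem has_sym (s : Bool × Bool × Bool) {P : Type*} (x y : P → ℤ) (t : Set P) (σ : Pat)
    (h : Has σ (symX s x y) (symY s x y) t) :
    ∃ σ' : Pat, σ'.n = σ.n ∧ f σ' = f σ ∧ Has σ' x y t := by
  obtain ⟨s1, s2, s3⟩ := s
  -- first coordinate
  have h1 : ∃ σ' : Pat, σ'.n = σ.n ∧ f σ' = f σ ∧
      Has σ' (fun p => if s1 then y p else x p) (symY (s1, s2, s3) x y) t := by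
    cases s2
    · refine ⟨σ, rfl, rfl, ?_⟩
      have e1 : symX (s1, false, s3) x y = (fun p => if s1 then y p else x p) := by
        funext p; simp [symX]
      rw [e1] at h
      exact h
    · refine ⟨σ.rev, rfl, f_rev σ, ?_⟩
      refine has_rev ?_ h
      intro i j hij
      simp only [symX, if_true] at hij
      linarith
  obtain ⟨σ1, hn1, hf1, h1⟩ := h1
  have h2 : ∃ σ' : Pat, σ'.n = σ1.n ∧ f σ' = f σ1 ∧
      Has σ' (fun p => if s1 then y p else x p) (fun p => if s1 then x p else y p) t := by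
    cases s3
    · refine ⟨σ1, rfl, rfl, ?_⟩
      have e1 : symY (s1, s2, false) x y = (fun p => if s1 then x p else y p) := by
        funext p; simp [symY]
      rw [e1] at h1
      exact h1
    · refine ⟨σ1.comp, rfl, f_comp σ1, ?_⟩
      refine has_comp ?_ h1
      intro i j hij
      simp only [symY, if_true] at hij
      linarith
  obtain ⟨σ2, hn2, hf2, h2⟩ := h2
  cases s1
  · exact ⟨σ2, hn2.trans hn1, hf2.trans hf1, by simpa using h2⟩
  · exact ⟨σ2.inv, hn2.trans hn1, (f_inv σ2).trans (hf2.trans hf1), by simpa using has_inv h2⟩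

end Pool.Agent.Work.MP_080fe7_co
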