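import Pool.Agent.Work.MP_080fe7_co.Structure3
import Pool.Agent.Work.MP_080fe7_co.Sym

/-!
# From the structure theorem to unbounded Möbius function
-/

set_option linter.unusedSectionVars false
set_option linter.unusedVariables false

open Finset

namespace Pool.Agent.Work.MP_080fe7_co

/-- `I` is an interval of `π`: a set of consecutive positions whose values form a set of
consecutive integers. -/
def IsInterval (π : Pat) (I : Finset (Fin π.n)) : Prop :=
  (I : Set (Fin π.n)).OrdConnected ∧ (π.p '' (I : Set (Fin π.n))).OrdConnected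

/-- `π` is simple: its only intervals are the empty set, the singletons and the whole of `π`. -/
def IsSimple (π : Pat) : Prop :=
  ∀ I : Finset (Fin π.n), IsInterval π I → I = ∅ ∨ (∃ i, I = {i}) ∨ I = univ

theorem IsSimple.conf {π : Pat} (h : IsSimple π) :
    SimpleConf (fun i : Fin π.n => ((i : ℕ) : ℤ)) (fun i => ((π.p i : ℕ) : ℤ)) := by
  intro S h2 hu
  by_contra hcon
  push Not at hcon
  have hint : IsInterval π S := by
    constructor
    · refine ⟨fun a ha b hb p hp => ?_⟩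
      by_contra hpS
      have hpS' : p ∉ S := by simpa using hpS
      have hap : a ≠ p := by rintro rfl; exact hpS ha
      have hpb : p ≠ b := by rintro rfl; exact hpS hb
      have h3 : a < p := lt_of_le_of_ne hp.1 hap
      have h4 : p < b := lt_of_le_of_ne hp.2 hpb
      have := (hcon p hpS' a (by simpa using ha) b (by simpa using hb)).1 (by exact_mod_cast h3)
      exact absurd (show ((p : ℕ) : ℤ) < ((b : ℕ) : ℤ) by exact_mod_cast h4) (not_lt.2 this)
    · refine ⟨?_⟩
      rintro _ ⟨a, ha, rfl⟩ _ ⟨b, hb, rfl⟩ w hw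
      by_contra hw'
      obtain ⟨p, rfl⟩ := π.p.surjective w
      have hpS : p ∉ S := fun hp => hw' ⟨p, by simpa using hp, rfl⟩
      have hap : π.p a ≠ π.p p := by
        intro h
        have := π.p.injective h
        subst this
        exact hpS (by simpa using ha)
      have hpb : π.p p ≠ π.p b := by
        intro h
        have := π.p.injective h
        subst this
        exact hpS (by simpa using hb)
      have h3 : π.p a < π.p p := lt_of_le_of_ne hw.1 hap
      have h4 : π.p p < π.p b := lt_of_le_of_ne hw.2 hpb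
      have := (hcon p hpS a (by simpa using ha) b (by simpa using hb)).2 (by exact_mod_cast h3)
      exact absurd (show ((π.p p : ℕ) : ℤ) < ((π.p b : ℕ) : ℤ) by exact_mod_cast h4)
        (not_lt.2 this)
  rcases h S hint with rfl | ⟨i, rfl⟩ | rfl
  · simp at h2
  · simp at h2
  · exact hu rfl

theorem exists_large {C : Set Pat} (h : {π | π ∈ C ∧ IsSimple π}.Infinite) (n : ℕ) :
    ∃ π ∈ C, IsSimple π ∧ n ≤ π.n := by
  by_contra hcon
  push Not at hcon
  apply h
  have h1 : {π | π ∈ C ∧ IsSimple π} ⊆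
      ⋃ k ∈ Finset.range n, Set.range (fun q : Equiv.Perm (Fin k) => (⟨k, q⟩ : Pat)) := by
    rintro π ⟨hπ, hs⟩
    simp only [Finset.mem_range, Set.mem_iUnion, Set.mem_range]
    exact ⟨π.n, hcon π hπ hs, π.p, rfl⟩
  exact Set.Finite.subset
    (Set.Finite.biUnion (Finset.finite_toSet _) (fun k _ => Set.finite_range _)) h1

theorem Pins.mono {P : Type*} {x y : P → ℤ} {m m' : ℕ} (h : Pins x y m) (hm : m' ≤ m) :
    Pins x y m' := by
  obtain ⟨q, e, h⟩ := h
  exact ⟨q, e, fun k h1 h2 => h k h1 (by omega)⟩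

theorem Wedge.mono {P : Type*} {x y : P → ℤ} {w : ℕ → P} {m m' : ℕ} (h : Wedge x y w m)
    (hm : m' ≤ m) : Wedge x y w m' := fun i j hij hj => h i j hij (by omega)

theorem T1.mono {P : Type*} {x y : P → ℤ} {m m' : ℕ} (h : T1 x y m) (hm : m' ≤ m) :
    T1 x y m' := by
  obtain ⟨w, p, h1, h2⟩ := h
  exact ⟨w, p, h1.mono hm, fun i hi => h2 i (by omega)⟩

theorem T2.mono {P : Type*} {x y : P → ℤ} {m m' : ℕ} (h : T2 x y m) (hm : m' ≤ m) :
    T2 x y m' := by
  obtain ⟨w, b, p, h1, h2, h3, h4⟩ := h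
  exact ⟨w, b, p, h1.mono hm, h2, h3, fun i hi => h4 i (by omega)⟩

/-- The principal Möbius function is unbounded on a family of configurations. -/
def Unb (F : (P : Type) → (P → ℤ) → (P → ℤ) → ℕ → Prop) : Prop :=
  ∀ c : ℤ, ∃ m : ℕ, ∀ (P : Type) (x y : P → ℤ), Function.Injective x → Function.Injective y →
    F P x y m → ∃ σ : Pat, one ≤ σ ∧ Has σ x y Set.univ ∧ c < |f σ|

/-- Reduction of the main theorem to the four families. -/
theorem unbounded_of_families (h1 : Unb (fun P x y m => Pins x y m))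
    (h2 : Unb (fun P x y m => Par x y m)) (h3 : Unb (fun P x y m => T1 x y m))
    (h4 : Unb (fun P x y m => T2 x y m)) (C : Set Pat) (hC : ∀ π ∈ C, ∀ σ, σ ≤ π → σ ∈ C)
    (hinf : {π | π ∈ C ∧ IsSimple π}.Infinite) (c : ℤ) :
    ∃ π ∈ C, one ≤ π ∧ c < |f π| := by
  obtain ⟨m1, h1⟩ := h1 c
  obtain ⟨m2, h2⟩ := h2 c
  obtain ⟨m3, h3⟩ := h3 c
  obtain ⟨m4, h4⟩ := h4 c
  obtain ⟨n₀, hn₀⟩ := structure_thm (max (max m1 m2) (max m3 m4))
  obtain ⟨π, hπC, hπs, hπn⟩ := exists_large hinf n₀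
  have hx : Function.Injective (fun i : Fin π.n => ((i : ℕ) : ℤ)) := by
    intro i j h
    have h' : ((i : ℕ) : ℤ) = ((j : ℕ) : ℤ) := h
    exact Fin.ext (by exact_mod_cast h')
  have hy : Function.Injective (fun i : Fin π.n => ((π.p i : ℕ) : ℤ)) := by
    intro i j h
    have h' : ((π.p i : ℕ) : ℤ) = ((π.p j : ℕ) : ℤ) := h
    exact π.p.injective (Fin.ext (by exact_mod_cast h'))
  obtain ⟨s, hs⟩ := hn₀ (Fin π.n) _ _ hx hy hπs.conf (by simpa using hπn)
  have key : ∃ σ : Pat, one ≤ σ ∧ Has σ (symX s (fun i : Fin π.n => ((i : ℕ) : ℤ))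
      (fun i => ((π.p i : ℕ) : ℤ))) (symY s (fun i : Fin π.n => ((i : ℕ) : ℤ))
      (fun i => ((π.p i : ℕ) : ℤ))) Set.univ ∧ c < |f σ| := by
    rcases hs with hs | hs | hs | hs
    · exact h1 _ _ _ (symX_inj hx hy s) (symY_inj hx hy s) (hs.mono (by omega))
    · exact h2 _ _ _ (symX_inj hx hy s) (symY_inj hx hy s) (hs.mono (by omega))
    · exact h3 _ _ _ (symX_inj hx hy s) (symY_inj hx hy s) (hs.mono (by omega))
    · exact h4 _ _ _ (symX_inj hx hy s) (symY_inj hx hy s) (hs.mono (by omega))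
  obtain ⟨σ, hσ1, hσ2, hσ3⟩ := key
  obtain ⟨σ', hn, hf, hσ'⟩ := has_sym s _ _ _ σ hσ2
  have hle : σ' ≤ π := by
    rw [le_iff_has]
    refine hσ'.map (fun i => i) (fun _ _ => Set.mem_univ _) ?_ ?_
    · intro i _ j _ h
      exact_mod_cast h
    · intro i _ j _ h
      exact_mod_cast h
  refine ⟨σ', hC π hπC σ' hle, ?_, ?_⟩
  · rw [one_le_iff, hn]
    exact one_le_iff.1 hσ1
  · rw [hf]; exact hσ3

end Pool.Agent.Work.MP_080fe7_co
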