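import Mathlib

/-!
# Finite permutations under pattern containment, and their principal Möbius function
-/

set_option linter.unusedSectionVars false
set_option linter.unusedVariables false

open Finset

namespace Pool.Agent.Work.MP_080fe7_co

/-- A finite permutation, of any length `n`. -/
structure Pat where
  /-- the length -/
  n : ℕ
  /-- the permutation itself, `i ↦ p i` giving the value at position `i` -/
  p : Equiv.Perm (Fin n)
deriving DecidableEq

/-- Pattern containment: `σ ≤ π` when `π` has a subsequence (selected by the increasing map `e`)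
whose entries are in the same relative order as those of `σ`. -/
instance : LE Pat :=
  ⟨fun σ π => ∃ e : Fin σ.n ↪o Fin π.n, ∀ i j, σ.p i < σ.p j ↔ π.p (e i) < π.p (e j)⟩

theorem Pat.le_def {σ π : Pat} :
    σ ≤ π ↔ ∃ e : Fin σ.n ↪o Fin π.n, ∀ i j, σ.p i < σ.p j ↔ π.p (e i) < π.p (e j) := Iff.rfl

theorem Pat.n_le {σ π : Pat} (h : σ ≤ π) : σ.n ≤ π.n := by
  obtain ⟨e, -⟩ := h
  simpa using Fintype.card_le_of_injective e e.injective

theorem fin_strictMono_id {n : ℕ} {g : Fin n → Fin n} (hg : StrictMono g) (i : Fin n) :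
    g i = i := by
  exact le_antisymm hg.apply_le hg.le_apply

theorem Pat.eq_of_le_of_n {σ π : Pat} (h : σ ≤ π) (hn : π.n ≤ σ.n) : σ = π := by
  have hn' := le_antisymm (Pat.n_le h) hn
  obtain ⟨n, p⟩ := σ
  obtain ⟨m, q⟩ := π
  simp only at hn'
  subst hn'
  obtain ⟨e, he⟩ := h
  simp only at e he
  have he1 : ∀ i, e i = i := fin_strictMono_id e.strictMono
  simp only [he1] at he
  have h2 : StrictMono (fun i => q (p.symm i)) := by
    intro a b hab
    have := (he (p.symm a) (p.symm b)).1 (by simpa using hab)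
    exact this
  have h3 : ∀ i, q (p.symm i) = i := fin_strictMono_id h2
  congr 1
  ext i
  have := h3 (p i)
  simp only [Equiv.symm_apply_apply] at this
  rw [this]

instance : PartialOrder Pat where
  le_refl π := ⟨RelEmbedding.refl _, fun _ _ => Iff.rfl⟩
  le_trans a b c := by
    rintro ⟨e, he⟩ ⟨e', he'⟩
    exact ⟨e.trans e', fun i j => (he i j).trans (he' _ _)⟩
  le_antisymm a b hab hba := Pat.eq_of_le_of_n hab (Pat.n_le hba)

theorem Pat.finite_le (π : Pat) : {σ : Pat | σ ≤ π}.Finite := by
  have h : {σ : Pat | σ ≤ π} ⊆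
      ⋃ k ∈ Finset.range (π.n + 1), Set.range (fun q : Equiv.Perm (Fin k) => (⟨k, q⟩ : Pat)) := by
    intro σ hσ
    simp only [Finset.mem_range, Set.mem_iUnion, Set.mem_range]
    exact ⟨σ.n, Nat.lt_succ_of_le (Pat.n_le hσ), σ.p, rfl⟩
  refine Set.Finite.subset ?_ h
  exact Set.Finite.biUnion (Finset.finite_toSet _) (fun k _ => Set.finite_range _)

noncomputable instance : LocallyFiniteOrder Pat :=
  LocallyFiniteOrder.ofFiniteIcc (fun a b => (Pat.finite_le b).subset (fun _ hx => hx.2))

/-- The permutation of length one. -/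
def one : Pat := ⟨1, Equiv.refl _⟩

/-- The principal Möbius function `μ(1, π)`. -/
noncomputable def f (π : Pat) : ℤ := IncidenceAlgebra.mu ℤ one π

theorem one_le_iff {π : Pat} : one ≤ π ↔ 0 < π.n := by
  constructor
  · intro h
    exact Pat.n_le h
  · intro h
    have h1 : StrictMono (fun _ : Fin one.n => (⟨0, h⟩ : Fin π.n)) := by
      intro a b hab
      exact absurd hab (by
        have : a = b := Subsingleton.elim (α := Fin 1) a b
        simp [this])
    refine ⟨OrderEmbedding.ofStrictMono _ h1, ?_⟩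
    intro i j
    have : i = j := Subsingleton.elim (α := Fin 1) i j
    simp [this]

theorem eq_one_iff {π : Pat} : π = one ↔ π.n = 1 := by
  constructor
  · rintro rfl; rfl
  · intro h
    have h1 : one ≤ π := one_le_iff.2 (by omega)
    exact (Pat.eq_of_le_of_n h1 (by rw [h]; exact le_rfl)).symm

theorem f_one : f one = 1 := by simp [f]

theorem sum_f (π : Pat) : ∑ σ ∈ Icc one π, f σ = if π = one then 1 else 0 := by
  have := IncidenceAlgebra.sum_Icc_mu_right (𝕜 := ℤ) one π
  unfold f
  rw [this]
  by_cases h : one = π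
  · simp [h]
  · rw [if_neg h, if_neg (fun h' => h h'.symm)]

open scoped Classical in
/-- the signed sum of `μ(x, α)` over the up-set generated by `b` in `[1, α]` -/
theorem sum_mu_up (b α : Pat) (hb : one ≤ b) :
    ∑ x ∈ (Icc one α).filter (fun x => b ≤ x), IncidenceAlgebra.mu ℤ x α
      = if b = α then 1 else 0 := by
  have h1 : (Icc one α).filter (fun x => b ≤ x) = Icc b α := by
    ext x
    simp only [Finset.mem_filter, Finset.mem_Icc]
    constructor
    · rintro ⟨⟨_, h⟩, h'⟩; exact ⟨h', h⟩
    · rintro ⟨h, h'⟩; exact ⟨⟨hb.trans h, h'⟩, h⟩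
  rw [h1]
  exact IncidenceAlgebra.sum_Icc_mu_left (𝕜 := ℤ) b α

open scoped Classical in
/-- The exchange identity: a signed combination of permutations, tested against `f`. -/
theorem exchange {κ : Type*} (s : Finset κ) (c : κ → ℤ) (ρ : κ → Pat) (π : Pat)
    (h1 : ∀ t ∈ s, c t ≠ 0 → ρ t ≤ π) :
    ∑ t ∈ s, c t * (if ρ t = one then 1 else 0)
      = ∑ τ ∈ Icc one π, f τ * ∑ t ∈ s.filter (fun t => τ ≤ ρ t), c t := by
  have h2 : ∀ t ∈ s, c t * (if ρ t = one then 1 else 0) =
      ∑ τ ∈ Icc one π, f τ * (if τ ≤ ρ t then c t else 0) := by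
    intro t ht
    rw [← sum_f]
    by_cases hc : c t = 0
    · simp [hc]
    have h3 : Icc one (ρ t) = (Icc one π).filter (fun τ => τ ≤ ρ t) := by
      ext τ
      simp only [Finset.mem_filter, Finset.mem_Icc]
      constructor
      · rintro ⟨a, b⟩; exact ⟨⟨a, b.trans (h1 t ht hc)⟩, b⟩
      · rintro ⟨⟨a, _⟩, b⟩; exact ⟨a, b⟩
    rw [h3, Finset.sum_filter, Finset.mul_sum]
    refine Finset.sum_congr rfl ?_
    intro τ _
    by_cases hτ : τ ≤ ρ t <;> simp [hτ, mul_comm]
  rw [Finset.sum_congr rfl h2, Finset.sum_comm]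
  refine Finset.sum_congr rfl ?_
  intro τ _
  rw [← Finset.mul_sum, Finset.sum_filter]

end Pool.Agent.Work.MP_080fe7_co
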