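import Pool.Agent.Work.MP_080fe7_co.Quad

/-!
# Computational form of the checks
-/

set_option linter.unusedSectionVars false
set_option linter.unusedVariables false

open Finset

namespace Pool.Agent.Work.MP_080fe7_co.Layer

variable {m : ℕ} (L : Layer m)

/-- `r ↦ c` respects the quadrants -/
def okB (r c : Fin m) : Bool :=
  decide (L.x r < 0 ↔ L.x c < 0) && decide (L.y r < 0 ↔ L.y c < 0)

/-- `r ↦ c`, `r' ↦ c'` is compatible with the orders -/
def pairB (r c r' c' : Fin m) : Bool :=
  (!decide (L.x r < L.x r') || decide (L.x c < L.x c')) &&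
  (!decide (L.x r' < L.x r) || decide (L.x c' < L.x c)) &&
  (!decide (L.y r < L.y r') || decide (L.y c < L.y c')) &&
  (!decide (L.y r' < L.y r) || decide (L.y c' < L.y c))

/-- all images of the list `l` under embeddings -/
def embs : List (Fin m) → List (List (Fin m))
  | [] => [[]]
  | r :: l => (embs l).flatMap (fun q =>
      ((List.finRange m).filter (fun c => L.okB r c &&
        (List.zip l q).all (fun t => L.pairB r c t.1 t.2))).map (fun c => c :: q))

/-- the conditions for `ψ` to be an embedding, on a list -/
def Cond (l : List (Fin m)) (ψ : Fin m → Fin m) : Prop :=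
  (∀ r ∈ l, L.okB r (ψ r) = true) ∧ ∀ r ∈ l, ∀ r' ∈ l, L.pairB r (ψ r) r' (ψ r') = true

variable {L}

theorem zip_map_self {A B : Type*} (l : List A) (g : A → B) :
    List.zip l (l.map g) = l.map (fun s => (s, g s)) := by
  induction l with
  | nil => rfl
  | cons a l ih => simp [ih]

theorem embs_complete (l : List (Fin m)) (ψ : Fin m → Fin m) (h : L.Cond l ψ) :
    l.map ψ ∈ L.embs l := by
  induction l with
  | nil => simp [embs]
  | cons r l ih =>
    have h' : L.Cond l ψ := ⟨fun s hs => h.1 s (List.mem_cons_of_mem _ hs),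
      fun s hs s' hs' => h.2 s (List.mem_cons_of_mem _ hs) s' (List.mem_cons_of_mem _ hs')⟩
    simp only [embs, List.mem_flatMap]
    refine ⟨l.map ψ, ih h', ?_⟩
    rw [List.map_cons, List.mem_map]
    refine ⟨ψ r, ?_, rfl⟩
    rw [List.mem_filter]
    refine ⟨List.mem_finRange _, ?_⟩
    rw [Bool.and_eq_true]
    refine ⟨h.1 r List.mem_cons_self, ?_⟩
    rw [List.all_eq_true]
    rintro ⟨s, c⟩ hsc
    rw [zip_map_self, List.mem_map] at hsc
    obtain ⟨s', hs, h1⟩ := hsc
    obtain ⟨rfl, rfl⟩ := Prod.mk.inj h1
    exact h.2 r List.mem_cons_self _ (List.mem_cons_of_mem _ hs)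

theorem embs_sound (l : List (Fin m)) (hl : l.Nodup) (q : List (Fin m)) (hq : q ∈ L.embs l) :
    ∃ ψ : Fin m → Fin m, l.map ψ = q ∧ L.Cond l ψ := by
  induction l generalizing q with
  | nil =>
    simp only [embs, List.mem_singleton] at hq
    subst hq
    exact ⟨id, rfl, by simp [Cond]⟩
  | cons r l ih =>
    simp only [embs, List.mem_flatMap, List.mem_map, List.mem_filter] at hq
    obtain ⟨q', hq', c, ⟨_, hc⟩, rfl⟩ := hq
    rw [List.nodup_cons] at hl
    obtain ⟨ψ, h1, h2⟩ := ih hl.2 q' hq'
    rw [Bool.and_eq_true, List.all_eq_true] at hc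
    refine ⟨Function.update ψ r c, ?_, ?_⟩
    · rw [List.map_cons, Function.update_self]
      congr 1
      rw [← h1]
      apply List.map_congr_left
      intro s hs
      rw [Function.update_of_ne]
      rintro rfl
      exact hl.1 hs
    · have hup : ∀ s ∈ l, Function.update ψ r c s = ψ s := by
        intro s hs
        rw [Function.update_of_ne]
        rintro rfl
        exact hl.1 hs
      have hz : ∀ s ∈ l, L.pairB r c s (ψ s) = true := by
        intro s hs
        refine hc.2 (s, ψ s) ?_
        rw [← h1, zip_map_self]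
        exact List.mem_map.2 ⟨s, hs, rfl⟩
      have hsymm : ∀ a b a' b', L.pairB a b a' b' = true → L.pairB a' b' a b = true := by
        intro a b a' b' h
        simp only [pairB, Bool.and_eq_true] at h ⊢
        obtain ⟨⟨⟨h1, h2⟩, h3⟩, h4⟩ := h
        exact ⟨⟨⟨h2, h1⟩, h4⟩, h3⟩
      constructor
      · intro s hs
        rcases List.mem_cons.1 hs with rfl | hs
        · rw [Function.update_self]; exact hc.1
        · rw [hup s hs]; exact h2.1 s hs
      · intro s hs s' hs'
        rcases List.mem_cons.1 hs with rfl | hs1 <;> rcases List.mem_cons.1 hs' with rfl | hs1'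
        · simp [pairB]
        · rw [Function.update_self, hup s' hs1']; exact hz s' hs1'
        · rw [Function.update_self, hup s hs1]; exact hsymm _ _ _ _ (hz s hs1)
        · rw [hup s hs1, hup s' hs1']; exact h2.2 s hs1 s' hs1'

theorem EW_iff_cond (R T : Finset (Fin m)) (l : List (Fin m)) (hl : ∀ r, r ∈ l ↔ r ∈ R)
    (ψ : Fin m → Fin m) : L.EW R T ψ ↔ L.Cond l ψ ∧ ∀ r ∈ l, ψ r ∈ T := by
  have hx0 := L.hx0
  have hy0 := L.hy0
  constructor
  · intro h
    refine ⟨⟨?_, ?_⟩, fun r hr => h.mem r ((hl r).1 hr)⟩
    · intro r hr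
      have hr' := (hl r).1 hr
      simp only [okB, Bool.and_eq_true, decide_eq_true_eq]
      have h1 := h.left r hr'
      have h2 := h.right r hr'
      have h3 := h.down r hr'
      have h4 := h.up r hr'
      have h5 := hx0 r
      have h6 := hy0 r
      constructor
      · constructor
        · exact h1
        · intro h7
          by_contra h8
          have := h2 (by omega)
          omega
      · constructor
        · exact h3
        · intro h7
          by_contra h8
          have := h4 (by omega)
          omega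
    · intro r hr r' hr'
      have e1 := (hl r).1 hr
      have e2 := (hl r').1 hr'
      have h1 := h.hx r e1 r' e2
      have h2 := h.hx r' e2 r e1
      have h3 := h.hy r e1 r' e2
      have h4 := h.hy r' e2 r e1
      simp only [pairB, Bool.and_eq_true, Bool.or_eq_true, Bool.not_eq_true', decide_eq_false_iff_not,
        decide_eq_true_eq]
      refine ⟨⟨⟨?_, ?_⟩, ?_⟩, ?_⟩
      · by_cases h : L.x r < L.x r'
        · exact Or.inr (h1 h)
        · exact Or.inl h
      · by_cases h : L.x r' < L.x r
        · exact Or.inr (h2 h)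
        · exact Or.inl h
      · by_cases h : L.y r < L.y r'
        · exact Or.inr (h3 h)
        · exact Or.inl h
      · by_cases h : L.y r' < L.y r
        · exact Or.inr (h4 h)
        · exact Or.inl h
  · rintro ⟨⟨h1, h2⟩, h3⟩
    simp only [okB, Bool.and_eq_true, decide_eq_true_eq] at h1
    simp only [pairB, Bool.and_eq_true, Bool.or_eq_true, Bool.not_eq_true', decide_eq_false_iff_not,
        decide_eq_true_eq] at h2
    refine ⟨?_, ?_, ?_, ?_, ?_, ?_, ?_⟩
    · intro r hr; exact h3 r ((hl r).2 hr)
    · intro r hr r' hr' h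
      have := (h2 r ((hl r).2 hr) r' ((hl r').2 hr')).1.1.1
      tauto
    · intro r hr r' hr' h
      have := (h2 r ((hl r).2 hr) r' ((hl r').2 hr')).1.2
      tauto
    · intro r hr h; exact (h1 r ((hl r).2 hr)).1.1 h
    · intro r hr h
      have h4 := (h1 r ((hl r).2 hr)).1.2
      have := hx0 (ψ r)
      by_contra h5
      have := h4 (by omega)
      omega
    · intro r hr h; exact (h1 r ((hl r).2 hr)).2.1 h
    · intro r hr h
      have h4 := (h1 r ((hl r).2 hr)).2.2
      have := hy0 (ψ r)
      by_contra h5
      have := h4 (by omega)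
      omega

variable (L) in
/-- the alternating-sum check, computably -/
def altB : Bool :=
  decide (∀ R : Finset (Fin m), R ≠ univ →
    (∑ T : Finset (Fin m), (if (L.embs ((List.finRange m).filter (· ∈ R))).any
      (fun q => q.all (fun c => decide (c ∈ T))) then (-1 : ℤ) ^ T.card else 0)) = 0)

theorem altCheck_of_altB (h : L.altB = true) : L.AltCheck := by
  classical
  intro R hR s hs
  simp only [altB, decide_eq_true_eq] at h
  have h1 := h R hR
  rw [← h1]
  have h2 : s = univ.filter (fun T => (L.embs ((List.finRange m).filter (· ∈ R))).any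
      (fun q => q.all (fun c => decide (c ∈ T))) = true) := by
    ext T
    rw [hs T, Finset.mem_filter, and_iff_right (Finset.mem_univ _), List.any_eq_true]
    have hl : ∀ r, r ∈ (List.finRange m).filter (· ∈ R) ↔ r ∈ R := by
      intro r; simp
    have hnd : ((List.finRange m).filter (· ∈ R)).Nodup := (List.nodup_finRange m).filter _
    constructor
    · rintro ⟨ψ, hψ⟩
      obtain ⟨h3, h4⟩ := (EW_iff_cond R T _ hl ψ).1 hψ
      refine ⟨_, embs_complete _ ψ h3, ?_⟩
      rw [List.all_eq_true]
      intro c hc
      obtain ⟨r, hr, rfl⟩ := List.mem_map.1 hc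
      simpa using h4 r hr
    · rintro ⟨q, hq, hqT⟩
      obtain ⟨ψ, h3, h4⟩ := embs_sound _ hnd q hq
      refine ⟨ψ, (EW_iff_cond R T _ hl ψ).2 ⟨h4, ?_⟩⟩
      intro r hr
      rw [List.all_eq_true] at hqT
      have := hqT (ψ r) (by rw [← h3]; exact List.mem_map_of_mem hr)
      simpa using this
  rw [h2, Finset.sum_filter]

end Pool.Agent.Work.MP_080fe7_co.Layer
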