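import Pool.Agent.Work.MP_080fe7_co.Basic

/-!
# Configurations of points and the patterns they contain
-/

set_option linter.unusedSectionVars false
set_option linter.unusedVariables false

open Finset

namespace Pool.Agent.Work.MP_080fe7_co

variable {ι κ α β α' β' : Type*} [LinearOrder α] [LinearOrder β] [LinearOrder α'] [LinearOrder β']

/-- The configuration of points `(x i, y i)`, `i ∈ s`, contains a copy of `σ`. -/
def Has (σ : Pat) (x : ι → α) (y : ι → β) (s : Set ι) : Prop :=
  ∃ e : Fin σ.n → ι, (∀ i, e i ∈ s) ∧ (∀ i j, i < j → x (e i) < x (e j)) ∧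
    ∀ i j, σ.p i < σ.p j → y (e i) < y (e j)

theorem le_iff_has {σ π : Pat} :
    σ ≤ π ↔ Has σ (fun i : Fin π.n => i) (fun i => π.p i) Set.univ := by
  constructor
  · rintro ⟨e, he⟩
    exact ⟨e, fun _ => Set.mem_univ _, fun i j hij => e.strictMono hij, fun i j h => (he i j).1 h⟩
  · rintro ⟨e, -, h1, h2⟩
    refine ⟨OrderEmbedding.ofStrictMono e (fun i j hij => h1 i j hij), fun i j => ⟨h2 i j, ?_⟩⟩
    intro h
    by_contra hn
    rcases eq_or_lt_of_le (not_lt.1 hn) with h3 | h3
    · have : i = j := σ.p.injective h3.symm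
      subst this
      exact lt_irrefl _ h
    · exact lt_asymm h (h2 j i h3)

theorem Has.mono {σ : Pat} {x : ι → α} {y : ι → β} {s t : Set ι} (h : Has σ x y s)
    (hst : s ⊆ t) : Has σ x y t := by
  obtain ⟨e, h1, h2, h3⟩ := h
  exact ⟨e, fun i => hst (h1 i), h2, h3⟩

theorem Has.of_le {σ' σ : Pat} {x : ι → α} {y : ι → β} {s : Set ι} (hle : σ' ≤ σ)
    (h : Has σ x y s) : Has σ' x y s := by
  obtain ⟨e, h1, h2, h3⟩ := h
  obtain ⟨g, hg⟩ := hle
  exact ⟨fun i => e (g i), fun i => h1 _, fun i j hij => h2 _ _ (g.strictMono hij),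
    fun i j hij => h3 _ _ ((hg i j).1 hij)⟩

theorem Has.map {σ : Pat} {x : ι → α} {y : ι → β} {s : Set ι} {x' : κ → α'} {y' : κ → β'}
    {s' : Set κ} (h : Has σ x y s) (g : ι → κ) (hs : ∀ i ∈ s, g i ∈ s')
    (hx : ∀ i ∈ s, ∀ j ∈ s, x i < x j → x' (g i) < x' (g j))
    (hy : ∀ i ∈ s, ∀ j ∈ s, y i < y j → y' (g i) < y' (g j)) : Has σ x' y' s' := by
  obtain ⟨e, h1, h2, h3⟩ := h
  exact ⟨fun i => g (e i), fun i => hs _ (h1 i), fun i j hij => hx _ (h1 i) _ (h1 j) (h2 _ _ hij),
    fun i j hij => hy _ (h1 i) _ (h1 j) (h3 _ _ hij)⟩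

/-- `π` is the pattern of the configuration `(x i, y i)`, `i ∈ s`. -/
def IsPat (π : Pat) (x : ι → α) (y : ι → β) (s : Set ι) : Prop :=
  ∃ e : Fin π.n → ι, (∀ i, e i ∈ s) ∧ (∀ a ∈ s, ∃ i, e i = a) ∧
    (∀ i j, i < j → x (e i) < x (e j)) ∧ ∀ i j, π.p i < π.p j → y (e i) < y (e j)

theorem IsPat.has {π : Pat} {x : ι → α} {y : ι → β} {s : Set ι} (h : IsPat π x y s) :
    Has π x y s := by
  obtain ⟨e, h1, h2, h3, h4⟩ := h
  exact ⟨e, h1, h3, h4⟩

/-- the pattern of a configuration embeds elsewhere iff the configuration does -/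
theorem IsPat.has_iff {π : Pat} {x : ι → α} {y : ι → β} {s : Set ι} (h : IsPat π x y s)
    {x' : κ → α'} {y' : κ → β'} {s' : Set κ} [Nonempty κ] :
    Has π x' y' s' ↔ ∃ g : ι → κ, (∀ i ∈ s, g i ∈ s') ∧
      (∀ i ∈ s, ∀ j ∈ s, x i < x j → x' (g i) < x' (g j)) ∧
      (∀ i ∈ s, ∀ j ∈ s, y i < y j → y' (g i) < y' (g j)) := by
  classical
  constructor
  · rintro ⟨e', h1', h2', h3'⟩
    obtain ⟨e, h1, h2, h3, h4⟩ := h
    choose k hk using h2
    refine ⟨fun a => if h : a ∈ s then e' (k a h) else Classical.arbitrary κ, ?_, ?_, ?_⟩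
    · intro i hi
      simp only [hi, dite_true]
      exact h1' _
    · intro i hi j hj hij
      simp only [hi, hj, dite_true]
      apply h2'
      by_contra hn
      rcases eq_or_lt_of_le (not_lt.1 hn) with h5 | h5
      · rw [← hk i hi, ← hk j hj, h5] at hij
        exact lt_irrefl _ hij
      · have := h3 _ _ h5
        rw [hk i hi, hk j hj] at this
        exact lt_asymm hij this
    · intro i hi j hj hij
      simp only [hi, hj, dite_true]
      apply h3'
      by_contra hn
      rcases eq_or_lt_of_le (not_lt.1 hn) with h5 | h5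
      · have h6 := π.p.injective h5
        rw [← hk i hi, ← hk j hj, h6] at hij
        exact lt_irrefl _ hij
      · have := h4 _ _ h5
        rw [hk i hi, hk j hj] at this
        exact lt_asymm hij this
  · rintro ⟨g, h1, h2, h3⟩
    exact h.has.map g h1 h2 h3

theorem IsPat.le_iff {σ π : Pat} {x : ι → α} {y : ι → β} {s : Set ι} (h : IsPat π x y s) :
    σ ≤ π ↔ Has σ x y s := by
  constructor
  · intro hle
    exact Has.of_le hle h.has
  · intro hσ
    obtain ⟨e, h1, h2, h3, h4⟩ := h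
    rw [le_iff_has]
    by_cases hn : Nonempty (Fin π.n)
    · obtain ⟨e', h1', h2', h3'⟩ := hσ
      choose! k hk using h2
      refine ⟨fun i => k (e' i), fun _ => Set.mem_univ _, ?_, ?_⟩
      · intro i j hij
        by_contra hn
        rcases eq_or_lt_of_le (not_lt.1 hn) with h5 | h5
        · have := h2' i j hij
          have h5' : k (e' j) = k (e' i) := h5
          rw [← hk _ (h1' i), ← hk _ (h1' j), h5'] at this
          exact lt_irrefl _ this
        · have := h3 _ _ h5
          rw [hk _ (h1' i), hk _ (h1' j)] at this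
          exact lt_asymm (h2' i j hij) this
      · intro i j hij
        by_contra hn
        rcases eq_or_lt_of_le (not_lt.1 hn) with h5 | h5
        · have := h3' i j hij
          have h5' : k (e' j) = k (e' i) := π.p.injective h5
          rw [← hk _ (h1' i), ← hk _ (h1' j), h5'] at this
          exact lt_irrefl _ this
        · have := h4 _ _ h5
          rw [hk _ (h1' i), hk _ (h1' j)] at this
          exact lt_asymm (h3' i j hij) this
    · obtain ⟨e', h1', h2', h3'⟩ := hσ
      have h0 : ∀ i : Fin σ.n, False := by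
        intro i
        obtain ⟨j, -⟩ := h2 _ (h1' i)
        exact hn ⟨j⟩
      exact ⟨fun i => (h0 i).elim, fun i => (h0 i).elim, fun i => (h0 i).elim,
        fun i => (h0 i).elim⟩

theorem IsPat.unique {π π' : Pat} {x : ι → α} {y : ι → β} {s : Set ι} (h : IsPat π x y s)
    (h' : IsPat π' x y s) : π = π' :=
  le_antisymm (h'.le_iff.2 h.has) (h.le_iff.2 h'.has)

theorem exists_sort {γ : Type*} [LinearOrder γ] (s : Finset ι) (z : ι → γ)
    (hz : Set.InjOn z s) : ∃ e : Fin s.card ≃ s, ∀ i j, i < j → z (e i) < z (e j) := by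
  classical
  let _ : LinearOrder s := LinearOrder.lift' (fun a : s => z a)
    (fun a b hab => Subtype.ext (hz a.2 b.2 hab))
  have e0 := Fintype.orderIsoFinOfCardEq s (k := s.card) (by simp)
  exact ⟨e0.toEquiv, fun i j hij => e0.strictMono hij⟩

theorem exists_isPat (x : ι → α) (y : ι → β) (s : Finset ι) (hx : Set.InjOn x s)
    (hy : Set.InjOn y s) : ∃ π : Pat, π.n = s.card ∧ IsPat π x y s := by
  classical
  obtain ⟨ex, hex⟩ := exists_sort s x hx
  obtain ⟨ey, hey⟩ := exists_sort s y hy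
  refine ⟨⟨s.card, ex.trans ey.symm⟩, rfl, fun i => ex i, fun i => (ex i).2, ?_, ?_, ?_⟩
  · intro a ha
    exact ⟨ex.symm ⟨a, ha⟩, by simp⟩
  · intro i j hij
    exact hex i j hij
  · intro i j hij
    have := hey _ _ hij
    simpa using this

open scoped Classical in
/-- The pattern of a configuration. -/
noncomputable def pat (x : ι → α) (y : ι → β) (s : Finset ι) : Pat :=
  if h : ∃ π : Pat, π.n = s.card ∧ IsPat π x y s then h.choose else one

theorem pat_spec {x : ι → α} {y : ι → β} {s : Finset ι} (hx : Set.InjOn x s)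
    (hy : Set.InjOn y s) : (pat x y s).n = s.card ∧ IsPat (pat x y s) x y s := by
  have h := exists_isPat x y s hx hy
  unfold pat
  rw [dif_pos h]
  exact h.choose_spec

theorem pat_n {x : ι → α} {y : ι → β} {s : Finset ι} (hx : Set.InjOn x s)
    (hy : Set.InjOn y s) : (pat x y s).n = s.card := (pat_spec hx hy).1

theorem pat_isPat {x : ι → α} {y : ι → β} {s : Finset ι} (hx : Set.InjOn x s)
    (hy : Set.InjOn y s) : IsPat (pat x y s) x y s := (pat_spec hx hy).2

theorem le_pat_iff {σ : Pat} {x : ι → α} {y : ι → β} {s : Finset ι} (hx : Set.InjOn x s)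
    (hy : Set.InjOn y s) : σ ≤ pat x y s ↔ Has σ x y s := (pat_isPat hx hy).le_iff

theorem Has.card_le {σ : Pat} {x : ι → α} {y : ι → β} {s : Finset ι} (h : Has σ x y s) :
    σ.n ≤ s.card := by
  classical
  obtain ⟨e, h1, h2, h3⟩ := h
  have hinj : Function.Injective e := by
    intro i j hij
    rcases lt_trichotomy i j with h | h | h
    · have := h2 _ _ h; rw [hij] at this; exact absurd this (lt_irrefl _)
    · exact h
    · have := h2 _ _ h; rw [hij] at this; exact absurd this (lt_irrefl _)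
  have := Finset.card_le_card_of_injOn (s := Finset.univ) (t := s) e
    (fun i _ => h1 i) (hinj.injOn)
  simpa using this

/-- The pattern of a subset of the positions. -/
noncomputable def sub (τ : Pat) (I : Finset (Fin τ.n)) : Pat :=
  pat (fun i : Fin τ.n => i) (fun i => τ.p i) I

theorem sub_isPat (τ : Pat) (I : Finset (Fin τ.n)) :
    IsPat (sub τ I) (fun i : Fin τ.n => i) (fun i => τ.p i) I :=
  pat_isPat (fun _ _ _ _ h => h) (fun _ _ _ _ h => τ.p.injective h)

@[simp] theorem sub_n (τ : Pat) (I : Finset (Fin τ.n)) : (sub τ I).n = I.card :=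
  pat_n (fun _ _ _ _ h => h) (fun _ _ _ _ h => τ.p.injective h)

theorem le_sub_iff {σ τ : Pat} {I : Finset (Fin τ.n)} :
    σ ≤ sub τ I ↔ Has σ (fun i : Fin τ.n => i) (fun i => τ.p i) I := (sub_isPat τ I).le_iff

theorem sub_mono {τ : Pat} {I K : Finset (Fin τ.n)} (h : I ⊆ K) : sub τ I ≤ sub τ K :=
  le_sub_iff.2 ((sub_isPat τ I).has.mono (by exact_mod_cast h))

theorem sub_le (τ : Pat) (I : Finset (Fin τ.n)) : sub τ I ≤ τ :=
  le_iff_has.2 ((sub_isPat τ I).has.mono (Set.subset_univ _))

theorem sub_univ (τ : Pat) : sub τ univ = τ :=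
  Pat.eq_of_le_of_n (sub_le τ _) (by simp)

/-- `sub τ I` embeds into a configuration iff `τ` restricted to `I` does. -/
theorem has_sub_iff {τ : Pat} {I : Finset (Fin τ.n)} {x' : κ → α'} {y' : κ → β'} {s' : Set κ}
    [Nonempty κ] : Has (sub τ I) x' y' s' ↔ ∃ g : Fin τ.n → κ, (∀ i ∈ I, g i ∈ s') ∧
      (∀ i ∈ I, ∀ j ∈ I, i < j → x' (g i) < x' (g j)) ∧
      (∀ i ∈ I, ∀ j ∈ I, τ.p i < τ.p j → y' (g i) < y' (g j)) := by
  have := (sub_isPat τ I).has_iff (x' := x') (y' := y') (s' := s')
  simpa using this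

end Pool.Agent.Work.MP_080fe7_co
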