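import Pool.Agent.Work.MP_080fe7_co.Nest

/-!
# Checkable criteria for good layers
-/

set_option linter.unusedSectionVars false
set_option linter.unusedVariables false

open Finset

namespace Pool.Agent.Work.MP_080fe7_co.Layer

variable {m : ℕ} {L : Layer m}

/-- `ψ` embeds the sublayer indexed by `R` into the sublayer indexed by `T`. -/
structure EW (L : Layer m) (R T : Finset (Fin m)) (ψ : Fin m → Fin m) : Prop where
  mem : ∀ r ∈ R, ψ r ∈ T
  hx : ∀ r ∈ R, ∀ r' ∈ R, L.x r < L.x r' → L.x (ψ r) < L.x (ψ r')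
  hy : ∀ r ∈ R, ∀ r' ∈ R, L.y r < L.y r' → L.y (ψ r) < L.y (ψ r')
  left : ∀ r ∈ R, L.x r < 0 → L.x (ψ r) < 0
  right : ∀ r ∈ R, 0 < L.x r → 0 < L.x (ψ r)
  down : ∀ r ∈ R, L.y r < 0 → L.y (ψ r) < 0
  up : ∀ r ∈ R, 0 < L.y r → 0 < L.y (ψ r)

/-- the finite check behind `Good.alt` -/
def AltCheck (L : Layer m) : Prop :=
  ∀ R : Finset (Fin m), R ≠ univ → ∀ s : Finset (Finset (Fin m)),
    (∀ T, T ∈ s ↔ ∃ ψ, L.EW R T ψ) → ∑ T ∈ s, (-1 : ℤ) ^ T.card = 0

/-- the finite check behind `Good.irr` -/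
def IrrCheck (L : Layer m) : Prop :=
  ∀ R : Finset (Fin m), R.Nonempty →
    (∀ s, s ∉ R → ((L.x s < 0 ∧ ∀ r ∈ R, L.x s < L.x r) ∨ (0 < L.x s ∧ ∀ r ∈ R, L.x r < L.x s)) ∧
      ((L.y s < 0 ∧ ∀ r ∈ R, L.y s < L.y r) ∨ (0 < L.y s ∧ ∀ r ∈ R, L.y r < L.y s))) → R = univ

/-- `J` in terms of sublayers -/
theorem J_iff_EW {T₀ : Finset (Fin m)} {τ : Pat} {I : Finset (Fin τ.n)} {φ₀ : Fin τ.n → Fin m}
    (h0 : L.JW T₀ τ I φ₀) (hne : I.Nonempty) (T : Finset (Fin m)) :
    L.J T τ I ↔ ∃ ψ, L.EW (Iᶜ.image φ₀) T ψ := by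
  classical
  obtain ⟨c, hc⟩ := hne
  have hmemR : ∀ r, r ∈ Iᶜ.image φ₀ ↔ ∃ i, i ∉ I ∧ φ₀ i = r := by
    intro r; simp
  constructor
  · rintro ⟨φ, h⟩
    have hch : ∀ r : Fin m, ∃ i : Fin τ.n, r ∈ Iᶜ.image φ₀ → (i ∉ I ∧ φ₀ i = r) := by
      intro r
      by_cases hr : r ∈ Iᶜ.image φ₀
      · obtain ⟨i, hi⟩ := (hmemR r).1 hr
        exact ⟨i, fun _ => hi⟩
      · exact ⟨c, fun h => absurd h hr⟩
    choose k hk using hch
    have hkx : ∀ r ∈ Iᶜ.image φ₀, ∀ r' ∈ Iᶜ.image φ₀, L.x r < L.x r' → k r < k r' := by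
      intro r hr r' hr' hlt
      obtain ⟨h1, h2⟩ := hk r hr
      obtain ⟨h1', h2'⟩ := hk r' hr'
      rcases lt_trichotomy (k r) (k r') with h3 | h3 | h3
      · exact h3
      · rw [← h2, ← h2', h3] at hlt; exact absurd hlt (lt_irrefl _)
      · have := h0.hx _ h1' _ h1 h3
        rw [h2, h2'] at this
        exact absurd hlt (lt_asymm this)
    have hky : ∀ r ∈ Iᶜ.image φ₀, ∀ r' ∈ Iᶜ.image φ₀, L.y r < L.y r' →
        τ.p (k r) < τ.p (k r') := by
      intro r hr r' hr' hlt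
      obtain ⟨h1, h2⟩ := hk r hr
      obtain ⟨h1', h2'⟩ := hk r' hr'
      rcases lt_trichotomy (τ.p (k r)) (τ.p (k r')) with h3 | h3 | h3
      · exact h3
      · have h4 := τ.p.injective h3
        rw [← h2, ← h2', h4] at hlt; exact absurd hlt (lt_irrefl _)
      · have := h0.hy _ h1' _ h1 h3
        rw [h2, h2'] at this
        exact absurd hlt (lt_asymm this)
    refine ⟨fun r => φ (k r), ?_, ?_, ?_, ?_, ?_, ?_, ?_⟩
    · intro r hr; exact h.mem _ (hk r hr).1
    · intro r hr r' hr' hlt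
      exact h.hx _ (hk r hr).1 _ (hk r' hr').1 (hkx r hr r' hr' hlt)
    · intro r hr r' hr' hlt
      exact h.hy _ (hk r hr).1 _ (hk r' hr').1 (hky r hr r' hr' hlt)
    · intro r hr hlt
      obtain ⟨h1, h2⟩ := hk r hr
      refine h.left _ h1 c hc ?_
      rcases lt_trichotomy (k r) c with h3 | h3 | h3
      · exact h3
      · rw [h3] at h1; exact absurd hc h1
      · have := h0.right _ h1 c hc h3
        rw [h2] at this; omega
    · intro r hr hlt
      obtain ⟨h1, h2⟩ := hk r hr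
      refine h.right _ h1 c hc ?_
      rcases lt_trichotomy (k r) c with h3 | h3 | h3
      · have := h0.left _ h1 c hc h3
        rw [h2] at this; omega
      · rw [h3] at h1; exact absurd hc h1
      · exact h3
    · intro r hr hlt
      obtain ⟨h1, h2⟩ := hk r hr
      refine h.down _ h1 c hc ?_
      rcases lt_trichotomy (τ.p (k r)) (τ.p c) with h3 | h3 | h3
      · exact h3
      · rw [τ.p.injective h3] at h1; exact absurd hc h1
      · have := h0.up _ h1 c hc h3
        rw [h2] at this; omega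
    · intro r hr hlt
      obtain ⟨h1, h2⟩ := hk r hr
      refine h.up _ h1 c hc ?_
      rcases lt_trichotomy (τ.p (k r)) (τ.p c) with h3 | h3 | h3
      · have := h0.down _ h1 c hc h3
        rw [h2] at this; omega
      · rw [τ.p.injective h3] at h1; exact absurd hc h1
      · exact h3
  · rintro ⟨ψ, h⟩
    have hR : ∀ i, i ∉ I → φ₀ i ∈ Iᶜ.image φ₀ := fun i hi => (hmemR _).2 ⟨i, hi, rfl⟩
    refine ⟨fun i => ψ (φ₀ i), ?_, ?_, ?_, ?_, ?_, ?_, ?_⟩
    · intro i hi; exact h.mem _ (hR i hi)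
    · intro i hi j hj hij
      exact h.hx _ (hR i hi) _ (hR j hj) (h0.hx i hi j hj hij)
    · intro i hi j hj hij
      exact h.hy _ (hR i hi) _ (hR j hj) (h0.hy i hi j hj hij)
    · intro i hi j hj hij
      exact h.left _ (hR i hi) (h0.left i hi j hj hij)
    · intro i hi j hj hij
      exact h.right _ (hR i hi) (h0.right i hi j hj hij)
    · intro i hi j hj hij
      exact h.down _ (hR i hi) (h0.down i hi j hj hij)
    · intro i hi j hj hij
      exact h.up _ (hR i hi) (h0.up i hi j hj hij)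

theorem alt_of_check (h : L.AltCheck) : ∀ (τ : Pat) (I : Finset (Fin τ.n)), I.Nonempty →
    L.J univ τ I → Iᶜ.card < m →
    ∀ s : Finset (Finset (Fin m)), (∀ T, T ∈ s ↔ L.J T τ I) → ∑ T ∈ s, (-1 : ℤ) ^ T.card = 0 := by
  classical
  intro τ I hne hJ hcard s hs
  obtain ⟨φ₀, h0⟩ := hJ
  refine h (Iᶜ.image φ₀) ?_ s ?_
  · intro hu
    have h1 : (Iᶜ.image φ₀).card ≤ Iᶜ.card := Finset.card_image_le
    rw [hu, Finset.card_univ, Fintype.card_fin] at h1
    omega
  · intro T
    rw [hs T]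
    exact J_iff_EW h0 hne T

theorem irr_of_check (h : L.IrrCheck) : ∀ (τ : Pat) (I K : Finset (Fin τ.n)), I.Nonempty →
    L.J univ τ I → Iᶜ.card = m → I ⊂ K → IsInt τ K → K = univ := by
  classical
  intro τ I K hne hJ hcard hIK hK
  obtain ⟨φ, h0⟩ := hJ
  obtain ⟨c, hc⟩ := hne
  -- `φ` is a bijection from the complement of `I`
  have himg : Iᶜ.image φ = univ := by
    apply Finset.eq_univ_of_card
    rw [Finset.card_image_of_injOn h0.injOn, hcard, Fintype.card_fin]
  have hR : ((K \ I).image φ) = univ := by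
    apply h
    · obtain ⟨a, ha1, ha2⟩ := Finset.exists_of_ssubset hIK
      exact ⟨φ a, Finset.mem_image_of_mem φ (by simp [ha1, ha2])⟩
    · intro s hs
      have h1 : s ∈ Iᶜ.image φ := by rw [himg]; exact Finset.mem_univ _
      obtain ⟨i, hi, rfl⟩ := Finset.mem_image.1 h1
      have hiI : i ∉ I := by simpa using hi
      have hiK : i ∉ K := by
        intro hiK
        exact hs (Finset.mem_image_of_mem φ (by simp [hiK, hiI]))
      have hcK := hIK.1 hc
      constructor
      · rcases (hK i hiK).1 with h2 | h2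
        · left
          refine ⟨h0.left i hiI c hc (h2 c hcK), ?_⟩
          intro r hr
          obtain ⟨j, hj, rfl⟩ := Finset.mem_image.1 hr
          have hj' := Finset.mem_sdiff.1 hj
          exact h0.hx i hiI j hj'.2 (h2 j hj'.1)
        · right
          refine ⟨h0.right i hiI c hc (h2 c hcK), ?_⟩
          intro r hr
          obtain ⟨j, hj, rfl⟩ := Finset.mem_image.1 hr
          have hj' := Finset.mem_sdiff.1 hj
          exact h0.hx j hj'.2 i hiI (h2 j hj'.1)
      · rcases (hK i hiK).2 with h2 | h2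
        · left
          refine ⟨h0.down i hiI c hc (h2 c hcK), ?_⟩
          intro r hr
          obtain ⟨j, hj, rfl⟩ := Finset.mem_image.1 hr
          have hj' := Finset.mem_sdiff.1 hj
          exact h0.hy i hiI j hj'.2 (h2 j hj'.1)
        · right
          refine ⟨h0.up i hiI c hc (h2 c hcK), ?_⟩
          intro r hr
          obtain ⟨j, hj, rfl⟩ := Finset.mem_image.1 hr
          have hj' := Finset.mem_sdiff.1 hj
          exact h0.hy j hj'.2 i hiI (h2 j hj'.1)
  by_contra hne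
  obtain ⟨a, ha⟩ : ∃ a, a ∉ K := by
    by_contra h'
    push Not at h'
    exact hne (Finset.eq_univ_iff_forall.2 h')
  have haI : a ∉ I := fun h' => ha (hIK.1 h')
  have h3 : φ a ∈ (K \ I).image φ := by rw [hR]; exact Finset.mem_univ _
  obtain ⟨b, hb, hab⟩ := Finset.mem_image.1 h3
  have hb' := Finset.mem_sdiff.1 hb
  have h4 : b = a := h0.injOn (by simp [hb'.2]) (by simp [haI]) hab
  exact ha (h4 ▸ hb'.1)

/-! ### Extreme layers -/

/-- all points of the layer lie on one side of the block -/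
def Extreme (L : Layer m) : Prop :=
  (∀ s, 0 < L.x s) ∨ (∀ s, L.x s < 0) ∨ (∀ s, 0 < L.y s) ∨ (∀ s, L.y s < 0)

theorem nested_of_extreme (h : L.Extreme) {T₁ T₂ : Finset (Fin m)} {τ : Pat}
    {I₁ I₂ : Finset (Fin τ.n)} (h1 : L.J T₁ τ I₁) (h2 : L.J T₂ τ I₂) : I₁ ⊆ I₂ ∨ I₂ ⊆ I₁ := by
  obtain ⟨φ₁, w1⟩ := h1
  obtain ⟨φ₂, w2⟩ := h2
  by_contra hn
  push Not at hn
  obtain ⟨hn1, hn2⟩ := hn
  obtain ⟨a, ha1, ha2⟩ := Finset.not_subset.1 hn1
  obtain ⟨c, hc1, hc2⟩ := Finset.not_subset.1 hn2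
  have hac : a ≠ c := by rintro rfl; exact ha2 hc1
  rcases h with h | h | h | h
  · have e1 : ¬ a < c := fun hlt => by have := w2.left a ha2 c hc1 hlt; have := h (φ₂ a); omega
    have e2 : ¬ c < a := fun hlt => by have := w1.left c hc2 a ha1 hlt; have := h (φ₁ c); omega
    exact hac (le_antisymm (not_lt.1 e2) (not_lt.1 e1))
  · have e1 : ¬ c < a := fun hlt => by have := w2.right a ha2 c hc1 hlt; have := h (φ₂ a); omega
    have e2 : ¬ a < c := fun hlt => by have := w1.right c hc2 a ha1 hlt; have := h (φ₁ c); omega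
    exact hac (le_antisymm (not_lt.1 e1) (not_lt.1 e2))
  · have e1 : ¬ τ.p a < τ.p c := fun hlt => by
      have := w2.down a ha2 c hc1 hlt; have := h (φ₂ a); omega
    have e2 : ¬ τ.p c < τ.p a := fun hlt => by
      have := w1.down c hc2 a ha1 hlt; have := h (φ₁ c); omega
    exact hac (τ.p.injective (le_antisymm (not_lt.1 e2) (not_lt.1 e1)))
  · have e1 : ¬ τ.p c < τ.p a := fun hlt => by
      have := w2.up a ha2 c hc1 hlt; have := h (φ₂ a); omega
    have e2 : ¬ τ.p a < τ.p c := fun hlt => by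
      have := w1.up c hc2 a ha1 hlt; have := h (φ₁ c); omega
    exact hac (τ.p.injective (le_antisymm (not_lt.1 e1) (not_lt.1 e2)))

theorem good_of_extreme (h : L.Extreme) (ha : L.AltCheck) (hi : L.IrrCheck) : L.Good where
  inter := by
    intro T τ I₁ I₂ h1 h2 _
    rcases nested_of_extreme h h1 h2 with h3 | h3
    · rw [Finset.inter_eq_left.2 h3]; exact h1
    · rw [Finset.inter_eq_right.2 h3]; exact h2
  disj := by
    intro T τ I₁ I₂ h1 h2 hd hc1 hc2
    exfalso
    have e1 : I₁.Nonempty := Finset.card_pos.1 (by omega)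
    have e2 : I₂.Nonempty := Finset.card_pos.1 (by omega)
    rcases nested_of_extreme h h1 h2 with h3 | h3
    · exact e1.ne_empty (Finset.disjoint_self_iff_empty _ |>.1 (hd.mono_right h3))
    · exact e2.ne_empty (Finset.disjoint_self_iff_empty _ |>.1 (hd.mono_left h3))
  alt := alt_of_check ha
  irr := irr_of_check hi

end Pool.Agent.Work.MP_080fe7_co.Layer
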