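import Pool.Agent.Work.MP_080fe7_co.Config

/-!
# Common geometric definitions (interface between the modules)
-/

set_option linter.unusedSectionVars false
set_option linter.unusedVariables false

namespace Pool.Agent.Work.MP_080fe7_co

/-- the four directions -/
inductive Dir | R | L | U | D
deriving DecidableEq

/-- a direction is horizontal -/
def Dir.hor : Dir → Bool
  | .R => true
  | .L => true
  | .U => false
  | .D => false

/-- outward coordinate in a direction -/
def outc {P : Type*} (x y : P → ℤ) : Dir → P → ℤ
  | .R => x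
  | .L => fun p => - x p
  | .U => y
  | .D => fun p => - y p

/-- one direction is horizontal and the other one is vertical -/
def Perp (d d' : Dir) : Prop := d.hor ≠ d'.hor

/-- proper pin sequence `q 0, …, q (m-1)` with directions `e`: the point `q k` lies beyond all
earlier points in direction `e k`, and in direction `e (k-1)` it lies between `q (k-1)` and all
other earlier points. -/
def Pins {P : Type*} (x y : P → ℤ) (m : ℕ) : Prop :=
  ∃ (q : ℕ → P) (e : ℕ → Dir), ∀ k, 1 ≤ k → k < m →
    Perp (e k) (e (k - 1)) ∧
    (∀ j, j < k → outc x y (e k) (q j) < outc x y (e k) (q k)) ∧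
    (∀ j, j + 1 < k → outc x y (e (k - 1)) (q j) < outc x y (e (k - 1)) (q k)) ∧
    outc x y (e (k - 1)) (q k) < outc x y (e (k - 1)) (q (k - 1))

/-- parallel alternation `(m+1) 1 (m+2) 2 … (2m) m` -/
def Par {P : Type*} (x y : P → ℤ) (m : ℕ) : Prop :=
  ∃ a b : ℕ → P, (∀ i, i < m → x (a i) < x (b i)) ∧
    (∀ i, i + 1 < m → x (b i) < x (a (i + 1)) ∧ y (a i) < y (a (i + 1)) ∧
      y (b i) < y (b (i + 1))) ∧
    (∀ i j, i < m → j < m → y (b i) < y (a j))

/-- wedge alternation opening to the right; even points above, odd points below -/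
def Wedge {P : Type*} (x y : P → ℤ) (w : ℕ → P) (m : ℕ) : Prop :=
  ∀ i j, i < j → j < m → x (w i) < x (w j) ∧ (Even j → y (w i) < y (w j)) ∧
    (Odd j → y (w j) < y (w i))

/-- wedge simple permutation of type 1: a wedge and a point `p` to the right of it, in the
middle -/
def T1 {P : Type*} (x y : P → ℤ) (m : ℕ) : Prop :=
  ∃ (w : ℕ → P) (p : P), Wedge x y w m ∧ ∀ i, i < m → x (w i) < x p ∧
    (Even i → y p < y (w i)) ∧ (Odd i → y (w i) < y p)

/-- wedge simple permutation of type 2: a wedge, a point `b` to the left of it, in the middle,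
and a point `p` between them horizontally and below everything -/
def T2 {P : Type*} (x y : P → ℤ) (m : ℕ) : Prop :=
  ∃ (w : ℕ → P) (b p : P), Wedge x y w m ∧ x b < x p ∧ y p < y b ∧
    ∀ i, i < m → x p < x (w i) ∧ y p < y (w i) ∧ (Even i → y b < y (w i)) ∧
      (Odd i → y (w i) < y b)

/-- a finite configuration is simple: every proper part with at least two points is cut -/
def SimpleConf {P : Type*} [Fintype P] (x y : P → ℤ) : Prop :=
  ∀ S : Finset P, 2 ≤ S.card → S ≠ Finset.univ →
    ∃ p, p ∉ S ∧ ∃ a ∈ S, ∃ b ∈ S, (x a < x p ∧ x p < x b) ∨ (y a < y p ∧ y p < y b)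

/-- horizontal coordinates of the increasing oscillation -/
def oscX (i : ℕ) : ℤ := if i % 2 = 0 then 2 * i else 2 * i + 3

/-- vertical coordinates of the increasing oscillation -/
def oscY (i : ℕ) : ℤ := if i % 2 = 0 then 2 * i + 3 else 2 * i

/-- the increasing oscillation with `n` points -/
noncomputable def osc (n : ℕ) : Pat := pat oscX oscY (Finset.range n)

/-- the eight symmetries of the plane, applied to coordinates: `s.1` swaps the axes, `s.2.1`
negates the first coordinate, `s.2.2` the second one -/
def symX {P : Type*} (s : Bool × Bool × Bool) (x y : P → ℤ) : P → ℤ := fun p =>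
  (if s.2.1 then (-1) else 1) * (if s.1 then y p else x p)

/-- second coordinate of the transformed configuration -/
def symY {P : Type*} (s : Bool × Bool × Bool) (x y : P → ℤ) : P → ℤ := fun p =>
  (if s.2.2 then (-1) else 1) * (if s.1 then x p else y p)

end Pool.Agent.Work.MP_080fe7_co
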