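import Pool.Agent.Work.MP_080fe7_co.Config

/-!
# Layers: points placed around a central block
-/

set_option linter.unusedSectionVars false
set_option linter.unusedVariables false

open Finset

namespace Pool.Agent.Work.MP_080fe7_co

/-- `m` points placed around a central block (which sits at the origin). -/
structure Layer (m : ℕ) where
  x : Fin m → ℤ
  y : Fin m → ℤ
  hx : Function.Injective x
  hy : Function.Injective y
  hx0 : ∀ i, x i ≠ 0
  hy0 : ∀ i, y i ≠ 0

namespace Layer

variable {m : ℕ} (L : Layer m)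

/-- horizontal coordinates of the inflated layer -/
def X (k : ℕ) : Fin m ⊕ Fin k → ℤ ×ₗ ℤ
  | Sum.inl s => toLex (L.x s, 0)
  | Sum.inr i => toLex (0, ((i : ℕ) : ℤ))

/-- vertical coordinates of the inflated layer -/
def Y (α : Pat) : Fin m ⊕ Fin α.n → ℤ ×ₗ ℤ
  | Sum.inl s => toLex (L.y s, 0)
  | Sum.inr i => toLex (0, ((α.p i : ℕ) : ℤ))

@[simp] theorem X_ll {k : ℕ} (s s' : Fin m) :
    L.X k (Sum.inl s) < L.X k (Sum.inl s') ↔ L.x s < L.x s' := by
  simp [X, Prod.Lex.toLex_lt_toLex]

@[simp] theorem X_lr {k : ℕ} (s : Fin m) (i : Fin k) :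
    L.X k (Sum.inl s) < L.X k (Sum.inr i) ↔ L.x s < 0 := by
  have := L.hx0 s
  simp [X, Prod.Lex.toLex_lt_toLex, this]

@[simp] theorem X_rl {k : ℕ} (s : Fin m) (i : Fin k) :
    L.X k (Sum.inr i) < L.X k (Sum.inl s) ↔ 0 < L.x s := by
  have := (L.hx0 s).symm
  simp [X, Prod.Lex.toLex_lt_toLex, this]

@[simp] theorem X_rr {k : ℕ} (i j : Fin k) :
    L.X k (Sum.inr i) < L.X k (Sum.inr j) ↔ i < j := by
  simp [X, Prod.Lex.toLex_lt_toLex]

@[simp] theorem Y_ll {α : Pat} (s s' : Fin m) :
    L.Y α (Sum.inl s) < L.Y α (Sum.inl s') ↔ L.y s < L.y s' := by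
  simp [Y, Prod.Lex.toLex_lt_toLex]

@[simp] theorem Y_lr {α : Pat} (s : Fin m) (i : Fin α.n) :
    L.Y α (Sum.inl s) < L.Y α (Sum.inr i) ↔ L.y s < 0 := by
  have := L.hy0 s
  simp [Y, Prod.Lex.toLex_lt_toLex, this]

@[simp] theorem Y_rl {α : Pat} (s : Fin m) (i : Fin α.n) :
    L.Y α (Sum.inr i) < L.Y α (Sum.inl s) ↔ 0 < L.y s := by
  have := (L.hy0 s).symm
  simp [Y, Prod.Lex.toLex_lt_toLex, this]

@[simp] theorem Y_rr {α : Pat} (i j : Fin α.n) :
    L.Y α (Sum.inr i) < L.Y α (Sum.inr j) ↔ α.p i < α.p j := by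
  simp [Y, Prod.Lex.toLex_lt_toLex]

theorem X_inj (k : ℕ) : Function.Injective (L.X k) := by
  rintro (s | i) (s' | j) h
  · simp only [X, EmbeddingLike.apply_eq_iff_eq, Prod.mk.injEq] at h
    rw [L.hx h.1]
  · simp only [X, EmbeddingLike.apply_eq_iff_eq, Prod.mk.injEq] at h
    exact absurd h.1 (L.hx0 s)
  · simp only [X, EmbeddingLike.apply_eq_iff_eq, Prod.mk.injEq] at h
    exact absurd h.1.symm (L.hx0 s')
  · simp only [X, EmbeddingLike.apply_eq_iff_eq, Prod.mk.injEq] at h
    have : i = j := Fin.ext (by exact_mod_cast h.2)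
    rw [this]

theorem Y_inj (α : Pat) : Function.Injective (L.Y α) := by
  rintro (s | i) (s' | j) h
  · simp only [Y, EmbeddingLike.apply_eq_iff_eq, Prod.mk.injEq] at h
    rw [L.hy h.1]
  · simp only [Y, EmbeddingLike.apply_eq_iff_eq, Prod.mk.injEq] at h
    exact absurd h.1 (L.hy0 s)
  · simp only [Y, EmbeddingLike.apply_eq_iff_eq, Prod.mk.injEq] at h
    exact absurd h.1.symm (L.hy0 s')
  · simp only [Y, EmbeddingLike.apply_eq_iff_eq, Prod.mk.injEq] at h
    have : α.p i = α.p j := Fin.ext (by exact_mod_cast h.2)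
    rw [α.p.injective this]

/-- The permutation obtained by surrounding `α` by the points of the layer indexed by `T`. -/
noncomputable def infl (T : Finset (Fin m)) (α : Pat) : Pat :=
  pat (L.X α.n) (L.Y α) (T.disjSum (univ : Finset (Fin α.n)))

theorem infl_isPat (T : Finset (Fin m)) (α : Pat) :
    IsPat (L.infl T α) (L.X α.n) (L.Y α) (T.disjSum (univ : Finset (Fin α.n))) :=
  pat_isPat (L.X_inj _).injOn (L.Y_inj _).injOn

@[simp] theorem infl_n (T : Finset (Fin m)) (α : Pat) : (L.infl T α).n = T.card + α.n := by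
  unfold infl
  rw [pat_n (L.X_inj _).injOn (L.Y_inj _).injOn]
  simp

/-- `φ` embeds the points of `τ` outside `I` into the points of the layer indexed by `T`,
compatibly with `I` being sent to the central block. -/
structure JW (T : Finset (Fin m)) (τ : Pat) (I : Finset (Fin τ.n)) (φ : Fin τ.n → Fin m) :
    Prop where
  mem : ∀ i, i ∉ I → φ i ∈ T
  hx : ∀ i, i ∉ I → ∀ j, j ∉ I → i < j → L.x (φ i) < L.x (φ j)
  hy : ∀ i, i ∉ I → ∀ j, j ∉ I → τ.p i < τ.p j → L.y (φ i) < L.y (φ j)
  left : ∀ i, i ∉ I → ∀ j ∈ I, i < j → L.x (φ i) < 0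
  right : ∀ i, i ∉ I → ∀ j ∈ I, j < i → 0 < L.x (φ i)
  down : ∀ i, i ∉ I → ∀ j ∈ I, τ.p i < τ.p j → L.y (φ i) < 0
  up : ∀ i, i ∉ I → ∀ j ∈ I, τ.p j < τ.p i → 0 < L.y (φ i)

/-- the set `I` can play the role of the central block -/
def J (T : Finset (Fin m)) (τ : Pat) (I : Finset (Fin τ.n)) : Prop := ∃ φ, L.JW T τ I φ

theorem le_infl_iff [NeZero m] {T : Finset (Fin m)} {α τ : Pat} :
    τ ≤ L.infl T α ↔ ∃ I, L.J T τ I ∧ sub τ I ≤ α := by
  classical
  rw [(L.infl_isPat T α).le_iff]
  constructor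
  · rintro ⟨e, h1, h2, h3⟩
    have hm : ∀ i s, e i = Sum.inl s → s ∈ T := by
      intro i s hs
      have := h1 i
      rw [hs] at this
      simpa using this
    let I : Finset (Fin τ.n) := univ.filter (fun i => ∃ j, e i = Sum.inr j)
    have hI : ∀ i, i ∉ I → ∃ s, e i = Sum.inl s := by
      intro i hi
      rcases hei : e i with s | j
      · exact ⟨s, rfl⟩
      · exact absurd (by simp [I, hei]) hi
    have hI' : ∀ i, i ∈ I → ∃ j, e i = Sum.inr j := by
      intro i hi
      simpa [I] using hi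
    let φ : Fin τ.n → Fin m := fun i => Sum.elim (fun s => s) (fun _ => 0) (e i)
    have hφ : ∀ i, i ∉ I → e i = Sum.inl (φ i) := by
      intro i hi
      obtain ⟨s, hs⟩ := hI i hi
      simp [φ, hs]
    refine ⟨I, ⟨φ, ?_, ?_, ?_, ?_, ?_, ?_, ?_⟩, ?_⟩
    · intro i hi
      exact hm i _ (hφ i hi)
    · intro i hi j hj hij
      have := h2 i j hij
      rw [hφ i hi, hφ j hj] at this
      simpa using this
    · intro i hi j hj hij
      have := h3 i j hij
      rw [hφ i hi, hφ j hj] at this
      simpa using this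
    · intro i hi j hj hij
      obtain ⟨j', hj'⟩ := hI' j hj
      have := h2 i j hij
      rw [hφ i hi, hj'] at this
      simpa using this
    · intro i hi j hj hij
      obtain ⟨j', hj'⟩ := hI' j hj
      have := h2 j i hij
      rw [hφ i hi, hj'] at this
      simpa using this
    · intro i hi j hj hij
      obtain ⟨j', hj'⟩ := hI' j hj
      have := h3 i j hij
      rw [hφ i hi, hj'] at this
      simpa using this
    · intro i hi j hj hij
      obtain ⟨j', hj'⟩ := hI' j hj
      have := h3 j i hij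
      rw [hφ i hi, hj'] at this
      simpa using this
    · by_cases hα : Nonempty (Fin α.n)
      · rw [le_iff_has, has_sub_iff]
        refine ⟨fun i => Sum.elim (fun _ => Classical.arbitrary _) (fun j => j) (e i),
          fun _ _ => Set.mem_univ _, ?_, ?_⟩
        · intro i hi j hj hij
          obtain ⟨i', hi'⟩ := hI' i hi
          obtain ⟨j', hj'⟩ := hI' j hj
          have := h2 i j hij
          rw [hi', hj'] at this
          simpa [hi', hj'] using this
        · intro i hi j hj hij
          obtain ⟨i', hi'⟩ := hI' i hi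
          obtain ⟨j', hj'⟩ := hI' j hj
          have := h3 i j hij
          rw [hi', hj'] at this
          simpa [hi', hj'] using this
      · have hI0 : I = ∅ := by
          rw [Finset.eq_empty_iff_forall_notMem]
          intro i hi
          obtain ⟨j, -⟩ := hI' i hi
          exact hα ⟨j⟩
        have hn : (sub τ I).n = 0 := by rw [sub_n, hI0]; rfl
        have h0 : ∀ i : Fin (sub τ I).n, False := fun i => by
          have := i.2
          omega
        rw [le_iff_has]
        exact ⟨fun i => (h0 i).elim, fun i => (h0 i).elim, fun i => (h0 i).elim,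
          fun i => (h0 i).elim⟩
  · rintro ⟨I, ⟨φ, hφ⟩, hle⟩
    by_cases hα : Nonempty (Fin α.n)
    · rw [le_iff_has, has_sub_iff] at hle
      obtain ⟨g, hg1, hg2, hg3⟩ := hle
      refine ⟨fun i => if i ∈ I then Sum.inr (g i) else Sum.inl (φ i), ?_, ?_, ?_⟩
      · intro i
        by_cases hi : i ∈ I
        · simp [hi]
        · simp [hi, hφ.mem i hi]
      · intro i j hij
        by_cases hi : i ∈ I <;> by_cases hj : j ∈ I
        · simp only [hi, hj, if_true, X_rr]; exact hg2 i hi j hj hij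
        · simp only [hi, hj, if_true, if_false, X_rl]; exact hφ.right j hj i hi hij
        · simp only [hi, hj, if_true, if_false, X_lr]; exact hφ.left i hi j hj hij
        · simp only [hi, hj, if_false, X_ll]; exact hφ.hx i hi j hj hij
      · intro i j hij
        by_cases hi : i ∈ I <;> by_cases hj : j ∈ I
        · simp only [hi, hj, if_true, Y_rr]; exact hg3 i hi j hj hij
        · simp only [hi, hj, if_true, if_false, Y_rl]; exact hφ.up j hj i hi hij
        · simp only [hi, hj, if_true, if_false, Y_lr]; exact hφ.down i hi j hj hij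
        · simp only [hi, hj, if_false, Y_ll]; exact hφ.hy i hi j hj hij
    · have hI0 : ∀ i, i ∉ I := by
        intro i hi
        have h1 := Pat.n_le hle
        rw [sub_n] at h1
        have h2 : 0 < I.card := Finset.card_pos.2 ⟨i, hi⟩
        exact hα ⟨⟨0, by omega⟩⟩
      refine ⟨fun i => Sum.inl (φ i), ?_, ?_, ?_⟩
      · intro i
        simp [hφ.mem i (hI0 i)]
      · intro i j hij
        simpa using hφ.hx i (hI0 i) j (hI0 j) hij
      · intro i j hij
        simpa using hφ.hy i (hI0 i) j (hI0 j) hij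

variable {L}

theorem J.mono {T T' : Finset (Fin m)} {τ : Pat} {I : Finset (Fin τ.n)} (h : L.J T τ I)
    (hT : T ⊆ T') : L.J T' τ I := by
  obtain ⟨φ, h1, h2, h3, h4, h5, h6, h7⟩ := h
  exact ⟨φ, fun i hi => hT (h1 i hi), h2, h3, h4, h5, h6, h7⟩

/-- no point outside `K` cuts `K` -/
def IsInt (τ : Pat) (K : Finset (Fin τ.n)) : Prop :=
  ∀ i, i ∉ K → ((∀ j ∈ K, i < j) ∨ (∀ j ∈ K, j < i)) ∧
    ((∀ j ∈ K, τ.p i < τ.p j) ∨ (∀ j ∈ K, τ.p j < τ.p i))

theorem JW.isInt {T : Finset (Fin m)} {τ : Pat} {I : Finset (Fin τ.n)} {φ : Fin τ.n → Fin m}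
    (h : L.JW T τ I φ) : IsInt τ I := by
  intro i hi
  constructor
  · rcases lt_or_gt_of_ne (L.hx0 (φ i)) with h0 | h0
    · left
      intro j hj
      by_contra hn
      rcases eq_or_lt_of_le (not_lt.1 hn) with h1 | h1
      · subst h1; exact hi hj
      · have := h.right i hi j hj h1
        omega
    · right
      intro j hj
      by_contra hn
      rcases eq_or_lt_of_le (not_lt.1 hn) with h1 | h1
      · subst h1; exact hi hj
      · have := h.left i hi j hj h1
        omega
  · rcases lt_or_gt_of_ne (L.hy0 (φ i)) with h0 | h0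
    · left
      intro j hj
      by_contra hn
      rcases eq_or_lt_of_le (not_lt.1 hn) with h1 | h1
      · have := τ.p.injective h1; subst this; exact hi hj
      · have := h.up i hi j hj h1
        omega
    · right
      intro j hj
      by_contra hn
      rcases eq_or_lt_of_le (not_lt.1 hn) with h1 | h1
      · have := τ.p.injective h1; subst this; exact hi hj
      · have := h.down i hi j hj h1
        omega

theorem J.isInt {T : Finset (Fin m)} {τ : Pat} {I : Finset (Fin τ.n)} (h : L.J T τ I) :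
    IsInt τ I := h.elim fun _ h => h.isInt

theorem JW.injOn {T : Finset (Fin m)} {τ : Pat} {I : Finset (Fin τ.n)} {φ : Fin τ.n → Fin m}
    (h : L.JW T τ I φ) : Set.InjOn φ (Iᶜ : Finset (Fin τ.n)) := by
  intro i hi j hj hij
  have hi' : i ∉ I := by simpa using hi
  have hj' : j ∉ I := by simpa using hj
  rcases lt_trichotomy i j with h1 | h1 | h1
  · have := h.hx i hi' j hj' h1
    rw [hij] at this; exact absurd this (lt_irrefl _)
  · exact h1
  · have := h.hx j hj' i hi' h1
    rw [hij] at this; exact absurd this (lt_irrefl _)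

theorem JW.card_le {T : Finset (Fin m)} {τ : Pat} {I : Finset (Fin τ.n)} {φ : Fin τ.n → Fin m}
    (h : L.JW T τ I φ) : Iᶜ.card ≤ T.card :=
  Finset.card_le_card_of_injOn φ (fun i hi => h.mem i (by simpa using hi)) h.injOn

theorem J.card_le {T : Finset (Fin m)} {τ : Pat} {I : Finset (Fin τ.n)} (h : L.J T τ I) :
    Iᶜ.card ≤ T.card := h.elim fun _ h => h.card_le

theorem J.card_le' {T : Finset (Fin m)} {τ : Pat} {I : Finset (Fin τ.n)} (h : L.J T τ I) :
    τ.n ≤ I.card + T.card := by
  have h1 := h.card_le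
  have h2 := Finset.card_add_card_compl I
  simp only [Fintype.card_fin] at h2
  omega

/-- enlarging the block -/
theorem J.enlarge {T : Finset (Fin m)} {τ : Pat} {I K : Finset (Fin τ.n)} (h : L.J T τ I)
    (hne : I.Nonempty) (hIK : I ⊆ K) (hK : IsInt τ K) : L.J T τ K := by
  obtain ⟨φ, h⟩ := h
  obtain ⟨c, hc⟩ := hne
  refine ⟨φ, fun i hi => h.mem i (fun h' => hi (hIK h')), ?_, ?_, ?_, ?_, ?_, ?_⟩
  · intro i hi j hj hij
    exact h.hx i (fun h' => hi (hIK h')) j (fun h' => hj (hIK h')) hij
  · intro i hi j hj hij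
    exact h.hy i (fun h' => hi (hIK h')) j (fun h' => hj (hIK h')) hij
  · intro i hi j hj hij
    refine h.left i (fun h' => hi (hIK h')) c hc ?_
    rcases (hK i hi).1 with h1 | h1
    · exact h1 c (hIK hc)
    · exact absurd hij (lt_asymm (h1 j hj))
  · intro i hi j hj hij
    refine h.right i (fun h' => hi (hIK h')) c hc ?_
    rcases (hK i hi).1 with h1 | h1
    · exact absurd hij (lt_asymm (h1 j hj))
    · exact h1 c (hIK hc)
  · intro i hi j hj hij
    refine h.down i (fun h' => hi (hIK h')) c hc ?_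
    rcases (hK i hi).2 with h1 | h1
    · exact h1 c (hIK hc)
    · exact absurd hij (lt_asymm (h1 j hj))
  · intro i hi j hj hij
    refine h.up i (fun h' => hi (hIK h')) c hc ?_
    rcases (hK i hi).2 with h1 | h1
    · exact absurd hij (lt_asymm (h1 j hj))
    · exact h1 c (hIK hc)

theorem J_univ [NeZero m] {T : Finset (Fin m)} {τ : Pat} : L.J T τ univ :=
  ⟨fun _ => 0, by constructor <;> simp⟩

end Layer

end Pool.Agent.Work.MP_080fe7_co
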