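import Pool.Agent.Work.MP_080fe7_co.Layer

/-!
# The nest theorem
-/

set_option linter.unusedSectionVars false
set_option linter.unusedVariables false

open Finset

namespace Pool.Agent.Work.MP_080fe7_co

theorem Pat.le_of_n_zero {σ π : Pat} (h : σ.n = 0) : σ ≤ π := by
  have h0 : ∀ i : Fin σ.n, False := fun i => by have := i.2; omega
  rw [le_iff_has]
  exact ⟨fun i => (h0 i).elim, fun i => (h0 i).elim, fun i => (h0 i).elim,
    fun i => (h0 i).elim⟩

theorem Pat.le_of_n_le_one {σ π : Pat} (h : σ.n ≤ 1) (hπ : one ≤ π) : σ ≤ π := by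
  rcases Nat.lt_or_ge σ.n 1 with h1 | h1
  · exact Pat.le_of_n_zero (by omega)
  · have : σ = one := eq_one_iff.2 (by omega)
    rw [this]; exact hπ

namespace Layer

variable {m : ℕ} {L : Layer m}

theorem infl_mono {T T' : Finset (Fin m)} {α α' : Pat} (hT : T ⊆ T') (hα : α ≤ α') :
    L.infl T α ≤ L.infl T' α' := by
  rw [(L.infl_isPat T' α').le_iff]
  obtain ⟨e, he⟩ := hα
  refine (L.infl_isPat T α).has.map (Sum.map id e) ?_ ?_ ?_
  · rintro (s | i) hi
    · have : s ∈ T := by simpa using hi
      simp [hT this]
    · simp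
  · rintro (s | i) _ (s' | j) _ h
    · simpa using h
    · simpa using h
    · simpa using h
    · simpa using h
  · rintro (s | i) _ (s' | j) _ h
    · simpa using h
    · simpa using h
    · simpa using h
    · have h' : α.p i < α.p j := by simpa using h
      simpa using (he i j).1 h'

theorem eq_infl_of_J [NeZero m] {τ : Pat} {K : Finset (Fin τ.n)} (h : L.J univ τ K)
    (hK : Kᶜ.card = m) : τ = L.infl univ (sub τ K) := by
  apply Pat.eq_of_le_of_n
  · exact L.le_infl_iff.2 ⟨K, h, le_refl _⟩
  · have h2 := Finset.card_add_card_compl K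
    simp only [Fintype.card_fin] at h2
    rw [infl_n, sub_n, Finset.card_univ, Fintype.card_fin]
    omega

theorem exists_J_of_eq_infl [NeZero m] {τ β : Pat} (h : τ = L.infl univ β) :
    ∃ K : Finset (Fin τ.n), L.J univ τ K ∧ Kᶜ.card = m ∧ sub τ K = β := by
  obtain ⟨K, hK, hle⟩ := L.le_infl_iff.1 (le_of_eq h)
  have h1 := hK.card_le
  have h2 := Finset.card_add_card_compl K
  have h3 : τ.n = m + β.n := by
    have := congrArg Pat.n h
    rw [infl_n, Finset.card_univ, Fintype.card_fin] at this
    exact this
  have h4 := Pat.n_le hle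
  rw [sub_n] at h4
  simp only [Fintype.card_fin, Finset.card_univ] at h1 h2
  refine ⟨K, hK, by omega, Pat.eq_of_le_of_n hle ?_⟩
  rw [sub_n]
  omega

/-- The hypotheses on a layer under which the nest theorem holds. -/
structure Good (L : Layer m) : Prop where
  inter : ∀ (T : Finset (Fin m)) (τ : Pat) (I₁ I₂ : Finset (Fin τ.n)), L.J T τ I₁ → L.J T τ I₂ →
    (I₁ ∩ I₂).Nonempty → L.J T τ (I₁ ∩ I₂)
  disj : ∀ (T : Finset (Fin m)) (τ : Pat) (I₁ I₂ : Finset (Fin τ.n)), L.J T τ I₁ → L.J T τ I₂ →
    Disjoint I₁ I₂ → 2 ≤ I₁.card → 2 ≤ I₂.card → sub τ I₁ ≤ sub τ I₂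
  alt : ∀ (τ : Pat) (I : Finset (Fin τ.n)), I.Nonempty → L.J univ τ I → Iᶜ.card < m →
    ∀ s : Finset (Finset (Fin m)), (∀ T, T ∈ s ↔ L.J T τ I) → ∑ T ∈ s, (-1 : ℤ) ^ T.card = 0
  irr : ∀ (τ : Pat) (I K : Finset (Fin τ.n)), I.Nonempty → L.J univ τ I → Iᶜ.card = m →
    I ⊂ K → IsInt τ K → K = univ

section
open scoped Classical

/-- signed sum over the up-set of blocks that allow `τ` -/
theorem inner_sum [NeZero m] (hL : L.Good) (T : Finset (Fin m)) (τ α : Pat) (hα : one ≤ α)
    (hα1 : α ≠ one) (I₀ : Finset (Fin τ.n)) (h0 : L.J T τ I₀)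
    (hmin : ∀ I, L.J T τ I → I₀.card ≤ I.card) :
    ∑ α' ∈ (Icc one α).filter (fun α' => τ ≤ L.infl T α'), IncidenceAlgebra.mu ℤ α' α
      = if sub τ I₀ = α then 1 else 0 := by
  by_cases hc : I₀.card ≤ 1
  · -- the up-set is everything
    have h1 : (Icc one α).filter (fun α' => τ ≤ L.infl T α') = Icc one α := by
      apply Finset.filter_true_of_mem
      intro α' hα'
      exact L.le_infl_iff.2 ⟨I₀, h0, Pat.le_of_n_le_one (by rw [sub_n]; exact hc)
        (Finset.mem_Icc.1 hα').1⟩
    rw [h1, IncidenceAlgebra.sum_Icc_mu_left, if_neg (fun h => hα1 h.symm), if_neg]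
    intro h
    have h2 : α.n ≤ 1 := by rw [← h, sub_n]; exact hc
    have h3 := one_le_iff.1 hα
    exact hα1 (eq_one_iff.2 (by omega))
  · have hc2 : 2 ≤ I₀.card := by omega
    have hpm : ∀ I, L.J T τ I → sub τ I₀ ≤ sub τ I := by
      intro I hI
      have hI2 : 2 ≤ I.card := hc2.trans (hmin I hI)
      by_cases hne : (I₀ ∩ I).Nonempty
      · have h3 := hL.inter T τ I₀ I h0 hI hne
        have h4 := hmin _ h3
        have h5 : I₀ ∩ I = I₀ :=
          Finset.eq_of_subset_of_card_le Finset.inter_subset_left h4
        exact sub_mono (Finset.inter_eq_left.1 h5)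
      · rw [Finset.not_nonempty_iff_eq_empty] at hne
        exact hL.disj T τ I₀ I h0 hI (Finset.disjoint_iff_inter_eq_empty.2 hne) hc2 hI2
    have h1 : (Icc one α).filter (fun α' => τ ≤ L.infl T α')
        = (Icc one α).filter (fun α' => sub τ I₀ ≤ α') := by
      apply Finset.filter_congr
      intro α' _
      rw [L.le_infl_iff]
      constructor
      · rintro ⟨I, hI, hle⟩
        exact (hpm I hI).trans hle
      · intro h
        exact ⟨I₀, h0, h⟩
    rw [h1]
    exact sum_mu_up _ _ (one_le_iff.2 (by rw [sub_n]; omega))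

theorem exists_min_card [NeZero m] (T : Finset (Fin m)) (τ : Pat) :
    ∃ I₀ : Finset (Fin τ.n), L.J T τ I₀ ∧ ∀ I, L.J T τ I → I₀.card ≤ I.card := by
  have h : ((univ : Finset (Finset (Fin τ.n))).filter (fun I => L.J T τ I)).Nonempty :=
    ⟨univ, by simp [J_univ]⟩
  obtain ⟨I₀, h1, h2⟩ := Finset.exists_min_image _ (fun I => I.card) h
  refine ⟨I₀, (Finset.mem_filter.1 h1).2, fun I hI => h2 I ?_⟩
  simp [hI]

/-- the weights of the minimal blocks -/
theorem weight_eq [NeZero m] (hL : L.Good) (τ : Pat) (hτ : 2 * m + 1 ≤ τ.n)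
    (IT : Finset (Fin m) → Finset (Fin τ.n)) (h1 : ∀ T, L.J T τ (IT T))
    (h2 : ∀ T I, L.J T τ I → IT T ⊆ I) (g : Finset (Fin τ.n) → ℤ) :
    (∀ K, L.J univ τ K → Kᶜ.card = m →
      ∑ T : Finset (Fin m), (-1 : ℤ) ^ T.card * g (IT T) = (-1) ^ m * (g K - g univ)) ∧
    ((¬ ∃ K, L.J univ τ K ∧ Kᶜ.card = m) →
      ∑ T : Finset (Fin m), (-1 : ℤ) ^ T.card * g (IT T) = 0) := by
  have hbig : ∀ T I, L.J T τ I → m + 1 ≤ I.card := by
    intro T I h
    have h3 := h.card_le'
    have h4 : T.card ≤ m := by simpa using Finset.card_le_univ T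
    omega
  have hne : ∀ T I, L.J T τ I → I.Nonempty := fun T I h =>
    Finset.card_pos.1 (by have := hbig T I h; omega)
  -- the cumulative weights
  have hD : ∀ K : Finset (Fin τ.n), IsInt τ K →
      ∑ T ∈ (univ : Finset (Finset (Fin m))).filter (fun T => IT T ⊆ K), (-1 : ℤ) ^ T.card
        = if L.J univ τ K ∧ Kᶜ.card = m then (-1) ^ m else 0 := by
    intro K hK
    have h3 : (univ : Finset (Finset (Fin m))).filter (fun T => IT T ⊆ K)
        = (univ : Finset (Finset (Fin m))).filter (fun T => L.J T τ K) := by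
      apply Finset.filter_congr
      intro T _
      constructor
      · intro h
        exact (h1 T).enlarge (hne _ _ (h1 T)) h hK
      · intro h
        exact h2 T K h
    rw [h3]
    by_cases hJ : L.J univ τ K
    · by_cases hm : Kᶜ.card = m
      · rw [if_pos ⟨hJ, hm⟩]
        have h4 : (univ : Finset (Finset (Fin m))).filter (fun T => L.J T τ K) = {univ} := by
          ext T
          simp only [Finset.mem_filter, Finset.mem_univ, true_and, Finset.mem_singleton]
          constructor
          · intro h
            have h5 := h.card_le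
            exact Finset.eq_univ_of_card T (by
              have h6 := Finset.card_le_univ T
              simp only [Fintype.card_fin] at h6 ⊢
              omega)
          · rintro rfl; exact hJ
        rw [h4, Finset.sum_singleton, Finset.card_univ, Fintype.card_fin]
      · rw [if_neg (fun h => hm h.2)]
        have h5 := hJ.card_le
        rw [Finset.card_univ, Fintype.card_fin] at h5
        exact hL.alt τ K (hne _ _ hJ) hJ (by omega) _ (by simp)
    · rw [if_neg (fun h => hJ h.1)]
      rw [Finset.filter_false_of_mem, Finset.sum_empty]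
      intro T _ h
      exact hJ (h.mono (Finset.subset_univ _))
  -- the individual weights
  let N : Finset (Fin τ.n) → ℤ := fun K =>
    ∑ T ∈ (univ : Finset (Finset (Fin m))).filter (fun T => IT T = K), (-1 : ℤ) ^ T.card
  have hN0 : ∀ K, ¬ IsInt τ K → N K = 0 := by
    intro K hK
    simp only [N]
    rw [Finset.filter_false_of_mem, Finset.sum_empty]
    rintro T _ rfl
    exact hK (h1 T).isInt
  have hsumN : ∀ K, ∑ T ∈ (univ : Finset (Finset (Fin m))).filter (fun T => IT T ⊆ K),
      (-1 : ℤ) ^ T.card = N K + ∑ K' ∈ K.ssubsets, N K' := by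
    intro K
    have h3 : ∑ K' ∈ K.powerset, N K' = N K + ∑ K' ∈ K.ssubsets, N K' := by
      rw [← Finset.insert_erase (Finset.mem_powerset_self K), Finset.sum_insert (by simp)]
      rfl
    rw [← h3]
    rw [Finset.sum_filter]
    have h4 : ∀ K', N K' = ∑ T : Finset (Fin m), if IT T = K' then (-1 : ℤ) ^ T.card else 0 := by
      intro K'
      simp only [N]
      rw [Finset.sum_filter]
    rw [Finset.sum_congr rfl (fun K' _ => h4 K'), Finset.sum_comm]
    refine Finset.sum_congr rfl ?_
    intro T _
    rw [Finset.sum_ite_eq]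
    simp [Finset.mem_powerset]
  have hA : ∑ T : Finset (Fin m), (-1 : ℤ) ^ T.card * g (IT T)
      = ∑ K : Finset (Fin τ.n), N K * g K := by
    have h4 : ∀ K', N K' * g K'
        = ∑ T : Finset (Fin m), if IT T = K' then (-1 : ℤ) ^ T.card * g K' else 0 := by
      intro K'
      simp only [N]
      rw [Finset.sum_filter, Finset.sum_mul]
      refine Finset.sum_congr rfl ?_
      intro T _
      split_ifs <;> simp
    rw [Finset.sum_congr rfl (fun K' _ => h4 K'), Finset.sum_comm]
    refine Finset.sum_congr rfl ?_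
    intro T _
    rw [Finset.sum_ite_eq]
    simp
  constructor
  · intro K₀ hK₀ hK₀m
    have huniq : ∀ K, L.J univ τ K → Kᶜ.card = m → K = K₀ := by
      intro K hK hKm
      have hc : ∀ K' : Finset (Fin τ.n), K'.card + K'ᶜ.card = τ.n := by
        intro K'
        simpa using Finset.card_add_card_compl K'
      have hint : (K ∩ K₀).Nonempty := by
        rw [← Finset.card_pos]
        have h5 := Finset.card_union_add_card_inter K K₀
        have h6 : (K ∪ K₀).card ≤ τ.n := by simpa using Finset.card_le_univ (K ∪ K₀)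
        have := hc K; have := hc K₀
        omega
      have h7 := hL.inter univ τ K K₀ hK hK₀ hint
      have h8 := h7.card_le
      rw [Finset.card_univ, Fintype.card_fin] at h8
      have h9 := hc (K ∩ K₀); have h10 := hc K; have h11 := hc K₀
      have h12 : K ∩ K₀ = K :=
        Finset.eq_of_subset_of_card_le Finset.inter_subset_left (by omega)
      have h13 : K ∩ K₀ = K₀ :=
        Finset.eq_of_subset_of_card_le Finset.inter_subset_right (by omega)
      rw [← h12]; exact h13
    have hmpos : 0 < m := Nat.pos_of_ne_zero (NeZero.ne m)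
    have hK₀u : K₀ ≠ univ := by
      rintro rfl
      simp at hK₀m
      omega
    have hN : ∀ K, N K = (-1) ^ m * ((if K = K₀ then 1 else 0) - (if K = univ then 1 else 0)) := by
      intro K
      induction K using Finset.strongInduction with
      | H K ih =>
        by_cases hK : IsInt τ K
        · have h5 := hD K hK
          rw [hsumN K, Finset.sum_congr rfl (fun K' hK' => ih K' (Finset.mem_ssubsets.1 hK')),
            ← Finset.mul_sum, Finset.sum_sub_distrib, Finset.sum_ite_eq', Finset.sum_ite_eq'] at h5
          have h6 : (univ : Finset (Fin τ.n)) ∉ K.ssubsets := by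
            rw [Finset.mem_ssubsets]
            intro h
            exact (Finset.ssubset_iff_subset_ne.1 h).2
              (Finset.Subset.antisymm h.1 (Finset.subset_univ _))
          rw [if_neg h6] at h5
          by_cases hK0 : K = K₀
          · have e1 : ¬ (K₀ ∈ K.ssubsets) := by
              rw [Finset.mem_ssubsets, hK0]; exact ssubset_irrefl _
            have e2 : L.J univ τ K ∧ Kᶜ.card = m := by rw [hK0]; exact ⟨hK₀, hK₀m⟩
            have e3 : ¬ (K = univ) := by rw [hK0]; exact hK₀u
            rw [if_neg e1, if_pos e2] at h5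
            rw [if_pos hK0, if_neg e3]
            linarith
          · have e2 : ¬ (L.J univ τ K ∧ Kᶜ.card = m) := fun h => hK0 (huniq K h.1 h.2)
            by_cases hKu : K = univ
            · have e1 : K₀ ∈ K.ssubsets := by
                rw [Finset.mem_ssubsets, hKu]
                exact Finset.ssubset_univ_iff.2 hK₀u
              rw [if_pos e1, if_neg e2] at h5
              rw [if_neg hK0, if_pos hKu]
              linarith
            · have e1 : ¬ (K₀ ∈ K.ssubsets) := by
                rw [Finset.mem_ssubsets]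
                intro h
                exact hKu (hL.irr τ K₀ K (hne _ _ hK₀) hK₀ hK₀m h hK)
              rw [if_neg e1, if_neg e2] at h5
              rw [if_neg hK0, if_neg hKu]
              linarith
        · rw [hN0 K hK]
          have h7 : K ≠ K₀ := by rintro rfl; exact hK hK₀.isInt
          have h8 : K ≠ univ := by
            rintro rfl
            exact hK (fun i hi => absurd (Finset.mem_univ i) hi)
          rw [if_neg h7, if_neg h8]
          simp
    rw [hA, Finset.sum_congr rfl (fun K _ => by rw [hN K])]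
    have h14 : ∀ K : Finset (Fin τ.n),
        (-1 : ℤ) ^ m * ((if K = K₀ then 1 else 0) - (if K = univ then 1 else 0)) * g K
        = (-1) ^ m * ((if K = K₀ then g K else 0) - (if K = univ then g K else 0)) := by
      intro K
      split_ifs <;> ring
    rw [Finset.sum_congr rfl (fun K _ => h14 K), ← Finset.mul_sum, Finset.sum_sub_distrib,
      Finset.sum_ite_eq', Finset.sum_ite_eq']
    simp
  · intro hno
    have hN : ∀ K, N K = 0 := by
      intro K
      induction K using Finset.strongInduction with
      | H K ih =>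
        by_cases hK : IsInt τ K
        · have h5 := hD K hK
          rw [hsumN K, Finset.sum_eq_zero (fun K' hK' => ih K' (Finset.mem_ssubsets.1 hK')),
            if_neg (fun h => hno ⟨K, h⟩)] at h5
          linarith
        · exact hN0 K hK
    rw [hA]
    exact Finset.sum_eq_zero (fun K _ => by rw [hN K, zero_mul])

/-- **The nest theorem.** -/
theorem nest [NeZero m] (hL : L.Good) (α : Pat) (hα : 2 * m + 1 ≤ α.n) :
    f (L.infl univ α) = ((-1) ^ m + if ∃ β, α = L.infl univ β then 1 else 0) * f α := by
  have hmpos : 0 < m := Nat.pos_of_ne_zero (NeZero.ne m)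
  have hα1 : one ≤ α := one_le_iff.2 (by omega)
  have hαne : α ≠ one := by
    intro h
    have := eq_one_iff.1 h
    omega
  have hαle : α ≤ L.infl univ α := by
    refine L.le_infl_iff.2 ⟨univ, J_univ, ?_⟩
    rw [sub_univ]
  obtain ⟨s, hs⟩ : ∃ s : Finset (Finset (Fin m) × Pat),
    s = (univ : Finset (Finset (Fin m))) ×ˢ Icc one α := ⟨_, rfl⟩
  have hsm : ∀ t, t ∈ s ↔ one ≤ t.2 ∧ t.2 ≤ α := by
    intro t
    rw [hs]
    simp [Finset.mem_product]
  have hex := exchange s (fun t => (-1 : ℤ) ^ t.1.card * IncidenceAlgebra.mu ℤ t.2 α)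
    (fun t => L.infl t.1 t.2) (L.infl univ α) (by
      intro t ht _
      exact infl_mono (Finset.subset_univ _) ((hsm t).1 ht).2)
  -- left-hand side
  have hlhs : ∑ t ∈ s, (-1 : ℤ) ^ t.1.card * IncidenceAlgebra.mu ℤ t.2 α *
      (if L.infl t.1 t.2 = one then 1 else 0) = f α := by
    rw [Finset.sum_eq_single ((∅ : Finset (Fin m)), one)]
    · have h1 : L.infl (∅ : Finset (Fin m)) one = one := by
        rw [eq_one_iff, infl_n]; rfl
      rw [if_pos h1]
      simp [f]
    · rintro ⟨T, α'⟩ ht hne
      rw [if_neg, mul_zero]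
      intro h
      have h1 := eq_one_iff.1 h
      rw [infl_n] at h1
      have h2 := one_le_iff.1 ((hsm _).1 ht).1
      simp only at h1 h2
      apply hne
      have h3 : T = ∅ := Finset.card_eq_zero.1 (by omega)
      have h4 : α' = one := eq_one_iff.2 (by omega)
      rw [h3, h4]
    · intro h
      exact absurd ((hsm _).2 ⟨le_refl _, hα1⟩) h
  rw [hlhs] at hex
  -- the inner coefficients
  have hcoef : ∀ τ ∈ Icc one (L.infl univ α),
      ∑ t ∈ s.filter (fun t => τ ≤ L.infl t.1 t.2),
        (-1 : ℤ) ^ t.1.card * IncidenceAlgebra.mu ℤ t.2 α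
      = (-1) ^ m * ((if τ = L.infl univ α then 1 else 0)
          - (if τ = α ∧ ∃ β, α = L.infl univ β then 1 else 0)) := by
    intro τ hτ
    have hτ1 := (Finset.mem_Icc.1 hτ).1
    -- split the sum
    have h1 : ∑ t ∈ s.filter (fun t => τ ≤ L.infl t.1 t.2),
        (-1 : ℤ) ^ t.1.card * IncidenceAlgebra.mu ℤ t.2 α
        = ∑ T : Finset (Fin m), (-1 : ℤ) ^ T.card *
          ∑ α' ∈ (Icc one α).filter (fun α' => τ ≤ L.infl T α'),
            IncidenceAlgebra.mu ℤ α' α := by
      rw [Finset.sum_filter, hs, Finset.sum_product]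
      refine Finset.sum_congr rfl ?_
      intro T _
      rw [Finset.sum_filter, Finset.mul_sum]
      refine Finset.sum_congr rfl ?_
      intro α' _
      split_ifs <;> simp
    rw [h1]
    choose IT hIT1 hIT2 using fun T : Finset (Fin m) => exists_min_card (L := L) T τ
    have h2 : ∀ T, ∑ α' ∈ (Icc one α).filter (fun α' => τ ≤ L.infl T α'),
        IncidenceAlgebra.mu ℤ α' α = if sub τ (IT T) = α then 1 else 0 := fun T =>
      inner_sum hL T τ α hα1 hαne (IT T) (hIT1 T) (hIT2 T)
    rw [Finset.sum_congr rfl (fun T _ => by rw [h2 T])]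
    by_cases hsmall : τ.n < α.n
    · have h3 : ∀ T, ¬ (sub τ (IT T) = α) := by
        intro T h
        have := congrArg Pat.n h
        rw [sub_n] at this
        have h4 : (IT T).card ≤ τ.n := by simpa using Finset.card_le_univ (IT T)
        omega
      rw [Finset.sum_eq_zero (fun T _ => by rw [if_neg (h3 T), mul_zero])]
      have h4 : ¬ (τ = L.infl univ α) := by
        intro h
        have := congrArg Pat.n h
        rw [infl_n] at this
        omega
      have h5 : ¬ (τ = α ∧ ∃ β, α = L.infl univ β) := by
        rintro ⟨h, -⟩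
        rw [h] at hsmall
        exact lt_irrefl _ hsmall
      rw [if_neg h4, if_neg h5]
      simp
    · have hτbig : 2 * m + 1 ≤ τ.n := by omega
      have hsub : ∀ T I, L.J T τ I → IT T ⊆ I := by
        intro T I hI
        have h3 := (hIT1 T).card_le'
        have h4 := hI.card_le'
        have h5 : T.card ≤ m := by simpa using Finset.card_le_univ T
        have h6 := Finset.card_union_add_card_inter (IT T) I
        have h7 : (IT T ∪ I).card ≤ τ.n := by simpa using Finset.card_le_univ (IT T ∪ I)
        have hne : (IT T ∩ I).Nonempty := Finset.card_pos.1 (by omega)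
        have h8 := hL.inter T τ _ _ (hIT1 T) hI hne
        have h9 := hIT2 T _ h8
        exact Finset.inter_eq_left.1
          (Finset.eq_of_subset_of_card_le Finset.inter_subset_left h9)
      obtain ⟨hw1, hw2⟩ := weight_eq hL τ hτbig IT hIT1 hsub
        (fun K => if sub τ K = α then 1 else 0)
      by_cases hq : ∃ K, L.J univ τ K ∧ Kᶜ.card = m
      · obtain ⟨K, hK, hKm⟩ := hq
        rw [hw1 K hK hKm, sub_univ]
        have h3 : τ = L.infl univ (sub τ K) := eq_infl_of_J hK hKm
        have h4 : (sub τ K = α) ↔ (τ = L.infl univ α) := by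
          constructor
          · intro h; rw [← h]; exact h3
          · intro h
            obtain ⟨K', hK', hKm', hs'⟩ := exists_J_of_eq_infl h
            -- uniqueness of the quotient, through the weights
            have h5 := (weight_eq hL τ hτbig IT hIT1 hsub (fun K => if sub τ K = α then 1 else 0)).1
            have h6 := h5 K hK hKm
            have h7 := h5 K' hK' hKm'
            rw [h6] at h7
            have h8 : ((-1 : ℤ)) ^ m ≠ 0 := pow_ne_zero _ (by norm_num)
            have h9 := mul_left_cancel₀ h8 h7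
            rw [if_pos hs'] at h9
            by_contra hne
            rw [if_neg hne] at h9
            linarith
        have h5 : (τ = α) ↔ (τ = α ∧ ∃ β, α = L.infl univ β) := by
          constructor
          · intro h
            refine ⟨h, sub τ K, ?_⟩
            rw [← h]; exact h3
          · exact fun h => h.1
        simp only [h4, ← h5]
      · rw [hw2 hq]
        have h3 : ¬ (τ = L.infl univ α) := by
          intro h
          obtain ⟨K, hK, hKm, -⟩ := exists_J_of_eq_infl h
          exact hq ⟨K, hK, hKm⟩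
        have h4 : ¬ (τ = α ∧ ∃ β, α = L.infl univ β) := by
          rintro ⟨h, β, hβ⟩
          obtain ⟨K, hK, hKm, -⟩ := exists_J_of_eq_infl (h.trans hβ)
          exact hq ⟨K, hK, hKm⟩
        rw [if_neg h3, if_neg h4]
        simp
  rw [Finset.sum_congr rfl (fun τ hτ => by rw [hcoef τ hτ])] at hex
  have h10 : ∑ τ ∈ Icc one (L.infl univ α), f τ * ((-1) ^ m * ((if τ = L.infl univ α then 1 else 0)
          - (if τ = α ∧ ∃ β, α = L.infl univ β then 1 else 0)))
      = (-1) ^ m * (f (L.infl univ α) - (if ∃ β, α = L.infl univ β then f α else 0)) := by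
    have h11 : ∀ τ, f τ * ((-1) ^ m * ((if τ = L.infl univ α then 1 else 0)
          - (if τ = α ∧ ∃ β, α = L.infl univ β then 1 else 0)))
        = (-1) ^ m * ((if τ = L.infl univ α then f τ else 0)
          - (if τ = α then (if ∃ β, α = L.infl univ β then f τ else 0) else 0)) := by
      intro τ
      split_ifs <;> first | (exfalso; tauto) | ring
    rw [Finset.sum_congr rfl (fun τ _ => h11 τ), ← Finset.mul_sum, Finset.sum_sub_distrib,
      Finset.sum_ite_eq', Finset.sum_ite_eq']
    rw [if_pos (Finset.mem_Icc.2 ⟨hα1.trans hαle, le_refl _⟩),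
      if_pos (Finset.mem_Icc.2 ⟨hα1, hαle⟩)]
  rw [h10] at hex
  have h12 : ((-1 : ℤ)) ^ m * (-1) ^ m = 1 := by
    rw [← pow_add, ← two_mul]
    simp
  have h13 : (-1 : ℤ) ^ m * f α
      = f (L.infl univ α) - (if ∃ β, α = L.infl univ β then f α else 0) := by
    linear_combination (-1 : ℤ) ^ m * hex + (f (L.infl univ α)
      - (if ∃ β, α = L.infl univ β then f α else 0)) * h12
  by_cases hb : ∃ β, α = L.infl univ β
  · rw [if_pos hb] at h13 ⊢
    linarith
  · rw [if_neg hb] at h13 ⊢
    linarith

end

end Layer

end Pool.Agent.Work.MP_080fe7_co
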