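import Pool.Agent.Work.MP_080fe7_co.OscSum

/-!
# The exchange identity for direct sums
-/

set_option linter.unusedSectionVars false
set_option linter.unusedVariables false

open Finset

namespace Pool.Agent.Work.MP_080fe7_co.OscN

theorem Icc_emp (α : Pat) (h : 1 ≤ α.n) : Icc emp α = insert emp (Icc one α) := by
  ext σ
  rw [Finset.mem_insert, Finset.mem_Icc, Finset.mem_Icc]
  constructor
  · rintro ⟨_, h1⟩
    by_cases h2 : σ.n = 0
    · exact Or.inl (eq_emp_iff.2 h2)
    · exact Or.inr ⟨one_le_iff.2 (by omega), h1⟩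
  · rintro (rfl | h1)
    · exact ⟨le_rfl, emp_le _⟩
    · exact ⟨emp_le _, h1.2⟩

theorem emp_notMem (α : Pat) : emp ∉ Icc one α := by
  rw [Finset.mem_Icc]
  rintro ⟨h, _⟩
  have := one_le_iff.1 h
  exact absurd this (lt_irrefl _)

theorem mu_emp (α : Pat) (h : 2 ≤ α.n) : IncidenceAlgebra.mu ℤ emp α = 0 := by
  have h1 := IncidenceAlgebra.sum_Icc_mu_left (𝕜 := ℤ) emp α
  have h2 := IncidenceAlgebra.sum_Icc_mu_left (𝕜 := ℤ) one α
  rw [Icc_emp α (by omega), Finset.sum_insert (emp_notMem α)] at h1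
  rw [if_neg] at h1 h2
  · rw [h2] at h1; simpa using h1
  · rintro rfl
    have : one.n = 1 := rfl
    omega
  · rintro rfl
    have : emp.n = 0 := rfl
    omega

theorem mu_emp_one : IncidenceAlgebra.mu ℤ emp one = -1 := by
  have h1 := IncidenceAlgebra.sum_Icc_mu_left (𝕜 := ℤ) emp one
  rw [Icc_emp one le_rfl, Finset.sum_insert (emp_notMem one), Finset.Icc_self,
    Finset.sum_singleton, IncidenceAlgebra.mu_self, if_neg] at h1
  · linarith
  · intro h
    have := congrArg Pat.n h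
    have h1 : one.n = 1 := rfl
    have h2 : emp.n = 0 := rfl
    omega

theorem exists_base (X τ : Pat) : ∃ K : Finset (Fin τ.n), Cut τ K ∧ sub τ K ≤ X ∧
    ∀ I, Cut τ I → sub τ I ≤ X → I ⊆ K := by
  classical
  have hne : (univ.filter (fun K : Finset (Fin τ.n) => Cut τ K ∧ sub τ K ≤ X)).Nonempty :=
    ⟨∅, by
      rw [Finset.mem_filter]
      exact ⟨Finset.mem_univ _, cut_empty τ, le_of_n_zero (by simp)⟩⟩
  obtain ⟨K, hK, hmax⟩ := Finset.exists_max_image _ (fun K => K.card) hne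
  rw [Finset.mem_filter] at hK
  refine ⟨K, hK.2.1, hK.2.2, fun I hI hIX => ?_⟩
  have h1 := hmax I (by rw [Finset.mem_filter]; exact ⟨Finset.mem_univ _, hI, hIX⟩)
  rcases hI.nested hK.2.1 with h | h
  · exact h
  · exact (Finset.eq_of_subset_of_card_le h h1).symm.subset

open scoped Classical in
theorem exch (α X : Pat) (hα : Indec α) :
    ∑ τ' ∈ Icc emp X, f (dsum α τ')
      = ∑ τ' ∈ (Icc emp X).filter (fun τ' => dsum α τ' ≤ X), f (dsum α τ')
        + (if X.n = 0 then f α else if X.n = 1 then IncidenceAlgebra.mu ℤ emp α else 0) := by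
  have hα1 := hα.1
  have hex := exchange (Icc emp α) (fun α' => IncidenceAlgebra.mu ℤ α' α)
    (fun α' => dsum α' X) (dsum α X) (by
      intro α' h _
      exact dsum_mono (Finset.mem_Icc.1 h).2 le_rfl)
  have hlhs : ∑ t ∈ Icc emp α, IncidenceAlgebra.mu ℤ t α * (if dsum t X = one then 1 else 0)
      = (if X.n = 0 then f α else if X.n = 1 then IncidenceAlgebra.mu ℤ emp α else 0) := by
    have h1 : ∀ t, dsum t X = one ↔ t.n + X.n = 1 := by
      intro t; rw [eq_one_iff, dsum_n]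
    simp only [h1]
    by_cases hX0 : X.n = 0
    · rw [if_pos hX0, Finset.sum_eq_single one]
      · rw [if_pos (by rw [hX0]; rfl), mul_one]; rfl
      · intro t _ ht
        rw [if_neg, mul_zero]
        intro h
        exact ht (eq_one_iff.2 (by omega))
      · intro h
        exact absurd (Finset.mem_Icc.2 ⟨emp_le _, one_le_iff.2 hα1⟩) h
    · rw [if_neg hX0]
      by_cases hX1 : X.n = 1
      · rw [if_pos hX1, Finset.sum_eq_single emp]
        · rw [if_pos (by rw [hX1]; rfl), mul_one]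
        · intro t _ ht
          rw [if_neg, mul_zero]
          intro h
          exact ht (eq_emp_iff.2 (by omega))
        · intro h
          exact absurd (Finset.mem_Icc.2 ⟨emp_le _, emp_le _⟩) h
      · rw [if_neg hX1]
        refine Finset.sum_eq_zero fun t _ => ?_
        rw [if_neg (by omega), mul_zero]
  rw [hlhs] at hex
  choose K hK1 hK2 hK3 using fun τ => exists_base X τ
  have hinner : ∀ τ, ∑ t ∈ (Icc emp α).filter (fun t => τ ≤ dsum t X),
      IncidenceAlgebra.mu ℤ t α = if sub τ (K τ)ᶜ = α then 1 else 0 := by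
    intro τ
    have h1 : (Icc emp α).filter (fun t => τ ≤ dsum t X) = Icc (sub τ (K τ)ᶜ) α := by
      ext t
      rw [Finset.mem_filter, Finset.mem_Icc, Finset.mem_Icc]
      constructor
      · rintro ⟨⟨_, h2⟩, h3⟩
        obtain ⟨I, hI1, hI2, hI3⟩ := le_dsum_iff.1 h3
        refine ⟨le_trans (sub_mono ?_) hI2, h2⟩
        exact Finset.compl_subset_compl.2 (hK3 τ I hI1 hI3)
      · rintro ⟨h2, h3⟩
        exact ⟨⟨emp_le _, h3⟩, le_dsum_iff.2 ⟨K τ, hK1 τ, h2, hK2 τ⟩⟩
    rw [h1]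
    exact IncidenceAlgebra.sum_Icc_mu_left (𝕜 := ℤ) _ _
  simp only [hinner, mul_ite, mul_one, mul_zero] at hex
  rw [hex, ← Finset.sum_filter, ← Finset.sum_filter_add_sum_filter_not (Icc emp X)
    (fun τ' => dsum α τ' ≤ X)]
  congr 1
  apply Finset.sum_nbij (fun τ' => dsum α τ')
  · intro τ' hτ'
    rw [Finset.mem_filter, Finset.mem_Icc] at hτ'
    rw [Finset.mem_filter, Finset.mem_Icc]
    refine ⟨⟨one_le_iff.2 (by rw [dsum_n]; omega), dsum_mono le_rfl hτ'.1.2⟩, ?_⟩
    obtain ⟨I, hI1, hI2, hI3⟩ := exists_cut α τ'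
    have h1 : I ⊆ K (dsum α τ') := hK3 _ I hI1 (by rw [hI3]; exact hτ'.1.2)
    have h2 : K (dsum α τ') ≠ univ := by
      intro h
      have := hK2 (dsum α τ')
      rw [h, sub_univ] at this
      exact hτ'.2 this
    rw [← Indec.cut_eq hI1 (hK1 _) (by rw [hI2]; exact hα) h1 h2]
    exact hI2
  · intro a _ b _ h
    exact (hα.unique hα h).2
  · intro τ hτ
    rw [Finset.mem_coe, Finset.mem_filter, Finset.mem_Icc] at hτ
    refine ⟨sub τ (K τ), ?_, ?_⟩
    · rw [Finset.mem_coe, Finset.mem_filter, Finset.mem_Icc]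
      refine ⟨⟨emp_le _, hK2 τ⟩, ?_⟩
      intro h
      have h1 := eq_dsum_of_cut (hK1 τ)
      rw [hτ.2] at h1
      rw [← h1] at h
      have h2 := hK3 τ univ (fun i hi => absurd (Finset.mem_univ _) hi) (by rw [sub_univ]; exact h)
      have h3 : (K τ)ᶜ = ∅ := by
        rw [Finset.compl_eq_empty_iff]
        exact Finset.univ_subset_iff.1 h2
      have h4 := congrArg Pat.n hτ.2
      rw [h3, sub_n, Finset.card_empty] at h4
      omega
    · have h1 := eq_dsum_of_cut (hK1 τ)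
      rw [hτ.2] at h1
      exact h1.symm
  · intro _ _; rfl

/-- decomposition of a sum according to the first component -/
theorem sum_first (Y : Pat) [DecidablePred Indec] [∀ α, DecidablePred fun τ' => dsum α τ' ≤ Y] :
    ∑ τ ∈ Icc one Y, f τ = ∑ α ∈ (Icc one Y).filter Indec,
      ∑ τ' ∈ (Icc emp Y).filter (fun τ' => dsum α τ' ≤ Y), f (dsum α τ') := by
  classical
  rw [Finset.sum_sigma']
  symm
  apply Finset.sum_nbij (fun a : (_ : Pat) × Pat => dsum a.1 a.2)
  · rintro ⟨α, τ'⟩ h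
    rw [Finset.mem_sigma, Finset.mem_filter, Finset.mem_filter] at h
    rw [Finset.mem_Icc]
    have := h.1.2.1
    exact ⟨one_le_iff.2 (by rw [dsum_n]; exact Nat.lt_of_lt_of_le this (Nat.le_add_right _ _)), h.2.2⟩
  · rintro ⟨α, τ'⟩ h ⟨α₁, τ₁'⟩ h' heq
    rw [Finset.mem_coe, Finset.mem_sigma, Finset.mem_filter] at h h'
    obtain ⟨h1, h2⟩ := Indec.unique h.1.2 h'.1.2 heq
    simp only at h1 h2
    rw [h1, h2]
  · intro τ hτ
    rw [Finset.mem_coe, Finset.mem_Icc] at hτ
    obtain ⟨α, β, h1, h2⟩ := exists_indec τ (one_le_iff.1 hτ.1)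
    refine ⟨⟨α, β⟩, ?_, h2.symm⟩
    rw [Finset.mem_coe, Finset.mem_sigma, Finset.mem_filter, Finset.mem_filter, Finset.mem_Icc,
      Finset.mem_Icc]
    have h3 : dsum α β ≤ Y := h2 ▸ hτ.2
    exact ⟨⟨⟨one_le_iff.2 h1.1, (le_dsum_left α β).trans h3⟩, h1⟩,
      ⟨emp_le _, (le_dsum_right α β).trans h3⟩, h3⟩
  · intro _ _; rfl

end Pool.Agent.Work.MP_080fe7_co.OscN
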