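import Pool.Agent.Work.MP_080fe7_co.OscExch

/-!
# Runs of the increasing oscillation
-/

set_option linter.unusedSectionVars false
set_option linter.unusedVariables false

open Finset

namespace Pool.Agent.Work.MP_080fe7_co.OscN

theorem dom_iff (u v : ℕ) : (oscX u < oscX v ∧ oscY u < oscY v) ↔ u + 2 ≤ v := by
  unfold oscX oscY
  split_ifs <;> omega

theorem inv_iff (u v : ℕ) :
    (oscX u < oscX v ∧ oscY v < oscY u) ↔ u % 2 = 0 ∧ (v = u + 1 ∨ v + 1 = u) := by
  unfold oscX oscY
  split_ifs <;> omega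

theorem oscX_inj : Function.Injective oscX := by
  intro u v h
  unfold oscX at h
  split_ifs at h <;> omega

theorem oscY_inj : Function.Injective oscY := by
  intro u v h
  unfold oscY at h
  split_ifs at h <;> omega

/-- the run of the oscillation starting at `a` with `n` points -/
noncomputable def X (a n : ℕ) : Pat := pat oscX oscY (Ico a (a + n))

theorem X_isPat (a n : ℕ) : IsPat (X a n) oscX oscY (Ico a (a + n) : Finset ℕ) :=
  pat_isPat oscX_inj.injOn oscY_inj.injOn

theorem le_X_iff {σ : Pat} {a n : ℕ} : σ ≤ X a n ↔ Has σ oscX oscY (Ico a (a + n) : Finset ℕ) :=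
  (X_isPat a n).le_iff

@[simp] theorem X_n (a n : ℕ) : (X a n).n = n := by
  unfold X
  rw [pat_n oscX_inj.injOn oscY_inj.injOn]
  simp

theorem osc_eq (n : ℕ) : osc n = X 0 n := by
  unfold osc X
  rw [Nat.zero_add, Nat.Ico_zero_eq_range]

theorem X_le_of {a n b m : ℕ} (g : ℕ → ℕ) (h : ∀ i, a ≤ i → i < a + n → b ≤ g i ∧ g i < b + m)
    (hx : ∀ i j, a ≤ i → i < a + n → a ≤ j → j < a + n → oscX i < oscX j →
      oscX (g i) < oscX (g j))
    (hy : ∀ i j, a ≤ i → i < a + n → a ≤ j → j < a + n → oscY i < oscY j →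
      oscY (g i) < oscY (g j)) : X a n ≤ X b m := by
  rw [le_X_iff]
  refine (X_isPat a n).has.map g ?_ ?_ ?_
  · intro i hi
    rw [Finset.mem_coe, Finset.mem_Ico] at hi
    rw [Finset.mem_coe, Finset.mem_Ico]
    exact h i hi.1 hi.2
  · intro i hi j hj
    rw [Finset.mem_coe, Finset.mem_Ico] at hi hj
    exact hx i j hi.1 hi.2 hj.1 hj.2
  · intro i hi j hj
    rw [Finset.mem_coe, Finset.mem_Ico] at hi hj
    exact hy i j hi.1 hi.2 hj.1 hj.2

theorem X_add_two (a n : ℕ) : X a n = X (a + 2) n := by
  apply Pat.eq_of_le_of_n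
  · apply X_le_of (fun i => i + 2)
    · intro i h1 h2; constructor <;> omega
    · intro i j _ _ _ _ h
      unfold oscX at h ⊢
      split_ifs at h ⊢ <;> omega
    · intro i j _ _ _ _ h
      unfold oscY at h ⊢
      split_ifs at h ⊢ <;> omega
  · simp

theorem X_mod (a n : ℕ) : X a n = X (a % 2) n := by
  have h : ∀ k b, X b n = X (b + 2 * k) n := by
    intro k
    induction k with
    | zero => intro b; rfl
    | succ k ih =>
      intro b
      rw [ih b, X_add_two (b + 2 * k)]
      rfl
  rw [h (a / 2) (a % 2), Nat.mod_add_div]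

theorem X_congr {a b : ℕ} (n : ℕ) (h : a % 2 = b % 2) : X a n = X b n := by
  rw [X_mod a, X_mod b, h]

theorem X_small {a b n : ℕ} (hn : n ≤ 2) : X a n = X b n := by
  rcases Nat.lt_or_ge n 2 with h | h
  · exact eq_of_n_le_one (by simp) (by rw [X_n]; omega)
  · have h2 : n = 2 := le_antisymm hn h
    subst h2
    have key : X 0 2 = X 1 2 := by
      apply Pat.eq_of_le_of_n
      · apply X_le_of (fun i => if i = 0 then 2 else 1)
        · intro i h1 h2
          split_ifs <;> omega
        · intro i j _ h1 _ h2 h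
          interval_cases i <;> interval_cases j <;> simp [oscX] at h ⊢
        · intro i j _ h1 _ h2 h
          interval_cases i <;> interval_cases j <;> simp [oscY] at h ⊢
      · simp
    have h0 : ∀ c, X c 2 = X 0 2 := by
      intro c
      rw [X_mod c]
      rcases Nat.mod_two_eq_zero_or_one c with h | h
      · rw [h]
      · rw [h, key]
    rw [h0 a, h0 b]

theorem f_X_succ (a n : ℕ) : f (X (a + 1) n) = f (X a n) := by
  have h : (X a n).inv = X (a + 1) n := by
    apply Pat.eq_of_le_of_n
    · rw [le_X_iff]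
      refine (has_inv (X_isPat a n).has).map (fun i => i + 1) ?_ ?_ ?_
      · intro i hi
        rw [Finset.mem_coe, Finset.mem_Ico] at hi ⊢
        omega
      · intro i _ j _ h
        unfold oscY at h
        unfold oscX
        split_ifs at h ⊢ <;> omega
      · intro i _ j _ h
        unfold oscX at h
        unfold oscY
        split_ifs at h ⊢ <;> omega
    · rw [X_n]
      exact (X_n a n).symm.le
  rw [← h, f_inv]

theorem f_X (a n : ℕ) : f (X a n) = f (osc n) := by
  rw [osc_eq]
  induction a with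
  | zero => rfl
  | succ a ih => rw [f_X_succ, ih]

/-- the offset of a run -/
def S (q l p : ℕ) : ℕ := if l ≤ 2 then 0 else (p + q) % 2

/-- the last point of an embedded run -/
theorem exists_last {q l p : ℕ} (hl : 1 ≤ l) {A : Set ℕ} (hA : ∀ a ∈ A, p ≤ a)
    (h : Has (X q l) oscX oscY A) : ∃ e ∈ A, p + S q l p + l ≤ e + 1 := by
  obtain ⟨g, h1, h2, h3⟩ := (X_isPat q l).has_iff.1 h
  simp only [Finset.mem_coe, Finset.mem_Ico] at h1 h2 h3
  have hg : ∀ i, q ≤ i → i < q + l → p ≤ g i := fun i hi hi' => hA _ (h1 i ⟨hi, hi'⟩)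
  have hstep : ∀ i, q ≤ i → i + 1 < q + l → (g i % 2 = i % 2) ∧ (g (i + 1) = g i + 1 ∨
      g (i + 1) + 1 = g i) := by
    intro i hi hi'
    rcases Nat.mod_two_eq_zero_or_one i with hp | hp
    · have e1 : oscX i < oscX (i + 1) ∧ oscY (i + 1) < oscY i := (inv_iff _ _).2 ⟨hp, Or.inl rfl⟩
      have e2 := (inv_iff (g i) (g (i + 1))).1
        ⟨h2 i ⟨hi, by omega⟩ (i + 1) ⟨by omega, by omega⟩ e1.1,
          h3 (i + 1) ⟨by omega, by omega⟩ i ⟨hi, by omega⟩ e1.2⟩
      omega
    · have e1 : oscX (i + 1) < oscX i ∧ oscY i < oscY (i + 1) :=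
        (inv_iff _ _).2 ⟨by omega, Or.inr rfl⟩
      have e2 := (inv_iff (g (i + 1)) (g i)).1
        ⟨h2 (i + 1) ⟨by omega, by omega⟩ i ⟨hi, by omega⟩ e1.1,
          h3 i ⟨hi, by omega⟩ (i + 1) ⟨by omega, by omega⟩ e1.2⟩
      omega
  have htwo : ∀ i, q ≤ i → i + 2 < q + l → g i + 2 ≤ g (i + 2) := by
    intro i hi hi'
    have e1 : oscX i < oscX (i + 2) ∧ oscY i < oscY (i + 2) := (dom_iff _ _).2 le_rfl
    exact (dom_iff _ _).1 ⟨h2 i ⟨hi, by omega⟩ (i + 2) ⟨by omega, by omega⟩ e1.1,
      h3 i ⟨hi, by omega⟩ (i + 2) ⟨by omega, by omega⟩ e1.2⟩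
  by_cases hl2 : l ≤ 2
  · unfold S
    rw [if_pos hl2]
    interval_cases l
    · have := hg q le_rfl (by omega)
      exact ⟨g q, h1 q ⟨le_rfl, by omega⟩, by omega⟩
    · have e0 := hg q le_rfl (by omega)
      have e1 := hg (q + 1) (by omega) (by omega)
      have e2 := hstep q le_rfl (by omega)
      rcases e2.2 with e3 | e3
      · exact ⟨g (q + 1), h1 (q + 1) ⟨by omega, by omega⟩, by omega⟩
      · exact ⟨g q, h1 q ⟨le_rfl, by omega⟩, by omega⟩
  · unfold S
    rw [if_neg hl2]
    have hlin : ∀ j, j + 2 < l → g (q + j + 1) = g (q + j) + 1 ∧ g (q + j + 2) = g (q + j) + 2 := by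
      intro j hj
      have e1 := hstep (q + j) (by omega) (by omega)
      have e2 := hstep (q + j + 1) (by omega) (by omega)
      have e3 := htwo (q + j) (by omega) (by omega)
      have e4 : q + j + 1 + 1 = q + j + 2 := rfl
      rw [e4] at e2
      omega
    have hlin' : ∀ j, j < l → g (q + j) = g q + j := by
      intro j
      induction j with
      | zero => intro _; rfl
      | succ j ih =>
        intro hj
        have e0 := ih (by omega)
        by_cases h4 : j + 2 < l
        · have := hlin j h4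
          have e5 : q + (j + 1) = q + j + 1 := rfl
          rw [e5]; omega
        · obtain ⟨i, rfl⟩ : ∃ i, j = i + 1 := ⟨j - 1, by omega⟩
          have e1 := hlin i (by omega)
          have e5 : q + (i + 1 + 1) = q + i + 2 := rfl
          have e6 : q + (i + 1) = q + i + 1 := rfl
          rw [e5]
          rw [e6] at e0
          omega
    have e0 := hg q le_rfl (by omega)
    have e1 := hstep q le_rfl (by omega)
    have e2 := hlin' (l - 1) (by omega)
    refine ⟨g (q + (l - 1)), h1 _ ⟨by omega, by omega⟩, ?_⟩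
    rw [e2]
    omega

theorem X_eq_S (q l p : ℕ) : X q l = X (p + S q l p) l := by
  by_cases hl : l ≤ 2
  · exact X_small hl
  · apply X_congr
    unfold S
    rw [if_neg hl]
    omega

/-- **The greedy lemma.** -/
theorem dsum_le_X_iff {q l p n : ℕ} (hl : 1 ≤ l) {τ : Pat} :
    dsum (X q l) τ ≤ X p n ↔
      S q l p + l ≤ n ∧ τ ≤ X (p + S q l p + l + 1) (n - S q l p - l - 1) := by
  constructor
  · intro h
    rw [le_X_iff] at h
    obtain ⟨A, B, hA, hB, hd, h1, h2⟩ := of_has_dsum h
    obtain ⟨e, heA, he⟩ := exists_last (p := p) hl (fun a ha => by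
      have := hA ha
      rw [Finset.mem_coe, Finset.mem_Ico] at this
      exact this.1) h1
    have he' := hA heA
    rw [Finset.mem_coe, Finset.mem_Ico] at he'
    refine ⟨by omega, ?_⟩
    rw [le_X_iff]
    refine h2.mono ?_
    intro b hb
    have e1 := (dom_iff e b).1 (hd e heA b hb)
    have e2 := hB hb
    rw [Finset.mem_coe, Finset.mem_Ico] at e2 ⊢
    omega
  · rintro ⟨h1, h2⟩
    rw [X_eq_S q l p, le_X_iff]
    rw [le_X_iff] at h2
    refine has_dsum_of (A := (Ico (p + S q l p) (p + S q l p + l) : Finset ℕ)) ?_ ?_ ?_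
      (X_isPat _ _).has h2
    · intro a ha
      rw [Finset.mem_coe, Finset.mem_Ico] at ha ⊢
      omega
    · intro a ha
      rw [Finset.mem_coe, Finset.mem_Ico] at ha ⊢
      omega
    · intro a ha b hb
      rw [Finset.mem_coe, Finset.mem_Ico] at ha hb
      exact (dom_iff a b).2 (by omega)

theorem X_le_X_iff {q l p n : ℕ} (hl : 1 ≤ l) : X q l ≤ X p n ↔ S q l p + l ≤ n := by
  have h := dsum_le_X_iff (q := q) (l := l) (p := p) (n := n) hl (τ := emp)
  rw [dsum_emp_right rfl] at h
  rw [h]
  exact ⟨fun h => h.1, fun h => ⟨h, emp_le _⟩⟩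

theorem indec_X {q l : ℕ} (hl : 1 ≤ l) : Indec (X q l) := by
  refine ⟨by rw [X_n]; exact hl, ?_⟩
  intro α₁ α₂ h
  by_contra hn
  rw [not_or] at hn
  have h1 : Has (dsum α₁ α₂) oscX oscY (Ico q (q + l) : Finset ℕ) := h ▸ (X_isPat q l).has
  obtain ⟨A, B, hA, hB, hd, hα, hβ⟩ := of_has_dsum h1
  obtain ⟨A', hA', hA'c, -⟩ := hα.exists_sub10
  obtain ⟨B', hB', hB'c, -⟩ := hβ.exists_sub10
  have hd' : ∀ a ∈ A', ∀ b ∈ B', a + 2 ≤ b :=
    fun a ha b hb => (dom_iff a b).1 (hd a (hA' a ha) b (hB' b hb))
  have hdisj : Disjoint A' B' := by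
    rw [Finset.disjoint_left]
    intro a ha hb
    have := hd' a ha a hb
    omega
  have hsub : A' ∪ B' ⊆ Ico q (q + l) := by
    intro a ha
    rcases Finset.mem_union.1 ha with ha | ha
    · exact hA (hA' a ha)
    · exact hB (hB' a ha)
  have hcard := Finset.card_union_of_disjoint hdisj
  have hn' := congrArg Pat.n h
  rw [X_n, dsum_n] at hn'
  have heq : A' ∪ B' = Ico q (q + l) := by
    apply Finset.eq_of_subset_of_card_le hsub
    rw [hcard, Nat.card_Ico]
    omega
  have hAne : A'.Nonempty := Finset.card_pos.1 (by omega)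
  have hBne : B'.Nonempty := Finset.card_pos.1 (by omega)
  obtain ⟨b, hb⟩ := hBne
  have hmax := A'.max'_mem hAne
  have e1 := hd' _ hmax b hb
  have e2 : b ∈ Ico q (q + l) := heq ▸ Finset.mem_union_right _ hb
  have e3 : A'.max' hAne ∈ Ico q (q + l) := heq ▸ Finset.mem_union_left _ hmax
  rw [Finset.mem_Ico] at e2 e3
  have e4 : A'.max' hAne + 1 ∈ A' ∪ B' := by
    rw [heq, Finset.mem_Ico]
    omega
  rcases Finset.mem_union.1 e4 with e5 | e5
  · have := A'.le_max' _ e5
    omega
  · have := hd' _ hmax _ e5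
    omega

theorem exists_run {α : Pat} (hα : Indec α) {p n : ℕ} (h : α ≤ X p n) :
    ∃ a, α = X a α.n := by
  rw [le_X_iff] at h
  obtain ⟨t, ht, htc, htp⟩ := h.exists_sub10
  have htne : t.Nonempty := Finset.card_pos.1 (by have := hα.1; omega)
  have hmin := t.min'_mem htne
  have hmax := t.max'_mem htne
  have heq : t = Ico (t.min' htne) (t.max' htne + 1) := by
    ext g
    rw [Finset.mem_Ico]
    constructor
    · intro hg
      exact ⟨t.min'_le _ hg, Nat.lt_succ_of_le (t.le_max' _ hg)⟩
    · rintro ⟨h1, h2⟩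
      by_contra hg
      have h3 : t = t.filter (fun i => i < g) ∪ t.filter (fun i => g < i) := by
        ext i
        rw [Finset.mem_union, Finset.mem_filter, Finset.mem_filter]
        constructor
        · intro hi
          rcases lt_trichotomy i g with h | h | h
          · exact Or.inl ⟨hi, h⟩
          · exact absurd (h ▸ hi) hg
          · exact Or.inr ⟨hi, h⟩
        · rintro (h | h)
          · exact h.1
          · exact h.1
      have h4 : α = dsum (pat oscX oscY (t.filter (fun i => i < g)))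
          (pat oscX oscY (t.filter (fun i => g < i))) := by
        refine isPat_union (pat_isPat oscX_inj.injOn oscY_inj.injOn)
          (pat_isPat oscX_inj.injOn oscY_inj.injOn) (h3 ▸ htp) ?_
        intro a ha b hb
        rw [Finset.mem_coe, Finset.mem_filter] at ha hb
        exact (dom_iff a b).2 (by omega)
      have h5 := hα.2 _ _ h4
      rw [pat_n oscX_inj.injOn oscY_inj.injOn, pat_n oscX_inj.injOn oscY_inj.injOn,
        Finset.card_eq_zero, Finset.card_eq_zero] at h5
      rcases h5 with h5 | h5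
      · have : t.min' htne ∈ t.filter (fun i => i < g) := by
          rw [Finset.mem_filter]
          refine ⟨hmin, lt_of_le_of_ne h1 ?_⟩
          intro h; exact hg (h ▸ hmin)
        rw [h5] at this
        exact absurd this (Finset.notMem_empty _)
      · have : t.max' htne ∈ t.filter (fun i => g < i) := by
          rw [Finset.mem_filter]
          refine ⟨hmax, lt_of_le_of_ne (by omega) ?_⟩
          intro h; exact hg (h ▸ hmax)
        rw [h5] at this
        exact absurd this (Finset.notMem_empty _)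
  refine ⟨t.min' htne, ?_⟩
  apply htp.unique
  have h1 : (Ico (t.min' htne) (t.min' htne + α.n) : Finset ℕ) = t := by
    have h2 := congrArg Finset.card heq
    rw [Nat.card_Ico, htc] at h2
    have h3 := t.min'_le _ hmax
    rw [h2]
    conv_rhs => rw [heq]
    congr 1
    omega
  have h2 := X_isPat (t.min' htne) α.n
  rw [h1] at h2
  exact h2

end Pool.Agent.Work.MP_080fe7_co.OscN
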