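import Pool.Agent.Work.MP_080fe7_co.Sym

/-!
# Direct sums of permutations
-/

set_option linter.unusedSectionVars false
set_option linter.unusedVariables false

open Finset

namespace Pool.Agent.Work.MP_080fe7_co.OscN

section general

variable {ι κ α β α' β' : Type*} [LinearOrder α] [LinearOrder β] [LinearOrder α'] [LinearOrder β']

theorem _root_.Pool.Agent.Work.MP_080fe7_co.Has.of_range10 {σ : Pat} {x : ι → α} {y : ι → β} {j : κ → ι}
    (h : Has σ x y (Set.range j)) : Has σ (fun k => x (j k)) (fun k => y (j k)) Set.univ := by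
  obtain ⟨e, h1, h2, h3⟩ := h
  choose k hk using h1
  refine ⟨k, fun _ => trivial, fun i i' hii => ?_, fun i i' hii => ?_⟩
  · simp only [hk]; exact h2 _ _ hii
  · simp only [hk]; exact h3 _ _ hii

/-- a pattern contained in a configuration is the pattern of a sub-configuration -/
theorem _root_.Pool.Agent.Work.MP_080fe7_co.Has.exists_sub10 [DecidableEq ι] {σ : Pat} {x : ι → α} {y : ι → β} {s : Set ι}
    (h : Has σ x y s) : ∃ t : Finset ι, (∀ i ∈ t, i ∈ s) ∧ t.card = σ.n ∧ IsPat σ x y t := by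
  obtain ⟨e, h1, h2, h3⟩ := h
  have hinj : Function.Injective e := by
    intro i j hij
    rcases lt_trichotomy i j with h | h | h
    · have := h2 _ _ h; rw [hij] at this; exact absurd this (lt_irrefl _)
    · exact h
    · have := h2 _ _ h; rw [hij] at this; exact absurd this (lt_irrefl _)
  refine ⟨univ.image e, ?_, ?_, e, ?_, ?_, h2, h3⟩
  · intro i hi
    obtain ⟨j, -, rfl⟩ := Finset.mem_image.1 hi
    exact h1 j
  · rw [Finset.card_image_of_injective _ hinj]; simp
  · intro i; simp
  · intro a ha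
    have ha' : a ∈ univ.image e := ha
    obtain ⟨j, -, hj⟩ := Finset.mem_image.1 ha'
    exact ⟨j, hj⟩

theorem _root_.Pool.Agent.Work.MP_080fe7_co.IsPat.card10 {σ : Pat} {x : ι → α} {y : ι → β} {s : Finset ι}
    (h : IsPat σ x y s) : σ.n = s.card := by
  classical
  obtain ⟨e, h1, h2, h3, h4⟩ := h
  have hinj : Function.Injective e := by
    intro i j hij
    rcases lt_trichotomy i j with h | h | h
    · have := h3 _ _ h; rw [hij] at this; exact absurd this (lt_irrefl _)
    · exact h
    · have := h3 _ _ h; rw [hij] at this; exact absurd this (lt_irrefl _)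
  have h5 : univ.image e = s := by
    ext a
    rw [Finset.mem_image]
    constructor
    · rintro ⟨i, -, rfl⟩; exact h1 i
    · intro ha
      obtain ⟨i, hi⟩ := h2 a ha
      exact ⟨i, Finset.mem_univ _, hi⟩
  rw [← h5, Finset.card_image_of_injective _ hinj]; simp

theorem le_of_n_zero {σ π : Pat} (h : σ.n = 0) : σ ≤ π := by
  have h0 : ∀ i : Fin σ.n, False := fun i => by
    have := i.2
    omega
  rw [le_iff_has]
  exact ⟨fun i => (h0 i).elim, fun i => (h0 i).elim, fun i => (h0 i).elim,
    fun i => (h0 i).elim⟩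

/-- the empty permutation -/
def emp : Pat := ⟨0, Equiv.refl _⟩

theorem emp_le (π : Pat) : emp ≤ π := le_of_n_zero rfl

theorem eq_emp_iff {π : Pat} : π = emp ↔ π.n = 0 := by
  constructor
  · rintro rfl; rfl
  · intro h
    exact (Pat.eq_of_le_of_n (emp_le π) (by rw [h]; exact Nat.zero_le _)).symm

theorem eq_of_n_le_one {σ π : Pat} (h : σ.n = π.n) (h1 : σ.n ≤ 1) : σ = π := by
  interval_cases h2 : σ.n
  · rw [eq_emp_iff.2 h2, eq_emp_iff.2 h.symm]
  · rw [eq_one_iff.2 h2, eq_one_iff.2 h.symm]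

end general

/-! ### The direct sum -/

/-- first coordinate for the direct sum -/
def dx (α β : Pat) : Fin α.n ⊕ Fin β.n → ℕ := Sum.elim (fun i => i) (fun j => α.n + j)

/-- second coordinate for the direct sum -/
def dy (α β : Pat) : Fin α.n ⊕ Fin β.n → ℕ :=
  Sum.elim (fun i => (α.p i : ℕ)) (fun j => α.n + (β.p j : ℕ))

theorem dx_inj (α β : Pat) : Function.Injective (dx α β) := by
  rintro (i | i) (j | j) h <;> simp only [dx, Sum.elim_inl, Sum.elim_inr] at h
  · rw [Fin.ext h]
  · have := i.2; omega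
  · have := j.2; omega
  · rw [Fin.ext (by omega : (i : ℕ) = j)]

theorem dy_inj (α β : Pat) : Function.Injective (dy α β) := by
  rintro (i | i) (j | j) h <;> simp only [dy, Sum.elim_inl, Sum.elim_inr] at h
  · rw [α.p.injective (Fin.ext h)]
  · have := (α.p i).2; omega
  · have := (α.p j).2; omega
  · rw [β.p.injective (Fin.ext (by omega : (β.p i : ℕ) = β.p j))]

/-- The direct sum of two permutations. -/
noncomputable def dsum (α β : Pat) : Pat :=
  pat (dx α β) (dy α β) (univ : Finset (Fin α.n ⊕ Fin β.n))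

theorem dsum_isPat (α β : Pat) : IsPat (dsum α β) (dx α β) (dy α β) Set.univ := by
  have := pat_isPat (s := (univ : Finset (Fin α.n ⊕ Fin β.n))) (dx_inj α β).injOn
    (dy_inj α β).injOn
  rwa [Finset.coe_univ] at this

@[simp] theorem dsum_n (α β : Pat) : (dsum α β).n = α.n + β.n := by
  unfold dsum
  rw [pat_n (dx_inj α β).injOn (dy_inj α β).injOn]
  simp

section general

variable {ι κ γ δ : Type*} [LinearOrder γ] [LinearOrder δ]

/-- all points of `A` are below and to the left of all points of `B` -/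
def Dom (x : ι → γ) (y : ι → δ) (A B : Set ι) : Prop :=
  ∀ a ∈ A, ∀ b ∈ B, x a < x b ∧ y a < y b

theorem has_dsum_of {x : ι → γ} {y : ι → δ} {A B s : Set ι} {α β : Pat}
    (hA : A ⊆ s) (hB : B ⊆ s) (hd : Dom x y A B) (hα : Has α x y A) (hβ : Has β x y B) :
    Has (dsum α β) x y s := by
  obtain ⟨e, h1, h2, h3⟩ := hα
  obtain ⟨e', h1', h2', h3'⟩ := hβ
  refine (dsum_isPat α β).has.map (Sum.elim e e') ?_ ?_ ?_
  · rintro (i | i) -
    · exact hA (h1 i)
    · exact hB (h1' i)
  · rintro (i | i) - (j | j) - h <;> simp only [dx, Sum.elim_inl, Sum.elim_inr] at h ⊢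
    · exact h2 _ _ h
    · exact (hd _ (h1 i) _ (h1' j)).1
    · have := j.2; omega
    · exact h2' _ _ (Fin.lt_def.2 (by omega))
  · rintro (i | i) - (j | j) - h <;> simp only [dy, Sum.elim_inl, Sum.elim_inr] at h ⊢
    · exact h3 _ _ (Fin.lt_def.2 h)
    · exact (hd _ (h1 i) _ (h1' j)).2
    · have := (α.p j).2; omega
    · exact h3' _ _ (Fin.lt_def.2 (by omega))

theorem of_has_dsum {x : ι → γ} {y : ι → δ} {s : Set ι} {α β : Pat}
    (h : Has (dsum α β) x y s) :
    ∃ A B : Set ι, A ⊆ s ∧ B ⊆ s ∧ Dom x y A B ∧ Has α x y A ∧ Has β x y B := by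
  by_cases hn : Nonempty ι
  · obtain ⟨g, h1, h2, h3⟩ := (dsum_isPat α β).has_iff.1 h
    refine ⟨Set.range (fun i => g (Sum.inl i)), Set.range (fun i => g (Sum.inr i)), ?_, ?_, ?_,
      ?_, ?_⟩
    · rintro _ ⟨i, rfl⟩; exact h1 _ trivial
    · rintro _ ⟨i, rfl⟩; exact h1 _ trivial
    · rintro _ ⟨i, rfl⟩ _ ⟨j, rfl⟩
      refine ⟨h2 _ trivial _ trivial ?_, h3 _ trivial _ trivial ?_⟩
      · simp only [dx, Sum.elim_inl, Sum.elim_inr]; have := i.2; omega
      · simp only [dy, Sum.elim_inl, Sum.elim_inr]; have := (α.p i).2; omega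
    · refine ⟨fun i => g (Sum.inl i), fun i => ⟨i, rfl⟩, fun i j hij => ?_, fun i j hij => ?_⟩
      · exact h2 _ trivial _ trivial hij
      · exact h3 _ trivial _ trivial hij
    · refine ⟨fun i => g (Sum.inr i), fun i => ⟨i, rfl⟩, fun i j hij => ?_, fun i j hij => ?_⟩
      · refine h2 _ trivial _ trivial ?_
        simp only [dx, Sum.elim_inr]
        have : (i : ℕ) < j := hij
        omega
      · refine h3 _ trivial _ trivial ?_
        simp only [dy, Sum.elim_inr]
        have : (β.p i : ℕ) < β.p j := hij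
        omega
  · have h0 : (dsum α β).n = 0 := by
      obtain ⟨e, -⟩ := h
      by_contra hne
      exact hn ⟨e ⟨0, Nat.pos_of_ne_zero hne⟩⟩
    rw [dsum_n] at h0
    have ha : ∀ σ : Pat, σ.n = 0 → Has σ x y (∅ : Set ι) := by
      intro σ hσ
      have h0 : ∀ i : Fin σ.n, False := fun i => by
        have := i.2
        omega
      exact ⟨fun i => (h0 i).elim, fun i => (h0 i).elim, fun i => (h0 i).elim,
        fun i => (h0 i).elim⟩
    exact ⟨∅, ∅, Set.empty_subset _, Set.empty_subset _, fun a ha => ha.elim,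
      ha α (by omega), ha β (by omega)⟩

theorem has_dsum_iff {x : ι → γ} {y : ι → δ} {s : Set ι} {α β : Pat} :
    Has (dsum α β) x y s ↔
    ∃ A B : Set ι, A ⊆ s ∧ B ⊆ s ∧ Dom x y A B ∧ Has α x y A ∧ Has β x y B :=
  ⟨of_has_dsum, fun ⟨_, _, h1, h2, h3, h4, h5⟩ => has_dsum_of h1 h2 h3 h4 h5⟩

end general

theorem has_self (τ : Pat) : Has τ (fun i : Fin τ.n => i) (fun i => τ.p i) Set.univ :=
  le_iff_has.1 le_rfl

/-- an embedding into the left part -/
theorem has_left {σ α β : Pat} : Has σ (dx α β) (dy α β) (Set.range Sum.inl) ↔ σ ≤ α := by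
  rw [le_iff_has]
  constructor
  · intro h
    exact h.of_range10.map id (fun _ _ => trivial) (fun i _ j _ h => h) (fun i _ j _ h => h)
  · intro h
    exact h.map Sum.inl (fun i _ => ⟨i, rfl⟩) (fun i _ j _ h => h) (fun i _ j _ h => h)

/-- an embedding into the right part -/
theorem has_right {σ α β : Pat} : Has σ (dx α β) (dy α β) (Set.range Sum.inr) ↔ σ ≤ β := by
  rw [le_iff_has]
  constructor
  · intro h
    refine h.of_range10.map id (fun _ _ => trivial) (fun i _ j _ h => ?_) (fun i _ j _ h => ?_)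
    · simp only [dx, Sum.elim_inr] at h
      exact Fin.lt_def.2 (by simpa using h)
    · simp only [dy, Sum.elim_inr] at h
      exact Fin.lt_def.2 (by simpa using h)
  · intro h
    refine h.map Sum.inr (fun i _ => ⟨i, rfl⟩) (fun i _ j _ h => ?_) (fun i _ j _ h => ?_)
    · simp only [dx, Sum.elim_inr]
      have : (i : ℕ) < j := h
      omega
    · simp only [dy, Sum.elim_inr]
      have : (β.p i : ℕ) < β.p j := h
      omega

/-- `I` is an upper right part of `τ` -/
def Cut (τ : Pat) (I : Finset (Fin τ.n)) : Prop :=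
  ∀ i, i ∉ I → ∀ j ∈ I, i < j ∧ τ.p i < τ.p j

theorem Cut.nested {τ : Pat} {I K : Finset (Fin τ.n)} (hI : Cut τ I) (hK : Cut τ K) :
    I ⊆ K ∨ K ⊆ I := by
  by_contra hn
  rw [not_or, Finset.not_subset, Finset.not_subset] at hn
  obtain ⟨⟨i, hi, hi'⟩, k, hk, hk'⟩ := hn
  exact lt_asymm (hK i hi' k hk).1 (hI k hk' i hi).1

theorem cut_empty (τ : Pat) : Cut τ ∅ := fun _ _ _ h => absurd h (Finset.notMem_empty _)

theorem le_dsum_iff {τ α β : Pat} :
    τ ≤ dsum α β ↔ ∃ I, Cut τ I ∧ sub τ Iᶜ ≤ α ∧ sub τ I ≤ β := by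
  classical
  rw [(dsum_isPat α β).le_iff]
  constructor
  · rintro ⟨e, -, h2, h3⟩
    let I : Finset (Fin τ.n) := univ.filter (fun i => e i ∈ Set.range (Sum.inr : Fin β.n → Fin α.n ⊕ Fin β.n))
    have hI : ∀ i, i ∈ I ↔ e i ∈ Set.range (Sum.inr : Fin β.n → Fin α.n ⊕ Fin β.n) := by
      intro i; simp [I]
    have hI' : ∀ i, i ∉ I → e i ∈ Set.range (Sum.inl : Fin α.n → Fin α.n ⊕ Fin β.n) := by
      intro i hi
      rw [hI] at hi
      rcases hei : e i with s | j
      · exact ⟨s, rfl⟩
      · exact absurd ⟨j, hei.symm⟩ hi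
    refine ⟨I, ?_, ?_, ?_⟩
    · intro i hi j hj
      obtain ⟨a, ha⟩ := hI' i hi
      obtain ⟨b, hb⟩ := (hI j).1 hj
      have hij : i ≠ j := fun h => hi (h ▸ hj)
      constructor
      · rcases lt_or_gt_of_ne hij with h | h
        · exact h
        · have := h2 j i h
          rw [← ha, ← hb] at this
          simp only [dx, Sum.elim_inl, Sum.elim_inr] at this
          have := a.2
          omega
      · rcases lt_or_gt_of_ne (fun h => hij (τ.p.injective h)) with h | h
        · exact h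
        · have := h3 j i h
          rw [← ha, ← hb] at this
          simp only [dy, Sum.elim_inl, Sum.elim_inr] at this
          have := (α.p a).2
          omega
    · rw [← has_left (β := β)]
      refine (sub_isPat τ Iᶜ).has.map e ?_ (fun i _ j _ h => h2 _ _ h) (fun i _ j _ h => h3 _ _ h)
      intro i hi
      exact hI' i (by simpa using hi)
    · rw [← has_right (α := α)]
      refine (sub_isPat τ I).has.map e ?_ (fun i _ j _ h => h2 _ _ h) (fun i _ j _ h => h3 _ _ h)
      intro i hi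
      exact (hI i).1 (by simpa using hi)
  · rintro ⟨I, hI, h1, h2⟩
    rw [← has_left (β := β)] at h1
    rw [← has_right (α := α)] at h2
    obtain ⟨e, g1, g2, g3⟩ := h1
    obtain ⟨e', g1', g2', g3'⟩ := h2
    obtain ⟨k, k1, k2, k3, k4⟩ := sub_isPat τ Iᶜ
    obtain ⟨k', k1', k2', k3', k4'⟩ := sub_isPat τ I
    have hk2 : ∀ a, a ∉ I → ∃ i, k i = a := fun a ha => k2 a (by simpa using ha)
    have hk2' : ∀ a, a ∈ I → ∃ i, k' i = a := fun a ha => k2' a (by simpa using ha)
    choose r hr using hk2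
    choose r' hr' using hk2'
    have key : ∀ i j hi hj, i < j → r i hi < r j hj := by
      intro i j hi hj hij
      by_contra hn
      rcases eq_or_lt_of_le (not_lt.1 hn) with h | h
      · rw [← hr i hi, ← hr j hj, h] at hij; exact lt_irrefl _ hij
      · have := k3 _ _ h
        simp only at this
        rw [hr i hi, hr j hj] at this
        exact lt_asymm hij this
    have key2 : ∀ i j hi hj, τ.p i < τ.p j →
        (sub τ Iᶜ).p (r i hi) < (sub τ Iᶜ).p (r j hj) := by
      intro i j hi hj hij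
      by_contra hn
      rcases eq_or_lt_of_le (not_lt.1 hn) with h | h
      · rw [← hr i hi, ← hr j hj, (sub τ Iᶜ).p.injective h] at hij; exact lt_irrefl _ hij
      · have := k4 _ _ h
        simp only at this
        rw [hr i hi, hr j hj] at this
        exact lt_asymm hij this
    have key' : ∀ i j hi hj, i < j → r' i hi < r' j hj := by
      intro i j hi hj hij
      by_contra hn
      rcases eq_or_lt_of_le (not_lt.1 hn) with h | h
      · rw [← hr' i hi, ← hr' j hj, h] at hij; exact lt_irrefl _ hij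
      · have := k3' _ _ h
        simp only at this
        rw [hr' i hi, hr' j hj] at this
        exact lt_asymm hij this
    have key2' : ∀ i j hi hj, τ.p i < τ.p j →
        (sub τ I).p (r' i hi) < (sub τ I).p (r' j hj) := by
      intro i j hi hj hij
      by_contra hn
      rcases eq_or_lt_of_le (not_lt.1 hn) with h | h
      · rw [← hr' i hi, ← hr' j hj, (sub τ I).p.injective h] at hij; exact lt_irrefl _ hij
      · have := k4' _ _ h
        simp only at this
        rw [hr' i hi, hr' j hj] at this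
        exact lt_asymm hij this
    refine ⟨fun i => if hi : i ∈ I then e' (r' i hi) else e (r i hi), fun _ => trivial, ?_, ?_⟩
    · intro i j hij
      by_cases hi : i ∈ I <;> by_cases hj : j ∈ I
      · simp only [hi, hj, dite_true]; exact g2' _ _ (key' i j hi hj hij)
      · exact absurd hij (lt_asymm (hI j hj i hi).1)
      · simp only [hi, hj, dite_true, dite_false]
        obtain ⟨a, ha⟩ := g1 (r i hi)
        obtain ⟨b, hb⟩ := g1' (r' j hj)
        rw [← ha, ← hb]
        simp only [dx, Sum.elim_inl, Sum.elim_inr]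
        have := a.2
        omega
      · simp only [hi, hj, dite_false]; exact g2 _ _ (key i j hi hj hij)
    · intro i j hij
      by_cases hi : i ∈ I <;> by_cases hj : j ∈ I
      · simp only [hi, hj, dite_true]; exact g3' _ _ (key2' i j hi hj hij)
      · exact absurd hij (lt_asymm (hI j hj i hi).2)
      · simp only [hi, hj, dite_true, dite_false]
        obtain ⟨a, ha⟩ := g1 (r i hi)
        obtain ⟨b, hb⟩ := g1' (r' j hj)
        rw [← ha, ← hb]
        simp only [dy, Sum.elim_inl, Sum.elim_inr]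
        have := (α.p a).2
        omega
      · simp only [hi, hj, dite_false]; exact g3 _ _ (key2 i j hi hj hij)

theorem dsum_mono {α α' β β' : Pat} (h : α ≤ α') (h' : β ≤ β') : dsum α β ≤ dsum α' β' := by
  rw [(dsum_isPat α' β').le_iff]
  refine has_dsum_of (A := Set.range Sum.inl) (B := Set.range Sum.inr) (Set.subset_univ _)
    (Set.subset_univ _) ?_ (has_left.2 h) (has_right.2 h')
  rintro _ ⟨i, rfl⟩ _ ⟨j, rfl⟩
  simp only [dx, dy, Sum.elim_inl, Sum.elim_inr]
  have := i.2
  have := (α'.p i).2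
  omega

theorem le_dsum_left (α β : Pat) : α ≤ dsum α β := by
  rw [(dsum_isPat α β).le_iff]
  exact (has_left.2 le_rfl).mono (Set.subset_univ _)

theorem le_dsum_right (α β : Pat) : β ≤ dsum α β := by
  rw [(dsum_isPat α β).le_iff]
  exact (has_right.2 le_rfl).mono (Set.subset_univ _)

section general

variable {ι γ δ : Type*} [LinearOrder γ] [LinearOrder δ]

theorem isPat_union [DecidableEq ι] {x : ι → γ} {y : ι → δ} {S T : Finset ι} {σ α β : Pat}
    (hα : IsPat α x y S) (hβ : IsPat β x y T) (hσ : IsPat σ x y ((S ∪ T : Finset ι) : Set ι))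
    (hd : Dom x y (S : Set ι) T) : σ = dsum α β := by
  symm
  apply Pat.eq_of_le_of_n
  · rw [hσ.le_iff]
    refine has_dsum_of ?_ ?_ hd hα.has hβ.has
    · intro a ha; simp only [Finset.coe_union]; exact Or.inl ha
    · intro a ha; simp only [Finset.coe_union]; exact Or.inr ha
  · rw [dsum_n, hσ.card10, hα.card10, hβ.card10]
    exact Finset.card_union_le _ _

end general

theorem sub_union {τ : Pat} {I K : Finset (Fin τ.n)}
    (h : ∀ i ∈ I, ∀ k ∈ K, i < k ∧ τ.p i < τ.p k) :
    sub τ (I ∪ K) = dsum (sub τ I) (sub τ K) :=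
  isPat_union (sub_isPat τ I) (sub_isPat τ K) (sub_isPat τ (I ∪ K)) h

theorem eq_dsum_of_cut {τ : Pat} {I : Finset (Fin τ.n)} (h : Cut τ I) :
    τ = dsum (sub τ Iᶜ) (sub τ I) := by
  conv_lhs => rw [← sub_univ τ, ← Finset.union_compl I, Finset.union_comm]
  exact sub_union (fun i hi k hk => h i (by simpa using hi) k hk)

theorem exists_cut (α β : Pat) : ∃ I : Finset (Fin (dsum α β).n), Cut (dsum α β) I ∧
    sub (dsum α β) Iᶜ = α ∧ sub (dsum α β) I = β := by
  obtain ⟨I, h1, h2, h3⟩ := le_dsum_iff.1 (le_refl (dsum α β))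
  have h4 := Pat.n_le h2
  have h5 := Pat.n_le h3
  rw [sub_n] at h4 h5
  have h6 := Finset.card_add_card_compl I
  rw [Fintype.card_fin] at h6
  have h7 := dsum_n α β
  exact ⟨I, h1, Pat.eq_of_le_of_n h2 (by rw [sub_n]; omega),
    Pat.eq_of_le_of_n h3 (by rw [sub_n]; omega)⟩

/-- sum-indecomposable permutations -/
def Indec (α : Pat) : Prop := 1 ≤ α.n ∧ ∀ α₁ α₂, α = dsum α₁ α₂ → α₁.n = 0 ∨ α₂.n = 0

theorem dsum_emp_right {α ε : Pat} (h : ε.n = 0) : dsum α ε = α :=
  (Pat.eq_of_le_of_n (le_dsum_left α ε) (by rw [dsum_n, h]; exact le_rfl)).symm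

theorem dsum_emp_left {α ε : Pat} (h : ε.n = 0) : dsum ε α = α :=
  (Pat.eq_of_le_of_n (le_dsum_right ε α) (by rw [dsum_n, h, Nat.zero_add])).symm

theorem dsum_assoc (α β γ : Pat) : dsum (dsum α β) γ = dsum α (dsum β γ) := by
  apply Pat.eq_of_le_of_n
  · rw [le_iff_has]
    obtain ⟨A, B, h1, h2, h3, h4, h5⟩ := of_has_dsum (has_self (dsum α (dsum β γ)))
    obtain ⟨A', B', h1', h2', h3', h4', h5'⟩ := of_has_dsum h5
    refine has_dsum_of (A := A ∪ A') (B := B') (Set.subset_univ _) (Set.subset_univ _) ?_ ?_ h5'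
    · rintro a (ha | ha) b hb
      · exact h3 a ha b (h2' hb)
      · exact h3' a ha b hb
    · exact has_dsum_of Set.subset_union_left Set.subset_union_right
        (fun a ha b hb => h3 a ha b (h1' hb)) h4 h4'
  · simp only [dsum_n]; omega

/-- an indecomposable permutation and a cut -/
theorem Indec.cut_eq {τ : Pat} {I K : Finset (Fin τ.n)} (hI : Cut τ I) (hK : Cut τ K)
    (hind : Indec (sub τ Iᶜ)) (hIK : I ⊆ K) (hKu : K ≠ univ) : I = K := by
  classical
  have h1 : Iᶜ = Kᶜ ∪ (K \ I) := by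
    ext a
    simp only [Finset.mem_compl, Finset.mem_union, Finset.mem_sdiff]
    constructor
    · intro h
      by_cases hk : a ∈ K
      · exact Or.inr ⟨hk, h⟩
      · exact Or.inl hk
    · rintro (h | h)
      · exact fun h' => h (hIK h')
      · exact h.2
  have h2 := hind.2 (sub τ Kᶜ) (sub τ (K \ I)) (by
    rw [← sub_union (I := Kᶜ) (K := K \ I), ← h1]
    intro i hi k hk
    exact hK i (by simpa using hi) k (Finset.mem_sdiff.1 hk).1)
  rw [sub_n, sub_n, Finset.card_eq_zero, Finset.card_eq_zero] at h2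
  rcases h2 with h2 | h2
  · exact absurd ((Finset.compl_eq_empty_iff K).1 h2) hKu
  · exact Finset.Subset.antisymm hIK (Finset.sdiff_eq_empty_iff_subset.1 h2)

theorem Indec.unique {α α' β β' : Pat} (hα : Indec α) (hα' : Indec α')
    (h : dsum α β = dsum α' β') : α = α' ∧ β = β' := by
  obtain ⟨τ, hτ⟩ : ∃ τ, τ = dsum α β := ⟨_, rfl⟩
  have hτ' : τ = dsum α' β' := hτ.trans h
  obtain ⟨I, h1, h2, h3⟩ : ∃ I : Finset (Fin τ.n), Cut τ I ∧ sub τ Iᶜ = α ∧ sub τ I = β := by
    subst hτ; exact exists_cut α β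
  obtain ⟨K, h1', h2', h3'⟩ : ∃ I : Finset (Fin τ.n), Cut τ I ∧ sub τ Iᶜ = α' ∧ sub τ I = β' := by
    subst hτ'; exact exists_cut α' β'
  have hKu : K ≠ univ := by
    intro hK
    rw [hK, Finset.compl_univ] at h2'
    have := hα'.1
    rw [← h2', sub_n, Finset.card_empty] at this
    omega
  have hIu : I ≠ univ := by
    intro hI
    rw [hI, Finset.compl_univ] at h2
    have := hα.1
    rw [← h2, sub_n, Finset.card_empty] at this
    omega
  have hIK : I = K := by
    rcases h1.nested h1' with h | h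
    · exact Indec.cut_eq h1 h1' (h2.symm ▸ hα) h hKu
    · exact (Indec.cut_eq h1' h1 (h2'.symm ▸ hα') h hIu).symm
  subst hIK
  exact ⟨h2.symm.trans h2', h3.symm.trans h3'⟩

theorem exists_indec (τ : Pat) (h : 1 ≤ τ.n) : ∃ α β, Indec α ∧ τ = dsum α β := by
  induction hk : τ.n using Nat.strong_induction_on generalizing τ with
  | _ k ih =>
    by_cases hτ : Indec τ
    · exact ⟨τ, emp, hτ, (dsum_emp_right rfl).symm⟩
    · unfold Indec at hτ
      push Not at hτ
      obtain ⟨α₁, α₂, h1, h2, h3⟩ := hτ h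
      have h4 := congrArg Pat.n h1
      rw [dsum_n] at h4
      obtain ⟨α, β, hα, hαβ⟩ := ih α₁.n (by omega) α₁ (by omega) rfl
      exact ⟨α, dsum β α₂, hα, by rw [h1, hαβ, dsum_assoc]⟩

end Pool.Agent.Work.MP_080fe7_co.OscN
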