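import Pool.Agent.Work.MP_080fe7_co.ParWords

/-!
# Alternating sums over the subwords of a word
-/

set_option linter.unusedSectionVars false
set_option linter.unusedVariables false

open Finset

namespace Pool.Agent.Work.MP_080fe7_co.ParW

open scoped Classical in
/-- the indicator of a proposition -/
noncomputable def ind (P : Prop) : ℤ := if P then 1 else 0

theorem ind_true {P : Prop} (h : P) : ind P = 1 := by simp [ind, h]

theorem ind_false {P : Prop} (h : ¬ P) : ind P = 0 := by simp [ind, h]

theorem ind_congr {P Q : Prop} (h : P ↔ Q) : ind P = ind Q := by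
  have : P = Q := propext h
  rw [this]

/-- the alternating sum of `Φ` over the subwords of a word (one for each set of positions) -/
def altsum : List Lt → (List Lt → ℤ) → ℤ
  | [], Φ => Φ []
  | a :: w, Φ => altsum w Φ - altsum w (fun v => Φ (a :: v))

@[simp] theorem altsum_nil (Φ : List Lt → ℤ) : altsum [] Φ = Φ [] := rfl

theorem altsum_cons (a : Lt) (w : List Lt) (Φ : List Lt → ℤ) :
    altsum (a :: w) Φ = altsum w Φ - altsum w (fun v => Φ (a :: v)) := rfl

theorem altsum_congr {w : List Lt} {Φ Ψ : List Lt → ℤ} (h : ∀ v, List.Sublist v w → Φ v = Ψ v) :
    altsum w Φ = altsum w Ψ := by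
  induction w generalizing Φ Ψ with
  | nil => exact h [] (List.Sublist.refl _)
  | cons a w ih =>
    rw [altsum_cons, altsum_cons, ih (fun v hv => h v (hv.cons a)),
      ih (fun v hv => h (a :: v) (hv.cons_cons a))]

theorem altsum_add (w : List Lt) (Φ Ψ : List Lt → ℤ) :
    altsum w (fun v => Φ v + Ψ v) = altsum w Φ + altsum w Ψ := by
  induction w generalizing Φ Ψ with
  | nil => rfl
  | cons a w ih => simp only [altsum_cons, ih]; ring

theorem altsum_sub (w : List Lt) (Φ Ψ : List Lt → ℤ) :
    altsum w (fun v => Φ v - Ψ v) = altsum w Φ - altsum w Ψ := by
  induction w generalizing Φ Ψ with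
  | nil => rfl
  | cons a w ih => simp only [altsum_cons, ih]; ring

theorem altsum_mul (w : List Lt) (c : ℤ) (Φ : List Lt → ℤ) :
    altsum w (fun v => c * Φ v) = c * altsum w Φ := by
  induction w generalizing Φ with
  | nil => rfl
  | cons a w ih => simp only [altsum_cons, ih]; ring

theorem altsum_zero (w : List Lt) : altsum w (fun _ => 0) = 0 := by
  induction w with
  | nil => rfl
  | cons a w ih => simp only [altsum_cons, ih]; ring

theorem altsum_sum {ι : Type*} (w : List Lt) (s : Finset ι) (Φ : ι → List Lt → ℤ) :
    altsum w (fun v => ∑ i ∈ s, Φ i v) = ∑ i ∈ s, altsum w (Φ i) := by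
  classical
  induction s using Finset.induction_on with
  | empty => simp [altsum_zero]
  | insert i s hi ih =>
    rw [Finset.sum_insert hi, ← ih, ← altsum_add]
    exact altsum_congr (fun v _ => Finset.sum_insert hi)

theorem altsum_const (w : List Lt) (hw : w ≠ []) (c : ℤ) : altsum w (fun _ => c) = 0 := by
  cases w with
  | nil => exact absurd rfl hw
  | cons a w => rw [altsum_cons]; ring

theorem altsum_toggle {a : Lt} {w : List Lt} {Φ : List Lt → ℤ}
    (h : ∀ v, List.Sublist v w → Φ (a :: v) = Φ v) : altsum (a :: w) Φ = 0 := by
  rw [altsum_cons, altsum_congr h]; ring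

theorem altsum_snoc (w : List Lt) (a : Lt) (Φ : List Lt → ℤ) :
    altsum (w ++ [a]) Φ = altsum w Φ - altsum w (fun v => Φ (v ++ [a])) := by
  induction w generalizing Φ with
  | nil => rfl
  | cons b w ih => simp only [List.cons_append, altsum_cons, ih]; ring

theorem altsum_len_zero (w : List Lt) : altsum w (fun v => ind (v.length = 0)) = 1 := by
  induction w with
  | nil => exact ind_true rfl
  | cons a w ih =>
    rw [altsum_cons, ih]
    have : altsum w (fun v => ind ((a :: v).length = 0)) = 0 := by
      rw [altsum_congr (Ψ := fun _ => 0) (fun v _ => ind_false (by simp)), altsum_zero]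
    rw [this]; ring

theorem altsum_len_one (w : List Lt) : altsum w (fun v => ind (v.length = 1)) = -w.length := by
  induction w with
  | nil => simp [ind_false]
  | cons a w ih =>
    rw [altsum_cons, ih]
    have : altsum w (fun v => ind ((a :: v).length = 1)) = 1 := by
      rw [← altsum_len_zero w]
      exact altsum_congr (fun v _ => ind_congr (by simp))
    rw [this]
    push_cast [List.length_cons]
    ring

/-- **the exchange identity**, for the subwords of a word -/
theorem altsum_exchange (w : List Lt) :
    ∑ τ ∈ Icc one (rho w), f τ * altsum w (fun v => ind (τ ≤ rho v)) = -w.length := by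
  have h1 : ∀ v, List.Sublist v w →
      ∑ τ ∈ Icc one (rho w), f τ * ind (τ ≤ rho v) = ind (v.length = 1) := by
    intro v hv
    have h2 : ind (v.length = 1) = if rho v = one then 1 else 0 := by
      by_cases h : v.length = 1
      · rw [ind_true h, if_pos (eq_one_iff.2 (by rw [rho_n, h]))]
      · rw [ind_false h, if_neg (fun h' => h (by rw [← rho_n, h']; rfl))]
    rw [h2, ← sum_f]
    have h3 : Icc one (rho v) ⊆ Icc one (rho w) := by
      intro τ hτ
      rw [Finset.mem_Icc] at hτ ⊢
      exact ⟨hτ.1, hτ.2.trans (rho_le_of_sublist hv)⟩
    rw [← Finset.sum_subset h3 (f := fun τ => f τ * ind (τ ≤ rho v))]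
    · refine Finset.sum_congr rfl ?_
      intro τ hτ
      rw [ind_true (Finset.mem_Icc.1 hτ).2, mul_one]
    · intro τ hτ hτ'
      rw [ind_false, mul_zero]
      intro h
      exact hτ' (Finset.mem_Icc.2 ⟨(Finset.mem_Icc.1 hτ).1, h⟩)
  rw [← altsum_len_one w, ← altsum_congr h1, altsum_sum]
  refine Finset.sum_congr rfl ?_
  intro τ _
  rw [altsum_mul]

/-- the alternating word `a b a b …` with `2 m` letters -/
def alt (a b : Lt) : ℕ → List Lt
  | 0 => []
  | m + 1 => a :: b :: alt a b m

theorem alt_length (a b : Lt) (m : ℕ) : (alt a b m).length = 2 * m := by
  induction m with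
  | zero => rfl
  | succ m ih => simp [alt, ih]; ring

theorem alt_getElem (a b : Lt) (m i : ℕ) (hi : i < (alt a b m).length) :
    (alt a b m)[i] = if i % 2 = 0 then a else b := by
  induction m generalizing i with
  | zero => simp [alt] at hi
  | succ m ih =>
    match i, hi with
    | 0, _ => simp [alt]
    | 1, _ => simp [alt]
    | i + 2, hi =>
      have hi' : i < (alt a b m).length := by simpa [alt] using hi
      have := ih i hi'
      simp only [alt, List.getElem_cons_succ]
      rw [this]
      simp

theorem mem_alt {a b c : Lt} {m : ℕ} (h : c ∈ alt a b m) : c = a ∨ c = b := by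
  induction m with
  | zero => simp [alt] at h
  | succ m ih =>
    simp only [alt, List.mem_cons] at h
    rcases h with h | h | h
    · exact Or.inl h
    · exact Or.inr h
    · exact ih h

theorem cons_sublist_cons_ne {a c : Lt} (hac : a ≠ c) {v z : List Lt} :
    List.Sublist (c :: v) (a :: z) ↔ List.Sublist (c :: v) z := by
  constructor
  · intro h
    cases h with
    | cons _ h => exact h
    | cons_cons _ h => exact absurd rfl hac
  · intro h
    exact h.cons a

/-- the Möbius function of subword order, below an alternating word -/
theorem altsum_alt {a b : Lt} (hab : a ≠ b) (m : ℕ) (v : List Lt) :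
    altsum (alt a b m) (fun z => ind (List.Sublist v z)) = ind (v = alt a b m) := by
  induction m generalizing v with
  | zero =>
    simp only [alt, altsum_nil]
    exact ind_congr (by simp)
  | succ m ih =>
    simp only [alt, altsum_cons]
    match v with
    | [] =>
      rw [ind_false (by simp)]
      simp only [List.nil_sublist]
      ring
    | c :: v =>
      by_cases hca : c = a
      · subst hca
        simp only [List.cons_sublist_cons]
        have e1 : altsum (alt c b m) (fun z => ind (List.Sublist (c :: v) (b :: z)))
            = altsum (alt c b m) (fun z => ind (List.Sublist (c :: v) z)) :=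
          altsum_congr (fun z _ => ind_congr (cons_sublist_cons_ne hab.symm))
        rw [e1]
        match v with
        | [] =>
          simp only [List.nil_sublist]
          rw [ind_false (P := [c] = c :: b :: alt c b m) (by simp)]
          ring
        | c' :: v =>
          by_cases hcb : c' = b
          · subst hcb
            simp only [List.cons_sublist_cons]
            rw [ih v, ih (c' :: v)]
            have e2 : ¬ (c' :: v = alt c c' m) := by
              intro h
              cases m with
              | zero => simp [alt] at h
              | succ m =>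
                simp only [alt, List.cons.injEq] at h
                exact hab h.1.symm
            rw [ind_false e2, ind_congr (P := c :: c' :: v = c :: c' :: alt c c' m)
              (Q := v = alt c c' m) (by simp)]
            ring
          · have e2 : altsum (alt c b m) (fun z => ind (List.Sublist (c' :: v) (b :: z)))
                = altsum (alt c b m) (fun z => ind (List.Sublist (c' :: v) z)) :=
              altsum_congr (fun z _ => ind_congr (cons_sublist_cons_ne (fun h => hcb h.symm)))
            rw [e2, ind_false (by simp [hcb])]
            ring
      · rw [ind_false (by simp [hca])]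
        by_cases hcb : c = b
        · subst hcb
          simp only [cons_sublist_cons_ne (fun h => hca h.symm), List.cons_sublist_cons]
          ring
        · simp only [cons_sublist_cons_ne (fun h => hca h.symm),
            cons_sublist_cons_ne (fun h => hcb h.symm)]
          ring

end Pool.Agent.Work.MP_080fe7_co.ParW
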