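import Pool.Agent.Work.MP_080fe7_co.ParAltsum

/-!
# Alternating sums of subword conditions, and small values of `f`
-/

set_option linter.unusedSectionVars false
set_option linter.unusedVariables false

open Finset

namespace Pool.Agent.Work.MP_080fe7_co.ParW

/-- some word of `L` is a subword of `z` -/
def Hits (L : List (List Lt)) (z : List Lt) : Prop := ∃ x ∈ L, List.Sublist x z

/-- greedy matching of one letter -/
def strip (c : Lt) : List Lt → List Lt
  | [] => []
  | b :: x => if b = c then x else b :: x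

theorem strip_sublist (c : Lt) (x z : List Lt) :
    List.Sublist x (c :: z) ↔ List.Sublist (strip c x) z := by
  cases x with
  | nil => simp [strip]
  | cons b x =>
    by_cases h : b = c
    · subst h
      simp [strip]
    · rw [cons_sublist_cons_ne (fun h' => h h'.symm)]
      simp [strip, h]

theorem hits_cons (L : List (List Lt)) (c : Lt) (z : List Lt) :
    Hits L (c :: z) ↔ Hits (L.map (strip c)) z := by
  simp only [Hits, List.mem_map]
  constructor
  · rintro ⟨x, hx, h⟩
    exact ⟨_, ⟨x, hx, rfl⟩, (strip_sublist c x z).1 h⟩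
  · rintro ⟨_, ⟨x, hx, rfl⟩, h⟩
    exact ⟨x, hx, (strip_sublist c x z).2 h⟩

/-- the alternating sum of a subword condition over an alternating word -/
noncomputable def E (a b : Lt) (m : ℕ) (L : List (List Lt)) : ℤ :=
  altsum (alt a b m) (fun z => ind (Hits L z))

theorem E_succ (a b : Lt) (m : ℕ) (L : List (List Lt)) :
    E a b (m + 1) L = E a b m L - E a b m (L.map (strip a)) - E a b m (L.map (strip b))
      + E a b m ((L.map (strip a)).map (strip b)) := by
  have h1 : ∀ c L, (fun z => ind (Hits L (c :: z))) = fun z => ind (Hits (L.map (strip c)) z) :=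
    fun c L => funext fun z => ind_congr (hits_cons L c z)
  simp only [E, alt, altsum_cons]
  rw [h1 a L, h1 b L]
  have h2 : (fun z => ind (Hits L (a :: b :: z)))
      = fun z => ind (Hits ((L.map (strip a)).map (strip b)) z) :=
    funext fun z => ind_congr ((hits_cons L a _).trans (hits_cons _ b z))
  rw [h2]
  ring

theorem E_nil {a b : Lt} {m : ℕ} {L : List (List Lt)} (h : [] ∈ L) :
    E a b m L = ind (m = 0) := by
  have h1 : (fun z => ind (Hits L z)) = fun _ => 1 :=
    funext fun z => ind_true ⟨[], h, List.nil_sublist _⟩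
  rw [E, h1]
  cases m with
  | zero => rw [ind_true rfl]; rfl
  | succ m =>
    rw [altsum_const _ (by simp [alt]), ind_false (by simp)]

theorem E_zero {a b : Lt} {L : List (List Lt)} (h : [] ∉ L) : E a b 0 L = 0 := by
  simp only [E, alt, altsum_nil]
  apply ind_false
  rintro ⟨x, hx, h'⟩
  rw [List.sublist_nil] at h'
  subst h'
  exact h hx

theorem E_congr {a b : Lt} {m : ℕ} {L L' : List (List Lt)} (h : ∀ z, Hits L z ↔ Hits L' z) :
    E a b m L = E a b m L' := by
  have h1 : (fun z => ind (Hits L z)) = fun z => ind (Hits L' z) :=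
    funext fun z => ind_congr (h z)
  rw [E, E, h1]

theorem hits_iff_of_sub {L L' : List (List Lt)} (h1 : ∀ x ∈ L, ∃ x' ∈ L', List.Sublist x' x)
    (h2 : ∀ x ∈ L', ∃ x' ∈ L, List.Sublist x' x) (z : List Lt) : Hits L z ↔ Hits L' z := by
  constructor
  · rintro ⟨x, hx, h⟩
    obtain ⟨x', hx', h'⟩ := h1 x hx
    exact ⟨x', hx', h'.trans h⟩
  · rintro ⟨x, hx, h⟩
    obtain ⟨x', hx', h'⟩ := h2 x hx
    exact ⟨x', hx', h'.trans h⟩

theorem E_single {a b : Lt} (hab : a ≠ b) (m : ℕ) (x : List Lt) :
    E a b m [x] = ind (x = alt a b m) := by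
  rw [← altsum_alt hab]
  simp only [E]
  refine altsum_congr (fun z _ => ind_congr ?_)
  simp [Hits]

/-- comparing the sums of `f` over two nested principal ideals -/
theorem new_sum {π' π : Pat} (hle : π' ≤ π) (S : Finset Pat)
    (h : ∀ τ, τ ∈ S ↔ one ≤ τ ∧ τ ≤ π ∧ ¬ τ ≤ π') :
    ∑ τ ∈ S, f τ = ind (π = one) - ind (π' = one) := by
  classical
  have h1 : ∀ ρ : Pat, ind (ρ = one) = ∑ τ ∈ Icc one ρ, f τ := by
    intro ρ
    rw [sum_f]
    by_cases hρ : ρ = one
    · rw [ind_true hρ, if_pos hρ]
    · rw [ind_false hρ, if_neg hρ]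
  have h2 : Icc one π' ⊆ Icc one π := by
    intro τ hτ
    rw [Finset.mem_Icc] at hτ ⊢
    exact ⟨hτ.1, hτ.2.trans hle⟩
  have h3 : S = Icc one π \ Icc one π' := by
    ext τ
    rw [h, Finset.mem_sdiff, Finset.mem_Icc, Finset.mem_Icc]
    tauto
  rw [h1, h1, h3, ← Finset.sum_sdiff h2]
  ring

end Pool.Agent.Work.MP_080fe7_co.ParW
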