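import Pool.Agent.Work.MP_080fe7_co.ParHits

/-!
# The values of `f` on a few small families of words
-/

set_option linter.unusedSectionVars false
set_option linter.unusedVariables false

open Finset

namespace Pool.Agent.Work.MP_080fe7_co.ParW

/-- words over `{u, d}` -/
def UD (z : List Lt) : Prop := ∀ a ∈ z, a = Lt.u ∨ a = Lt.d

theorem UD.sublist {t z : List Lt} (hz : UD z) (h : List.Sublist t z) : UD t :=
  fun a ha => hz a (h.subset ha)

theorem UD_nil : UD [] := fun a ha => by simp at ha

theorem UD_alt (m : ℕ) : UD (alt Lt.u Lt.d m) := fun a ha => mem_alt ha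

theorem rho_one (a : Lt) : rho [a] = one := eq_one_iff.2 (by simp)

theorem one_le_rho {v : List Lt} : one ≤ rho v ↔ v ≠ [] := by
  rw [one_le_iff, rho_n]
  constructor
  · rintro h rfl
    simp at h
  · intro h
    exact List.length_pos_iff.2 h

theorem rho_eq_one {v : List Lt} : rho v = one ↔ v.length = 1 := by
  rw [eq_one_iff, rho_n]

theorem up_ud {a b : Lt} (ha : a = Lt.u ∨ a = Lt.d) (hb : b = Lt.u ∨ b = Lt.d) :
    up a b = decide (b = Lt.u) := by
  rcases ha with rfl | rfl <;> rcases hb with rfl | rfl <;> decide

theorem not_rho_le_of_length {v z : List Lt} (h : z.length < v.length) : ¬ rho v ≤ rho z := by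
  intro h'
  have := Pat.n_le h'
  rw [rho_n, rho_n] at this
  omega

theorem sublist_snoc_iff {t z : List Lt} {c : Lt} : List.Sublist t (z ++ [c]) ↔
    List.Sublist t z ∨ ∃ t', t = t' ++ [c] ∧ List.Sublist t' z := by
  constructor
  · intro h
    obtain ⟨t1, t2, rfl, h1, h2⟩ := List.sublist_append_iff.1 h
    rcases List.sublist_singleton.1 h2 with rfl | rfl
    · left; simpa using h1
    · right; exact ⟨t1, rfl, h1⟩
  · rintro (h | ⟨t', rfl, h⟩)
    · exact h.trans (List.sublist_append_left _ _)
    · exact h.append (List.Sublist.refl _)

theorem sublist_replicate {t : List Lt} {a : Lt} {k : ℕ} (h : List.Sublist t (List.replicate k a)) :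
    ∃ j, j ≤ k ∧ t = List.replicate j a := by
  rw [List.sublist_replicate_iff] at h
  obtain ⟨n, h1, h2⟩ := h
  exact ⟨n, h1, h2⟩

/-- `f` of a monotone permutation -/
theorem f_replicate {a : Lt} (ha : a = Lt.u ∨ a = Lt.d) (k : ℕ) :
    f (rho (List.replicate (k + 2) a)) = - ind (k = 0) := by
  have h := new_sum (π' := rho (List.replicate (k + 1) a)) (π := rho (List.replicate (k + 2) a))
    (rho_le_of_sublist (by
      rw [List.sublist_replicate_iff]
      exact ⟨k + 1, by omega, rfl⟩)) {rho (List.replicate (k + 2) a)} (by
      intro τ
      rw [Finset.mem_singleton]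
      constructor
      · rintro rfl
        refine ⟨one_le_rho.2 (by simp), le_refl _, not_rho_le_of_length (by simp)⟩
      · rintro ⟨h1, h2, h3⟩
        obtain ⟨t, ht, rfl⟩ := exists_of_le_rho h2
        obtain ⟨j, hj, rfl⟩ := sublist_replicate ht
        have : j = k + 2 := by
          by_contra hne
          apply h3
          apply rho_le_of_sublist
          rw [List.sublist_replicate_iff]
          exact ⟨j, by omega, rfl⟩
        rw [this])
  rw [Finset.sum_singleton, ind_false (P := rho (List.replicate (k + 2) a) = one)
    (by rw [rho_eq_one]; simp), ind_congr (Q := k = 0) (by rw [rho_eq_one]; simp)] at h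
  rw [h]; ring

theorem sig_two {a b : Lt} (ha : a = Lt.u ∨ a = Lt.d) (hb : b = Lt.u ∨ b = Lt.d) :
    sig [a, b] = sig [b, b] := by
  simp only [sig, List.map_cons, List.map_nil]
  rw [up_ud ha hb, up_ud hb hb]

theorem f_two {a b : Lt} (ha : a = Lt.u ∨ a = Lt.d) (hb : b = Lt.u ∨ b = Lt.d) :
    f (rho [a, b]) = -1 := by
  rw [rho_eq_of_sig (sig_two ha hb)]
  have := f_replicate hb 0
  rw [ind_true rfl] at this
  exact this

/-- a monotone sequence followed by a corner of the other kind -/
theorem f_replicate_snoc {a b : Lt} (ha : a = Lt.u ∨ a = Lt.d) (hb : b = Lt.u ∨ b = Lt.d)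
    (hab : a ≠ b) (k : ℕ) :
    f (rho (List.replicate (k + 2) a ++ [b])) = ind (k = 0) := by
  have hne : rho (List.replicate (k + 2) a) ≠ rho (List.replicate (k + 2) a ++ [b]) := by
    intro h
    have := congrArg Pat.n h
    simp at this
  have h := new_sum (π' := rho (List.replicate (k + 1) a ++ [b]))
    (π := rho (List.replicate (k + 2) a ++ [b]))
    (rho_le_of_sublist (List.Sublist.append (by
      rw [List.sublist_replicate_iff]
      exact ⟨k + 1, by omega, rfl⟩) (List.Sublist.refl _)))
    {rho (List.replicate (k + 2) a), rho (List.replicate (k + 2) a ++ [b])} (by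
      intro τ
      rw [Finset.mem_insert, Finset.mem_singleton]
      constructor
      · rintro (rfl | rfl)
        · refine ⟨one_le_rho.2 (by simp), rho_le_of_sublist (List.sublist_append_left _ _), ?_⟩
          rw [rho_le_iff]
          rintro ⟨t, ht, hs⟩
          have h1 := length_eq_of_sig hs
          have h2 : t = List.replicate (k + 1) a ++ [b] :=
            ht.eq_of_length (by rw [h1]; simp)
          rw [h2, sig_eq_iff] at hs
          have h3 := hs.2 0 (k + 1) (by omega) (by simp) (by simp) (by simp) (by simp)
          simp only [List.getElem_append, List.length_replicate, List.getElem_replicate,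
            List.getElem_singleton] at h3
          simp only [Nat.zero_lt_succ, lt_irrefl, dite_true, dite_false] at h3
          rw [up_ud ha hb, up_ud ha ha] at h3
          rcases ha with rfl | rfl <;> rcases hb with rfl | rfl <;> simp at h3 hab
        · refine ⟨one_le_rho.2 (by simp), le_refl _, not_rho_le_of_length (by simp)⟩
      · rintro ⟨h1, h2, h3⟩
        obtain ⟨t, ht, rfl⟩ := exists_of_le_rho h2
        rcases sublist_snoc_iff.1 ht with ht' | ⟨t', rfl, ht'⟩
        · obtain ⟨j, hj, rfl⟩ := sublist_replicate ht'
          left
          have : j = k + 2 := by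
            by_contra hne
            apply h3
            apply rho_le_of_sublist
            refine List.Sublist.trans ?_ (List.sublist_append_left _ _)
            rw [List.sublist_replicate_iff]
            exact ⟨j, by omega, rfl⟩
          rw [this]
        · obtain ⟨j, hj, rfl⟩ := sublist_replicate ht'
          right
          have : j = k + 2 := by
            by_contra hne
            apply h3
            apply rho_le_of_sublist
            refine List.Sublist.append ?_ (List.Sublist.refl _)
            rw [List.sublist_replicate_iff]
            exact ⟨j, by omega, rfl⟩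
          rw [this])
  rw [Finset.sum_pair hne, ind_false (P := rho (List.replicate (k + 2) a ++ [b]) = one)
    (by rw [rho_eq_one]; simp), ind_false (P := rho (List.replicate (k + 1) a ++ [b]) = one)
    (by rw [rho_eq_one]; simp), f_replicate ha] at h
  linarith

/-- the word `u d u^(k+2)` -/
theorem f_udu (k : ℕ) : f (rho (Lt.u :: Lt.d :: List.replicate (k + 2) Lt.u)) = 0 := by
  have hne : rho (List.replicate (k + 3) Lt.u) ≠
      rho (Lt.u :: Lt.d :: List.replicate (k + 2) Lt.u) := by
    intro h
    have := congrArg Pat.n h
    simp at this
  have hdu : ∀ j, sig (Lt.d :: List.replicate j Lt.u) = sig (List.replicate (j + 1) Lt.u) := by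
    intro j
    rw [List.replicate_succ]
    simp only [sig, List.map_replicate]
    rfl
  have h := new_sum (π' := rho (Lt.u :: Lt.d :: List.replicate (k + 1) Lt.u))
    (π := rho (Lt.u :: Lt.d :: List.replicate (k + 2) Lt.u))
    (rho_le_of_sublist (List.Sublist.cons_cons _ (List.Sublist.cons_cons _ (by
      rw [List.sublist_replicate_iff]
      exact ⟨k + 1, by omega, rfl⟩))))
    {rho (List.replicate (k + 3) Lt.u), rho (Lt.u :: Lt.d :: List.replicate (k + 2) Lt.u)} (by
      intro τ
      rw [Finset.mem_insert, Finset.mem_singleton]
      constructor
      · rintro (rfl | rfl)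
        · refine ⟨one_le_rho.2 (by simp), ?_, ?_⟩
          · apply rho_le_of_sublist
            rw [List.replicate_succ]
            exact List.Sublist.cons_cons _ (List.sublist_cons_self _ _)
          · rw [rho_le_iff]
            rintro ⟨t, ht, hs⟩
            have h1 := length_eq_of_sig hs
            have h2 : t = Lt.u :: Lt.d :: List.replicate (k + 1) Lt.u :=
              ht.eq_of_length (by rw [h1]; simp)
            rw [h2, sig_eq_iff] at hs
            have h3 := hs.2 0 1 (by omega) (by simp) (by simp) (by simp) (by simp)
            simp only [List.getElem_cons_zero, List.getElem_cons_succ,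
              List.getElem_replicate] at h3
            revert h3
            decide
        · refine ⟨one_le_rho.2 (by simp), le_refl _, not_rho_le_of_length (by simp)⟩
      · rintro ⟨h1, h2, h3⟩
        obtain ⟨t, ht, rfl⟩ := exists_of_le_rho h2
        have hj' : ∀ j, j ≤ k + 2 → ¬ (j ≤ k + 1) → j = k + 2 := fun j _ _ => by omega
        rcases List.sublist_cons_iff.1 ht with ht1 | ⟨t', rfl, ht1⟩
        · rcases List.sublist_cons_iff.1 ht1 with ht | ⟨t', rfl, ht2⟩
          · obtain ⟨j, hj, rfl⟩ := sublist_replicate ht
            exfalso
            apply h3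
            apply rho_le_of_sublist
            have h4 : List.Sublist (List.replicate j Lt.u) (List.replicate (k + 2) Lt.u) := by
              rw [List.sublist_replicate_iff]; exact ⟨j, hj, rfl⟩
            refine h4.trans ?_
            rw [List.replicate_succ]
            exact List.Sublist.cons_cons _ (List.sublist_cons_self _ _)
          · obtain ⟨j, hj, rfl⟩ := sublist_replicate ht2
            left
            have : j = k + 2 := by
              by_contra hne
              apply h3
              apply rho_le_of_sublist
              refine List.Sublist.cons _ (List.Sublist.cons_cons _ ?_)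
              rw [List.sublist_replicate_iff]
              exact ⟨j, by omega, rfl⟩
            rw [this, rho_eq_of_sig (hdu _)]
        · rcases List.sublist_cons_iff.1 ht1 with ht2 | ⟨t', rfl, ht2⟩
          · obtain ⟨j, hj, rfl⟩ := sublist_replicate ht2
            left
            have : j = k + 2 := by
              by_contra hne
              apply h3
              apply rho_le_of_sublist
              refine List.Sublist.cons_cons _ (List.Sublist.cons _ ?_)
              rw [List.sublist_replicate_iff]
              exact ⟨j, by omega, rfl⟩
            rw [this]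
            rfl
          · obtain ⟨j, hj, rfl⟩ := sublist_replicate ht2
            right
            have : j = k + 2 := by
              by_contra hne
              apply h3
              apply rho_le_of_sublist
              refine List.Sublist.cons_cons _ (List.Sublist.cons_cons _ ?_)
              rw [List.sublist_replicate_iff]
              exact ⟨j, by omega, rfl⟩
            rw [this])
  rw [Finset.sum_pair hne, ind_false (P := rho _ = one)
    (by rw [rho_eq_one]; simp), ind_false (P := rho _ = one)
    (by rw [rho_eq_one]; simp), f_replicate (Or.inl rfl) (k + 1), ind_false (by omega)] at h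
  linarith

end Pool.Agent.Work.MP_080fe7_co.ParW
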