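import Pool.Agent.Work.MP_080fe7_co.Defs

/-!
# Permutations drawn on a column of monotone cells, encoded by words

A word over the alphabet `{u, q, d, p}` is read from left to right; the letter tells in which
horizontal strip the point lies (`u` on top, then `q`, `d`, `p`), and the points of a strip are
increasing, except for the strip `d`, where they are decreasing.
-/

set_option linter.unusedSectionVars false
set_option linter.unusedVariables false

open Finset

namespace Pool.Agent.Work.MP_080fe7_co.ParW

/-- the letters -/
inductive Lt | u | q | d | p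
deriving DecidableEq

namespace Lt

/-- the level of a letter -/
def lev : Lt → ℤ
  | u => 1
  | q => 0
  | d => -1
  | p => -2

/-- the slope of the strip of a letter -/
def slp : Lt → ℤ
  | d => -1
  | _ => 1

theorem lev_inj : Function.Injective lev := by
  intro a b h
  cases a <;> cases b <;> simp [lev] at h ⊢

theorem slp_cases (a : Lt) : slp a = 1 ∨ slp a = -1 := by
  cases a <;> simp [slp]

end Lt

/-- for a letter `a` placed to the left of a letter `b`: is `a` lower than `b`? -/
def up (a b : Lt) : Bool := decide (a.lev < b.lev) || (decide (a = b) && decide (a ≠ Lt.d))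

/-- the heights of the points of a word -/
def wY (v : List Lt) (i : Fin v.length) : ℤ ×ₗ ℤ :=
  toLex ((v.get i).lev, (v.get i).slp * (i : ℤ))

theorem wY_inj (v : List Lt) : Function.Injective (wY v) := by
  intro i j h
  simp only [wY, EmbeddingLike.apply_eq_iff_eq, Prod.mk.injEq] at h
  obtain ⟨h1, h2⟩ := h
  have h3 := Lt.lev_inj h1
  rw [h3] at h2
  rcases Lt.slp_cases (v.get j) with h4 | h4 <;> rw [h4] at h2 <;> apply Fin.ext <;> omega

theorem wY_lt (v : List Lt) (i j : Fin v.length) (hij : i < j) :
    wY v i < wY v j ↔ up (v.get i) (v.get j) = true := by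
  have hij' : (i : ℤ) < (j : ℤ) := by exact_mod_cast hij
  simp only [wY, Prod.Lex.toLex_lt_toLex, up, Bool.or_eq_true, decide_eq_true_eq,
    Bool.and_eq_true]
  generalize v.get i = a
  generalize v.get j = b
  cases a <;> cases b <;> simp [Lt.lev, Lt.slp] <;> omega

theorem wY_gt (v : List Lt) (i j : Fin v.length) (hij : i < j) :
    wY v j < wY v i ↔ up (v.get i) (v.get j) = false := by
  have h1 := wY_lt v i j hij
  have h2 : wY v i ≠ wY v j := fun h => (ne_of_lt hij) (wY_inj v h)
  rcases lt_or_gt_of_ne h2 with h | h
  · have h3 := h1.1 h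
    rw [h3]
    simp [lt_asymm h]
  · have h3 : ¬ (wY v i < wY v j) := lt_asymm h
    rw [h1, Bool.not_eq_true] at h3
    exact ⟨fun _ => h3, fun _ => h⟩

/-- the permutation encoded by a word -/
noncomputable def rho (v : List Lt) : Pat :=
  pat (fun i : Fin v.length => i) (wY v) univ

theorem rho_isPat (v : List Lt) :
    IsPat (rho v) (fun i : Fin v.length => i) (wY v) (univ : Finset (Fin v.length)) :=
  pat_isPat (fun _ _ _ _ h => h) (wY_inj v).injOn

@[simp] theorem rho_n (v : List Lt) : (rho v).n = v.length := by
  unfold rho
  rw [pat_n (fun _ _ _ _ h => h) (wY_inj v).injOn]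
  simp

variable {κ α' β' : Type*} [LinearOrder α'] [LinearOrder β']

/-- recognising the pattern of a word inside a configuration -/
theorem has_rho (v : List Lt) {x : κ → α'} {y : κ → β'} {s : Set κ} (g : ℕ → κ)
    (hs : ∀ i, i < v.length → g i ∈ s)
    (h : ∀ i j : ℕ, i < j → ∀ (hi : i < v.length) (hj : j < v.length),
      x (g i) < x (g j) ∧ (up v[i] v[j] = true → y (g i) < y (g j)) ∧
      (up v[i] v[j] = false → y (g j) < y (g i))) :
    Has (rho v) x y s := by
  have h0 := (rho_isPat v).has
  refine h0.map (fun i => g i) (fun i _ => hs i i.2) ?_ ?_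
  · intro i _ j _ hij
    exact (h i j hij i.2 j.2).1
  · intro i _ j _ hij
    rcases lt_trichotomy i j with h1 | h1 | h1
    · exact (h i j h1 i.2 j.2).2.1 ((wY_lt v i j h1).1 hij)
    · subst h1; exact absurd hij (lt_irrefl _)
    · exact (h j i h1 j.2 i.2).2.2 ((wY_gt v j i h1).1 hij)

/-- the complete invariant of the permutation of a word: the table of the comparisons -/
def sig : List Lt → List (List Bool)
  | [] => []
  | a :: v => v.map (up a) :: sig v

@[simp] theorem sig_length (v : List Lt) : (sig v).length = v.length := by
  induction v with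
  | nil => rfl
  | cons a v ih => simp [sig, ih]

theorem length_eq_of_sig {v z : List Lt} (h : sig v = sig z) : v.length = z.length := by
  rw [← sig_length v, h, sig_length]

theorem sig_eq_iff (v z : List Lt) : sig v = sig z ↔ v.length = z.length ∧
    ∀ i j : ℕ, i < j → ∀ (hi : i < v.length) (hj : j < v.length) (hi' : i < z.length)
      (hj' : j < z.length), up v[i] v[j] = up z[i] z[j] := by
  induction v generalizing z with
  | nil =>
    constructor
    · intro h
      have h1 := length_eq_of_sig h
      exact ⟨h1, fun i j _ hi => absurd hi (by simp)⟩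
    · rintro ⟨h, -⟩
      have : z = [] := by
        rw [← List.length_eq_zero_iff]; simpa using h.symm
      rw [this]
  | cons a v ih =>
    cases z with
    | nil =>
      constructor
      · intro h
        exact absurd (length_eq_of_sig h) (by simp)
      · rintro ⟨h, -⟩
        exact absurd h (by simp)
    | cons c z =>
      simp only [sig, List.cons.injEq, ih z]
      constructor
      · rintro ⟨h1, h2, h3⟩
        refine ⟨by simp [h2], ?_⟩
        intro i j hij hi hj hi' hj'
        cases j with
        | zero => omega
        | succ j =>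
          cases i with
          | zero =>
            simp only [List.getElem_cons_zero, List.getElem_cons_succ]
            have hj1 : j < v.length := by simpa using hj
            have hj2 : j < z.length := by simpa using hj'
            have h4 : (v.map (up a))[j]? = (z.map (up c))[j]? := by rw [h1]
            simpa [hj1, hj2] using h4
          | succ i =>
            simp only [List.getElem_cons_succ]
            exact h3 i j (by omega) _ _ _ _
      · rintro ⟨h1, h2⟩
        have h1' : v.length = z.length := by simpa using h1
        refine ⟨?_, h1', ?_⟩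
        · apply List.ext_getElem
          · simp [h1']
          · intro j hj hj'
            have hj1 : j < v.length := by simpa using hj
            have hj2 : j < z.length := by simpa using hj'
            have := h2 0 (j + 1) (by omega) (by simp) (by simp [hj1]) (by simp) (by simp [hj2])
            simpa using this
        · intro i j hij hi hj hi' hj'
          have := h2 (i + 1) (j + 1) (by omega) (by simp [hi]) (by simp [hj]) (by simp [hi'])
            (by simp [hj'])
          simpa using this

theorem rho_le_of_sublist {v z : List Lt} (h : List.Sublist v z) : rho v ≤ rho z := by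
  obtain ⟨e, he⟩ := List.sublist_iff_exists_fin_orderEmbedding_get_eq.1 h
  rw [(rho_isPat z).le_iff]
  refine (rho_isPat v).has.map e (fun _ _ => by simp) (fun i _ j _ hij => e.strictMono hij) ?_
  intro i _ j _ hij
  rcases lt_trichotomy i j with h1 | h1 | h1
  · rw [wY_lt _ _ _ (e.strictMono h1), ← he, ← he, ← wY_lt _ _ _ h1]
    exact hij
  · subst h1; exact absurd hij (lt_irrefl _)
  · rw [wY_gt _ _ _ (e.strictMono h1), ← he, ← he, ← wY_gt _ _ _ h1]
    exact hij

theorem rho_le_of_sig {v z : List Lt} (h : sig v = sig z) : rho v ≤ rho z := by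
  rw [sig_eq_iff] at h
  obtain ⟨hl, h⟩ := h
  rw [(rho_isPat z).le_iff]
  refine (rho_isPat v).has.map (Fin.cast hl) (fun _ _ => by simp)
    (fun i _ j _ hij => by simpa using hij) ?_
  intro i _ j _ hij
  rcases lt_trichotomy i j with h1 | h1 | h1
  · rw [wY_lt _ _ _ (by simpa using h1)]
    have h2 := (wY_lt _ _ _ h1).1 hij
    have h3 := h i j h1 i.2 j.2 (by rw [← hl]; exact i.2) (by rw [← hl]; exact j.2)
    simp only [List.get_eq_getElem] at h2 ⊢
    rw [← h2, h3]
    rfl
  · subst h1; exact absurd hij (lt_irrefl _)
  · rw [wY_gt _ _ _ (by simpa using h1)]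
    have h2 := (wY_gt _ _ _ h1).1 hij
    have h3 := h j i h1 j.2 i.2 (by rw [← hl]; exact j.2) (by rw [← hl]; exact i.2)
    simp only [List.get_eq_getElem] at h2 ⊢
    rw [← h2, h3]
    rfl

theorem rho_eq_of_sig {v z : List Lt} (h : sig v = sig z) : rho v = rho z :=
  le_antisymm (rho_le_of_sig h) (rho_le_of_sig h.symm)

/-- `rho v` is contained in `rho z` if and only if some subword of `z` has the same table -/
theorem rho_le_iff {v z : List Lt} : rho v ≤ rho z ↔ ∃ t, List.Sublist t z ∧ sig t = sig v := by
  constructor
  · intro h
    by_cases hz : Nonempty (Fin z.length)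
    · rw [(rho_isPat z).le_iff, (rho_isPat v).has_iff] at h
      obtain ⟨g, -, h1, h2⟩ := h
      have h1' : ∀ i j, i < j → g i < g j := fun i j hij => h1 i (by simp) j (by simp) hij
      refine ⟨List.ofFn (fun i : Fin v.length => z.get (g i)), ?_, ?_⟩
      · rw [List.sublist_iff_exists_fin_orderEmbedding_get_eq]
        refine ⟨OrderEmbedding.ofStrictMono (fun i => g (Fin.cast (by simp) i)) ?_, ?_⟩
        · intro i j hij
          exact h1' _ _ (by simpa using hij)
        · intro i
          simp
          rfl
      · rw [sig_eq_iff]
        refine ⟨by simp, ?_⟩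
        intro i j hij hi hj hi' hj'
        simp only [List.getElem_ofFn]
        have h3 : (⟨i, hi'⟩ : Fin v.length) < ⟨j, hj'⟩ := hij
        have h4 := h1' _ _ h3
        cases hu : up v[i] v[j] with
        | true =>
          have h5 := (wY_lt v _ _ h3).2 hu
          exact (wY_lt z _ _ h4).1 (h2 _ (by simp) _ (by simp) h5)
        | false =>
          have h5 := (wY_gt v _ _ h3).2 hu
          exact (wY_gt z _ _ h4).1 (h2 _ (by simp) _ (by simp) h5)
    · have h1 := Pat.n_le h
      rw [rho_n, rho_n] at h1
      have h2 : z.length = 0 := by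
        by_contra hn
        exact hz ⟨⟨0, by omega⟩⟩
      have h3 : v = [] := by
        rw [← List.length_eq_zero_iff]; omega
      exact ⟨[], List.nil_sublist _, by rw [h3]⟩
  · rintro ⟨t, h1, h2⟩
    exact (rho_le_of_sig h2.symm).trans (rho_le_of_sublist h1)

theorem rho_eq_iff {v z : List Lt} : rho v = rho z ↔ sig v = sig z := by
  constructor
  · intro h
    obtain ⟨t, h1, h2⟩ := rho_le_iff.1 (le_of_eq h)
    have h3 := length_eq_of_sig h2
    have h4 : v.length = z.length := by rw [← rho_n, h, rho_n]
    have h5 : t = z := h1.eq_of_length (by omega)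
    rw [← h2, h5]
  · exact rho_eq_of_sig

/-- every pattern contained in `rho z` is the pattern of a subword -/
theorem exists_of_le_rho {τ : Pat} {z : List Lt} (h : τ ≤ rho z) :
    ∃ t, List.Sublist t z ∧ τ = rho t := by
  rw [(rho_isPat z).le_iff] at h
  obtain ⟨g, -, h1, h2⟩ := h
  have hsub : List.Sublist (List.ofFn (fun i : Fin τ.n => z.get (g i))) z := by
    rw [List.sublist_iff_exists_fin_orderEmbedding_get_eq]
    refine ⟨OrderEmbedding.ofStrictMono (fun i => g (Fin.cast (by simp) i)) ?_, ?_⟩
    · intro i j hij
      exact h1 _ _ (by simpa using hij)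
    · intro i
      simp
      rfl
  refine ⟨_, hsub, ?_⟩
  refine Pat.eq_of_le_of_n ?_ (by simp)
  rw [(rho_isPat _).le_iff]
  refine ⟨fun i => Fin.cast (by simp) i, fun _ => by simp, fun i j hij => by simpa using hij, ?_⟩
  intro i j hij
  have h3 := h2 i j hij
  rcases lt_trichotomy i j with h4 | h4 | h4
  · rw [wY_lt _ _ _ (by simpa using h4)]
    have h5 := (wY_lt z _ _ (h1 _ _ h4)).1 h3
    simpa using h5
  · subst h4; exact absurd hij (lt_irrefl _)
  · rw [wY_gt _ _ _ (by simpa using h4)]
    have h5 := (wY_gt z _ _ (h1 _ _ h4)).1 h3
    simpa using h5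

end Pool.Agent.Work.MP_080fe7_co.ParW
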