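import Pool.Agent.Work.MP_080fe7_co.Check

/-!
# Layers read off from pin sequences
-/

set_option linter.unusedSectionVars false
set_option linter.unusedVariables false

open Finset

namespace Pool.Agent.Work.MP_080fe7_co

/-- the sign of a boolean -/
def sg (b : Bool) : ℤ := if b then 1 else -1

/-- whether the `k`-th point of the layer is a horizontal pin; `a` says so for `k = 0` -/
def hor (a : Bool) (k : ℕ) : Bool := if k % 2 = 0 then a else !a

/-- The layer formed by `m` consecutive pins placed after a removed pin. The removed pin has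
direction bit `b 0`, the pins of the layer have direction bits `b 1, …, b m`. -/
def pinLayer (m : ℕ) (a : Bool) (b : Fin (m + 1) → Bool) : Layer m where
  x k := if hor a k then sg (b k.succ) * (2 * (k + 2)) else sg (b k.castSucc) * (2 * k + 1)
  y k := if hor a k then sg (b k.castSucc) * (2 * k + 1) else sg (b k.succ) * (2 * (k + 2))
  hx := by
    intro i j h
    simp only [sg] at h
    apply Fin.ext
    split_ifs at h <;> omega
  hy := by
    intro i j h
    simp only [sg] at h
    apply Fin.ext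
    split_ifs at h <;> omega
  hx0 := by
    intro i
    simp only [sg]
    split_ifs <;> omega
  hy0 := by
    intro i
    simp only [sg]
    split_ifs <;> omega

theorem pinLayer4_alt : ∀ a b₀ b₁ b₂ b₃ b₄ : Bool,
    xor (xor (xor b₀ b₂) (xor b₁ b₃)) (xor b₂ b₄) = true →
    (pinLayer 4 a ![b₀, b₁, b₂, b₃, b₄]).altB = true := by
  decide +kernel

theorem pinLayer4_irr : ∀ a b₀ b₁ b₂ b₃ b₄ : Bool,
    xor (xor (xor b₀ b₂) (xor b₁ b₃)) (xor b₂ b₄) = true →
    (pinLayer 4 a ![b₀, b₁, b₂, b₃, b₄]).IrrCheck := by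
  decide +kernel

theorem pinLayer4_type : ∀ a b₀ b₁ b₂ b₃ b₄ : Bool,
    xor (xor (xor b₀ b₂) (xor b₁ b₃)) (xor b₂ b₄) = true →
    (pinLayer 4 a ![b₀, b₁, b₂, b₃, b₄]).Extreme ∨
      (pinLayer 4 a ![b₀, b₁, b₂, b₃, b₄]).QuadCheck := by
  decide +kernel

theorem pinLayer6_alt : ∀ a b₀ b₁ : Bool,
    (pinLayer 6 a ![b₀, b₁, !b₀, b₁, b₀, !b₁, b₀]).altB = true := by
  decide +kernel

theorem pinLayer6_irr : ∀ a b₀ b₁ : Bool,
    (pinLayer 6 a ![b₀, b₁, !b₀, b₁, b₀, !b₁, b₀]).IrrCheck := by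
  decide +kernel

theorem pinLayer6_type : ∀ a b₀ b₁ : Bool,
    (pinLayer 6 a ![b₀, b₁, !b₀, b₁, b₀, !b₁, b₀]).QuadCheck := by
  decide +kernel

theorem pinLayer4_good (a : Bool) (b : Fin 5 → Bool)
    (h : xor (xor (xor (b 0) (b 2)) (xor (b 1) (b 3))) (xor (b 2) (b 4)) = true) :
    (pinLayer 4 a b).Good := by
  have hb : b = ![b 0, b 1, b 2, b 3, b 4] := by
    funext i
    fin_cases i <;> rfl
  rw [hb]
  rcases pinLayer4_type a _ _ _ _ _ h with h1 | h1
  · exact Layer.good_of_extreme h1 (Layer.altCheck_of_altB (pinLayer4_alt a _ _ _ _ _ h))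
      (pinLayer4_irr a _ _ _ _ _ h)
  · exact Layer.good_of_quad h1 (Layer.altCheck_of_altB (pinLayer4_alt a _ _ _ _ _ h))
      (pinLayer4_irr a _ _ _ _ _ h)

theorem pinLayer6_good (a : Bool) (b : Fin 7 → Bool) (h2 : b 2 = !(b 0)) (h3 : b 3 = b 1)
    (h4 : b 4 = b 0) (h5 : b 5 = !(b 1)) (h6 : b 6 = b 0) :
    (pinLayer 6 a b).Good := by
  have hb : b = ![b 0, b 1, !(b 0), b 1, b 0, !(b 1), b 0] := by
    funext i
    fin_cases i
    · rfl
    · rfl
    · exact h2
    · exact h3
    · exact h4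
    · exact h5
    · exact h6
  rw [hb]
  exact Layer.good_of_quad (pinLayer6_type a _ _)
    (Layer.altCheck_of_altB (pinLayer6_alt a _ _)) (pinLayer6_irr a _ _)

end Pool.Agent.Work.MP_080fe7_co
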