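import Pool.Agent.Work.MP_080fe7_co.PinNest

/-!
# Long pin sequences force a large Möbius function
-/

set_option linter.unusedSectionVars false
set_option linter.unusedVariables false

open Finset

namespace Pool.Agent.Work.MP_080fe7_co

/-- iterated inflation -/
noncomputable def nestPat {μ : ℕ} (L : Layer μ) (α : Pat) : ℕ → Pat
  | 0 => α
  | k + 1 => L.infl univ (nestPat L α k)

theorem nestPat_n {μ : ℕ} (L : Layer μ) (α : Pat) (k : ℕ) : (nestPat L α k).n = α.n + k * μ := by
  induction k with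
  | zero => simp [nestPat]
  | succ k ih =>
    simp only [nestPat, Layer.infl_n, ih, Finset.card_univ, Fintype.card_fin]
    ring

theorem f_nest {μ : ℕ} [NeZero μ] {L : Layer μ} (hL : L.Good) (hμ : Even μ) (α : Pat)
    (hα : 2 * μ + 1 ≤ α.n) (hf : f α ≠ 0) (k : ℕ) : 2 ^ k ≤ |f (nestPat L α (k + 1))| := by
  classical
  induction k with
  | zero =>
    simp only [nestPat]
    rw [Layer.nest hL α hα, hμ.neg_one_pow, abs_mul]
    have h1 : 1 ≤ |f α| := Int.one_le_abs hf
    split_ifs
    · norm_num; linarith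
    · norm_num; linarith
  | succ k ih =>
    have h1 : nestPat L α (k + 1 + 1) = L.infl univ (nestPat L α (k + 1)) := rfl
    have h2 : ∃ β, nestPat L α (k + 1) = L.infl univ β := ⟨nestPat L α k, rfl⟩
    rw [h1, Layer.nest hL _ (by rw [nestPat_n]; nlinarith), if_pos h2, hμ.neg_one_pow, abs_mul]
    norm_num
    rw [pow_succ]
    linarith

/-- the quadrants of two corner layers are adjacent -/
def AdjC (c c' : Layer 1) : Prop :=
  ((c.x 0 < 0 ↔ c'.x 0 < 0) ∧ (c.y 0 < 0 ↔ 0 < c'.y 0)) ∨
  ((c.y 0 < 0 ↔ c'.y 0 < 0) ∧ (c.x 0 < 0 ↔ 0 < c'.x 0))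

theorem AdjC.symm {c c' : Layer 1} (h : AdjC c c') : AdjC c' c := by
  have h1 := c.hx0 0
  have h2 := c'.hx0 0
  have h3 := c.hy0 0
  have h4 := c'.hy0 0
  unfold AdjC at h ⊢
  omega

theorem adj_ne {c c' : Layer 1} (h : AdjC c c') {γ β : Pat} (hβ : one ≤ β)
    (he : c.infl univ γ = c'.infl univ β) : False := by
  obtain ⟨τ, hτ⟩ : ∃ τ, τ = c.infl univ γ := ⟨_, rfl⟩
  obtain ⟨K, ⟨φ, w⟩, hK, -⟩ := Layer.exists_J_of_eq_infl hτ
  obtain ⟨K', ⟨φ', w'⟩, hK', hs'⟩ := Layer.exists_J_of_eq_infl (hτ.trans he)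
  have hc := Finset.card_add_card_compl K
  have hc' := Finset.card_add_card_compl K'
  rw [Fintype.card_fin] at hc hc'
  have hn : 1 ≤ K'.card := by
    have := congrArg Pat.n hs'
    rw [sub_n] at this
    have h1 := one_le_iff.1 hβ
    omega
  obtain ⟨u, hu⟩ := Finset.card_eq_one.1 hK
  obtain ⟨u', hu'⟩ := Finset.card_eq_one.1 hK'
  have huK : u ∉ K := by
    have : u ∈ Kᶜ := by rw [hu]; simp
    simpa using this
  have huK' : u' ∉ K' := by
    have : u' ∈ K'ᶜ := by rw [hu']; simp
    simpa using this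
  have hmem : ∀ v, v ≠ u → v ∈ K := by
    intro v hv
    by_contra h1
    have : v ∈ Kᶜ := by simpa using h1
    rw [hu] at this
    exact hv (by simpa using this)
  have hmem' : ∀ v, v ≠ u' → v ∈ K' := by
    intro v hv
    by_contra h1
    have : v ∈ K'ᶜ := by simpa using h1
    rw [hu'] at this
    exact hv (by simpa using this)
  have hφ : φ u = 0 := Subsingleton.elim _ _
  have hφ' : φ' u' = 0 := Subsingleton.elim _ _
  by_cases huu : u = u'
  · subst huu
    obtain ⟨k, hk⟩ := Finset.card_pos.1 hn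
    have hku : k ≠ u := by rintro rfl; exact huK' hk
    have hkK := hmem k hku
    have a1 := w.x_neg_iff huK hkK
    have a2 := w'.x_pos_iff huK' hk
    have a3 := w.y_neg_iff huK hkK
    have a4 := w'.y_pos_iff huK' hk
    rw [hφ] at a1 a3
    rw [hφ'] at a2 a4
    rcases h with ⟨_, h2⟩ | ⟨_, h2⟩
    · rw [a3, a4] at h2
      rcases lt_trichotomy (τ.p u) (τ.p k) with h3 | h3 | h3
      · exact lt_asymm h3 (h2.1 h3)
      · exact hku (τ.p.injective h3).symm
      · exact lt_asymm h3 (h2.2 h3)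
    · rw [a1, a2] at h2
      rcases lt_trichotomy u k with h3 | h3 | h3
      · exact lt_asymm h3 (h2.1 h3)
      · exact hku h3.symm
      · exact lt_asymm h3 (h2.2 h3)
  · have h1 := hmem u' (fun h => huu h.symm)
    have h2 := hmem' u huu
    have a1 := w.x_neg_iff huK h1
    have a2 := w'.x_neg_iff huK' h2
    have a3 := w.y_neg_iff huK h1
    have a4 := w'.y_neg_iff huK' h2
    rw [hφ] at a1 a3
    rw [hφ'] at a2 a4
    rcases h with ⟨h3, _⟩ | ⟨h3, _⟩
    · rw [a1, a2] at h3
      rcases lt_trichotomy u u' with h4 | h4 | h4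
      · exact lt_asymm h4 (h3.1 h4)
      · exact huu h4
      · exact lt_asymm h4 (h3.2 h4)
    · rw [a3, a4] at h3
      rcases lt_trichotomy (τ.p u) (τ.p u') with h4 | h4 | h4
      · exact lt_asymm h4 (h3.1 h4)
      · exact huu (τ.p.injective h4)
      · exact lt_asymm h4 (h3.2 h4)

/-- the core: alternating corners -/
noncomputable def coreAlt (c c' : Layer 1) : ℕ → Pat
  | 0 => one
  | k + 1 => (if k % 2 = 0 then c else c').infl univ (coreAlt c c' k)

theorem coreAlt_n (c c' : Layer 1) (k : ℕ) : (coreAlt c c' k).n = k + 1 := by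
  induction k with
  | zero => rfl
  | succ k ih =>
    simp only [coreAlt, Layer.infl_n, ih, Finset.card_univ, Fintype.card_fin]
    ring

theorem f_coreAlt {c c' : Layer 1} (h : AdjC c c') (k : ℕ) : f (coreAlt c c' k) = (-1) ^ k := by
  classical
  induction k with
  | zero => simp [coreAlt, f_one]
  | succ k ih =>
    have hone : one ≤ coreAlt c c' k := one_le_iff.2 (by rw [coreAlt_n]; omega)
    have hno : ¬ ∃ β, one ≤ β ∧ coreAlt c c' k = (if k % 2 = 0 then c else c').infl univ β := by
      rintro ⟨β, hβ, he⟩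
      cases k with
      | zero =>
        have := congrArg Pat.n he
        rw [coreAlt_n, Layer.infl_n, Finset.card_univ, Fintype.card_fin] at this
        have h1 := one_le_iff.1 hβ
        omega
      | succ k =>
        simp only [coreAlt] at he
        rcases Nat.mod_two_eq_zero_or_one k with h2 | h2
        · have h3 : (k + 1) % 2 ≠ 0 := by omega
          rw [if_pos h2, if_neg h3] at he
          exact adj_ne h hβ he
        · have h3 : (k + 1) % 2 = 0 := by omega
          have h4 : k % 2 ≠ 0 := by omega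
          rw [if_neg h4, if_pos h3] at he
          exact adj_ne h.symm hβ he
    simp only [coreAlt]
    rw [Layer.corner _ hone, if_neg hno, ih, pow_succ]
    ring

/-- two consecutive corner layers at a `D` step are adjacent -/
theorem adj_pin (a : Bool) (b₀ b₁ b₂ : Bool) (h : b₀ ≠ b₂) :
    AdjC (pinLayer 1 a ![b₀, b₁]) (pinLayer 1 (!a) ![b₁, b₂]) := by
  revert h
  unfold AdjC
  revert a b₀ b₁ b₂
  decide

theorem nest_of_windows {P : Type*} {x y : P → ℤ} {q : ℕ → P} {h b : ℕ → Bool} {m : ℕ}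
    (hs : PinSeq x y q h b m) (μ : ℕ) [NeZero μ] (hμ : Even μ) (a : Bool) (bb : ℕ → Bool)
    (hgood : (pinLayer μ a (fun t => bb t)).Good) (κ : ℕ) (hκ : κ + 2 ≤ μ)
    (hne : bb κ ≠ bb (κ + 2)) (w : ℕ → ℕ) (N : ℕ)
    (hw0 : 1 ≤ w 0)
    (hw : ∀ t, t + 1 < 2 * μ + N + 1 → w t + μ + 1 ≤ w (t + 1))
    (hwm : ∀ t, t < 2 * μ + N + 1 → w t + μ < m)
    (hh : ∀ t, t < 2 * μ + N + 1 → h (w t + 1) = a)
    (hb : ∀ t, t < 2 * μ + N + 1 → ∀ s, s ≤ μ → b (w t + s) = bb s) :
    ∃ σ : Pat, one ≤ σ ∧ Has σ x y Set.univ ∧ 2 ^ N ≤ |f σ| := by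
  -- the corner layers
  obtain ⟨c, hc⟩ : ∃ c, c = pinLayer 1 (hor a κ) ![bb κ, bb (κ + 1)] := ⟨_, rfl⟩
  obtain ⟨c', hc'⟩ : ∃ c', c' = pinLayer 1 (!(hor a κ)) ![bb (κ + 1), bb (κ + 2)] := ⟨_, rfl⟩
  have hadj : AdjC c c' := by
    rw [hc, hc']
    exact adj_pin _ _ _ _ hne
  have hhor1 : hor a (κ + 1) = !(hor a κ) := by
    unfold hor
    rcases Nat.mod_two_eq_zero_or_one κ with h2 | h2
    · have h3 : (κ + 1) % 2 = 1 := by omega
      simp [h2, h3]
    · have h3 : (κ + 1) % 2 = 0 := by omega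
      simp [h2, h3]
  have hcore : ∀ t, t < 2 * μ + N + 1 → Has (coreAlt c c' t) x y (Blk q (w t)) := by
    intro t
    induction t with
    | zero =>
      intro _
      refine ⟨fun _ => q 0, fun _ => ⟨0, by omega, rfl⟩, ?_, ?_⟩
      · intro i j hij
        have : i = j := Subsingleton.elim (α := Fin 1) i j
        exact absurd hij (by rw [this]; exact lt_irrefl _)
      · intro i j hij
        have : i = j := Subsingleton.elim (α := Fin 1) i j
        exact absurd hij (by rw [this]; exact lt_irrefl _)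
    | succ t ih =>
      intro ht
      have h1 := ih (by omega)
      have h2 := hw t ht
      have h3 := hwm t (by omega)
      have h4 := hb t (by omega)
      have h5 := hh t (by omega)
      simp only [coreAlt]
      rcases Nat.mod_two_eq_zero_or_one t with h6 | h6
      · rw [if_pos h6]
        have h7 := hs.step (w t + κ) 1 (by omega) (by omega) _ (h1.mono (Blk.mono (by omega)))
        have e1 : h (w t + κ + 1) = hor a κ := by
          have := hs.hor_eq (w t + 1) κ (by omega)
          rw [h5] at this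
          rw [← this]; congr 1; ring
        have e2 : (fun s : Fin (1 + 1) => b (w t + κ + s)) = ![bb κ, bb (κ + 1)] := by
          funext s
          fin_cases s
          · have := h4 κ (by omega)
            simpa using this
          · have := h4 (κ + 1) (by omega)
            rw [← add_assoc] at this
            simpa using this
        rw [e1, e2, ← hc] at h7
        exact h7.mono (Blk.mono (i := w t + κ + 1 + 1) (by omega))
      · have h6' : t % 2 ≠ 0 := by omega
        rw [if_neg h6']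
        have h7 := hs.step (w t + κ + 1) 1 (by omega) (by omega) _ (h1.mono (Blk.mono (by omega)))
        have e1 : h (w t + κ + 1 + 1) = !(hor a κ) := by
          have := hs.hor_eq (w t + 1) (κ + 1) (by omega)
          rw [h5, hhor1] at this
          rw [← this]; congr 1; ring
        have e2 : (fun s : Fin (1 + 1) => b (w t + κ + 1 + s)) = ![bb (κ + 1), bb (κ + 2)] := by
          funext s
          fin_cases s
          · have := h4 (κ + 1) (by omega)
            rw [← add_assoc] at this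
            simpa using this
          · have := h4 (κ + 2) (by omega)
            have e3 : w t + κ + 1 + 1 = w t + (κ + 2) := by ring
            simpa [e3] using this
        rw [e1, e2, ← hc'] at h7
        exact h7.mono (Blk.mono (i := w t + κ + 1 + 1 + 1) (by omega))
  have hnest : ∀ s, s < N + 1 →
      Has (nestPat (pinLayer μ a (fun t => bb t)) (coreAlt c c' (2 * μ)) s) x y
        (Blk q (w (2 * μ + s))) ∧
      Has (nestPat (pinLayer μ a (fun t => bb t)) (coreAlt c c' (2 * μ)) (s + 1)) x y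
        (Blk q (w (2 * μ + s) + μ + 1)) := by
    have key : ∀ s, s < N + 1 →
      Has (nestPat (pinLayer μ a (fun t => bb t)) (coreAlt c c' (2 * μ)) s) x y
        (Blk q (w (2 * μ + s))) →
      Has (nestPat (pinLayer μ a (fun t => bb t)) (coreAlt c c' (2 * μ)) (s + 1)) x y
        (Blk q (w (2 * μ + s) + μ + 1)) := by
      intro s hsN h1
      have h3 := hwm (2 * μ + s) (by omega)
      have h4 := hb (2 * μ + s) (by omega)
      have h5 := hh (2 * μ + s) (by omega)
      have h7 := hs.step (w (2 * μ + s)) μ h3 (Nat.pos_of_ne_zero (NeZero.ne μ)) _ h1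
      rw [h5] at h7
      have e2 : (fun t : Fin (μ + 1) => b (w (2 * μ + s) + t)) =
          (fun t : Fin (μ + 1) => bb t) := by
        funext t
        exact h4 t (by omega)
      rw [e2] at h7
      exact h7
    intro s
    induction s with
    | zero =>
      intro h0
      have h1 : Has (nestPat (pinLayer μ a (fun t => bb t)) (coreAlt c c' (2 * μ)) 0) x y
        (Blk q (w (2 * μ + 0))) := hcore (2 * μ) (by omega)
      exact ⟨h1, key 0 h0 h1⟩
    | succ s ih =>
      intro hsN
      have h1 := (ih (by omega)).2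
      have h2 := hw (2 * μ + s) (by omega)
      have h3 : Has (nestPat (pinLayer μ a (fun t => bb t)) (coreAlt c c' (2 * μ)) (s + 1)) x y
        (Blk q (w (2 * μ + (s + 1)))) := h1.mono (Blk.mono h2)
      exact ⟨h3, key (s + 1) hsN h3⟩
  refine ⟨nestPat (pinLayer μ a (fun t => bb t)) (coreAlt c c' (2 * μ)) (N + 1), ?_,
    (hnest N (by omega)).2.mono (Set.subset_univ _), ?_⟩
  · rw [one_le_iff, nestPat_n, coreAlt_n]
    omega
  · refine f_nest hgood hμ _ (by rw [coreAlt_n]) ?_ N
    rw [f_coreAlt hadj]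
    exact pow_ne_zero _ (by norm_num)

/-- extraction of many spaced monochromatic good indices -/
theorem extract {κ : Type*} [Fintype κ] [DecidableEq κ] (good : ℕ → Prop) (col : ℕ → κ)
    (M B ℓ s₀ : ℕ) :
    (∃ i₀, s₀ ≤ i₀ ∧ i₀ + B ≤ s₀ + (Fintype.card κ * M) * (B + ℓ) ∧
      ∀ j, i₀ ≤ j → j < i₀ + B → ¬ good j) ∨
    (∃ (w : ℕ → ℕ) (k : κ), (∀ t, t + 1 < M → w t + ℓ < w (t + 1)) ∧
      ∀ t, t < M → s₀ ≤ w t ∧ w t < s₀ + (Fintype.card κ * M) * (B + ℓ) ∧ good (w t) ∧
        col (w t) = k) := by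
  classical
  obtain ⟨C, hC⟩ : ∃ C, C = Fintype.card κ * M := ⟨_, rfl⟩
  rw [← hC]
  by_cases H : ∃ c, c < C ∧ ∀ j, s₀ + c * (B + ℓ) ≤ j → j < s₀ + c * (B + ℓ) + B → ¬ good j
  · left
    obtain ⟨c, hc, h⟩ := H
    refine ⟨s₀ + c * (B + ℓ), by omega, ?_, h⟩
    have : (c + 1) * (B + ℓ) ≤ C * (B + ℓ) := Nat.mul_le_mul_right _ hc
    have h2 : (c + 1) * (B + ℓ) = c * (B + ℓ) + B + ℓ := by ring
    omega
  · right
    push Not at H
    choose! g hg1 hg2 hg3 using H
    obtain ⟨k, -, hk⟩ := Finset.exists_le_card_fiber_of_mul_le_card_of_maps_to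
      (s := Finset.range C) (t := (Finset.univ : Finset κ)) (f := fun c => col (g c)) (n := M)
      (fun _ _ => Finset.mem_univ _) ⟨col 0, Finset.mem_univ _⟩ (by
        rw [Finset.card_univ, Finset.card_range, hC])
    let emb := ((Finset.range C).filter (fun c => col (g c) = k)).orderEmbOfCardLe hk
    have hemb : ∀ t : Fin M, emb t < C ∧ col (g (emb t)) = k := by
      intro t
      have := Finset.orderEmbOfCardLe_mem _ hk t
      rw [Finset.mem_filter, Finset.mem_range] at this
      exact this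
    refine ⟨fun t => if ht : t < M then g (emb ⟨t, ht⟩) else 0, k, ?_, ?_⟩
    · intro t ht
      have ht' : t < M := by omega
      simp only [ht, ht', dite_true]
      have h1 : emb ⟨t, ht'⟩ < emb ⟨t + 1, ht⟩ := emb.strictMono (by simp)
      have h2 := (hemb ⟨t, ht'⟩).1
      have h3 := (hemb ⟨t + 1, ht⟩).1
      have h4 := hg2 _ h2
      have h5 := hg1 _ h3
      have h6 : (emb ⟨t, ht'⟩ + 1) * (B + ℓ) ≤ emb ⟨t + 1, ht⟩ * (B + ℓ) :=
        Nat.mul_le_mul_right _ h1
      have h7 : (emb ⟨t, ht'⟩ + 1) * (B + ℓ) = emb ⟨t, ht'⟩ * (B + ℓ) + B + ℓ := by ring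
      omega
    · intro t ht
      simp only [ht, dite_true]
      have h2 := (hemb ⟨t, ht⟩).1
      have h4 := hg2 _ h2
      have h5 := hg1 _ h2
      refine ⟨by omega, ?_, hg3 _ h2, (hemb ⟨t, ht⟩).2⟩
      have h6 : (emb ⟨t, ht⟩ + 1) * (B + ℓ) ≤ C * (B + ℓ) :=
        Nat.mul_le_mul_right _ h2
      have h7 : (emb ⟨t, ht⟩ + 1) * (B + ℓ) = emb ⟨t, ht⟩ * (B + ℓ) + B + ℓ := by ring
      omega

end Pool.Agent.Work.MP_080fe7_co
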