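import Pool.Agent.Work.MP_080fe7_co.PinLayer
import Pool.Agent.Work.MP_080fe7_co.Corner
import Pool.Agent.Work.MP_080fe7_co.Sym

/-!
# Nests inside pin sequences
-/

set_option linter.unusedSectionVars false
set_option linter.unusedVariables false

open Finset

namespace Pool.Agent.Work.MP_080fe7_co

/-- the sign bit of a direction -/
def Dir.bit : Dir → Bool
  | .R => true
  | .L => false
  | .U => true
  | .D => false

/-- `v` lies beyond `u` in the direction given by the bit -/
def slt (b : Bool) (u v : ℤ) : Prop := if b then u < v else v < u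

theorem outc_lt {P : Type*} (x y : P → ℤ) (d : Dir) (p q : P) :
    outc x y d p < outc x y d q ↔
      if d.hor then slt d.bit (x p) (x q) else slt d.bit (y p) (y q) := by
  cases d <;> simp [outc, Dir.hor, Dir.bit, slt]

/-- the explicit relations in a pin sequence -/
structure PinSeq {P : Type*} (x y : P → ℤ) (q : ℕ → P) (h b : ℕ → Bool) (m : ℕ) : Prop where
  alt : ∀ k, k + 1 < m → h (k + 1) = !h k
  ext : ∀ j k, j < k → k < m →
    if h k then slt (b k) (x (q j)) (x (q k)) else slt (b k) (y (q j)) (y (q k))
  cut : ∀ j k, j + 1 < k → k < m →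
    if h k then slt (b (k - 1)) (y (q j)) (y (q k)) else slt (b (k - 1)) (x (q j)) (x (q k))
  sep : ∀ k, k + 1 < m →
    if h (k + 1) then slt (b k) (y (q (k + 1))) (y (q k)) else
      slt (b k) (x (q (k + 1))) (x (q k))

theorem pinSeq_of_pins {P : Type*} {x y : P → ℤ} {m : ℕ} (hp : Pins x y m) :
    ∃ q h b, PinSeq x y q h b m := by
  obtain ⟨q, e, hq⟩ := hp
  have halt : ∀ k, k + 1 < m → (e (k + 1)).hor = !(e k).hor := by
    intro k hk
    have h1 := (hq (k + 1) (by omega) hk).1
    rw [Nat.add_sub_cancel] at h1
    unfold Perp at h1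
    cases h2 : (e (k + 1)).hor <;> cases h3 : (e k).hor <;> simp_all
  refine ⟨q, fun k => (e k).hor, fun k => (e k).bit, halt, ?_, ?_, ?_⟩
  · intro j k hjk hkm
    have := (hq k (by omega) hkm).2.1 j hjk
    exact (outc_lt x y _ _ _).1 this
  · intro j k hjk hkm
    have h1 := (hq k (by omega) hkm).2.2.1 j hjk
    have h2 := (outc_lt x y _ _ _).1 h1
    have h3 := halt (k - 1) (by omega)
    rw [Nat.sub_add_cancel (by omega)] at h3
    cases h4 : (e (k - 1)).hor <;> simp_all
  · intro k hkm
    have h1 := (hq (k + 1) (by omega) hkm).2.2.2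
    have h2 := (outc_lt x y _ _ _).1 h1
    rw [Nat.add_sub_cancel] at h2
    have h3 := halt k hkm
    cases h4 : (e k).hor <;> simp_all

variable {P : Type*} {x y : P → ℤ} {q : ℕ → P} {h b : ℕ → Bool} {m : ℕ}

/-- the points of the sequence with index `< i` -/
def Blk (q : ℕ → P) (i : ℕ) : Set P := {p | ∃ j, j < i ∧ q j = p}

theorem Blk.mono {i j : ℕ} (hij : i ≤ j) : Blk q i ⊆ Blk q j := by
  rintro p ⟨k, hk, rfl⟩
  exact ⟨k, by omega, rfl⟩

theorem PinSeq.hor_eq (hs : PinSeq x y q h b m) (i k : ℕ) (hk : i + k < m) :
    h (i + k) = hor (h i) k := by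
  induction k with
  | zero => simp [hor]
  | succ k ih =>
    have h1 := hs.alt (i + k) (by omega)
    rw [← add_assoc, h1, ih (by omega)]
    unfold hor
    rcases Nat.mod_two_eq_zero_or_one k with h2 | h2
    · have h3 : (k + 1) % 2 = 1 := by omega
      simp [h2, h3]
    · have h3 : (k + 1) % 2 = 0 := by omega
      simp [h2, h3]

/-- adding the layer read off from the window starting after the removed pin `q i` -/
theorem PinSeq.step (hs : PinSeq x y q h b m) (i μ : ℕ) (hi : i + μ < m) (hμ : 0 < μ) (α : Pat)
    (hα : Has α x y (Blk q i)) :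
    Has ((pinLayer μ (h (i + 1)) (fun t => b (i + t))).infl univ α) x y (Blk q (i + μ + 1)) := by
  obtain ⟨e, he1, he2, he3⟩ := hα
  have hhor : ∀ k : ℕ, k < μ → h (i + 1 + k) = hor (h (i + 1)) k := by
    intro k hk
    exact hs.hor_eq (i + 1) k (by omega)
  -- comparisons inside the layer
  have hcmpx : ∀ k k' : Fin μ, (k : ℕ) < k' →
      ((pinLayer μ (h (i + 1)) (fun t => b (i + t))).x k <
        (pinLayer μ (h (i + 1)) (fun t => b (i + t))).x k' ∧
        x (q (i + 1 + k)) < x (q (i + 1 + k'))) ∨
      ((pinLayer μ (h (i + 1)) (fun t => b (i + t))).x k' <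
        (pinLayer μ (h (i + 1)) (fun t => b (i + t))).x k ∧
        x (q (i + 1 + k')) < x (q (i + 1 + k))) := by
    intro k k' hkk
    simp only [pinLayer]
    have e1 := hhor k k.2
    have e2 := hhor k' k'.2
    have f1 := hs.ext (i + 1 + k) (i + 1 + k') (by omega) (by omega)
    rw [← e1, ← e2]
    have g1 : i + ((Fin.succ k : Fin (μ + 1)) : ℕ) = i + 1 + k := by simp; ring
    have g2 : i + ((Fin.succ k' : Fin (μ + 1)) : ℕ) = i + 1 + k' := by simp; ring
    have g3 : i + ((Fin.castSucc k' : Fin (μ + 1)) : ℕ) = i + 1 + k' - 1 := by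
      simp
    rw [g1, g2, g3]
    by_cases hk' : h (i + 1 + k') = true
    · rw [if_pos hk'] at f1
      simp only [hk', if_true]
      unfold slt at f1
      unfold sg
      cases hb : b (i + 1 + k')
      · rw [hb] at f1
        right
        simp only [Bool.false_eq_true, if_false] at f1 ⊢
        refine ⟨?_, f1⟩
        split_ifs <;> omega
      · rw [hb] at f1
        left
        simp only [if_true] at f1 ⊢
        refine ⟨?_, f1⟩
        split_ifs <;> omega
    · have hk'f : h (i + 1 + k') = false := by simpa using hk'
      simp only [hk'f, Bool.false_eq_true, if_false]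
      by_cases hadj : (k : ℕ) + 1 = k'
      · have f3 := hs.sep (i + 1 + k) (by omega)
        have g4 : i + 1 + (k : ℕ) + 1 = i + 1 + k' := by omega
        have g5 : i + 1 + (k' : ℕ) - 1 = i + 1 + k := by omega
        rw [g4] at f3
        rw [g5]
        have hkt : h (i + 1 + k) = true := by
          have := hs.alt (i + 1 + k) (by omega)
          rw [g4, hk'f] at this
          simpa using this
        simp only [hk'f, Bool.false_eq_true, if_false] at f3
        simp only [hkt, if_true]
        unfold slt at f3
        unfold sg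
        cases hb : b (i + 1 + k)
        · rw [hb] at f3
          left
          simp only [Bool.false_eq_true, if_false] at f3 ⊢
          exact ⟨by omega, f3⟩
        · rw [hb] at f3
          right
          simp only [if_true] at f3 ⊢
          exact ⟨by omega, f3⟩
      · have f2 := hs.cut (i + 1 + k) (i + 1 + k') (by omega) (by omega)
        simp only [hk'f, Bool.false_eq_true, if_false] at f2
        unfold slt at f2
        unfold sg
        cases hb : b (i + 1 + k' - 1)
        · rw [hb] at f2
          right
          simp only [Bool.false_eq_true, if_false] at f2 ⊢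
          refine ⟨?_, f2⟩
          split_ifs <;> omega
        · rw [hb] at f2
          left
          simp only [if_true] at f2 ⊢
          refine ⟨?_, f2⟩
          split_ifs <;> omega
  have hcmpy : ∀ k k' : Fin μ, (k : ℕ) < k' →
      ((pinLayer μ (h (i + 1)) (fun t => b (i + t))).y k <
        (pinLayer μ (h (i + 1)) (fun t => b (i + t))).y k' ∧
        y (q (i + 1 + k)) < y (q (i + 1 + k'))) ∨
      ((pinLayer μ (h (i + 1)) (fun t => b (i + t))).y k' <
        (pinLayer μ (h (i + 1)) (fun t => b (i + t))).y k ∧
        y (q (i + 1 + k')) < y (q (i + 1 + k))) := by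
    intro k k' hkk
    simp only [pinLayer]
    have e1 := hhor k k.2
    have e2 := hhor k' k'.2
    have f1 := hs.ext (i + 1 + k) (i + 1 + k') (by omega) (by omega)
    rw [← e1, ← e2]
    have g1 : i + ((Fin.succ k : Fin (μ + 1)) : ℕ) = i + 1 + k := by simp; ring
    have g2 : i + ((Fin.succ k' : Fin (μ + 1)) : ℕ) = i + 1 + k' := by simp; ring
    have g3 : i + ((Fin.castSucc k' : Fin (μ + 1)) : ℕ) = i + 1 + k' - 1 := by
      simp
    rw [g1, g2, g3]
    by_cases hk' : h (i + 1 + k') = true
    · simp only [hk', if_true]
      by_cases hadj : (k : ℕ) + 1 = k'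
      · have f3 := hs.sep (i + 1 + k) (by omega)
        have g4 : i + 1 + (k : ℕ) + 1 = i + 1 + k' := by omega
        have g5 : i + 1 + (k' : ℕ) - 1 = i + 1 + k := by omega
        rw [g4] at f3
        rw [g5]
        have hkt : h (i + 1 + k) = false := by
          have := hs.alt (i + 1 + k) (by omega)
          rw [g4, hk'] at this
          simpa using this
        simp only [hk', if_true] at f3
        simp only [hkt, Bool.false_eq_true, if_false]
        unfold slt at f3
        unfold sg
        cases hb : b (i + 1 + k)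
        · rw [hb] at f3
          left
          simp only [Bool.false_eq_true, if_false] at f3 ⊢
          exact ⟨by omega, f3⟩
        · rw [hb] at f3
          right
          simp only [if_true] at f3 ⊢
          exact ⟨by omega, f3⟩
      · have f2 := hs.cut (i + 1 + k) (i + 1 + k') (by omega) (by omega)
        simp only [hk', if_true] at f2
        unfold slt at f2
        unfold sg
        cases hb : b (i + 1 + k' - 1)
        · rw [hb] at f2
          right
          simp only [Bool.false_eq_true, if_false] at f2 ⊢
          refine ⟨?_, f2⟩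
          split_ifs <;> omega
        · rw [hb] at f2
          left
          simp only [if_true] at f2 ⊢
          refine ⟨?_, f2⟩
          split_ifs <;> omega
    · have hk'f : h (i + 1 + k') = false := by simpa using hk'
      simp only [hk'f, Bool.false_eq_true, if_false] at f1 ⊢
      unfold slt at f1
      unfold sg
      cases hb : b (i + 1 + k')
      · rw [hb] at f1
        right
        simp only [Bool.false_eq_true, if_false] at f1 ⊢
        refine ⟨?_, f1⟩
        split_ifs <;> omega
      · rw [hb] at f1
        left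
        simp only [if_true] at f1 ⊢
        refine ⟨?_, f1⟩
        split_ifs <;> omega
  -- comparisons with the block
  have hblx : ∀ (k : Fin μ) (j : ℕ), j < i →
      ((pinLayer μ (h (i + 1)) (fun t => b (i + t))).x k < 0 ∧ x (q (i + 1 + k)) < x (q j)) ∨
      (0 < (pinLayer μ (h (i + 1)) (fun t => b (i + t))).x k ∧ x (q j) < x (q (i + 1 + k))) := by
    intro k j hj
    simp only [pinLayer]
    have e1 := hhor k k.2
    have f1 := hs.ext j (i + 1 + k) (by omega) (by omega)
    have f2 := hs.cut j (i + 1 + k) (by omega) (by omega)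
    rw [← e1]
    have g1 : i + ((Fin.succ k : Fin (μ + 1)) : ℕ) = i + 1 + k := by simp; ring
    have g3 : i + ((Fin.castSucc k : Fin (μ + 1)) : ℕ) = i + 1 + k - 1 := by
      simp
    rw [g1, g3]
    unfold slt at f1 f2
    unfold sg
    cases hk : h (i + 1 + k)
    · simp only [hk, Bool.false_eq_true, if_false] at f1 f2 ⊢
      cases hb : b (i + 1 + k - 1)
      · rw [hb] at f2
        left
        simp only [Bool.false_eq_true, if_false] at f2 ⊢
        exact ⟨by omega, f2⟩
      · rw [hb] at f2
        right
        simp only [if_true] at f2 ⊢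
        exact ⟨by omega, f2⟩
    · simp only [hk, if_true] at f1 f2 ⊢
      cases hb : b (i + 1 + k)
      · rw [hb] at f1
        left
        simp only [Bool.false_eq_true, if_false] at f1 ⊢
        exact ⟨by omega, f1⟩
      · rw [hb] at f1
        right
        simp only [if_true] at f1 ⊢
        exact ⟨by omega, f1⟩
  have hbly : ∀ (k : Fin μ) (j : ℕ), j < i →
      ((pinLayer μ (h (i + 1)) (fun t => b (i + t))).y k < 0 ∧ y (q (i + 1 + k)) < y (q j)) ∨
      (0 < (pinLayer μ (h (i + 1)) (fun t => b (i + t))).y k ∧ y (q j) < y (q (i + 1 + k))) := by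
    intro k j hj
    simp only [pinLayer]
    have e1 := hhor k k.2
    have f1 := hs.ext j (i + 1 + k) (by omega) (by omega)
    have f2 := hs.cut j (i + 1 + k) (by omega) (by omega)
    rw [← e1]
    have g1 : i + ((Fin.succ k : Fin (μ + 1)) : ℕ) = i + 1 + k := by simp; ring
    have g3 : i + ((Fin.castSucc k : Fin (μ + 1)) : ℕ) = i + 1 + k - 1 := by
      simp
    rw [g1, g3]
    unfold slt at f1 f2
    unfold sg
    cases hk : h (i + 1 + k)
    · simp only [hk, Bool.false_eq_true, if_false] at f1 f2 ⊢
      cases hb : b (i + 1 + k)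
      · rw [hb] at f1
        left
        simp only [Bool.false_eq_true, if_false] at f1 ⊢
        exact ⟨by omega, f1⟩
      · rw [hb] at f1
        right
        simp only [if_true] at f1 ⊢
        exact ⟨by omega, f1⟩
    · simp only [hk, if_true] at f1 f2 ⊢
      cases hb : b (i + 1 + k - 1)
      · rw [hb] at f2
        left
        simp only [Bool.false_eq_true, if_false] at f2 ⊢
        exact ⟨by omega, f2⟩
      · rw [hb] at f2
        right
        simp only [if_true] at f2 ⊢
        exact ⟨by omega, f2⟩
  -- the embedding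
  refine ((pinLayer μ (h (i + 1)) (fun t => b (i + t))).infl_isPat univ α).has.map
    (Sum.elim (fun k => q (i + 1 + k)) e) ?_ ?_ ?_
  · rintro (k | t) _
    · exact ⟨i + 1 + k, by omega, rfl⟩
    · exact Blk.mono (by omega) (he1 t)
  · rintro (k | t) _ (k' | t') _ hlt
    · rw [Layer.X_ll] at hlt
      rcases lt_trichotomy (k : ℕ) k' with h1 | h1 | h1
      · rcases hcmpx k k' h1 with h2 | h2
        · exact h2.2
        · exact absurd hlt (lt_asymm h2.1)
      · rw [Fin.ext h1] at hlt; exact absurd hlt (lt_irrefl _)
      · rcases hcmpx k' k h1 with h2 | h2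
        · exact absurd hlt (lt_asymm h2.1)
        · exact h2.2
    · rw [Layer.X_lr] at hlt
      obtain ⟨j, hj, hj2⟩ := he1 t'
      simp only [Sum.elim_inl, Sum.elim_inr]
      rw [← hj2]
      rcases hblx k j hj with h2 | h2
      · exact h2.2
      · exact absurd hlt (lt_asymm h2.1)
    · rw [Layer.X_rl] at hlt
      obtain ⟨j, hj, hj2⟩ := he1 t
      simp only [Sum.elim_inl, Sum.elim_inr]
      rw [← hj2]
      rcases hblx k' j hj with h2 | h2
      · exact absurd hlt (lt_asymm h2.1)
      · exact h2.2
    · rw [Layer.X_rr] at hlt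
      exact he2 _ _ hlt
  · rintro (k | t) _ (k' | t') _ hlt
    · rw [Layer.Y_ll] at hlt
      rcases lt_trichotomy (k : ℕ) k' with h1 | h1 | h1
      · rcases hcmpy k k' h1 with h2 | h2
        · exact h2.2
        · exact absurd hlt (lt_asymm h2.1)
      · rw [Fin.ext h1] at hlt; exact absurd hlt (lt_irrefl _)
      · rcases hcmpy k' k h1 with h2 | h2
        · exact absurd hlt (lt_asymm h2.1)
        · exact h2.2
    · rw [Layer.Y_lr] at hlt
      obtain ⟨j, hj, hj2⟩ := he1 t'
      simp only [Sum.elim_inl, Sum.elim_inr]
      rw [← hj2]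
      rcases hbly k j hj with h2 | h2
      · exact h2.2
      · exact absurd hlt (lt_asymm h2.1)
    · rw [Layer.Y_rl] at hlt
      obtain ⟨j, hj, hj2⟩ := he1 t
      simp only [Sum.elim_inl, Sum.elim_inr]
      rw [← hj2]
      rcases hbly k' j hj with h2 | h2
      · exact absurd hlt (lt_asymm h2.1)
      · exact h2.2
    · rw [Layer.Y_rr] at hlt
      exact he3 _ _ hlt

end Pool.Agent.Work.MP_080fe7_co
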