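import Pool.Agent.Work.MP_080fe7_co.Criteria

/-!
# The quadrant criterion for good layers
-/

set_option linter.unusedSectionVars false
set_option linter.unusedVariables false

open Finset

namespace Pool.Agent.Work.MP_080fe7_co.Layer

variable {m : ℕ} {L : Layer m}

theorem JW.x_neg_iff {T : Finset (Fin m)} {τ : Pat} {I : Finset (Fin τ.n)} {φ : Fin τ.n → Fin m}
    (w : L.JW T τ I φ) {i k : Fin τ.n} (hi : i ∉ I) (hk : k ∈ I) : L.x (φ i) < 0 ↔ i < k := by
  constructor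
  · intro h
    rcases lt_trichotomy i k with h1 | h1 | h1
    · exact h1
    · subst h1; exact absurd hk hi
    · have := w.right i hi k hk h1; omega
  · exact w.left i hi k hk

theorem JW.x_pos_iff {T : Finset (Fin m)} {τ : Pat} {I : Finset (Fin τ.n)} {φ : Fin τ.n → Fin m}
    (w : L.JW T τ I φ) {i k : Fin τ.n} (hi : i ∉ I) (hk : k ∈ I) : 0 < L.x (φ i) ↔ k < i := by
  constructor
  · intro h
    rcases lt_trichotomy i k with h1 | h1 | h1
    · have := w.left i hi k hk h1; omega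
    · subst h1; exact absurd hk hi
    · exact h1
  · exact w.right i hi k hk

theorem JW.y_neg_iff {T : Finset (Fin m)} {τ : Pat} {I : Finset (Fin τ.n)} {φ : Fin τ.n → Fin m}
    (w : L.JW T τ I φ) {i k : Fin τ.n} (hi : i ∉ I) (hk : k ∈ I) :
    L.y (φ i) < 0 ↔ τ.p i < τ.p k := by
  constructor
  · intro h
    rcases lt_trichotomy (τ.p i) (τ.p k) with h1 | h1 | h1
    · exact h1
    · have := τ.p.injective h1; subst this; exact absurd hk hi
    · have := w.up i hi k hk h1; omega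
  · exact w.down i hi k hk

theorem JW.y_pos_iff {T : Finset (Fin m)} {τ : Pat} {I : Finset (Fin τ.n)} {φ : Fin τ.n → Fin m}
    (w : L.JW T τ I φ) {i k : Fin τ.n} (hi : i ∉ I) (hk : k ∈ I) :
    0 < L.y (φ i) ↔ τ.p k < τ.p i := by
  constructor
  · intro h
    rcases lt_trichotomy (τ.p i) (τ.p k) with h1 | h1 | h1
    · have := w.down i hi k hk h1; omega
    · have := τ.p.injective h1; subst this; exact absurd hk hi
    · exact h1
  · exact w.up i hi k hk

/-- `o` lies outside of `a`, seen from the block -/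
def Outer (L : Layer m) (o a : Fin m) : Prop :=
  (L.x o < 0 → L.x o < L.x a) ∧ (0 < L.x o → L.x a < L.x o) ∧
    (L.y o < 0 → L.y o < L.y a) ∧ (0 < L.y o → L.y a < L.y o)

def SameQ (L : Layer m) (a b : Fin m) : Prop :=
  (L.x a < 0 ↔ L.x b < 0) ∧ (L.y a < 0 ↔ L.y b < 0)

def OppQ (L : Layer m) (a b : Fin m) : Prop :=
  (L.x a < 0 ↔ 0 < L.x b) ∧ (L.y a < 0 ↔ 0 < L.y b)

/-- the key property of the quadrant of `a₀`, opposite to that of `c₀` -/
def QS (L : Layer m) (a₀ c₀ : Fin m) : Prop :=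
  ∀ a c o₁ o₂, L.SameQ a a₀ → L.SameQ c c₀ → L.SameQ o₁ o₂ → L.Outer o₂ a → L.Outer o₁ c →
    L.Outer o₂ c

/-- the quadrant condition -/
structure QuadCheck (L : Layer m) : Prop where
  qs : ∀ a c, L.OppQ a c → L.QS a c ∨ L.QS c a
  inc : (∀ a b, L.SameQ a b → L.x a < L.x b → L.y a < L.y b) ∨
    (∀ a b, L.SameQ a b → L.x a < L.x b → L.y b < L.y a)
  two : ∀ a b c, L.SameQ a b → L.SameQ a c → a = b ∨ a = c ∨ b = c

theorem inter_aux {T : Finset (Fin m)} {τ : Pat} {I₁ I₂ : Finset (Fin τ.n)}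
    {φ₁ φ₂ : Fin τ.n → Fin m} (w1 : L.JW T τ I₁ φ₁) (w2 : L.JW T τ I₂ φ₂)
    (H : ∀ c, c ∈ I₂ → c ∉ I₁ → ∀ o, o ∉ I₁ → o ∉ I₂ → L.Outer (φ₂ o) (φ₁ c)) :
    L.J T τ (I₁ ∩ I₂) := by
  classical
  refine ⟨fun i => if i ∈ I₂ then φ₁ i else φ₂ i, ?_, ?_, ?_, ?_, ?_, ?_, ?_⟩
  · intro i hi
    by_cases h2 : i ∈ I₂
    · have h1 : i ∉ I₁ := fun h => hi (Finset.mem_inter.2 ⟨h, h2⟩)
      simpa [h2] using w1.mem i h1
    · simpa [h2] using w2.mem i h2
  · intro i hi j hj hij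
    by_cases h2 : i ∈ I₂ <;> by_cases h2' : j ∈ I₂
    · have h1 : i ∉ I₁ := fun h => hi (Finset.mem_inter.2 ⟨h, h2⟩)
      have h1' : j ∉ I₁ := fun h => hj (Finset.mem_inter.2 ⟨h, h2'⟩)
      simpa [h2, h2'] using w1.hx i h1 j h1' hij
    · have h1 : i ∉ I₁ := fun h => hi (Finset.mem_inter.2 ⟨h, h2⟩)
      have hp : 0 < L.x (φ₂ j) := w2.right j h2' i h2 hij
      simp only [h2, h2', if_true, if_false]
      by_cases h1' : j ∈ I₁
      · exact (w1.left i h1 j h1' hij).trans hp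
      · exact (H i h2 h1 j h1' h2').2.1 hp
    · have h1 : j ∉ I₁ := fun h => hj (Finset.mem_inter.2 ⟨h, h2'⟩)
      have hp : L.x (φ₂ i) < 0 := w2.left i h2 j h2' hij
      simp only [h2, h2', if_true, if_false]
      by_cases h1' : i ∈ I₁
      · exact hp.trans (w1.right j h1 i h1' hij)
      · exact (H j h2' h1 i h1' h2).1 hp
    · simpa [h2, h2'] using w2.hx i h2 j h2' hij
  · intro i hi j hj hij
    by_cases h2 : i ∈ I₂ <;> by_cases h2' : j ∈ I₂
    · have h1 : i ∉ I₁ := fun h => hi (Finset.mem_inter.2 ⟨h, h2⟩)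
      have h1' : j ∉ I₁ := fun h => hj (Finset.mem_inter.2 ⟨h, h2'⟩)
      simpa [h2, h2'] using w1.hy i h1 j h1' hij
    · have h1 : i ∉ I₁ := fun h => hi (Finset.mem_inter.2 ⟨h, h2⟩)
      have hp : 0 < L.y (φ₂ j) := w2.up j h2' i h2 hij
      simp only [h2, h2', if_true, if_false]
      by_cases h1' : j ∈ I₁
      · exact (w1.down i h1 j h1' hij).trans hp
      · exact (H i h2 h1 j h1' h2').2.2.2 hp
    · have h1 : j ∉ I₁ := fun h => hj (Finset.mem_inter.2 ⟨h, h2'⟩)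
      have hp : L.y (φ₂ i) < 0 := w2.down i h2 j h2' hij
      simp only [h2, h2', if_true, if_false]
      by_cases h1' : i ∈ I₁
      · exact hp.trans (w1.up j h1 i h1' hij)
      · exact (H j h2' h1 i h1' h2).2.2.1 hp
    · simpa [h2, h2'] using w2.hy i h2 j h2' hij
  · intro i hi j hj hij
    have hj' := Finset.mem_inter.1 hj
    by_cases h2 : i ∈ I₂
    · have h1 : i ∉ I₁ := fun h => hi (Finset.mem_inter.2 ⟨h, h2⟩)
      simpa [h2] using w1.left i h1 j hj'.1 hij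
    · simpa [h2] using w2.left i h2 j hj'.2 hij
  · intro i hi j hj hij
    have hj' := Finset.mem_inter.1 hj
    by_cases h2 : i ∈ I₂
    · have h1 : i ∉ I₁ := fun h => hi (Finset.mem_inter.2 ⟨h, h2⟩)
      simpa [h2] using w1.right i h1 j hj'.1 hij
    · simpa [h2] using w2.right i h2 j hj'.2 hij
  · intro i hi j hj hij
    have hj' := Finset.mem_inter.1 hj
    by_cases h2 : i ∈ I₂
    · have h1 : i ∉ I₁ := fun h => hi (Finset.mem_inter.2 ⟨h, h2⟩)
      simpa [h2] using w1.down i h1 j hj'.1 hij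
    · simpa [h2] using w2.down i h2 j hj'.2 hij
  · intro i hi j hj hij
    have hj' := Finset.mem_inter.1 hj
    by_cases h2 : i ∈ I₂
    · have h1 : i ∉ I₁ := fun h => hi (Finset.mem_inter.2 ⟨h, h2⟩)
      simpa [h2] using w1.up i h1 j hj'.1 hij
    · simpa [h2] using w2.up i h2 j hj'.2 hij

theorem neg_iff_of_pos_iff {a b : ℤ} (ha : a ≠ 0) (hb : b ≠ 0) (h : a < 0 ↔ b < 0) :
    0 < a ↔ 0 < b := by
  constructor
  · intro h1
    by_contra h2
    have : b < 0 := by omega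
    have := h.2 this
    omega
  · intro h1
    by_contra h2
    have : a < 0 := by omega
    have := h.1 this
    omega

theorem inter_aux' {T : Finset (Fin m)} {τ : Pat} {I₁ I₂ : Finset (Fin τ.n)}
    {φ₁ φ₂ : Fin τ.n → Fin m} (w1 : L.JW T τ I₁ φ₁) (w2 : L.JW T τ I₂ φ₂)
    {a₀ b c₀ : Fin τ.n} (hb1 : b ∈ I₁) (hb2 : b ∈ I₂) (ha1 : a₀ ∈ I₁) (ha2 : a₀ ∉ I₂)
    (hc1 : c₀ ∉ I₁) (hc2 : c₀ ∈ I₂) (H : L.QS (φ₂ a₀) (φ₁ c₀)) : L.J T τ (I₁ ∩ I₂) := by
  apply inter_aux w1 w2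
  intro c hc2' hc1' o ho1 ho2
  refine H (φ₂ a₀) (φ₁ c) (φ₁ o) (φ₂ o) ⟨Iff.rfl, Iff.rfl⟩ ?_ ?_ ?_ ?_
  · -- all of `I₂ \ I₁` lies in one quadrant
    constructor
    · rw [w1.x_neg_iff hc1' ha1, w1.x_neg_iff hc1 ha1]
      have e1 := w2.x_pos_iff ha2 hc2'
      have e2 := w2.x_pos_iff ha2 hc2
      rw [← e1, ← e2]
    · rw [w1.y_neg_iff hc1' ha1, w1.y_neg_iff hc1 ha1]
      have e1 := w2.y_pos_iff ha2 hc2'
      have e2 := w2.y_pos_iff ha2 hc2
      rw [← e1, ← e2]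
  · constructor
    · rw [w1.x_neg_iff ho1 hb1, w2.x_neg_iff ho2 hb2]
    · rw [w1.y_neg_iff ho1 hb1, w2.y_neg_iff ho2 hb2]
  · refine ⟨?_, ?_, ?_, ?_⟩
    · intro h
      have h1 := (w2.x_neg_iff ho2 hb2).1 h
      have h2 := (w1.x_neg_iff ho1 hb1).2 h1
      exact w2.hx _ ho2 _ ha2 ((w1.x_neg_iff ho1 ha1).1 h2)
    · intro h
      have h1 := (w2.x_pos_iff ho2 hb2).1 h
      have h2 := (w1.x_pos_iff ho1 hb1).2 h1
      exact w2.hx _ ha2 _ ho2 ((w1.x_pos_iff ho1 ha1).1 h2)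
    · intro h
      have h1 := (w2.y_neg_iff ho2 hb2).1 h
      have h2 := (w1.y_neg_iff ho1 hb1).2 h1
      exact w2.hy _ ho2 _ ha2 ((w1.y_neg_iff ho1 ha1).1 h2)
    · intro h
      have h1 := (w2.y_pos_iff ho2 hb2).1 h
      have h2 := (w1.y_pos_iff ho1 hb1).2 h1
      exact w2.hy _ ha2 _ ho2 ((w1.y_pos_iff ho1 ha1).1 h2)
  · refine ⟨?_, ?_, ?_, ?_⟩
    · intro h
      have h1 := (w1.x_neg_iff ho1 hb1).1 h
      have h2 := (w2.x_neg_iff ho2 hb2).2 h1
      exact w1.hx _ ho1 _ hc1' ((w2.x_neg_iff ho2 hc2').1 h2)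
    · intro h
      have h1 := (w1.x_pos_iff ho1 hb1).1 h
      have h2 := (w2.x_pos_iff ho2 hb2).2 h1
      exact w1.hx _ hc1' _ ho1 ((w2.x_pos_iff ho2 hc2').1 h2)
    · intro h
      have h1 := (w1.y_neg_iff ho1 hb1).1 h
      have h2 := (w2.y_neg_iff ho2 hb2).2 h1
      exact w1.hy _ ho1 _ hc1' ((w2.y_neg_iff ho2 hc2').1 h2)
    · intro h
      have h1 := (w1.y_pos_iff ho1 hb1).1 h
      have h2 := (w2.y_pos_iff ho2 hb2).2 h1
      exact w1.hy _ hc1' _ ho1 ((w2.y_pos_iff ho2 hc2').1 h2)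

/-- in a quadrant layer, a second block disjoint from a first one is a pair -/
theorem pair_of_disjoint (hq : L.QuadCheck) {T : Finset (Fin m)} {τ : Pat}
    {I₁ I₂ : Finset (Fin τ.n)} (h1 : L.J T τ I₁) (h2 : L.J T τ I₂) (hd : Disjoint I₁ I₂)
    (hne : I₁.Nonempty) (hc : 2 ≤ I₂.card) :
    ∃ a b : Fin τ.n, a < b ∧ I₂ = {a, b} ∧
      ((∀ a b, L.SameQ a b → L.x a < L.x b → L.y a < L.y b) → τ.p a < τ.p b) ∧
      ((∀ a b, L.SameQ a b → L.x a < L.x b → L.y b < L.y a) → τ.p b < τ.p a) := by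
  classical
  obtain ⟨φ₁, w1⟩ := h1
  obtain ⟨φ₂, w2⟩ := h2
  obtain ⟨c, hc1⟩ := hne
  have hc2 : c ∉ I₂ := fun h => Finset.disjoint_left.1 hd hc1 h
  have hn1 : ∀ i, i ∈ I₂ → i ∉ I₁ := fun i hi h => Finset.disjoint_left.1 hd h hi
  have hsame : ∀ i ∈ I₂, ∀ j ∈ I₂, L.SameQ (φ₁ i) (φ₁ j) := by
    intro i hi j hj
    constructor
    · rw [w1.x_neg_iff (hn1 i hi) hc1, w1.x_neg_iff (hn1 j hj) hc1, ← w2.x_pos_iff hc2 hi,
        ← w2.x_pos_iff hc2 hj]
    · rw [w1.y_neg_iff (hn1 i hi) hc1, w1.y_neg_iff (hn1 j hj) hc1, ← w2.y_pos_iff hc2 hi,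
        ← w2.y_pos_iff hc2 hj]
  have hinj : ∀ i ∈ I₂, ∀ j ∈ I₂, φ₁ i = φ₁ j → i = j := by
    intro i hi j hj h
    exact w1.injOn (by simp [hn1 i hi]) (by simp [hn1 j hj]) h
  have hcard : I₂.card = 2 := by
    by_contra hne2
    have h3 : 2 < I₂.card := by omega
    obtain ⟨a, b, c', ha, hb, hc', hab, hac, hbc⟩ := Finset.two_lt_card_iff.1 h3
    rcases hq.two _ _ _ (hsame a ha b hb) (hsame a ha c' hc') with h | h | h
    · exact hab (hinj a ha b hb h)
    · exact hac (hinj a ha c' hc' h)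
    · exact hbc (hinj b hb c' hc' h)
  obtain ⟨a, b, hab, hI⟩ := Finset.card_eq_two.1 hcard
  have ha : a ∈ I₂ := by rw [hI]; simp
  have hb : b ∈ I₂ := by rw [hI]; simp
  have key : ∀ i ∈ I₂, ∀ j ∈ I₂, i < j →
      (∀ a b, L.SameQ a b → L.x a < L.x b → L.y a < L.y b) → τ.p i < τ.p j := by
    intro i hi j hj hij hinc
    have h3 := w1.hx i (hn1 i hi) j (hn1 j hj) hij
    have h4 := hinc _ _ (hsame i hi j hj) h3
    rcases lt_trichotomy (τ.p i) (τ.p j) with h5 | h5 | h5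
    · exact h5
    · have := τ.p.injective h5; subst this; exact absurd hij (lt_irrefl _)
    · have := w1.hy j (hn1 j hj) i (hn1 i hi) h5
      omega
  have key' : ∀ i ∈ I₂, ∀ j ∈ I₂, i < j →
      (∀ a b, L.SameQ a b → L.x a < L.x b → L.y b < L.y a) → τ.p j < τ.p i := by
    intro i hi j hj hij hinc
    have h3 := w1.hx i (hn1 i hi) j (hn1 j hj) hij
    have h4 := hinc _ _ (hsame i hi j hj) h3
    rcases lt_trichotomy (τ.p i) (τ.p j) with h5 | h5 | h5
    · have := w1.hy i (hn1 i hi) j (hn1 j hj) h5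
      omega
    · have := τ.p.injective h5; subst this; exact absurd hij (lt_irrefl _)
    · exact h5
  rcases lt_or_gt_of_ne hab with h3 | h3
  · exact ⟨a, b, h3, hI, key a ha b hb h3, key' a ha b hb h3⟩
  · exact ⟨b, a, h3, by rw [hI, Finset.pair_comm], key b hb a ha h3, key' b hb a ha h3⟩

theorem good_of_quad (hq : L.QuadCheck) (ha : L.AltCheck) (hi : L.IrrCheck) : L.Good where
  inter := by
    intro T τ I₁ I₂ h1 h2 hne
    by_cases h12 : I₁ ⊆ I₂
    · rw [Finset.inter_eq_left.2 h12]; exact h1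
    by_cases h21 : I₂ ⊆ I₁
    · rw [Finset.inter_eq_right.2 h21]; exact h2
    obtain ⟨a₀, ha1, ha2⟩ := Finset.not_subset.1 h12
    obtain ⟨c₀, hc2, hc1⟩ := Finset.not_subset.1 h21
    obtain ⟨b, hb⟩ := hne
    obtain ⟨hb1, hb2⟩ := Finset.mem_inter.1 hb
    obtain ⟨φ₁, w1⟩ := h1
    obtain ⟨φ₂, w2⟩ := h2
    have hopp : L.OppQ (φ₂ a₀) (φ₁ c₀) := by
      constructor
      · rw [w2.x_neg_iff ha2 hc2, w1.x_pos_iff hc1 ha1]
      · rw [w2.y_neg_iff ha2 hc2, w1.y_pos_iff hc1 ha1]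
    rcases hq.qs _ _ hopp with h | h
    · exact inter_aux' w1 w2 hb1 hb2 ha1 ha2 hc1 hc2 h
    · rw [Finset.inter_comm]
      exact inter_aux' w2 w1 hb2 hb1 hc2 hc1 ha2 ha1 h
  disj := by
    classical
    intro T τ I₁ I₂ h1 h2 hd hc1 hc2
    have e1 : I₁.Nonempty := Finset.card_pos.1 (by omega)
    have e2 : I₂.Nonempty := Finset.card_pos.1 (by omega)
    obtain ⟨a, b, hab, hI2, hk1, hk2⟩ := pair_of_disjoint hq h1 h2 hd e1 hc2
    obtain ⟨a', b', hab', hI1, hk1', hk2'⟩ := pair_of_disjoint hq h2 h1 hd.symm e2 hc1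
    rw [le_sub_iff]
    have _ : Nonempty (Fin τ.n) := ⟨a⟩
    rw [has_sub_iff]
    refine ⟨fun i => if i = a' then a else b, ?_, ?_, ?_⟩
    · intro i hi
      simp only
      split_ifs
      · rw [hI2]; simp
      · rw [hI2]; simp
    · intro i hi j hj hij
      rw [hI1] at hi hj
      simp only [Finset.mem_insert, Finset.mem_singleton] at hi hj
      have hne : b' ≠ a' := ne_of_gt hab'
      rcases hi with rfl | rfl <;> rcases hj with rfl | rfl
      · exact absurd hij (lt_irrefl _)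
      · simpa [hne] using hab
      · exact absurd hij (lt_asymm hab')
      · exact absurd hij (lt_irrefl _)
    · intro i hi j hj hij
      rw [hI1] at hi hj
      simp only [Finset.mem_insert, Finset.mem_singleton] at hi hj
      have hne : b' ≠ a' := ne_of_gt hab'
      rcases hq.inc with hinc | hinc
      · have hpab := hk1 hinc
        have hpab' := hk1' hinc
        rcases hi with rfl | rfl <;> rcases hj with rfl | rfl
        · exact absurd hij (lt_irrefl _)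
        · simpa [hne] using hpab
        · exact absurd hij (lt_asymm hpab')
        · exact absurd hij (lt_irrefl _)
      · have hpab := hk2 hinc
        have hpab' := hk2' hinc
        rcases hi with rfl | rfl <;> rcases hj with rfl | rfl
        · exact absurd hij (lt_irrefl _)
        · exact absurd hij (lt_asymm hpab')
        · simpa [hne] using hpab
        · exact absurd hij (lt_irrefl _)
  alt := alt_of_check ha
  irr := irr_of_check hi

instance (L : Layer m) (a b : Fin m) : Decidable (L.SameQ a b) := by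
  unfold SameQ; infer_instance

instance (L : Layer m) (a b : Fin m) : Decidable (L.OppQ a b) := by
  unfold OppQ; infer_instance

instance (L : Layer m) (a b : Fin m) : Decidable (L.Outer a b) := by
  unfold Outer; infer_instance

instance (L : Layer m) (a b : Fin m) : Decidable (L.QS a b) := by
  unfold QS; infer_instance

instance (L : Layer m) : Decidable L.IrrCheck := by
  unfold IrrCheck; infer_instance

instance (L : Layer m) : Decidable L.Extreme := by
  unfold Extreme; infer_instance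

theorem quadCheck_iff (L : Layer m) : L.QuadCheck ↔
    (∀ a c, L.OppQ a c → L.QS a c ∨ L.QS c a) ∧
    ((∀ a b, L.SameQ a b → L.x a < L.x b → L.y a < L.y b) ∨
      (∀ a b, L.SameQ a b → L.x a < L.x b → L.y b < L.y a)) ∧
    (∀ a b c, L.SameQ a b → L.SameQ a c → a = b ∨ a = c ∨ b = c) :=
  ⟨fun h => ⟨h.qs, h.inc, h.two⟩, fun h => ⟨h.1, h.2.1, h.2.2⟩⟩

instance (L : Layer m) : Decidable L.QuadCheck := decidable_of_iff' _ (quadCheck_iff L)

end Pool.Agent.Work.MP_080fe7_co.Layer
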