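import Pool.Agent.Work.MP_080fe7_co.Defs

/-!
# Structure of large simple configurations: pins, alternations, wedges
-/

set_option linter.unusedSectionVars false
set_option linter.unusedVariables false

open Finset

namespace Pool.Agent.Work.MP_080fe7_co

instance : Fintype Dir :=
  ⟨{Dir.R, Dir.L, Dir.U, Dir.D}, by intro d; cases d <;> simp⟩

namespace Dir

variable {P : Type*}

/-- transversal coordinate for direction `d` -/
def v (x y : P → ℤ) : Dir → P → ℤ
  | R => y
  | L => y
  | U => x
  | D => x

/-- the direction of increasing transversal coordinate -/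
def pos : Dir → Dir
  | R => U
  | L => U
  | U => R
  | D => R

/-- the direction of decreasing transversal coordinate -/
def neg : Dir → Dir
  | R => D
  | L => D
  | U => L
  | D => L

theorem u_pos (x y : P → ℤ) (d : Dir) (p : P) : outc x y d.pos p = v x y d p := by
  cases d <;> rfl

theorem u_neg (x y : P → ℤ) (d : Dir) (p : P) : outc x y d.neg p = - v x y d p := by
  cases d <;> rfl

theorem u_inj {x y : P → ℤ} (hx : Function.Injective x) (hy : Function.Injective y) (d : Dir) :
    Function.Injective (outc x y d) := by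
  cases d
  · exact hx
  · exact fun a b h => hx (neg_injective h)
  · exact hy
  · exact fun a b h => hy (neg_injective h)

theorem v_inj {x y : P → ℤ} (hx : Function.Injective x) (hy : Function.Injective y) (d : Dir) :
    Function.Injective (v x y d) := by
  cases d
  · exact hy
  · exact hy
  · exact hx
  · exact hx

end Dir

open Dir

variable {P : Type*}

/-- `q` cuts the points of `l` in the transversal coordinate of `d` -/
def Cut (x y : P → ℤ) (d : Dir) (l : List P) (q : P) : Prop :=
  ∃ a ∈ l, ∃ b ∈ l, v x y d a < v x y d q ∧ v x y d q < v x y d b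

/-- `q` is a pin of `l` in direction `d` -/
def IsPin (x y : P → ℤ) (d : Dir) (l : List P) (q : P) : Prop :=
  (∀ s ∈ l, outc x y d s < outc x y d q) ∧ Cut x y d l q

/-- `q` is the farthest pin of `l` in direction `d` -/
def IsMaxPin (x y : P → ℤ) (d : Dir) (l : List P) (q : P) : Prop :=
  IsPin x y d l q ∧ ∀ q', IsPin x y d l q' → outc x y d q' ≤ outc x y d q

theorem Cut.mono {x y : P → ℤ} {d : Dir} {l l' : List P} {q : P} (h : Cut x y d l q)
    (hl : ∀ s ∈ l, s ∈ l') : Cut x y d l' q := by
  obtain ⟨a, ha, b, hb, h1⟩ := h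
  exact ⟨a, hl a ha, b, hl b hb, h1⟩

theorem exists_suffix {x y : P → ℤ} {d : Dir} {q : P} : ∀ l : List P, Cut x y d l q →
    ∃ r l3, (r :: l3) <:+ l ∧ Cut x y d (r :: l3) q ∧ ¬ Cut x y d l3 q := by
  intro l
  induction l with
  | nil =>
    rintro ⟨a, ha, -⟩
    simp at ha
  | cons h t ih =>
    intro hc
    by_cases hct : Cut x y d t q
    · obtain ⟨r, l3, h1, h2, h3⟩ := ih hct
      exact ⟨r, l3, h1.trans (List.suffix_cons h t), h2, h3⟩
    · exact ⟨h, t, List.suffix_rfl, hc, hct⟩

/-- sequences of maximal pins, last pin first -/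
inductive MSeq (x y : P → ℤ) (p1 p2 : P) : List P → Prop
  | base : MSeq x y p1 p2 [p2, p1]
  | pin {l : List P} {q : P} {d : Dir} : MSeq x y p1 p2 l → IsMaxPin x y d l q →
      MSeq x y p1 p2 (q :: l)

/-- proper sequences of maximal pins, last pin first -/
inductive PSeq (x y : P → ℤ) (p1 p2 : P) : List P → Prop
  | base : PSeq x y p1 p2 [p2, p1]
  | pin {l : List P} {r q : P} {d : Dir} : PSeq x y p1 p2 (r :: l) →
      IsMaxPin x y d (r :: l) q → ¬ Cut x y d l q → PSeq x y p1 p2 (q :: r :: l)

theorem MSeq.suffix {x y : P → ℤ} {p1 p2 : P} {l : List P} (h : MSeq x y p1 p2 l) :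
    ∀ l', l' <:+ l → 2 ≤ l'.length → MSeq x y p1 p2 l' := by
  induction h with
  | base =>
    intro l' h1 h2
    have h3 : l' = [p2, p1] := h1.eq_of_length_le (by simpa using h2)
    rw [h3]; exact MSeq.base
  | @pin l q d h hm ih =>
    intro l' h1 h2
    rcases List.suffix_cons_iff.1 h1 with h3 | h3
    · rw [h3]; exact MSeq.pin h hm
    · exact ih l' h3 h2

theorem MSeq.p1_mem {x y : P → ℤ} {p1 p2 : P} {l : List P} (h : MSeq x y p1 p2 l) :
    p1 ∈ l := by
  induction h with
  | base => simp
  | pin h hm ih => exact List.mem_cons_of_mem _ ih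

theorem MSeq.p2_mem {x y : P → ℤ} {p1 p2 : P} {l : List P} (h : MSeq x y p1 p2 l) :
    p2 ∈ l := by
  induction h with
  | base => simp
  | pin h hm ih => exact List.mem_cons_of_mem _ ih

theorem PSeq.two_le {x y : P → ℤ} {p1 p2 : P} {l : List P} (h : PSeq x y p1 p2 l) :
    2 ≤ l.length := by
  induction h with
  | base => simp
  | pin h hm hc ih => simp only [List.length_cons] at ih ⊢; omega

theorem PSeq.tail_ne {x y : P → ℤ} {p1 p2 r : P} {l : List P} (h : PSeq x y p1 p2 (r :: l)) :
    l ≠ [] := by
  have := h.two_le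
  rintro rfl
  simp at this

/-- the position of a pin with respect to the previous pin and the other points -/
theorem sep_of_cut {x y : P → ℤ} (hx : Function.Injective x) (hy : Function.Injective y)
    {d : Dir} {l : List P} {r q : P} (hq : ∀ s ∈ l, s ≠ q) (h1 : Cut x y d (r :: l) q)
    (h2 : ¬ Cut x y d l q) :
    (v x y d q < v x y d r ∧ ∀ s ∈ l, v x y d s < v x y d q) ∨
    (v x y d r < v x y d q ∧ ∀ s ∈ l, v x y d q < v x y d s) := by
  obtain ⟨a, ha, b, hb, hab, hab'⟩ := h1
  have hne : ∀ s ∈ l, v x y d s ≠ v x y d q := fun s hs h => hq s hs (v_inj hx hy d h)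
  rcases List.mem_cons.1 ha with rfl | ha1
  · right
    refine ⟨hab, ?_⟩
    rcases List.mem_cons.1 hb with rfl | hb
    · exact absurd hab' (lt_asymm hab)
    · intro s hs
      by_contra hn
      have h3 := lt_of_le_of_ne (not_lt.1 hn) (hne s hs)
      exact h2 ⟨s, hs, b, hb, h3, hab'⟩
  · left
    rcases List.mem_cons.1 hb with rfl | hb
    · refine ⟨hab', ?_⟩
      intro s hs
      by_contra hn
      have h3 := lt_of_le_of_ne (not_lt.1 hn) (Ne.symm (hne s hs))
      exact h2 ⟨a, ha1, s, hs, hab, h3⟩
    · exact absurd ⟨a, ha1, b, hb, hab, hab'⟩ h2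

/-- shortcuts: every sequence of maximal pins can be made proper -/
theorem MSeq.exists_proper {x y : P → ℤ} (hx : Function.Injective x)
    (hy : Function.Injective y) {p1 p2 : P} :
    ∀ (n : ℕ) (q : P) (l : List P), l.length ≤ n → MSeq x y p1 p2 (q :: l) →
      ∃ l', PSeq x y p1 p2 (q :: l') ∧ ∀ s ∈ l', s ∈ l := by
  intro n
  induction n with
  | zero =>
    intro q l hl h
    have h0 : l = [] := List.length_eq_zero_iff.1 (by omega)
    subst h0
    cases h with
    | pin h hm => cases h
  | succ n ih =>
    intro q l hl h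
    cases h with
    | base => exact ⟨[p1], PSeq.base, fun s hs => hs⟩
    | @pin _ _ d h hm =>
      obtain ⟨r, l3, h1, h2, h3⟩ := exists_suffix l hm.1.2
      have hl3 : 2 ≤ (r :: l3).length := by
        rcases l3 with _ | ⟨z, l3⟩
        · obtain ⟨a, ha, b, hb, hab, hab'⟩ := h2
          simp only [List.mem_cons, List.not_mem_nil, or_false] at ha hb
          subst ha; subst hb
          exact absurd hab' (lt_asymm hab)
        · simp
      have h4 := h.suffix _ h1 hl3
      have h5 := h1.length_le
      simp only [List.length_cons] at h5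
      obtain ⟨l', h6, h7⟩ := ih r l3 (by omega) h4
      have hsub : ∀ s ∈ r :: l3, s ∈ l := fun s hs => h1.subset hs
      have hsub' : ∀ s ∈ r :: l', s ∈ l := by
        intro s hs
        rcases List.mem_cons.1 hs with rfl | hs
        · exact hsub _ (by simp)
        · exact hsub _ (List.mem_cons_of_mem _ (h7 s hs))
      have hne : ∀ s ∈ l3, s ≠ q := by
        rintro s hs rfl
        exact lt_irrefl _ (hm.1.1 s (hsub s (List.mem_cons_of_mem _ hs)))
      have h8 := sep_of_cut hx hy hne h2 h3
      obtain ⟨s0, hs0⟩ := List.exists_mem_of_ne_nil _ h6.tail_ne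
      refine ⟨r :: l', PSeq.pin h6 (d := d) ⟨⟨fun s hs => hm.1.1 s (hsub' s hs), ?_⟩, ?_⟩ ?_,
        hsub'⟩
      · rcases h8 with ⟨h9, h10⟩ | ⟨h9, h10⟩
        · exact ⟨s0, List.mem_cons_of_mem _ hs0, r, by simp, h10 s0 (h7 s0 hs0), h9⟩
        · exact ⟨r, by simp, s0, List.mem_cons_of_mem _ hs0, h9, h10 s0 (h7 s0 hs0)⟩
      · intro q' hq'
        by_contra hn
        rw [not_le] at hn
        have h11 : IsPin x y d l q' :=
          ⟨fun s hs => (hm.1.1 s hs).trans hn, hq'.2.mono hsub'⟩
        exact absurd (hm.2 q' h11) (not_le.2 hn)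
      · intro hc
        exact h3 (hc.mono h7)

/-- the sequence of pins reaches every extreme point -/
theorem exists_MSeq [Fintype P] {x y : P → ℤ} (hx : Function.Injective x)
    (hy : Function.Injective y) (hs : SimpleConf x y) {p1 p2 : P} (hne : p1 ≠ p2) (e : Dir) (t : P)
    (ht : ∀ s, outc x y e s ≤ outc x y e t) : ∃ l, MSeq x y p1 p2 l ∧ t ∈ l := by
  classical
  -- lists without repetitions
  have hnodup : ∀ l, MSeq x y p1 p2 l → l.Nodup := by
    intro l h
    induction h with
    | base => simpa using fun h => hne h.symm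
    | pin h hm ih =>
      refine List.nodup_cons.2 ⟨fun hq => lt_irrefl _ (hm.1.1 _ hq), ih⟩
  by_contra hcon
  push Not at hcon
  have hstep : ∀ l, MSeq x y p1 p2 l → ∃ q, MSeq x y p1 p2 (q :: l) := by
    intro l hl
    have htl := hcon l hl
    let S : Finset P := univ.filter (fun p => ∀ d, ∃ s ∈ l, outc x y d p ≤ outc x y d s)
    have hlS : ∀ s ∈ l, s ∈ S := by
      intro s hs
      simp only [S, Finset.mem_filter, Finset.mem_univ, true_and]
      exact fun d => ⟨s, hs, le_refl _⟩
    have hS2 : 2 ≤ S.card := by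
      have h1 : ({p1, p2} : Finset P) ⊆ S := by
        intro s hs
        simp only [Finset.mem_insert, Finset.mem_singleton] at hs
        rcases hs with rfl | rfl
        · exact hlS _ hl.p1_mem
        · exact hlS _ hl.p2_mem
      calc 2 = ({p1, p2} : Finset P).card := (Finset.card_pair hne).symm
        _ ≤ S.card := Finset.card_le_card h1
    have hSu : S ≠ univ := by
      intro h
      have h1 : t ∈ S := by rw [h]; exact Finset.mem_univ t
      simp only [S, Finset.mem_filter, Finset.mem_univ, true_and] at h1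
      obtain ⟨s, hs, hs'⟩ := h1 e
      have h2 : s = t := u_inj hx hy e (le_antisymm (ht s) hs')
      exact htl (h2 ▸ hs)
    obtain ⟨p, hp, a, ha, b, hb, hab⟩ := hs S hS2 hSu
    simp only [S, Finset.mem_filter, Finset.mem_univ, true_and] at hp ha hb
    push Not at hp
    obtain ⟨d, hd⟩ := hp
    -- p is a pin in direction d
    have hpin : IsPin x y d l p := by
      refine ⟨hd, ?_⟩
      rcases hab with ⟨h1, h2⟩ | ⟨h1, h2⟩
      · obtain ⟨a', ha', ha1⟩ := ha L
        obtain ⟨b', hb', hb1⟩ := hb R
        simp only [outc, neg_le_neg_iff] at ha1 hb1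
        have h3 : x a' < x p := lt_of_le_of_lt ha1 h1
        have h4 : x p < x b' := lt_of_lt_of_le h2 hb1
        cases d with
        | R => exact absurd (hd b' hb') (lt_asymm h4)
        | L =>
          have := hd a' ha'
          simp only [outc, neg_lt_neg_iff] at this
          exact absurd this (lt_asymm h3)
        | U => exact ⟨a', ha', b', hb', h3, h4⟩
        | D => exact ⟨a', ha', b', hb', h3, h4⟩
      · obtain ⟨a', ha', ha1⟩ := ha D
        obtain ⟨b', hb', hb1⟩ := hb U
        simp only [outc, neg_le_neg_iff] at ha1 hb1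
        have h3 : y a' < y p := lt_of_le_of_lt ha1 h1
        have h4 : y p < y b' := lt_of_lt_of_le h2 hb1
        cases d with
        | R => exact ⟨a', ha', b', hb', h3, h4⟩
        | L => exact ⟨a', ha', b', hb', h3, h4⟩
        | U => exact absurd (hd b' hb') (lt_asymm h4)
        | D =>
          have := hd a' ha'
          simp only [outc, neg_lt_neg_iff] at this
          exact absurd this (lt_asymm h3)
    obtain ⟨q, hq, hq'⟩ := Finset.exists_max_image (univ.filter (fun p => IsPin x y d l p))
      (outc x y d) ⟨p, by simpa using hpin⟩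
    refine ⟨q, MSeq.pin hl (d := d) ⟨(Finset.mem_filter.1 hq).2, ?_⟩⟩
    intro q' h'
    exact hq' q' (by simpa using h')
  have hlong : ∀ n, ∃ l, MSeq x y p1 p2 l ∧ n ≤ l.length := by
    intro n
    induction n with
    | zero => exact ⟨_, MSeq.base, Nat.zero_le _⟩
    | succ n ih =>
      obtain ⟨l, hl, hn⟩ := ih
      obtain ⟨q, hq⟩ := hstep l hl
      exact ⟨_, hq, by simp only [List.length_cons]; omega⟩
  obtain ⟨l, hl, hn⟩ := hlong (Fintype.card P + 1)
  have := (hnodup l hl).length_le_card
  omega

theorem exists_PSeq [Fintype P] {x y : P → ℤ} (hx : Function.Injective x)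
    (hy : Function.Injective y) (hs : SimpleConf x y) {p1 p2 : P} (hne : p1 ≠ p2) (e : Dir) (t : P)
    (ht : ∀ s, outc x y e s ≤ outc x y e t) (ht1 : t ≠ p1) : ∃ l, PSeq x y p1 p2 (t :: l) := by
  obtain ⟨l, hl, htl⟩ := exists_MSeq hx hy hs hne e t ht
  obtain ⟨s1, s2, rfl⟩ := List.append_of_mem htl
  have h1 : MSeq x y p1 p2 (t :: s2) := by
    refine hl.suffix _ (List.suffix_append _ _) ?_
    rcases s2 with _ | ⟨z, s2⟩
    · exfalso
      -- the last element is p1
      have hlast : ∀ l, MSeq x y p1 p2 l → ∃ l', l = l' ++ [p1] := by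
        intro l h
        induction h with
        | base => exact ⟨[p2], rfl⟩
        | @pin l q d h hm ih =>
          obtain ⟨l', rfl⟩ := ih
          exact ⟨q :: l', rfl⟩
      obtain ⟨l', hl'⟩ := hlast _ hl
      have := List.append_inj_right' hl' rfl
      simp only [List.cons.injEq, and_true] at this
      exact ht1 this
    · simp
  obtain ⟨l', h2, -⟩ := MSeq.exists_proper hx hy _ _ _ le_rfl h1
  exact ⟨l', h2⟩

end Pool.Agent.Work.MP_080fe7_co
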