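import Pool.Agent.Work.MP_080fe7_co.Structure

/-!
# Large simple configurations contain long pin sequences or long alternations
-/

set_option linter.unusedSectionVars false
set_option linter.unusedVariables false

open Finset

namespace Pool.Agent.Work.MP_080fe7_co

open Dir

variable {P : Type*}

/-- An alternation: `a 0, b 0, a 1, b 1, ...` from left to right, the `b`s below the `a`s. -/
def Alt (X Y : P → ℤ) (M : ℕ) : Prop :=
  ∃ a b : ℕ → P, (∀ i, i < M → X (a i) < X (b i)) ∧ (∀ i, i + 1 < M → X (b i) < X (a (i + 1))) ∧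
    ∀ i, i < M → ∀ j, j < M → Y (b i) < Y (a j)

theorem alt_of_sep {X Y : P → ℤ} (hX : Function.Injective X) (c : ℤ) (Q : Finset P) (M : ℕ)
    (hM : M + 1 ≤ Q.card) (hQ : ∀ q ∈ Q, c < Y q)
    (hsep : ∀ q ∈ Q, ∀ q' ∈ Q, X q < X q' → ∃ z, Y z < c ∧ X q < X z ∧ X z < X q') :
    Alt X Y M := by
  classical
  have hT : (Q.image X).card = Q.card := Finset.card_image_of_injective _ hX
  have hne : Nonempty P := by
    obtain ⟨q, -⟩ : Q.Nonempty := Finset.card_pos.1 (by omega)
    exact ⟨q⟩
  let e : Fin (M + 1) ↪o ℤ := (Q.image X).orderEmbOfCardLe (by rw [hT]; exact hM)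
  have he : ∀ i, e i ∈ Q.image X := fun i => Finset.orderEmbOfCardLe_mem _ _ _
  have h1 : ∀ i : ℕ, ∃ p : P, ∀ h : i < M + 1, p ∈ Q ∧ X p = e ⟨i, h⟩ := by
    intro i
    by_cases h : i < M + 1
    · obtain ⟨p, hp, hp'⟩ := Finset.mem_image.1 (he ⟨i, h⟩)
      exact ⟨p, fun _ => ⟨hp, hp'⟩⟩
    · exact ⟨Classical.arbitrary P, fun h' => absurd h' h⟩
  choose a ha using h1
  have hlt : ∀ i, i + 1 < M + 1 → X (a i) < X (a (i + 1)) := by
    intro i hi
    rw [(ha i (by omega)).2, (ha (i + 1) hi).2]
    exact e.strictMono (by simp)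
  have h2 : ∀ i : ℕ, ∃ z : P, i + 1 < M + 1 → Y z < c ∧ X (a i) < X z ∧ X z < X (a (i + 1)) := by
    intro i
    by_cases h : i + 1 < M + 1
    · obtain ⟨z, hz⟩ := hsep (a i) (ha i (by omega)).1 (a (i + 1)) (ha (i + 1) h).1 (hlt i h)
      exact ⟨z, fun _ => hz⟩
    · exact ⟨Classical.arbitrary P, fun h' => absurd h' h⟩
  choose b hb using h2
  refine ⟨a, b, fun i hi => (hb i (by omega)).2.1, fun i hi => (hb i (by omega)).2.2, ?_⟩
  intro i hi j hj
  exact (hb i (by omega)).1.trans (hQ _ (ha j (by omega)).1)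

/-- `p1` is the immediate predecessor of `p2` from left to right -/
def Adj (x : P → ℤ) (p1 p2 : P) : Prop := x p1 < x p2 ∧ ∀ z, ¬ (x p1 < x z ∧ x z < x p2)

open Classical in
/-- the possible predecessors of a pin -/
noncomputable def preds [Fintype P] (x y : P → ℤ) (z : P) : Finset P :=
  univ.filter (fun q => ∃ p1 p2 l, Adj x p1 p2 ∧ PSeq x y p1 p2 (z :: q :: l) ∧ l ≠ [])

open Classical in
/-- the points at a given distance from `t` -/
noncomputable def level [Fintype P] (x y : P → ℤ) (t : P) : ℕ → Finset P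
  | 0 => {t}
  | (j + 1) => (level x y t j).biUnion (preds x y)

theorem level_card [Fintype P] (x y : P → ℤ) (t : P) (B : ℕ) (hB : ∀ z, (preds x y z).card ≤ B)
    (j : ℕ) : (level x y t j).card ≤ B ^ j := by
  classical
  induction j with
  | zero => simp [level]
  | succ j ih =>
    rw [level, pow_succ]
    calc ((level x y t j).biUnion (preds x y)).card ≤ (level x y t j).card * B :=
          Finset.card_biUnion_le_card_mul _ _ _ (fun z _ => hB z)
      _ ≤ B ^ j * B := Nat.mul_le_mul_right _ ih

theorem mem_level [Fintype P] {x y : P → ℤ} {t p1 p2 : P} (hadj : Adj x p1 p2) {l : List P}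
    (h : PSeq x y p1 p2 l) : ∀ q l', l = q :: l' → ∀ j, q ∈ level x y t j →
      p2 ∈ level x y t (j + l'.length - 1) := by
  classical
  induction h with
  | base =>
    intro q l' he j hj
    simp only [List.cons.injEq] at he
    obtain ⟨rfl, rfl⟩ := he
    simpa using hj
  | @pin l r q d h hm hc ih =>
    intro q' l' he j hj
    simp only [List.cons.injEq] at he
    obtain ⟨rfl, rfl⟩ := he
    have h1 : r ∈ level x y t (j + 1) := by
      rw [level, Finset.mem_biUnion]
      refine ⟨q, hj, ?_⟩
      simp only [preds, Finset.mem_filter, Finset.mem_univ, true_and]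
      exact ⟨p1, p2, l, hadj, PSeq.pin h hm hc, h.tail_ne⟩
    have h2 := ih r l rfl (j + 1) h1
    have h3 := h.two_le
    simp only [List.length_cons] at h3 ⊢
    have h4 : j + 1 + l.length - 1 = j + (l.length + 1) - 1 := by omega
    rw [← h4]; exact h2

theorem card_le_of_preds [Fintype P] {x y : P → ℤ} (hx : Function.Injective x)
    (hy : Function.Injective y) (hs : SimpleConf x y) (K B : ℕ)
    (hK : ∀ p1 p2 l, PSeq x y p1 p2 l → l.length < K) (hB : ∀ z, (preds x y z).card ≤ B) :
    Fintype.card P ≤ 1 + ∑ j ∈ range K, B ^ j := by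
  classical
  rcases isEmpty_or_nonempty P with he | hne
  · simp
  obtain ⟨t, -, ht⟩ := Finset.exists_max_image (univ : Finset P) x Finset.univ_nonempty
  let Dd : Finset P := univ.filter (fun p2 => ∃ p1, Adj x p1 p2)
  have h1 : Dd ⊆ (range K).biUnion (level x y t) := by
    intro p2 hp2
    simp only [Dd, Finset.mem_filter, Finset.mem_univ, true_and] at hp2
    obtain ⟨p1, hp1⟩ := hp2
    have hne12 : p1 ≠ p2 := by
      rintro rfl
      exact lt_irrefl _ hp1.1
    obtain ⟨l, hl⟩ := exists_PSeq hx hy hs hne12 R t (fun s => ht s (Finset.mem_univ s)) (by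
      rintro rfl
      exact absurd (ht p2 (Finset.mem_univ p2)) (not_le.2 hp1.1))
    have h2 := mem_level (t := t) hp1 hl t l rfl 0 (by simp [level])
    have h3 := hK _ _ _ hl
    simp only [List.length_cons] at h3
    rw [Finset.mem_biUnion]
    exact ⟨_, Finset.mem_range.2 (by omega), h2⟩
  have h2 : Dd.card ≤ ∑ j ∈ range K, B ^ j := by
    calc Dd.card ≤ ((range K).biUnion (level x y t)).card := Finset.card_le_card h1
      _ ≤ ∑ j ∈ range K, (level x y t j).card := Finset.card_biUnion_le
      _ ≤ ∑ j ∈ range K, B ^ j := Finset.sum_le_sum (fun j _ => level_card x y t B hB j)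
  have h3 : Ddᶜ.card ≤ 1 := by
    rw [Finset.card_le_one]
    have hmin : ∀ p ∈ Ddᶜ, ∀ z, x p ≤ x z := by
      intro p hp z
      by_contra hn
      rw [not_le] at hn
      obtain ⟨p1, hp1, hp1'⟩ := Finset.exists_max_image (univ.filter (fun z => x z < x p)) x
        ⟨z, by simpa using hn⟩
      rw [Finset.mem_compl] at hp
      apply hp
      simp only [Dd, Finset.mem_filter, Finset.mem_univ, true_and] at hp1 ⊢
      refine ⟨p1, hp1, ?_⟩
      rintro w ⟨hw1, hw2⟩
      exact absurd (hp1' w (by simpa using hw2)) (not_le.2 hw1)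
    intro p hp p' hp'
    exact hx (le_antisymm (hmin p hp p') (hmin p' hp' p))
  have h4 := Finset.card_add_card_compl Dd
  omega

/-- the direction of a pin is determined -/
theorem dir_eq {x y : P → ℤ} {c d : Dir} {l : List P} {q : P}
    (h1 : ∀ s ∈ l, outc x y c s < outc x y c q) (h2 : IsPin x y d l q) : d = c := by
  obtain ⟨h3, a, ha, b, hb, hab, hab'⟩ := h2
  have ha1 := h1 a ha
  have hb1 := h1 b hb
  have ha3 := h3 a ha
  have hb3 := h3 b hb
  cases c <;> cases d <;> first | rfl | (exfalso; simp only [outc, v] at *; omega)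

/-- the two kinds of predecessors of a pin -/
def Class (x y : P → ℤ) (z : P) : Dir × Bool → P → Prop
  | (c, true) => fun q => ∃ l : List P, (∀ s ∈ l, outc x y c s < outc x y c z) ∧
      outc x y c z < outc x y c q ∧ IsMaxPin x y c l q
  | (c, false) => fun q => v x y c = x ∧ ∃ p1, outc x y c p1 < outc x y c z ∧ outc x y c z < outc x y c q ∧
      Adj x p1 q

theorem exists_class {x y : P → ℤ} (hx : Function.Injective x) (hy : Function.Injective y)
    {z q p1 p2 : P} {l : List P} (hadj : Adj x p1 p2) (h : PSeq x y p1 p2 (z :: q :: l))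
    (hl0 : l ≠ []) : ∃ c, Class x y z c q := by
  cases h with
  | base => exact absurd rfl hl0
  | @pin _ _ _ d h hm hc =>
    have hne : ∀ s ∈ l, s ≠ z := by
      rintro s hs rfl
      exact lt_irrefl _ (hm.1.1 s (List.mem_cons_of_mem _ hs))
    obtain ⟨c, hcd, hc1, hc2⟩ : ∃ c, (c = d.pos ∨ c = d.neg) ∧ outc x y c z < outc x y c q ∧
        ∀ s ∈ l, outc x y c s < outc x y c z := by
      rcases sep_of_cut hx hy hne hm.1.2 hc with ⟨h1, h2⟩ | ⟨h1, h2⟩
      · refine ⟨d.pos, Or.inl rfl, ?_, ?_⟩
        · rw [u_pos, u_pos]; exact h1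
        · intro s hs; rw [u_pos, u_pos]; exact h2 s hs
      · refine ⟨d.neg, Or.inr rfl, ?_, ?_⟩
        · rw [u_neg, u_neg]; exact neg_lt_neg h1
        · intro s hs; rw [u_neg, u_neg]; exact neg_lt_neg (h2 s hs)
    cases h with
    | base =>
      refine ⟨(c, false), ?_, p1, hc2 p1 (by simp), hc1, hadj⟩
      obtain ⟨a, ha, b, hb, hab, hab'⟩ := hm.1.2
      simp only [List.mem_cons, List.not_mem_nil, or_false] at ha hb
      have key : v x y d = x → False := by
        intro hv
        rw [hv] at hab hab'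
        have h1 := hadj.1
        rcases ha with rfl | rfl <;> rcases hb with rfl | rfl
        · omega
        · omega
        · exact hadj.2 z ⟨hab, hab'⟩
        · omega
      cases d with
      | R => rcases hcd with rfl | rfl <;> rfl
      | L => rcases hcd with rfl | rfl <;> rfl
      | U => exact (key rfl).elim
      | D => exact (key rfl).elim
    | @pin l'' r' _ d' h' hm' hc' =>
      refine ⟨(c, true), _, hc2, hc1, ?_⟩
      have h1 : d' = c := dir_eq (fun s hs => (hc2 s hs).trans hc1) hm'.1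
      rw [← h1]; exact hm'

theorem class_sep {x y : P → ℤ} (hx : Function.Injective x) (hy : Function.Injective y)
    {z : P} {c : Dir × Bool} {q q' : P} (hq : Class x y z c q) (hq' : Class x y z c q')
    (hlt : v x y c.1 q < v x y c.1 q') :
    ∃ w, outc x y c.1 w < outc x y c.1 z ∧ v x y c.1 q < v x y c.1 w ∧ v x y c.1 w < v x y c.1 q' := by
  obtain ⟨c, b⟩ := c
  cases b with
  | false =>
    obtain ⟨hv, p1, h1, h2, h3⟩ := hq
    obtain ⟨-, p1', h1', h2', h3'⟩ := hq'
    refine ⟨p1', h1', ?_, ?_⟩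
    · simp only [hv] at hlt ⊢
      have h4 : x q ≤ x p1' := by
        by_contra hn
        exact h3'.2 q ⟨not_le.1 hn, hlt⟩
      refine lt_of_le_of_ne h4 ?_
      intro h5
      have h6 := hx h5
      subst h6
      omega
    · simp only [hv]
      exact h3'.1
  | true =>
    obtain ⟨l, h1, h2, h3⟩ := hq
    obtain ⟨l', h1', h2', h3'⟩ := hq'
    simp only at hlt ⊢
    by_contra hn
    push Not at hn
    have hne : ∀ s ∈ l, v x y c s ≠ v x y c q' := by
      intro s hs h
      have := v_inj hx hy c h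
      subst this
      have := h1 s hs
      omega
    have hne' : ∀ s ∈ l', v x y c s ≠ v x y c q := by
      intro s hs h
      have := v_inj hx hy c h
      subst this
      have := h1' s hs
      omega
    have h4 : IsPin x y c l q' := by
      refine ⟨fun s hs => (h1 s hs).trans h2', ?_⟩
      obtain ⟨a, ha, b, hb, hab, hab'⟩ := h3.1.2
      refine ⟨a, ha, b, hb, hab.trans hlt, ?_⟩
      have h5 := hn b (h1 b hb) hab'
      exact lt_of_le_of_ne h5 (Ne.symm (hne b hb))
    have h5 : IsPin x y c l' q := by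
      refine ⟨fun s hs => (h1' s hs).trans h2, ?_⟩
      obtain ⟨a, ha, b, hb, hab, hab'⟩ := h3'.1.2
      refine ⟨a, ha, b, hb, ?_, hlt.trans hab'⟩
      by_contra h6
      have h7 := lt_of_le_of_ne (not_lt.1 h6) (Ne.symm (hne' a ha))
      exact absurd hab (not_lt.2 (hn a (h1' a ha) h7))
    have h6 := h3.2 q' h4
    have h7 := h3'.2 q h5
    have h8 := u_inj hx hy c (le_antisymm h6 h7)
    rw [h8] at hlt
    exact lt_irrefl _ hlt

/-- Large simple configurations have long proper pin sequences or long alternations. -/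
theorem pseq_or_alt [Fintype P] {x y : P → ℤ} (hx : Function.Injective x)
    (hy : Function.Injective y) (hs : SimpleConf x y) (K M : ℕ)
    (hn : 1 + ∑ j ∈ range K, (8 * M) ^ j < Fintype.card P) :
    (∃ p1 p2 l, PSeq x y p1 p2 l ∧ K ≤ l.length) ∨ ∃ c, Alt (v x y c) (outc x y c) M := by
  classical
  by_contra hcon
  push Not at hcon
  obtain ⟨h1, h2⟩ := hcon
  refine absurd (card_le_of_preds hx hy hs K (8 * M) h1 ?_) (not_le.2 hn)
  intro z
  by_contra hz
  rw [not_le] at hz
  have h3 : ∀ q, ∃ c, q ∈ preds x y z → Class x y z c q := by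
    intro q
    by_cases hq : q ∈ preds x y z
    · simp only [preds, Finset.mem_filter, Finset.mem_univ, true_and] at hq
      obtain ⟨p1, p2, l, hadj, h, hl0⟩ := hq
      obtain ⟨c, hc⟩ := exists_class hx hy hadj h hl0
      exact ⟨c, fun _ => hc⟩
    · exact ⟨(R, true), fun h => absurd h hq⟩
  choose f hf using h3
  obtain ⟨c, -, hc⟩ := Finset.exists_lt_card_fiber_of_mul_lt_card_of_maps_to
    (s := preds x y z) (t := (univ : Finset (Dir × Bool))) (f := f) (n := M)
    (fun q _ => Finset.mem_univ _) (by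
      have : (univ : Finset (Dir × Bool)).card = 8 := rfl
      rw [this]; exact hz)
  refine h2 c.1 (alt_of_sep (v_inj hx hy c.1) (outc x y c.1 z) _ M hc ?_ ?_)
  · intro q hq
    rw [Finset.mem_filter] at hq
    have h4 := hf q hq.1
    rw [hq.2] at h4
    obtain ⟨c, b⟩ := c
    cases b with
    | false => exact h4.2.choose_spec.2.1
    | true => exact h4.choose_spec.2.1
  · intro q hq q' hq' hlt
    rw [Finset.mem_filter] at hq hq'
    have h4 := hf q hq.1
    have h4' := hf q' hq'.1
    rw [hq.2] at h4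
    rw [hq'.2] at h4'
    exact class_sep hx hy h4 h4' hlt

end Pool.Agent.Work.MP_080fe7_co
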