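import Pool.Agent.Work.MP_080fe7_co.Structure2

/-!
# From alternations to parallel alternations and simple wedges; the structure theorem
-/

set_option linter.unusedSectionVars false
set_option linter.unusedVariables false

open Finset

namespace Pool.Agent.Work.MP_080fe7_co

open Dir

variable {P : Type*}

/-- Erdős–Szekeres, in a weak form -/
theorem mono_sub (f : ℕ → ℤ) : ∀ (n r s : ℕ) (A : Finset ℕ), r + s = n → Set.InjOn f A →
    2 ^ n ≤ A.card → ∃ B, B ⊆ A ∧
      ((B.card = r ∧ ∀ i ∈ B, ∀ j ∈ B, i < j → f i < f j) ∨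
       (B.card = s ∧ ∀ i ∈ B, ∀ j ∈ B, i < j → f j < f i)) := by
  classical
  intro n
  induction n with
  | zero =>
    intro r s A h _ _
    exact ⟨∅, Finset.empty_subset _, Or.inl ⟨by simp; omega, by simp⟩⟩
  | succ n ih =>
    intro r s A h hf hA
    rcases r with _ | r
    · exact ⟨∅, Finset.empty_subset _, Or.inl ⟨by simp, by simp⟩⟩
    rcases s with _ | s
    · exact ⟨∅, Finset.empty_subset _, Or.inr ⟨by simp, by simp⟩⟩
    have hpos : 0 < 2 ^ (n + 1) := by positivity
    have hne : A.Nonempty := Finset.card_pos.1 (by omega)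
    let m := A.min' hne
    have hm : m ∈ A := Finset.min'_mem _ _
    let A1 := A.filter (fun i => m < i ∧ f m < f i)
    let A2 := A.filter (fun i => m < i ∧ f i < f m)
    have hcov : A ⊆ insert m (A1 ∪ A2) := by
      intro i hi
      rw [Finset.mem_insert, Finset.mem_union]
      by_cases him : i = m
      · exact Or.inl him
      · right
        have h1 : m < i := lt_of_le_of_ne (Finset.min'_le _ _ hi) (Ne.symm him)
        rcases lt_trichotomy (f m) (f i) with h2 | h2 | h2
        · exact Or.inl (Finset.mem_filter.2 ⟨hi, h1, h2⟩)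
        · exact absurd (hf hm hi h2).symm him
        · exact Or.inr (Finset.mem_filter.2 ⟨hi, h1, h2⟩)
    have hc1 : A.card ≤ A1.card + A2.card + 1 := by
      calc A.card ≤ (insert m (A1 ∪ A2)).card := Finset.card_le_card hcov
        _ ≤ (A1 ∪ A2).card + 1 := Finset.card_insert_le _ _
        _ ≤ A1.card + A2.card + 1 := by
          have := Finset.card_union_le A1 A2
          omega
    have hor : 2 ^ n ≤ A1.card ∨ 2 ^ n ≤ A2.card := by
      by_contra hcon
      push Not at hcon
      rw [pow_succ] at hA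
      omega
    rcases hor with h1 | h1
    · obtain ⟨B, hB, hB'⟩ := ih r (s + 1) A1 (by omega) (hf.mono (by
        intro i hi; exact (Finset.mem_filter.1 hi).1)) h1
      have hBA : B ⊆ A := hB.trans (Finset.filter_subset _ _)
      rcases hB' with ⟨h2, h3⟩ | h2
      · have hmB : m ∉ B := fun h => lt_irrefl _ (Finset.mem_filter.1 (hB h)).2.1
        refine ⟨insert m B, Finset.insert_subset hm hBA, Or.inl ⟨by
          rw [Finset.card_insert_of_notMem hmB, h2], ?_⟩⟩
        intro i hi j hj hij
        rw [Finset.mem_insert] at hi hj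
        rcases hi with rfl | hi <;> rcases hj with rfl | hj
        · exact absurd hij (lt_irrefl _)
        · exact (Finset.mem_filter.1 (hB hj)).2.2
        · exact absurd hij (lt_asymm (Finset.mem_filter.1 (hB hi)).2.1)
        · exact h3 i hi j hj hij
      · exact ⟨B, hBA, Or.inr h2⟩
    · obtain ⟨B, hB, hB'⟩ := ih (r + 1) s A2 (by omega) (hf.mono (by
        intro i hi; exact (Finset.mem_filter.1 hi).1)) h1
      have hBA : B ⊆ A := hB.trans (Finset.filter_subset _ _)
      rcases hB' with h2 | ⟨h2, h3⟩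
      · exact ⟨B, hBA, Or.inl h2⟩
      · have hmB : m ∉ B := fun h => lt_irrefl _ (Finset.mem_filter.1 (hB h)).2.1
        refine ⟨insert m B, Finset.insert_subset hm hBA, Or.inr ⟨by
          rw [Finset.card_insert_of_notMem hmB, h2], ?_⟩⟩
        intro i hi j hj hij
        rw [Finset.mem_insert] at hi hj
        rcases hi with rfl | hi <;> rcases hj with rfl | hj
        · exact absurd hij (lt_irrefl _)
        · exact (Finset.mem_filter.1 (hB hj)).2.2
        · exact absurd hij (lt_asymm (Finset.mem_filter.1 (hB hi)).2.1)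
        · exact h3 i hi j hj hij

/-- order of a value: increasing or decreasing -/
def Ord (s : Bool) (a b : ℤ) : Prop := if s then a < b else b < a

/-- An alternation with monotone rows. -/
structure MAlt (X Y : P → ℤ) (a b : ℕ → P) (m : ℕ) (sa sb : Bool) : Prop where
  ab : ∀ i, i < m → X (a i) < X (b i)
  ba : ∀ i j, i < j → j < m → X (b i) < X (a j)
  sep : ∀ i j, i < m → j < m → Y (b i) < Y (a j)
  oa : ∀ i j, i < j → j < m → Ord sa (Y (a i)) (Y (a j))
  ob : ∀ i j, i < j → j < m → Ord sb (Y (b i)) (Y (b j))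

theorem Alt.ba' {X : P → ℤ} {M : ℕ} {a b : ℕ → P} (h1 : ∀ i, i < M → X (a i) < X (b i))
    (h2 : ∀ i, i + 1 < M → X (b i) < X (a (i + 1))) : ∀ i j, i < j → j < M →
      X (b i) < X (a j) := by
  intro i j hij hj
  induction j with
  | zero => omega
  | succ j ih =>
    by_cases h : i = j
    · subst h; exact h2 i hj
    · have h3 := ih (by omega) (by omega)
      have h4 := h1 j (by omega)
      have h5 := h2 j hj
      omega

theorem exists_enum (B : Finset ℕ) : ∃ φ : ℕ → ℕ, (∀ i, i < B.card → φ i ∈ B) ∧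
    ∀ i j, i < j → j < B.card → φ i < φ j := by
  refine ⟨fun i => if h : i < B.card then B.orderEmbOfFin rfl ⟨i, h⟩ else 0, ?_, ?_⟩
  · intro i hi
    simp only [hi, dite_true]
    exact Finset.orderEmbOfFin_mem _ _ _
  · intro i j hij hj
    have hi : i < B.card := by omega
    simp only [hi, hj, dite_true]
    exact (B.orderEmbOfFin rfl).strictMono (by simpa using hij)

theorem exists_malt {X Y : P → ℤ} (hY : Function.Injective Y) (m : ℕ)
    (h : Alt X Y (2 ^ (2 ^ (m + m) + 2 ^ (m + m)))) : ∃ a b sa sb, MAlt X Y a b m sa sb := by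
  obtain ⟨a, b, h1, h2, h3⟩ := h
  obtain ⟨M, hM⟩ : ∃ M, M = 2 ^ (2 ^ (m + m) + 2 ^ (m + m)) := ⟨_, rfl⟩
  rw [← hM] at h1 h2 h3
  have hba := Alt.ba' h1 h2
  have ha_inj : ∀ i j, i < j → j < M → a i ≠ a j := by
    intro i j hij hj h
    have h4 := hba i j hij hj
    have h5 := h1 i (by omega)
    rw [← h] at h4
    omega
  have hb_inj : ∀ i j, i < j → j < M → b i ≠ b j := by
    intro i j hij hj h
    have h4 := hba i j hij hj
    have h5 := h1 j hj
    rw [← h] at h5
    omega
  have hfa : Set.InjOn (fun i => Y (a i)) (range M : Finset ℕ) := by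
    intro i hi j hj hij
    simp only [Finset.coe_range, Set.mem_Iio] at hi hj
    rcases lt_trichotomy i j with h | h | h
    · exact absurd (hY hij) (ha_inj i j h hj)
    · exact h
    · exact absurd (hY hij).symm (ha_inj j i h hi)
  have hfb : Set.InjOn (fun i => Y (b i)) (range M : Finset ℕ) := by
    intro i hi j hj hij
    simp only [Finset.coe_range, Set.mem_Iio] at hi hj
    rcases lt_trichotomy i j with h | h | h
    · exact absurd (hY hij) (hb_inj i j h hj)
    · exact h
    · exact absurd (hY hij).symm (hb_inj j i h hi)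
  obtain ⟨B1, hB1, hB1c, sa, hsa⟩ : ∃ B1 : Finset ℕ, B1 ⊆ range M ∧ B1.card = 2 ^ (m + m) ∧
      ∃ sa, ∀ i ∈ B1, ∀ j ∈ B1, i < j → Ord sa (Y (a i)) (Y (a j)) := by
    obtain ⟨B, hB, h4 | h4⟩ := mono_sub (fun i => Y (a i)) _ (2 ^ (m + m)) (2 ^ (m + m)) (range M)
      rfl hfa (by rw [Finset.card_range, hM])
    · exact ⟨B, hB, h4.1, true, by simpa [Ord] using h4.2⟩
    · exact ⟨B, hB, h4.1, false, by simpa [Ord] using h4.2⟩
  obtain ⟨B2, hB2, hB2c, sb, hsb⟩ : ∃ B2 : Finset ℕ, B2 ⊆ B1 ∧ B2.card = m ∧
      ∃ sb, ∀ i ∈ B2, ∀ j ∈ B2, i < j → Ord sb (Y (b i)) (Y (b j)) := by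
    obtain ⟨B, hB, h4 | h4⟩ := mono_sub (fun i => Y (b i)) _ m m B1 rfl
      (hfb.mono (by exact_mod_cast hB1)) (by rw [hB1c])
    · exact ⟨B, hB, h4.1, true, by simpa [Ord] using h4.2⟩
    · exact ⟨B, hB, h4.1, false, by simpa [Ord] using h4.2⟩
  obtain ⟨φ, hφ1, hφ2⟩ := exists_enum B2
  rw [hB2c] at hφ1 hφ2
  have hφ3 : ∀ i, i < m → φ i < M := fun i hi => Finset.mem_range.1 (hB1 (hB2 (hφ1 i hi)))
  refine ⟨fun i => a (φ i), fun i => b (φ i), sa, sb, ?_, ?_, ?_, ?_, ?_⟩
  · exact fun i hi => h1 _ (hφ3 i hi)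
  · exact fun i j hij hj => hba _ _ (hφ2 i j hij hj) (hφ3 j hj)
  · exact fun i j hi hj => h3 _ (hφ3 i hi) _ (hφ3 j hj)
  · exact fun i j hij hj => hsa _ (hB2 (hφ1 i (by omega))) _ (hB2 (hφ1 j hj)) (hφ2 i j hij hj)
  · exact fun i j hij hj => hsb _ (hφ1 i (by omega)) _ (hφ1 j hj) (hφ2 i j hij hj)

theorem Ord.not {s : Bool} {a b : ℤ} (h : Ord s a b) : Ord (!s) b a := by
  cases s <;> simpa [Ord] using h

theorem MAlt.reverse {X Y : P → ℤ} {a b : ℕ → P} {m : ℕ} {sa sb : Bool}
    (h : MAlt X Y a b (m + 1) sa sb) :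
    MAlt (fun p => - X p) Y (fun i => a (m - i)) (fun i => b (m - 1 - i)) m (!sa) (!sb) := by
  have hab : ∀ i j, i ≤ j → j < m + 1 → X (a i) < X (b j) := by
    intro i j hij hj
    rcases Nat.lt_or_ge i j with h1 | h1
    · have h2 := h.ab i (by omega)
      have h3 := h.ba i j h1 hj
      have h4 := h.ab j hj
      omega
    · have : i = j := by omega
      subst this
      exact h.ab i hj
  constructor
  · intro i hi
    exact neg_lt_neg (h.ba _ _ (by omega) (by omega))
  · intro i j hij hj
    exact neg_lt_neg (hab _ _ (by omega) (by omega))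
  · intro i j hi hj
    exact h.sep _ _ (by omega) (by omega)
  · intro i j hij hj
    exact (h.oa _ _ (by omega) (by omega)).not
  · intro i j hij hj
    exact (h.ob _ _ (by omega) (by omega)).not

theorem MAlt.mono {X Y : P → ℤ} {a b : ℕ → P} {m m' : ℕ} {sa sb : Bool}
    (h : MAlt X Y a b m sa sb) (hm : m' ≤ m) : MAlt X Y a b m' sa sb :=
  ⟨fun i hi => h.ab i (by omega), fun i j hij hj => h.ba i j hij (by omega),
    fun i j hi hj => h.sep i j (by omega) (by omega), fun i j hij hj => h.oa i j hij (by omega),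
    fun i j hij hj => h.ob i j hij (by omega)⟩

theorem MAlt.par {X Y : P → ℤ} {a b : ℕ → P} {m : ℕ}
    (h : MAlt X Y a b m true true) : Par X Y m := by
  refine ⟨a, b, h.ab, fun i hi => ⟨h.ba i (i + 1) (by omega) hi, ?_, ?_⟩, h.sep⟩
  · simpa [Ord] using h.oa i (i + 1) (by omega) hi
  · simpa [Ord] using h.ob i (i + 1) (by omega) hi

theorem MAlt.wedge {X Y : P → ℤ} {a b : ℕ → P} {m : ℕ}
    (h : MAlt X Y a b m true false) : ∃ w, Wedge X Y w (2 * m) := by
  have hab : ∀ i j, i ≤ j → j < m → X (a i) < X (b j) := by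
    intro i j hij hj
    rcases Nat.lt_or_ge i j with h1 | h1
    · have h2 := h.ab i (by omega)
      have h3 := h.ba i j h1 hj
      have h4 := h.ab j hj
      omega
    · have : i = j := by omega
      subst this
      exact h.ab i hj
  refine ⟨fun k => if k % 2 = 0 then a (k / 2) else b (k / 2), ?_⟩
  intro i j hij hj
  have ho1 : ∀ i j, i < j → j < m → Y (a i) < Y (a j) := fun i j hij hj => by
    simpa [Ord] using h.oa i j hij hj
  have ho2 : ∀ i j, i < j → j < m → Y (b j) < Y (b i) := fun i j hij hj => by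
    simpa [Ord] using h.ob i j hij hj
  rcases Nat.mod_two_eq_zero_or_one i with hi2 | hi2 <;>
    rcases Nat.mod_two_eq_zero_or_one j with hj2 | hj2 <;>
    simp only [hi2, hj2, if_true, one_ne_zero, if_false]
  · refine ⟨?_, fun _ => ho1 _ _ (by omega) (by omega), fun ho => ?_⟩
    · have h1 := hab (i / 2) (i / 2) le_rfl (by omega)
      have h2 := h.ba (i / 2) (j / 2) (by omega) (by omega)
      omega
    · rw [Nat.odd_iff] at ho; omega
  · refine ⟨hab _ _ (by omega) (by omega), fun he => ?_, fun _ => h.sep _ _ (by omega) (by omega)⟩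
    rw [Nat.even_iff] at he; omega
  · refine ⟨h.ba _ _ (by omega) (by omega), fun _ => h.sep _ _ (by omega) (by omega),
      fun ho => ?_⟩
    rw [Nat.odd_iff] at ho; omega
  · refine ⟨?_, fun he => ?_, fun _ => ho2 _ _ (by omega) (by omega)⟩
    · have h1 := hab (j / 2) (j / 2) le_rfl (by omega)
      have h2 := h.ba (i / 2) (j / 2) (by omega) (by omega)
      omega
    · rw [Nat.even_iff] at he; omega

/-- A long alternation contains a long parallel alternation or a long wedge. -/
theorem par_or_wedge {X Y : P → ℤ} (hY : Function.Injective Y) (m : ℕ)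
    (h : Alt X Y (2 ^ (2 ^ (m + 1 + (m + 1)) + 2 ^ (m + 1 + (m + 1))))) :
    (Par X Y m ∨ ∃ w, Wedge X Y w (2 * m)) ∨
    (Par (fun p => - X p) Y m ∨ ∃ w, Wedge (fun p => - X p) Y w (2 * m)) := by
  obtain ⟨a, b, sa, sb, h⟩ := exists_malt hY (m + 1) h
  cases sa <;> cases sb
  · right; left
    have := h.reverse
    exact this.par
  · right; right
    have := h.reverse
    exact this.wedge
  · left; right
    exact (h.mono (Nat.le_succ m)).wedge
  · left; left
    exact (h.mono (Nat.le_succ m)).par

/-- all wedge points from index `j` on are outside of the box of `l` -/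
def Ext (x y : P → ℤ) (w : ℕ → P) (N : ℕ) (l : List P) (j : ℕ) : Prop :=
  ∀ s ∈ l, ∀ i, j ≤ i → i < N → x s < x (w i) ∧ (Even i → y s < y (w i)) ∧
    (Odd i → y (w i) < y s)

/-- a pin that skips many wedge points yields a simple wedge -/
theorem jump {x y : P → ℤ} {w : ℕ → P} {N : ℕ} (hw : Wedge x y w N) (m : ℕ) {l : List P}
    {q : P} {d : Dir} {i j : ℕ} (hE : Ext x y w N l j) (hpin : IsPin x y d l q)
    (hij : j + m + 2 ≤ i) (hi : i < N)
    (hq : ¬ (x q < x (w i) ∧ (Even i → y q < y (w i)) ∧ (Odd i → y (w i) < y q))) :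
    T1 x y m ∨ T2 x y m ∨ T2 x (fun p => - y p) m := by
  -- an even index and an odd index among j, j+1
  obtain ⟨j0, hj0, hj0', hj0e⟩ : ∃ j0, j ≤ j0 ∧ j0 ≤ j + 1 ∧ Even j0 := by
    rcases Nat.even_or_odd j with h | h
    · exact ⟨j, le_rfl, by omega, h⟩
    · exact ⟨j + 1, by omega, le_rfl, h.add_one⟩
  obtain ⟨j1, hj1, hj1', hj1o⟩ : ∃ j1, j ≤ j1 ∧ j1 ≤ j + 1 ∧ Odd j1 := by
    rcases Nat.even_or_odd j with h | h
    · exact ⟨j + 1, by omega, le_rfl, h.add_one⟩
    · exact ⟨j, le_rfl, by omega, h⟩
  have hwe : Wedge x y (fun k => w (j0 + k)) m := by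
    intro k k' hk hk'
    obtain ⟨h1, h2, h3⟩ := hw (j0 + k) (j0 + k') (by omega) (by omega)
    exact ⟨h1, fun he => h2 (hj0e.add he), fun ho => h3 (hj0e.add_odd ho)⟩
  have hwo : Wedge x (fun p => - y p) (fun k => w (j1 + k)) m := by
    intro k k' hk hk'
    obtain ⟨h1, h2, h3⟩ := hw (j1 + k) (j1 + k') (by omega) (by omega)
    exact ⟨h1, fun he => neg_lt_neg (h3 (hj1o.add_even he)),
      fun ho => neg_lt_neg (h2 (hj1o.add_odd ho))⟩
  by_cases hA : x q < x (w i)
  · by_cases hB : Even i ∧ y (w i) ≤ y q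
    · -- a pin upwards
      right; right
      have hd : d = U := dir_eq (c := U) (fun s hs =>
        lt_of_lt_of_le ((hE s hs i (by omega) hi).2.1 hB.1) hB.2) hpin
      subst hd
      obtain ⟨hext, a, ha, b, hb, hab, hab'⟩ := hpin
      refine ⟨fun k => w (j1 + k), a, q, hwo, hab, neg_lt_neg (hext a ha), ?_⟩
      intro k hk
      have hk1 := hE a ha (j1 + k) (by omega) (by omega)
      have hk2 := hE b hb (j1 + k) (by omega) (by omega)
      refine ⟨hab'.trans hk2.1, ?_, ?_, ?_⟩
      · exact neg_lt_neg (lt_of_lt_of_le ((hw (j1 + k) i (by omega) hi).2.1 hB.1) hB.2)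
      · exact fun he => neg_lt_neg (hk1.2.2 (hj1o.add_even he))
      · exact fun ho => neg_lt_neg (hk1.2.1 (hj1o.add_odd ho))
    · have hC : Odd i ∧ y q ≤ y (w i) := by
        by_contra hC
        apply hq
        refine ⟨hA, fun he => ?_, fun ho => ?_⟩
        · by_contra h
          exact hB ⟨he, not_lt.1 h⟩
        · by_contra h
          exact hC ⟨ho, not_lt.1 h⟩
      -- a pin downwards
      right; left
      have hd : d = D := dir_eq (c := D) (fun s hs =>
        neg_lt_neg (lt_of_le_of_lt hC.2 ((hE s hs i (by omega) hi).2.2 hC.1))) hpin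
      subst hd
      obtain ⟨hext, a, ha, b, hb, hab, hab'⟩ := hpin
      have hext' : y q < y a := by
        have := hext a ha
        simpa [outc] using this
      refine ⟨fun k => w (j0 + k), a, q, hwe, hab, hext', ?_⟩
      intro k hk
      have hk1 := hE a ha (j0 + k) (by omega) (by omega)
      have hk2 := hE b hb (j0 + k) (by omega) (by omega)
      refine ⟨hab'.trans hk2.1, ?_, ?_, ?_⟩
      · exact lt_of_le_of_lt hC.2 ((hw (j0 + k) i (by omega) hi).2.2 hC.1)
      · exact fun he => hk1.2.1 (hj0e.add he)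
      · exact fun ho => hk1.2.2 (hj0e.add_odd ho)
  · -- a pin to the right
    left
    have hA' := not_lt.1 hA
    have hd : d = R := dir_eq (c := R) (fun s hs =>
      lt_of_lt_of_le (hE s hs i (by omega) hi).1 hA') hpin
    subst hd
    obtain ⟨hext, a, ha, b, hb, hab, hab'⟩ := hpin
    refine ⟨fun k => w (j0 + k), q, hwe, ?_⟩
    intro k hk
    have hk1 := hE a ha (j0 + k) (by omega) (by omega)
    have hk2 := hE b hb (j0 + k) (by omega) (by omega)
    refine ⟨lt_of_lt_of_le (hw (j0 + k) i (by omega) hi).1 hA', ?_, ?_⟩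
    · exact fun he => hab'.trans (hk2.2.1 (hj0e.add he))
    · exact fun ho => lt_trans (hk1.2.2 (hj0e.add_odd ho)) hab

/-- From a long wedge in a simple configuration. -/
theorem wedge_pins [Fintype P] {x y : P → ℤ} (hx : Function.Injective x)
    (hy : Function.Injective y) (hs : SimpleConf x y) (K m N : ℕ) {w : ℕ → P}
    (hw : Wedge x y w N) (hN : 2 + (m + 2) * K < N) :
    (∃ p1 p2 l, PSeq x y p1 p2 l ∧ K ≤ l.length) ∨ T1 x y m ∨ T2 x y m ∨
      T2 x (fun p => - y p) m := by
  by_contra hcon
  rw [not_or] at hcon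
  obtain ⟨hcon1, hcon2⟩ := hcon
  have h01 : x (w 0) < x (w 1) := (hw 0 1 (by omega) (by omega)).1
  have hne : w 0 ≠ w 1 := by
    intro h
    rw [h] at h01
    exact lt_irrefl _ h01
  obtain ⟨t, -, ht⟩ := Finset.exists_max_image (univ : Finset P) x ⟨w 0, Finset.mem_univ _⟩
  obtain ⟨l, hl⟩ := exists_PSeq hx hy hs hne R t (fun s => ht s (Finset.mem_univ s)) (by
    rintro rfl
    exact absurd (ht (w 1) (Finset.mem_univ _)) (not_le.2 h01))
  have hE : ∀ l, PSeq x y (w 0) (w 1) l → Ext x y w N l (2 + (m + 2) * (l.length - 2)) := by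
    intro l hl
    induction hl with
    | base =>
      intro s hs i hi hiN
      simp only [List.length_cons, List.length_nil] at hi
      simp only [List.mem_cons, List.not_mem_nil, or_false] at hs
      rcases hs with rfl | rfl
      · exact hw 1 i (by omega) hiN
      · exact hw 0 i (by omega) hiN
    | @pin l r q d h hm hc ih =>
      intro s hs i hi hiN
      have h2 := h.two_le
      simp only [List.length_cons] at hi h2
      have e1 : l.length + 1 + 1 - 2 = (l.length + 1 - 2) + 1 := by omega
      rw [e1, Nat.mul_add, Nat.mul_one] at hi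
      have hi2 : 2 + (m + 2) * (l.length + 1 - 2) + m + 2 ≤ i := by omega
      rcases List.mem_cons.1 hs with rfl | hs
      · by_contra hcq
        exact hcon2 (jump hw m ih hm.1 (by simpa using hi2) hiN hcq)
      · exact ih s hs i (by simp only [List.length_cons]; omega) hiN
  have h1 : (t :: l).length < K := by
    by_contra h
    exact hcon1 ⟨_, _, _, hl, not_lt.1 h⟩
  have h2 : (m + 2) * ((t :: l).length - 2) ≤ (m + 2) * K := Nat.mul_le_mul_left _ (by omega)
  have h3 := hE _ hl t (by simp) (2 + (m + 2) * ((t :: l).length - 2)) le_rfl (by omega)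
  exact absurd (ht (w _) (Finset.mem_univ _)) (not_le.2 h3.1)

theorem perp_pos (d : Dir) : Perp d d.pos := by cases d <;> simp [Perp, pos, hor]

theorem perp_neg (d : Dir) : Perp d d.neg := by cases d <;> simp [Perp, neg, hor]

theorem PSeq.toPins {x y : P → ℤ} (hx : Function.Injective x) (hy : Function.Injective y)
    {p1 p2 : P} {l : List P} (h : PSeq x y p1 p2 l) : ∀ n, l.length = n + 2 →
    ∃ (q : ℕ → P) (e : ℕ → Dir), (∀ r l0, l = r :: l0 → (∀ j, j < n → q j ∈ l) ∧
      (∀ j, j + 1 < n → q j ∈ l0) ∧ (1 ≤ n → r = q (n - 1) ∧ IsPin x y (e (n - 1)) l0 r)) ∧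
    ∀ k, 1 ≤ k → k < n →
      Perp (e k) (e (k - 1)) ∧
      (∀ j, j < k → outc x y (e k) (q j) < outc x y (e k) (q k)) ∧
      (∀ j, j + 1 < k → outc x y (e (k - 1)) (q j) < outc x y (e (k - 1)) (q k)) ∧
      outc x y (e (k - 1)) (q k) < outc x y (e (k - 1)) (q (k - 1)) := by
  induction h with
  | base =>
    intro n hn
    simp only [List.length_cons, List.length_nil] at hn
    have : n = 0 := by omega
    subst this
    refine ⟨fun _ => p1, fun _ => R, ?_, ?_⟩
    · intro r l0 _
      exact ⟨fun j hj => absurd hj (by omega), fun j hj => absurd hj (by omega),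
        fun hj => absurd hj (by omega)⟩
    · intro k h1 h2; omega
  | @pin l r z d h hm hc ih =>
    intro n hn
    simp only [List.length_cons] at hn
    have h2 := h.two_le
    simp only [List.length_cons] at h2
    obtain ⟨n, rfl⟩ : ∃ n', n = n' + 1 := ⟨n - 1, by omega⟩
    obtain ⟨q, e, hq1, hq2⟩ := ih n (by simp only [List.length_cons]; omega)
    obtain ⟨ha, hb, hc'⟩ := hq1 r l rfl
    refine ⟨fun k => if k = n then z else q k, fun k => if k = n then d else e k, ?_, ?_⟩
    · intro r' l' he
      simp only [List.cons.injEq] at he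
      obtain ⟨rfl, rfl⟩ := he
      refine ⟨?_, ?_, ?_⟩
      · intro j hj
        by_cases hjn : j = n
        · simp [hjn]
        · simp only [hjn, if_false]
          exact List.mem_cons_of_mem _ (ha j (by omega))
      · intro j hj
        have hjn : j ≠ n := by omega
        simp only [hjn, if_false]
        exact ha j (by omega)
      · intro _
        simp only [Nat.add_sub_cancel, if_true]
        exact ⟨trivial, hm.1⟩
    · intro k hk1 hkn
      by_cases hk : k = n
      · subst hk
        obtain ⟨hr, hpr⟩ := hc' hk1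
        have hne : ∀ s ∈ l, s ≠ z := by
          rintro s hs rfl
          exact lt_irrefl _ (hm.1.1 s (List.mem_cons_of_mem _ hs))
        obtain ⟨c, hcd, hc1, hc2⟩ : ∃ c, Perp d c ∧ outc x y c z < outc x y c r ∧
            ∀ s ∈ l, outc x y c s < outc x y c z := by
          rcases sep_of_cut hx hy hne hm.1.2 hc with ⟨h1, h2⟩ | ⟨h1, h2⟩
          · refine ⟨d.pos, perp_pos d, ?_, ?_⟩
            · rw [u_pos, u_pos]; exact h1
            · intro s hs; rw [u_pos, u_pos]; exact h2 s hs
          · refine ⟨d.neg, perp_neg d, ?_, ?_⟩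
            · rw [u_neg, u_neg]; exact neg_lt_neg h1
            · intro s hs; rw [u_neg, u_neg]; exact neg_lt_neg (h2 s hs)
        have hce : e (k - 1) = c := dir_eq (fun s hs => (hc2 s hs).trans hc1) hpr
        have hk1' : k - 1 ≠ k := by omega
        simp only [if_true, hk1', if_false]
        rw [hce]
        refine ⟨hcd, ?_, ?_, ?_⟩
        · intro j hj
          have hjk : j ≠ k := by omega
          simp only [hjk, if_false]
          exact hm.1.1 _ (ha j hj)
        · intro j hj
          have hjk : j ≠ k := by omega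
          simp only [hjk, if_false]
          exact hc2 _ (hb j hj)
        · rw [← hr]; exact hc1
      · have h3 := hq2 k hk1 (by omega)
        have hk1' : k - 1 ≠ n := by omega
        simp only [hk, hk1', if_false]
        refine ⟨h3.1, ?_, ?_, h3.2.2.2⟩
        · intro j hj
          have hjk : j ≠ n := by omega
          simp only [hjk, if_false]
          exact h3.2.1 j hj
        · intro j hj
          have hjk : j ≠ n := by omega
          simp only [hjk, if_false]
          exact h3.2.2.1 j hj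

theorem PSeq.pins {x y : P → ℤ} (hx : Function.Injective x) (hy : Function.Injective y)
    {p1 p2 : P} {l : List P} (h : PSeq x y p1 p2 l) {K : ℕ} (hK : K + 2 ≤ l.length) :
    Pins x y K := by
  obtain ⟨q, e, -, h1⟩ := h.toPins hx hy (l.length - 2) (by omega)
  exact ⟨q, e, fun k hk1 hk2 => h1 k hk1 (by omega)⟩

theorem Par.mono {X Y : P → ℤ} {m m' : ℕ} (h : Par X Y m) (hm : m' ≤ m) : Par X Y m' := by
  obtain ⟨a, b, h1, h2, h3⟩ := h
  exact ⟨a, b, fun i hi => h1 i (by omega), fun i hi => h2 i (by omega),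
    fun i j hi hj => h3 i j (by omega) (by omega)⟩

theorem SimpleConf.swap [Fintype P] {x y : P → ℤ} (h : SimpleConf x y) : SimpleConf y x := by
  intro S h1 h2
  obtain ⟨p, hp, a, ha, b, hb, hab⟩ := h S h1 h2
  exact ⟨p, hp, a, ha, b, hb, hab.symm⟩

theorem SimpleConf.negX [Fintype P] {x y : P → ℤ} (h : SimpleConf x y) :
    SimpleConf (fun p => - x p) y := by
  intro S h1 h2
  obtain ⟨p, hp, a, ha, b, hb, hab | hab⟩ := h S h1 h2
  · exact ⟨p, hp, b, hb, a, ha, Or.inl ⟨neg_lt_neg hab.2, neg_lt_neg hab.1⟩⟩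
  · exact ⟨p, hp, a, ha, b, hb, Or.inr hab⟩

theorem SimpleConf.negY [Fintype P] {x y : P → ℤ} (h : SimpleConf x y) :
    SimpleConf x (fun p => - y p) := h.swap.negX.swap

/-- coordinates attached to a direction and a sign are one of the eight symmetries -/
theorem exists_sym (x y : P → ℤ) (c : Dir) (b : Bool) : ∃ s : Bool × Bool × Bool,
    symX s x y = (fun p => if b then - v x y c p else v x y c p) ∧ symY s x y = outc x y c := by
  cases c <;> cases b
  · exact ⟨(true, false, false), by funext p; simp [symX, v], by funext p; simp [symY, outc]⟩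
  · exact ⟨(true, true, false), by funext p; simp [symX, v], by funext p; simp [symY, outc]⟩
  · exact ⟨(true, false, true), by funext p; simp [symX, v], by funext p; simp [symY, outc]⟩
  · exact ⟨(true, true, true), by funext p; simp [symX, v], by funext p; simp [symY, outc]⟩
  · exact ⟨(false, false, false), by funext p; simp [symX, v], by funext p; simp [symY, outc]⟩
  · exact ⟨(false, true, false), by funext p; simp [symX, v], by funext p; simp [symY, outc]⟩
  · exact ⟨(false, false, true), by funext p; simp [symX, v], by funext p; simp [symY, outc]⟩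
  · exact ⟨(false, true, true), by funext p; simp [symX, v], by funext p; simp [symY, outc]⟩

theorem sym_neg (x y : P → ℤ) (s : Bool × Bool × Bool) :
    symX (s.1, s.2.1, !s.2.2) x y = symX s x y ∧
    symY (s.1, s.2.1, !s.2.2) x y = fun p => - symY s x y p := by
  obtain ⟨s1, s2, s3⟩ := s
  refine ⟨rfl, ?_⟩
  funext p
  cases s1 <;> cases s3 <;> simp [symY]

theorem SimpleConf.sgnX [Fintype P] {x y : P → ℤ} (h : SimpleConf x y) (b : Bool) :
    SimpleConf (fun p => (if b = true then (-1) else 1) * x p) y := by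
  cases b
  · simpa using h
  · simpa using h.negX

theorem sym_simple [Fintype P] {x y : P → ℤ} (h : SimpleConf x y) (s : Bool × Bool × Bool) :
    SimpleConf (symX s x y) (symY s x y) := by
  obtain ⟨s1, s2, s3⟩ := s
  cases s1
  · exact (((h.sgnX s2).swap).sgnX s3).swap
  · exact (((h.swap.sgnX s2).swap).sgnX s3).swap

theorem symX_inj {x y : P → ℤ} (hx : Function.Injective x) (hy : Function.Injective y)
    (s : Bool × Bool × Bool) : Function.Injective (symX s x y) := by
  obtain ⟨s1, s2, s3⟩ := s
  intro a b h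
  cases s1 <;> cases s2 <;> simp [symX] at h
  · exact hx h
  · exact hx h
  · exact hy h
  · exact hy h

theorem symY_inj {x y : P → ℤ} (hx : Function.Injective x) (hy : Function.Injective y)
    (s : Bool × Bool × Bool) : Function.Injective (symY s x y) := by
  obtain ⟨s1, s2, s3⟩ := s
  intro a b h
  cases s1 <;> cases s3 <;> simp [symY] at h
  · exact hy h
  · exact hy h
  · exact hx h
  · exact hx h

/-- **The structure theorem**: large simple configurations contain, up to symmetry, long proper
pin sequences, long parallel alternations, or long simple wedges of type 1 or 2. -/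
theorem structure_thm (K : ℕ) : ∃ n₀ : ℕ, ∀ (P : Type) [Fintype P] (x y : P → ℤ),
    Function.Injective x → Function.Injective y → SimpleConf x y → n₀ ≤ Fintype.card P →
    ∃ s : Bool × Bool × Bool, Pins (symX s x y) (symY s x y) K ∨
      Par (symX s x y) (symY s x y) K ∨ T1 (symX s x y) (symY s x y) K ∨
      T2 (symX s x y) (symY s x y) K := by
  obtain ⟨m, hm⟩ : ∃ m, m = 3 + (K + 2) * (K + 2) := ⟨_, rfl⟩
  obtain ⟨M, hM⟩ : ∃ M, M = 2 ^ (2 ^ (m + 1 + (m + 1)) + 2 ^ (m + 1 + (m + 1))) := ⟨_, rfl⟩
  refine ⟨1 + ∑ j ∈ range (K + 2), (8 * M) ^ j + 1, ?_⟩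
  intro P _ x y hx hy hs hn
  have hKm : K ≤ m := by
    rw [hm]
    nlinarith
  rcases pseq_or_alt hx hy hs (K + 2) M (by omega) with ⟨p1, p2, l, hl, hlen⟩ | ⟨c, hc⟩
  · refine ⟨(false, false, false), Or.inl ?_⟩
    have e1 : symX (false, false, false) x y = x := by funext p; simp [symX]
    have e2 : symY (false, false, false) x y = y := by funext p; simp [symY]
    rw [e1, e2]
    exact hl.pins hx hy hlen
  · rw [hM] at hc
    -- the coordinates in which the configuration opens to the right
    obtain ⟨s, h1⟩ : ∃ s : Bool × Bool × Bool, Par (symX s x y) (symY s x y) m ∨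
        ∃ w, Wedge (symX s x y) (symY s x y) w (2 * m) := by
      rcases par_or_wedge (u_inj hx hy c) m hc with h1 | h1
      · obtain ⟨s, hs1, hs2⟩ := exists_sym x y c false
        refine ⟨s, ?_⟩
        rw [hs1, hs2]
        simpa using h1
      · obtain ⟨s, hs1, hs2⟩ := exists_sym x y c true
        refine ⟨s, ?_⟩
        rw [hs1, hs2]
        simpa using h1
    rcases h1 with h1 | ⟨w, hw⟩
    · exact ⟨s, Or.inr (Or.inl (h1.mono hKm))⟩
    · rcases wedge_pins (symX_inj hx hy s) (symY_inj hx hy s) (sym_simple hs s) (K + 2) K (2 * m)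
        hw (by omega) with ⟨p1, p2, l, hl, hlen⟩ | h2 | h2 | h2
      · exact ⟨s, Or.inl (hl.pins (symX_inj hx hy s) (symY_inj hx hy s) hlen)⟩
      · exact ⟨s, Or.inr (Or.inr (Or.inl h2))⟩
      · exact ⟨s, Or.inr (Or.inr (Or.inr h2))⟩
      · obtain ⟨e1, e2⟩ := sym_neg x y s
        refine ⟨(s.1, s.2.1, !s.2.2), Or.inr (Or.inr (Or.inr ?_))⟩
        rw [e1, e2]; exact h2

end Pool.Agent.Work.MP_080fe7_co
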