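import Mathlib

/-!
# Alternating sums over subwords of an alternating word
-/

open Finset

namespace Pool.Agent.Work.MP_080fe7_co.TOne

/-- signed sum over all subwords (with multiplicity): the sum of `(-1)^|T| Φ (w_T)` over all
sets `T` of positions of `w` -/
def altsum : List Bool → (List Bool → ℤ) → ℤ
  | [], Φ => Φ []
  | a :: w, Φ => altsum w Φ - altsum w (fun t => Φ (a :: t))

@[simp] theorem altsum_nil (Φ : List Bool → ℤ) : altsum [] Φ = Φ [] := rfl

theorem altsum_cons (a : Bool) (w : List Bool) (Φ : List Bool → ℤ) :
    altsum (a :: w) Φ = altsum w Φ - altsum w (fun t => Φ (a :: t)) := rfl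

/-- the alternating word of length `n` starting with `b` -/
def alt : Bool → ℕ → List Bool
  | _, 0 => []
  | b, n + 1 => b :: alt (!b) n

@[simp] theorem alt_zero (b : Bool) : alt b 0 = [] := rfl

theorem alt_succ (b : Bool) (n : ℕ) : alt b (n + 1) = b :: alt (!b) n := rfl

@[simp] theorem alt_length (b : Bool) (n : ℕ) : (alt b n).length = n := by
  induction n generalizing b with
  | zero => rfl
  | succ n ih => simp [alt_succ, ih]

theorem altsum_congr {w : List Bool} {Φ Ψ : List Bool → ℤ} (h : ∀ t, t.Sublist w → Φ t = Ψ t) :
    altsum w Φ = altsum w Ψ := by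
  induction w generalizing Φ Ψ with
  | nil => exact h [] (List.Sublist.refl _)
  | cons a w ih =>
    rw [altsum_cons, altsum_cons]
    rw [ih (fun t ht => h t (ht.cons a)), ih (fun t ht => h (a :: t) (ht.cons_cons a))]

theorem altsum_add (w : List Bool) (Φ Ψ : List Bool → ℤ) :
    altsum w (fun t => Φ t + Ψ t) = altsum w Φ + altsum w Ψ := by
  induction w generalizing Φ Ψ with
  | nil => rfl
  | cons a w ih => rw [altsum_cons, altsum_cons, altsum_cons, ih, ih]; ring

theorem altsum_sub (w : List Bool) (Φ Ψ : List Bool → ℤ) :
    altsum w (fun t => Φ t - Ψ t) = altsum w Φ - altsum w Ψ := by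
  induction w generalizing Φ Ψ with
  | nil => rfl
  | cons a w ih => rw [altsum_cons, altsum_cons, altsum_cons, ih, ih]; ring

theorem altsum_neg (w : List Bool) (Φ : List Bool → ℤ) :
    altsum w (fun t => - Φ t) = - altsum w Φ := by
  induction w generalizing Φ with
  | nil => rfl
  | cons a w ih => rw [altsum_cons, altsum_cons, ih, ih]; ring

theorem altsum_mul (w : List Bool) (c : ℤ) (Φ : List Bool → ℤ) :
    altsum w (fun t => c * Φ t) = c * altsum w Φ := by
  induction w generalizing Φ with
  | nil => rfl
  | cons a w ih => rw [altsum_cons, altsum_cons, ih, ih]; ring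

theorem altsum_zero (w : List Bool) : altsum w (fun _ => 0) = 0 := by
  induction w with
  | nil => rfl
  | cons a w ih => rw [altsum_cons, ih]; ring

theorem altsum_sum {κ : Type*} (w : List Bool) (s : Finset κ) (Φ : κ → List Bool → ℤ) :
    altsum w (fun t => ∑ i ∈ s, Φ i t) = ∑ i ∈ s, altsum w (Φ i) := by
  classical
  induction s using Finset.induction_on with
  | empty => simp [altsum_zero]
  | insert i s hi ih =>
    rw [Finset.sum_insert hi, ← ih, ← altsum_add]
    refine altsum_congr fun t _ => ?_
    rw [Finset.sum_insert hi]

theorem altsum_const (a : Bool) (w : List Bool) (c : ℤ) : altsum (a :: w) (fun _ => c) = 0 := by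
  rw [altsum_cons, sub_self]

/-- the alternating sum of the indicator of the empty word -/
theorem altsum_isNil (w : List Bool) : altsum w (fun t => if t = [] then 1 else 0) = 1 := by
  induction w with
  | nil => rfl
  | cons a w ih =>
    rw [altsum_cons, ih]
    have : altsum w (fun t => if a :: t = [] then 1 else 0) = 0 :=
      (altsum_congr fun t _ => by simp).trans (altsum_zero w)
    rw [this]; ring

/-- the alternating sum of the indicator of the words of length one -/
theorem altsum_length_one (w : List Bool) :
    altsum w (fun t => if t.length = 1 then 1 else 0) = - (w.length : ℤ) := by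
  induction w with
  | nil => rfl
  | cons a w ih =>
    rw [altsum_cons, ih]
    have : altsum w (fun t => if (a :: t).length = 1 then 1 else 0) = 1 :=
      (altsum_congr fun t _ => by simp [List.length_eq_zero_iff]).trans (altsum_isNil w)
    rw [this, List.length_cons]; push_cast; ring

theorem alt_ne_cons {b : Bool} {n : ℕ} {v : List Bool} : b :: v ≠ alt (!b) n := by
  cases n with
  | zero => simp
  | succ n =>
    rw [alt_succ]
    intro h
    have := (List.cons.inj h).1
    cases b <;> simp at this

/-- **Toggling.** -/
theorem toggling (v : List Bool) (b : Bool) (n : ℕ) :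
    altsum (alt b n) (fun t => if v.Sublist t then 1 else 0)
      = if v = alt b n then (-1) ^ n else 0 := by
  induction n generalizing b v with
  | zero => simp
  | succ n ih =>
    rw [alt_succ, altsum_cons, ih]
    cases v with
    | nil =>
      have h1 : altsum (alt (!b) n) (fun t => if ([] : List Bool).Sublist (b :: t) then 1 else 0)
          = altsum (alt (!b) n) (fun t => if ([] : List Bool).Sublist t then 1 else 0) :=
        altsum_congr fun t _ => by simp
      rw [h1, ih]; simp
    | cons c v =>
      by_cases hc : c = b
      · subst hc
        have h1 : altsum (alt (!c) n) (fun t => if (c :: v).Sublist (c :: t) then 1 else 0)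
            = altsum (alt (!c) n) (fun t => if v.Sublist t then 1 else 0) :=
          altsum_congr fun t _ => by simp
        rw [h1, ih, if_neg alt_ne_cons]
        by_cases hv : v = alt (!c) n
        · rw [if_pos hv, if_pos (by rw [hv])]; ring
        · rw [if_neg hv, if_neg (by intro h; exact hv (List.cons.inj h).2)]; ring
      · have h1 : altsum (alt (!b) n) (fun t => if (c :: v).Sublist (b :: t) then 1 else 0)
            = altsum (alt (!b) n) (fun t => if (c :: v).Sublist t then 1 else 0) := by
          refine altsum_congr fun t _ => ?_
          have : (c :: v).Sublist (b :: t) ↔ (c :: v).Sublist t := by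
            rw [List.sublist_cons_iff]
            constructor
            · rintro (h | ⟨r, h, -⟩)
              · exact h
              · exact absurd (List.cons.inj h).1 hc
            · exact Or.inl
          simp only [this]
        rw [h1, ih, sub_self, if_neg (by intro h; exact hc (List.cons.inj h).1)]

/-- **Inversion.** If `g` sums up to `G` over the distinct subwords of every subword `t` of an
alternating word `w`, then `g w` is an alternating sum of values of `G`. -/
theorem inversion (g G : List Bool → ℤ) (b : Bool) (n : ℕ)
    (h : ∀ t, t.Sublist (alt b n) → ∑ v ∈ t.sublists.toFinset, g v = G t) :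
    g (alt b n) = (-1) ^ n * altsum (alt b n) G := by
  have h1 : altsum (alt b n) G = altsum (alt b n) (fun t =>
      ∑ v ∈ (alt b n).sublists.toFinset, g v * (if v.Sublist t then 1 else 0)) := by
    refine altsum_congr fun t ht => ?_
    rw [← h t ht]
    have h2 : t.sublists.toFinset = (alt b n).sublists.toFinset.filter (fun v => v.Sublist t) := by
      ext v
      rw [Finset.mem_filter, List.mem_toFinset, List.mem_toFinset, List.mem_sublists,
        List.mem_sublists]
      exact ⟨fun h => ⟨h.trans ht, h⟩, fun h => h.2⟩
    rw [h2, Finset.sum_filter]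
    refine Finset.sum_congr rfl fun v _ => ?_
    split_ifs <;> simp
  rw [h1, altsum_sum]
  have h2 : ∀ v, altsum (alt b n) (fun t => g v * (if v.Sublist t then 1 else 0)) =
      if v = alt b n then g (alt b n) * (-1) ^ n else 0 := by
    intro v
    rw [altsum_mul, toggling]
    by_cases hv : v = alt b n
    · rw [if_pos hv, if_pos hv, hv]
    · rw [if_neg hv, if_neg hv, mul_zero]
  rw [Finset.sum_congr rfl (fun v _ => h2 v), Finset.sum_ite_eq', if_pos (by simp)]
  have h3 : ((-1 : ℤ) ^ n) * (-1) ^ n = 1 := by rw [← mul_pow]; norm_num
  rw [mul_left_comm, h3, mul_one]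

end Pool.Agent.Work.MP_080fe7_co.TOne
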