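import Pool.Agent.Work.MP_080fe7_co.OscSum
import Pool.Agent.Work.MP_080fe7_co.TOneWords

/-!
# Wedge patterns
-/

set_option linter.unusedSectionVars false
set_option linter.unusedVariables false

open Finset

namespace Pool.Agent.Work.MP_080fe7_co.TOne

open OscN

theorem sublist_of_map {v t : List Bool} (g : ℕ → ℕ)
    (h1 : ∀ i j, i < j → j < v.length → g i < g j)
    (h2 : ∀ i, i < v.length → t[g i]? = v[i]?) : v.Sublist t := by
  rw [List.sublist_iff_exists_fin_orderEmbedding_get_eq]
  have h3 : ∀ i, i < v.length → g i < t.length := by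
    intro i hi
    have h := h2 i hi
    rw [List.getElem?_eq_getElem hi] at h
    exact (List.getElem?_eq_some_iff.1 h).1
  refine ⟨OrderEmbedding.ofStrictMono (fun i : Fin v.length => ⟨g i, h3 i i.2⟩) ?_, ?_⟩
  · intro i j hij
    exact h1 i j hij j.2
  · intro i
    have h := h2 i i.2
    rw [List.getElem?_eq_getElem i.2, List.getElem?_eq_getElem (h3 i i.2)] at h
    exact (Option.some.inj h).symm

/-- horizontal coordinates -/
def wx (i : ℕ) : ℤ := i

theorem wx_lt {i j : ℕ} : wx i < wx j ↔ i < j := by
  unfold wx; omega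

theorem wx_inj : Function.Injective wx := by
  intro i j h
  unfold wx at h; omega

/-- the vertical coordinate of a letter at position `i` -/
def yl (o : Option Bool) (i : ℕ) : ℤ :=
  match o with
  | some true => (i : ℤ) + 1
  | some false => -((i : ℤ) + 1)
  | none => 0

/-- vertical coordinates of the wedge with word `t`; height zero past the end of the word -/
def wy (t : List Bool) (i : ℕ) : ℤ := yl t[i]? i

theorem wy_true {t : List Bool} {i : ℕ} (h : t[i]? = some true) : wy t i = (i : ℤ) + 1 := by
  unfold wy; rw [h]; rfl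

theorem wy_false {t : List Bool} {i : ℕ} (h : t[i]? = some false) : wy t i = -((i : ℤ) + 1) := by
  unfold wy; rw [h]; rfl

theorem wy_none {t : List Bool} {i : ℕ} (h : t[i]? = none) : wy t i = 0 := by
  unfold wy; rw [h]; rfl

theorem wy_end (t : List Bool) : wy t t.length = 0 := wy_none (by simp)

/-- the three possibilities for a letter -/
theorem letter (t : List Bool) (i : ℕ) : (t[i]? = some true ∧ wy t i = (i : ℤ) + 1) ∨
    (t[i]? = some false ∧ wy t i = -((i : ℤ) + 1)) ∨ (t[i]? = none ∧ wy t i = 0) := by
  rcases h : t[i]? with _ | b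
  · exact Or.inr (Or.inr ⟨rfl, wy_none h⟩)
  · cases b
    · exact Or.inr (Or.inl ⟨rfl, wy_false h⟩)
    · exact Or.inl ⟨rfl, wy_true h⟩

theorem letter' {t : List Bool} {i : ℕ} (hi : i < t.length) :
    (t[i]? = some true ∧ wy t i = (i : ℤ) + 1) ∨
    (t[i]? = some false ∧ wy t i = -((i : ℤ) + 1)) := by
  rcases letter t i with h | h | h
  · exact Or.inl h
  · exact Or.inr h
  · exact absurd h.1 (by rw [List.getElem?_eq_none_iff]; omega)

theorem wy_injOn (t : List Bool) : Set.InjOn (wy t) (range (t.length + 1) : Finset ℕ) := by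
  intro i hi j hj h
  rw [Finset.mem_coe, Finset.mem_range] at hi hj
  rcases letter t i with h1 | h1 | h1 <;> rcases letter t j with h2 | h2 | h2
  all_goals rw [h1.2, h2.2] at h
  all_goals first | omega | skip
  have h3 := List.getElem?_eq_none_iff.1 h1.1
  have h4 := List.getElem?_eq_none_iff.1 h2.1
  omega

/-- the wedge pattern with word `t` -/
noncomputable def V (t : List Bool) : Pat := pat wx (wy t) (range t.length)

theorem V_isPat (t : List Bool) : IsPat (V t) wx (wy t) (range t.length : Finset ℕ) :=
  pat_isPat wx_inj.injOn ((wy_injOn t).mono (by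
    intro i hi
    rw [Finset.mem_coe, Finset.mem_range] at hi ⊢
    omega))

@[simp] theorem V_n (t : List Bool) : (V t).n = t.length := by
  rw [(V_isPat t).card10]; simp

/-- an embedding of a pattern in a configuration with horizontal coordinates `wx`, as a map on
the natural numbers -/
theorem exists_map {τ : Pat} {N : ℕ} {y : ℕ → ℤ} (h : Has τ wx y (range N : Finset ℕ)) :
    ∃ g : ℕ → ℕ, (∀ i j, i < j → j < τ.n → g i < g j) ∧ (∀ i, i < τ.n → g i < N) ∧
      IsPat τ wx y ((range τ.n).image g : Finset ℕ) := by
  obtain ⟨e, h1, h2, h3⟩ := h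
  refine ⟨fun i => if h : i < τ.n then e ⟨i, h⟩ else 0, ?_, ?_, e, ?_, ?_, h2, h3⟩
  · intro i j hij hj
    have hi : i < τ.n := by omega
    simp only [hi, hj, dite_true]
    exact wx_lt.1 (h2 ⟨i, hi⟩ ⟨j, hj⟩ hij)
  · intro i hi
    simp only [hi, dite_true]
    have := h1 ⟨i, hi⟩
    rwa [Finset.mem_coe, Finset.mem_range] at this
  · intro i
    rw [Finset.mem_coe, Finset.mem_image]
    refine ⟨i, Finset.mem_range.2 i.2, ?_⟩
    simp
  · intro a ha
    rw [Finset.mem_coe, Finset.mem_image] at ha
    obtain ⟨i, hi, hia⟩ := ha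
    have hi' : i < τ.n := Finset.mem_range.1 hi
    simp only [hi', dite_true] at hia
    exact ⟨_, hia⟩

theorem yl_mono {o o' : Option Bool} {i j a b : ℕ} (hij : i < j → a < b) (hji : j < i → b < a)
    (hoo : i = j → o = o')
    (h : yl o i < yl o' j) : yl o a < yl o' b := by
  rcases lt_trichotomy i j with h1 | h1 | h1
  · have := hij h1
    rcases o with _ | o <;> rcases o' with _ | o'
    · exact h
    · cases o' <;> simp only [yl] at h ⊢ <;> omega
    · cases o <;> simp only [yl] at h ⊢ <;> omega
    · cases o <;> cases o' <;> simp only [yl] at h ⊢ <;> omega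
  · rw [hoo h1, h1] at h
    exact absurd h (lt_irrefl _)
  · have := hji h1
    rcases o with _ | o <;> rcases o' with _ | o'
    · exact h
    · cases o' <;> simp only [yl] at h ⊢ <;> omega
    · cases o <;> simp only [yl] at h ⊢ <;> omega
    · cases o <;> cases o' <;> simp only [yl] at h ⊢ <;> omega

/-- order preservation, all letters equal -/
theorem wy_mono {v t : List Bool} {g : ℕ → ℕ} {n : ℕ}
    (hg : ∀ i j, i < j → j < n → g i < g j) (hl : ∀ i, i < n → t[g i]? = v[i]?)
    {i j : ℕ} (hi : i < n) (hj : j < n) (h : wy v i < wy v j) : wy t (g i) < wy t (g j) := by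
  unfold wy at h ⊢
  rw [hl i hi, hl j hj]
  refine yl_mono (fun hij => hg i j hij hj) (fun hij => hg j i hij hi) (fun hij => by rw [hij]) h

/-- order preservation when the first letter is irrelevant -/
theorem wy_mono' {v t : List Bool} {g : ℕ → ℕ} {n : ℕ} (hn : n ≤ v.length)
    (hg : ∀ i j, i < j → j < n → g i < g j) (hl : ∀ i, 1 ≤ i → i < n → t[g i]? = v[i]?)
    {i j : ℕ} (hi : i < n) (hj : j < n) (h : wy v i < wy v j) : wy t (g i) < wy t (g j) := by
  rcases Nat.eq_zero_or_pos i with hi0 | hi0
  · subst hi0
    rcases Nat.eq_zero_or_pos j with hj0 | hj0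
    · subst hj0; exact absurd h (lt_irrefl _)
    · have h1 := hg 0 j hj0 hj
      have h2 := hl j hj0 hj
      have h3 := letter' (t := v) (i := 0) (by omega)
      have h4 := letter' (t := v) (i := j) (by omega)
      have h5 := letter t (g 0)
      rcases h4 with h4 | h4
      · rw [h4.1] at h2
        rw [wy_true h2]
        rcases h5 with h5 | h5 | h5 <;> rw [h5.2] <;> omega
      · rw [h4.2] at h
        rcases h3 with h3 | h3 <;> rw [h3.2] at h <;> push_cast at h <;> omega
  · rcases Nat.eq_zero_or_pos j with hj0 | hj0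
    · subst hj0
      have h1 := hg 0 i hi0 hi
      have h2 := hl i hi0 hi
      have h3 := letter' (t := v) (i := 0) (by omega)
      have h4 := letter' (t := v) (i := i) (by omega)
      have h5 := letter t (g 0)
      rcases h4 with h4 | h4
      · rw [h4.2] at h
        rcases h3 with h3 | h3 <;> rw [h3.2] at h <;> push_cast at h <;> omega
      · rw [h4.1] at h2
        rw [wy_false h2]
        rcases h5 with h5 | h5 | h5 <;> rw [h5.2] <;> omega
    · unfold wy at h ⊢
      rw [hl i hi0 hi, hl j hj0 hj]
      refine yl_mono (fun hij => hg i j hij hj) (fun hij => hg j i hij hi)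
        (fun hij => by rw [hij]) h

/-- reading off a letter of the target -/
theorem letter_of_lt {v t : List Bool} {g : ℕ → ℕ} {j : ℕ} (hj0 : 1 ≤ j) (hj : j < v.length)
    (hg : g 0 < g j) (hgt : g j < t.length) (h1 : wy v 0 < wy v j → wy t (g 0) < wy t (g j))
    (h2 : wy v j < wy v 0 → wy t (g j) < wy t (g 0)) : t[g j]? = v[j]? := by
  have h3 := letter' (t := v) (i := 0) (by omega)
  have h4 := letter' (t := t) (i := g 0) (by omega)
  rcases letter' hj with h5 | h5
  · have h6 := h1 (by
      rw [h5.2]
      rcases h3 with h3 | h3 <;> rw [h3.2] <;> push_cast <;> omega)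
    rcases letter' hgt with h7 | h7
    · rw [h7.1, h5.1]
    · exfalso
      rw [h7.2] at h6
      rcases h4 with h4 | h4 <;> rw [h4.2] at h6 <;> omega
  · have h6 := h2 (by
      rw [h5.2]
      rcases h3 with h3 | h3 <;> rw [h3.2] <;> push_cast <;> omega)
    rcases letter' hgt with h7 | h7
    · exfalso
      rw [h7.2] at h6
      rcases h4 with h4 | h4 <;> rw [h4.2] at h6 <;> omega
    · rw [h7.1, h5.1]

theorem V_le_V {v t : List Bool} : V v ≤ V t ↔ v = [] ∨ (t ≠ [] ∧ v.tail.Sublist t.tail) := by
  constructor
  · intro h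
    by_cases hv : v = []
    · exact Or.inl hv
    right
    have hvl : 0 < v.length := List.length_pos_iff.2 hv
    rw [(V_isPat t).le_iff, (V_isPat v).has_iff] at h
    obtain ⟨g, h1, h2, h3⟩ := h
    simp only [Finset.mem_coe, Finset.mem_range] at h1 h2 h3
    have ht : 0 < t.length := by
      have := h1 0 hvl
      omega
    refine ⟨List.length_pos_iff.1 ht, ?_⟩
    have hg : ∀ i j, i < j → j < v.length → g i < g j := by
      intro i j hij hj
      exact wx_lt.1 (h2 i (by omega) j hj (wx_lt.2 hij))
    refine sublist_of_map (fun i => g (i + 1) - 1) ?_ ?_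
    · intro i j hij hj
      rw [List.length_tail] at hj
      have e1 := hg 0 (i + 1) (by omega) (by omega)
      have e2 := hg (i + 1) (j + 1) (by omega) (by omega)
      omega
    · intro i hi
      rw [List.length_tail] at hi
      have e1 := hg 0 (i + 1) (by omega) (by omega)
      rw [List.getElem?_tail, List.getElem?_tail]
      have e2 : g (i + 1) - 1 + 1 = g (i + 1) := by omega
      rw [e2]
      exact letter_of_lt (by omega) (by omega) e1 (h1 _ (by omega))
        (fun h => h3 0 (by omega) (i + 1) (by omega) h)
        (fun h => h3 (i + 1) (by omega) 0 (by omega) h)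
  · rintro (h | ⟨ht, h⟩)
    · subst h
      exact le_of_n_zero (by simp)
    · have htl : 0 < t.length := List.length_pos_iff.2 ht
      obtain ⟨e, he⟩ := List.sublist_iff_exists_orderEmbedding_getElem?_eq.1 h
      let g : ℕ → ℕ := fun i => if i = 0 then 0 else e (i - 1) + 1
      have hg : ∀ i j, i < j → j < v.length → g i < g j := by
        intro i j hij hj
        simp only [g]
        have hj0 : j ≠ 0 := by omega
        rw [if_neg hj0]
        by_cases hi0 : i = 0
        · rw [if_pos hi0]; omega
        · rw [if_neg hi0]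
          have : e (i - 1) < e (j - 1) := e.strictMono (by omega)
          omega
      have hl : ∀ i, 1 ≤ i → i < v.length → t[g i]? = v[i]? := by
        intro i hi0 hi
        have e1 := he (i - 1)
        rw [List.getElem?_tail, List.getElem?_tail] at e1
        simp only [g]
        rw [if_neg (by omega), ← e1]
        congr 1; omega
      rw [(V_isPat t).le_iff]
      refine (V_isPat v).has.map g ?_ ?_ ?_
      · intro i hi
        rw [Finset.mem_coe, Finset.mem_range] at hi ⊢
        by_cases hi0 : i = 0
        · simp only [g, hi0, if_true]; exact htl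
        · have e1 := hl i (by omega) hi
          rw [List.getElem?_eq_getElem hi] at e1
          exact (List.getElem?_eq_some_iff.1 e1).1
      · intro i hi j hj hij
        rw [Finset.mem_coe, Finset.mem_range] at hi hj
        exact wx_lt.2 (hg i j (wx_lt.1 hij) hj)
      · intro i hi j hj hij
        rw [Finset.mem_coe, Finset.mem_range] at hi hj
        exact wy_mono' le_rfl hg hl hi hj hij

end Pool.Agent.Work.MP_080fe7_co.TOne
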